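import Mathlib

/-!
Definitions for polynomial skew products `(x, y) ↦ (p(x), q(x, y))` of the affine plane.

A polynomial `q : K[X][X]` stands for `q(x, y) = ∑_j q_j(x) y^j` with `q_j = q.coeff j`, and
`q.evalEval x y` (Mathlib) is its value `q(x, y)`.
-/

set_option autoImplicit false

namespace Pool.Agent.Lib.MP_9ec2c5_nt_h65

open Polynomial Finset

variable {K : Type} [Field K]

/-- The leading form of `q(x, y) = ∑ q_ij x^i y^j` for the slope `a / b`: the sum of the terms
`q_ij U^j` over the pairs `(i, j)` with `b i + a j = b m + a e`, where `e` is the degree of `q` in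
`y` and `m` is the degree of the coefficient of `y^e`. -/
noncomputable def leadForm (q : K[X][X]) (a : ℤ) (b : ℕ) : K[X] :=
  ∑ j ∈ range (q.natDegree + 1), monomial j
    (∑ i ∈ range ((q.coeff j).natDegree + 1),
      if (b * i + a * j : ℤ) = b * q.leadingCoeff.natDegree + a * q.natDegree
      then (q.coeff j).coeff i else 0)

/-- The genericity hypothesis on a polynomial skew product `(x, y) ↦ (p(x), q(x, y))` for the slope
`a / b`. With `e` the degree of `q` in `y` and `m` the degree of the coefficient of `y^e`:
the degree of `p` is at least one and less than `e`; for the weights `b` of `x` and `a` of `y` no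
term of `q` has weight larger than that of `x^m y^e`, which is larger than the weight `a * deg p`
of the leading term of the image of `y`; the leading form is separable. -/
structure Generic (p : K[X]) (q : K[X][X]) (a : ℤ) (b : ℕ) : Prop where
  hd : 1 ≤ p.natDegree
  hde : p.natDegree < q.natDegree
  hb : 1 ≤ b
  slope : ∀ j, q.coeff j ≠ 0 → (b * (q.coeff j).natDegree + a * j : ℤ)
    ≤ b * q.leadingCoeff.natDegree + a * q.natDegree
  gain : a * p.natDegree < b * q.leadingCoeff.natDegree + a * q.natDegree
  sep : (leadForm q a b).Separable

/-- The first coordinate of the `n`-th iterate of `(x, y) ↦ (p(x), q(x, y))`. -/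
noncomputable def iterX (p : K[X]) : ℕ → K[X]
  | 0 => X
  | n + 1 => p.comp (iterX p n)

/-- The second coordinate of the `n`-th iterate of `(x, y) ↦ (p(x), q(x, y))`: the polynomial
`q(P_n(x), G_n(x, y))`, where `(P_n, G_n)` is the previous iterate. -/
noncomputable def iterY (p : K[X]) (q : K[X][X]) : ℕ → K[X][X]
  | 0 => X
  | n + 1 => (q.map (compRingHom (iterX p n))).comp (iterY p q n)

/-- The total degree of a polynomial in two variables. -/
noncomputable def totDeg (G : K[X][X]) : ℕ := G.support.sup fun j => (G.coeff j).natDegree + j

/-- The degree of the `n`-th iterate of `(x, y) ↦ (p(x), q(x, y))`: the larger of the degrees of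
its two coordinates. -/
noncomputable def iterDeg (p : K[X]) (q : K[X][X]) (n : ℕ) : ℕ :=
  max (iterX p n).natDegree (totDeg (iterY p q n))

/-- One plus the absolute logarithmic Weil height of the point `[x : y : 1]` of the projective
plane. -/
noncomputable def weilHeight [NumberField K] (x y : K) : ℝ :=
  1 + Height.logHeight ![x, y, 1] / Module.finrank ℚ K

end Pool.Agent.Lib.MP_9ec2c5_nt_h65
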