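import Mathlib
import Pool.Agent.Lib.MP_9ec2c5_nt_h65.Defs

/-!
Degrees of the iterates of a polynomial skew product, and roots of exponential sequences.
-/

set_option autoImplicit false
set_option linter.unusedSectionVars false

namespace Pool.Agent.Lib.MP_9ec2c5_nt_h65

open Polynomial Finset Filter Topology

/-- a sequence between two multiples of `e ^ n` -/
lemma tendsto_root (e : ℕ) (he : 1 ≤ e) (f : ℕ → ℝ) (c M : ℝ) (hc : 0 < c)
    (h1 : ∀ᶠ n in atTop, c * (e : ℝ) ^ n ≤ f n) (h2 : ∀ᶠ n in atTop, f n ≤ M * (e : ℝ) ^ n) :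
    Tendsto (fun n : ℕ => f n ^ (1 / (n : ℝ))) atTop (𝓝 (e : ℝ)) := by
  have he0 : (0 : ℝ) < e := by exact_mod_cast he
  have hM : 0 < M := by
    obtain ⟨n, h3, h4⟩ := (h1.and h2).exists
    have h5 : (0 : ℝ) < (e : ℝ) ^ n := by positivity
    have h6 : c * (e : ℝ) ^ n ≤ M * (e : ℝ) ^ n := h3.trans h4
    have h7 := le_of_mul_le_mul_right h6 h5
    linarith
  have hlim : ∀ A : ℝ, 0 < A →
      Tendsto (fun n : ℕ => (A * (e : ℝ) ^ n) ^ (1 / (n : ℝ))) atTop (𝓝 (e : ℝ)) := by
    intro A hA
    have h3 : Tendsto (fun n : ℕ => A ^ (1 / (n : ℝ)) * (e : ℝ)) atTop (𝓝 (A ^ (0 : ℝ) * e)) := by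
      apply Tendsto.mul_const
      exact (Real.continuous_const_rpow hA.ne').continuousAt.tendsto.comp
        tendsto_one_div_atTop_nhds_zero_nat
    rw [Real.rpow_zero, one_mul] at h3
    refine h3.congr' ?_
    filter_upwards [eventually_ge_atTop 1] with n hn
    have hn0 : (n : ℝ) ≠ 0 := by exact_mod_cast (by omega : n ≠ 0)
    rw [Real.mul_rpow hA.le (by positivity), ← Real.rpow_natCast (e : ℝ) n,
      ← Real.rpow_mul he0.le, mul_one_div, div_self hn0, Real.rpow_one]
  refine tendsto_of_tendsto_of_tendsto_of_le_of_le' (hlim c hc) (hlim M hM) ?_ ?_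
  · filter_upwards [h1] with n hn
    exact Real.rpow_le_rpow (by positivity) hn (by positivity)
  · filter_upwards [h1, h2] with n hn1 hn2
    have : 0 ≤ f n := le_trans (by positivity) hn1
    exact Real.rpow_le_rpow this hn2 (by positivity)

variable {K : Type} [Field K]

lemma subst_eq (q : K[X][X]) (P : K[X]) (G : K[X][X]) :
    (q.map (compRingHom P)).comp G
      = ∑ j ∈ range (q.natDegree + 1), C ((q.coeff j).comp P) * G ^ j := by
  conv_lhs => rw [q.as_sum_range_C_mul_X_pow]
  rw [Polynomial.map_sum, Polynomial.sum_comp]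
  refine Finset.sum_congr rfl fun j _ => ?_
  rw [Polynomial.map_mul, map_C, Polynomial.map_pow, map_X, mul_comp, C_comp, pow_comp, X_comp]
  rfl

lemma iterX_eval (p : K[X]) (x : ℕ → K) (hx : ∀ n, x (n + 1) = p.eval (x n)) (n : ℕ) :
    (iterX p n).eval (x 0) = x n := by
  induction n with
  | zero => simp [iterX]
  | succ n ih => rw [iterX, eval_comp, ih, hx]

lemma iterY_eval (p : K[X]) (q : K[X][X]) (x y : ℕ → K) (hx : ∀ n, x (n + 1) = p.eval (x n))
    (hy : ∀ n, y (n + 1) = q.evalEval (x n) (y n)) (n : ℕ) :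
    (iterY p q n).evalEval (x 0) (y 0) = y n := by
  induction n with
  | zero => simp [iterY]
  | succ n ih =>
    rw [iterY, hy, ← ih, ← iterX_eval p x hx n]
    set G := iterY p q n
    set P := iterX p n
    have h1 : ((q.map (compRingHom P)).comp G).evalEval (x 0) (y 0)
        = ∑ j ∈ range (q.natDegree + 1), ((q.coeff j).comp P).eval (x 0)
          * (G.evalEval (x 0) (y 0)) ^ j := by
      rw [subst_eq, evalEval_finsetSum]
      refine Finset.sum_congr rfl fun j _ => ?_
      rw [evalEval_mul, evalEval_C, evalEval_pow]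
    have h2 : q.evalEval (P.eval (x 0)) (G.evalEval (x 0) (y 0))
        = ∑ j ∈ range (q.natDegree + 1), ((q.coeff j).comp P).eval (x 0)
          * (G.evalEval (x 0) (y 0)) ^ j := by
      conv_lhs => rw [q.as_sum_range_C_mul_X_pow]
      rw [evalEval_finsetSum]
      refine Finset.sum_congr rfl fun j _ => ?_
      rw [evalEval_mul, evalEval_C, evalEval_pow, evalEval_X, eval_comp]
    rw [h1, h2]

lemma natDegree_iterX (p : K[X]) (n : ℕ) : (iterX p n).natDegree = p.natDegree ^ n := by
  induction n with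
  | zero => rw [iterX, natDegree_X, pow_zero]
  | succ n ih => rw [iterX, natDegree_comp, ih, pow_succ, mul_comm]

lemma comp_injective (P : K[X]) (hP : 1 ≤ P.natDegree) : Function.Injective (compRingHom P) := by
  rw [injective_iff_map_eq_zero]
  intro g hg
  have h1 : g.comp P = 0 := hg
  rw [comp_eq_zero_iff] at h1
  rcases h1 with h1 | ⟨_, h1⟩
  · exact h1
  · rw [h1, natDegree_C] at hP
    omega

lemma natDegree_iterY (p : K[X]) (q : K[X][X]) (hd : 1 ≤ p.natDegree) (n : ℕ) :
    (iterY p q n).natDegree = q.natDegree ^ n := by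
  induction n with
  | zero => rw [iterY, natDegree_X, pow_zero]
  | succ n ih =>
    rw [iterY, natDegree_comp, ih, natDegree_map_eq_of_injective, pow_succ, mul_comm]
    apply comp_injective
    rw [natDegree_iterX]
    exact Nat.one_le_pow _ _ hd

/-- bound for the total degree -/
def TD (G : K[X][X]) (D : ℕ) : Prop := ∀ i j, (G.coeff j).coeff i ≠ 0 → i + j ≤ D

lemma TD.mono {G : K[X][X]} {D D' : ℕ} (h : TD G D) (hD : D ≤ D') : TD G D' :=
  fun i j hij => (h i j hij).trans hD

lemma TD.mul {G G' : K[X][X]} {D D' : ℕ} (h : TD G D) (h' : TD G' D') : TD (G * G') (D + D') := by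
  intro i j hij
  rw [coeff_mul, finsetSum_coeff] at hij
  obtain ⟨⟨j1, j2⟩, hj, h1⟩ := Finset.exists_ne_zero_of_sum_ne_zero hij
  rw [coeff_mul] at h1
  obtain ⟨⟨i1, i2⟩, hi, h2⟩ := Finset.exists_ne_zero_of_sum_ne_zero h1
  have h3 := h i1 j1 (left_ne_zero_of_mul h2)
  have h4 := h' i2 j2 (right_ne_zero_of_mul h2)
  rw [HasAntidiagonal.mem_antidiagonal] at hi hj
  simp only at hi hj
  omega

lemma TD.pow {G : K[X][X]} {D : ℕ} (h : TD G D) (n : ℕ) : TD (G ^ n) (n * D) := by
  induction n with
  | zero =>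
    intro i j hij
    rw [pow_zero, coeff_one] at hij
    split_ifs at hij with h1
    · rw [coeff_one] at hij
      split_ifs at hij with h2
      · omega
      · exact absurd rfl hij
    · exact absurd (coeff_zero _) hij
  | succ n ih =>
    rw [pow_succ]
    exact (ih.mul h).mono (by rw [Nat.succ_mul])

lemma TD.sum {ι : Type} (s : Finset ι) (G : ι → K[X][X]) (D : ℕ) (h : ∀ i ∈ s, TD (G i) D) :
    TD (∑ i ∈ s, G i) D := by
  intro i j hij
  rw [finsetSum_coeff, finsetSum_coeff] at hij
  obtain ⟨l, hl, h1⟩ := Finset.exists_ne_zero_of_sum_ne_zero hij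
  exact h l hl i j h1

lemma TD.C (g : K[X]) : TD (Polynomial.C g) g.natDegree := by
  intro i j hij
  rw [coeff_C] at hij
  split_ifs at hij with h1
  · have := le_natDegree_of_ne_zero hij
    omega
  · exact absurd (coeff_zero _) hij

lemma totDeg_le {G : K[X][X]} {D : ℕ} (h : TD G D) : totDeg G ≤ D := by
  rw [totDeg]
  refine Finset.sup_le fun j hj => ?_
  rw [mem_support_iff] at hj
  exact h _ j (by
    rw [coeff_natDegree]
    exact leadingCoeff_ne_zero.mpr hj)

lemma natDegree_le_totDeg (G : K[X][X]) : G.natDegree ≤ totDeg G := by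
  rcases eq_or_ne G 0 with rfl | hG
  · rw [natDegree_zero]
    exact Nat.zero_le _
  · have h1 : G.natDegree ∈ G.support := natDegree_mem_support_of_nonzero hG
    exact le_trans (Nat.le_add_left _ _)
      (Finset.le_sup (f := fun j => (G.coeff j).natDegree + j) h1)

lemma td_iterY (p : K[X]) (q : K[X][X]) (hde : p.natDegree < q.natDegree) (N : ℕ)
    (hN : ∀ j, (q.coeff j).natDegree ≤ N) (n : ℕ) :
    ∃ D : ℕ, TD (iterY p q n) D ∧ D + N * p.natDegree ^ n ≤ (1 + N) * q.natDegree ^ n := by
  induction n with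
  | zero =>
    refine ⟨1, ?_, by simp⟩
    intro i j hij
    rw [iterY, coeff_X] at hij
    split_ifs at hij with h1
    · rw [coeff_one] at hij
      split_ifs at hij with h2
      · omega
      · exact absurd rfl hij
    · exact absurd (coeff_zero _) hij
  | succ n ih =>
    obtain ⟨D, hD, h1⟩ := ih
    refine ⟨N * p.natDegree ^ n + q.natDegree * D, ?_, ?_⟩
    · have h2 : iterY p q (n + 1) = ∑ j ∈ range (q.natDegree + 1),
          Polynomial.C ((q.coeff j).comp (iterX p n)) * iterY p q n ^ j := by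
        rw [iterY, subst_eq]
      rw [h2]
      refine TD.sum _ _ _ fun j hj => ?_
      refine ((TD.C _).mul (hD.pow j)).mono ?_
      have h3 := Finset.mem_range.mp hj
      rw [natDegree_comp, natDegree_iterX]
      exact Nat.add_le_add (Nat.mul_le_mul_right _ (hN j)) (Nat.mul_le_mul_right _ (by omega))
    · set d := p.natDegree
      set e := q.natDegree
      have h3 : e * (D + N * d ^ n) ≤ e * ((1 + N) * e ^ n) := Nat.mul_le_mul_left _ h1
      have h4 : (d + 1) * (N * d ^ n) ≤ e * (N * d ^ n) := Nat.mul_le_mul_right _ hde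
      have h5 : N * d ^ n + N * d ^ (n + 1) ≤ e * (N * d ^ n) := by
        calc N * d ^ n + N * d ^ (n + 1) = (d + 1) * (N * d ^ n) := by ring
          _ ≤ _ := h4
      calc N * d ^ n + e * D + N * d ^ (n + 1) = (N * d ^ n + N * d ^ (n + 1)) + e * D := by ring
        _ ≤ e * (N * d ^ n) + e * D := by omega
        _ = e * (D + N * d ^ n) := by ring
        _ ≤ e * ((1 + N) * e ^ n) := h3
        _ = (1 + N) * e ^ (n + 1) := by ring

/-- The first dynamical degree of a polynomial skew product whose degree in the fibre is larger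
than its degree in the base. -/
theorem tendsto_iterDeg (p : K[X]) (q : K[X][X]) (hd : 1 ≤ p.natDegree)
    (hde : p.natDegree < q.natDegree) :
    Tendsto (fun n : ℕ => (iterDeg p q n : ℝ) ^ (1 / (n : ℝ))) atTop (𝓝 (q.natDegree : ℝ)) := by
  obtain ⟨N, hN⟩ : ∃ N : ℕ, ∀ j, (q.coeff j).natDegree ≤ N := by
    refine ⟨(range (q.natDegree + 1)).sup fun j => (q.coeff j).natDegree, fun j => ?_⟩
    rcases Nat.lt_or_ge q.natDegree j with h | h
    · rw [coeff_eq_zero_of_natDegree_lt h, natDegree_zero]
      exact Nat.zero_le _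
    · exact Finset.le_sup (f := fun j => (q.coeff j).natDegree)
        (Finset.mem_range.mpr (Nat.lt_succ_of_le h))
  refine tendsto_root q.natDegree (by omega) (fun n => (iterDeg p q n : ℝ)) 1 (1 + N) one_pos ?_ ?_
  · refine Eventually.of_forall fun n => ?_
    have h1 : q.natDegree ^ n ≤ iterDeg p q n := by
      rw [← natDegree_iterY p q hd n]
      exact (natDegree_le_totDeg _).trans (le_max_right _ _)
    rw [one_mul]
    exact_mod_cast h1
  · refine Eventually.of_forall fun n => ?_
    obtain ⟨D, hD, h1⟩ := td_iterY p q hde N hN n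
    have h2 : iterDeg p q n ≤ (1 + N) * q.natDegree ^ n := by
      refine max_le ?_ ?_
      · rw [natDegree_iterX]
        calc p.natDegree ^ n ≤ q.natDegree ^ n := Nat.pow_le_pow_left hde.le n
          _ ≤ (1 + N) * q.natDegree ^ n := Nat.le_mul_of_pos_left _ (by omega)
      · exact (totDeg_le hD).trans (by omega)
    exact_mod_cast h2

end Pool.Agent.Lib.MP_9ec2c5_nt_h65
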