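import Mathlib

/-!
Height inequalities for the values of a polynomial in two variables.
-/

set_option autoImplicit false
set_option linter.unusedSectionVars false

namespace Pool.Agent.Lib.MP_9ec2c5_nt_h65

open Polynomial Finset Height

section division

variable {K : Type} [Field K]

/-- pseudo-division -/
lemma pseudo_div (q : K[X][X]) (s : ℕ) : ∀ F : K[X][X],
    F.degree < (q.natDegree + s : ℕ) → ∃ A B : K[X][X],
      C (q.leadingCoeff ^ s) * F = A * q + B ∧ A.degree < (s : ℕ) ∧ B.degree < (q.natDegree : ℕ) := by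
  induction s with
  | zero =>
    intro F hF
    refine ⟨0, F, ?_, ?_, ?_⟩
    · rw [pow_zero, map_one, one_mul, zero_mul, zero_add]
    · rw [degree_zero]
      exact WithBot.bot_lt_coe _
    · exact hF
  | succ s ih =>
    intro F hF
    set c := F.coeff (q.natDegree + s) with hc
    have h1 : (C q.leadingCoeff * F - C c * X ^ s * q).degree
        < ((q.natDegree + s : ℕ) : WithBot ℕ) := by
      rw [degree_lt_iff_coeff_zero]
      intro m hm
      rw [coeff_sub, coeff_C_mul, mul_assoc, coeff_C_mul, coeff_X_pow_mul', if_pos (by omega)]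
      rcases Nat.lt_or_ge (q.natDegree + s) m with h2 | h2
      · rw [(degree_lt_iff_coeff_zero _ _).mp hF m (by omega),
          coeff_eq_zero_of_natDegree_lt (by omega : q.natDegree < m - s)]
        ring
      · have h3 : m = q.natDegree + s := by omega
        rw [h3, Nat.add_sub_cancel, ← hc]
        show q.leadingCoeff * c - c * q.leadingCoeff = 0
        ring
    obtain ⟨A, B, h2, h3, h4⟩ := ih _ h1
    refine ⟨A + C (q.leadingCoeff ^ s * c) * X ^ s, B, ?_, ?_, h4⟩
    · rw [pow_succ, map_mul, map_mul]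
      have h5 : C (q.leadingCoeff ^ s) * C q.leadingCoeff * F
          = C (q.leadingCoeff ^ s) * (C q.leadingCoeff * F - C c * X ^ s * q)
            + C (q.leadingCoeff ^ s) * (C c * X ^ s * q) := by ring
      rw [h5, h2]
      ring
    · rw [degree_lt_iff_coeff_zero]
      intro m hm
      rw [coeff_add, coeff_C_mul, coeff_X_pow, if_neg (by omega), mul_zero, add_zero]
      exact (degree_lt_iff_coeff_zero _ _).mp h3 m (by omega)

lemma evalEval_sum_fin (Q : K[X][X]) (e : ℕ) (h : Q.degree < (e : ℕ)) (x y : K) :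
    Q.evalEval x y = ∑ j : Fin e, (Q.coeff j).eval x * y ^ (j : ℕ) := by
  have h1 : Q.evalEval x y = ∑ j ∈ range (Q.natDegree + 1), (Q.coeff j).eval x * y ^ j := by
    conv_lhs => rw [Q.as_sum_range_C_mul_X_pow]
    rw [evalEval_finsetSum]
    refine Finset.sum_congr rfl fun j _ => ?_
    rw [evalEval_mul, evalEval_C, evalEval_pow, evalEval_X]
  have h2 : ∑ j ∈ range (Q.natDegree + 1), (Q.coeff j).eval x * y ^ j
      = ∑ j ∈ range (max e (Q.natDegree + 1)), (Q.coeff j).eval x * y ^ j := by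
    apply Finset.sum_subset
    · exact Finset.range_subset_range.mpr (le_max_right _ _)
    · intro j _ hj
      rw [Finset.mem_range, not_lt] at hj
      rw [coeff_eq_zero_of_natDegree_lt (by omega), eval_zero, zero_mul]
  have h3 : ∑ j ∈ range e, (Q.coeff j).eval x * y ^ j
      = ∑ j ∈ range (max e (Q.natDegree + 1)), (Q.coeff j).eval x * y ^ j := by
    apply Finset.sum_subset
    · exact Finset.range_subset_range.mpr (le_max_left _ _)
    · intro j _ hj
      rw [Finset.mem_range, not_lt] at hj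
      rw [(degree_lt_iff_coeff_zero _ _).mp h j hj, eval_zero, zero_mul]
  rw [h1, h2, ← h3, Finset.sum_range]

end division

variable {K : Type} [Field K] [AdmissibleAbsValues K]

/-- the height of the vector of powers -/
lemma powers_le (N : ℕ) : ∃ C1 : ℝ, 0 < C1 ∧
    ∀ x : K, mulHeight (fun i : Fin (N + 1) => x ^ (i : ℕ)) ≤ C1 * mulHeight₁ x ^ N := by
  have h1 : ∀ i : Fin (N + 1), (MvPolynomial.X (R := K) (0 : Fin 2) ^ (i : ℕ)
      * MvPolynomial.X 1 ^ (N - i)).IsHomogeneous N := by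
    intro i
    have h2 := ((MvPolynomial.isHomogeneous_X K (0 : Fin 2)).pow (i : ℕ)).mul
      ((MvPolynomial.isHomogeneous_X K (1 : Fin 2)).pow (N - i))
    have h3 : 1 * (i : ℕ) + 1 * (N - i) = N := by
      have := i.isLt
      omega
    rwa [h3] at h2
  obtain ⟨C1, hC, h⟩ := mulHeight_eval_le' h1
  refine ⟨C1, hC, fun x => ?_⟩
  have h2 := h ![x, 1]
  rw [← mulHeight₁_eq_mulHeight] at h2
  refine le_trans (le_of_eq ?_) h2
  congr 1
  funext i
  simp

lemma le_powers (N : ℕ) (x : K) : mulHeight₁ x ^ N ≤ mulHeight (fun i : Fin (N + 1) => x ^ (i : ℕ)) := by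
  rw [← mulHeight₁_pow, mulHeight₁_eq_mulHeight]
  have h := mulHeight_comp_le (![⟨N, Nat.lt_succ_self N⟩, ⟨0, Nat.succ_pos N⟩] : Fin 2 → Fin (N + 1))
    (fun i : Fin (N + 1) => x ^ (i : ℕ))
  refine le_trans (le_of_eq ?_) h
  congr 1
  funext i
  fin_cases i
  · rfl
  · simp

/-- values of polynomials in one variable -/
lemma height_poly {ι : Type} [Finite ι] (Q : ι → K[X]) (N : ℕ) (hQ : ∀ r, (Q r).natDegree ≤ N) :
    ∃ C1 : ℝ, 0 < C1 ∧ ∀ x : K, mulHeight (fun r => (Q r).eval x) ≤ C1 * mulHeight₁ x ^ N := by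
  obtain ⟨C1, hC, h1⟩ := powers_le (K := K) N
  refine ⟨(Nat.card (Fin (N + 1)) : ℝ) ^ totalWeight K
    * mulHeight (fun ri : ι × Fin (N + 1) => (Q ri.1).coeff ri.2) * C1, by
      have : 0 < mulHeight (fun ri : ι × Fin (N + 1) => (Q ri.1).coeff ri.2) := mulHeight_pos _
      have h2 : 0 < (Nat.card (Fin (N + 1)) : ℝ) := by
        rw [Nat.card_fin]
        positivity
      positivity, fun x => ?_⟩
  have h2 := mulHeight_linearMap_apply_le
    (fun ri : ι × Fin (N + 1) => (Q ri.1).coeff ri.2) (fun i : Fin (N + 1) => x ^ (i : ℕ))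
  have h3 : (fun r => (Q r).eval x)
      = fun r => ∑ i : Fin (N + 1), (Q r).coeff i * x ^ (i : ℕ) := by
    funext r
    rw [eval_eq_sum_range' (by have := hQ r; omega : (Q r).natDegree < N + 1) x, Finset.sum_range]
  rw [h3]
  refine h2.trans ?_
  rw [mul_assoc _ C1]
  refine mul_le_mul_of_nonneg_left (h1 x) ?_
  have : 0 < mulHeight (fun ri : ι × Fin (N + 1) => (Q ri.1).coeff ri.2) := mulHeight_pos _
  positivity

/-- the height of the value of a polynomial in one variable -/
lemma height_eval (p : K[X]) : ∃ C1 : ℝ, 1 ≤ C1 ∧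
    ∀ x : K, mulHeight₁ (p.eval x) ≤ C1 * mulHeight₁ x ^ p.natDegree := by
  obtain ⟨C1, hC, h⟩ := height_poly (K := K) (![p, 1] : Fin 2 → K[X]) p.natDegree (by
    intro r
    fin_cases r
    · exact le_refl _
    · show (1 : K[X]).natDegree ≤ _
      rw [natDegree_one]
      exact Nat.zero_le _)
  refine ⟨max 1 C1, le_max_left _ _, fun x => ?_⟩
  rw [mulHeight₁_eq_mulHeight]
  refine le_trans (le_of_eq ?_) ((h x).trans
    (mul_le_mul_of_nonneg_right (le_max_right _ _) (by positivity)))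
  congr 1
  funext r
  fin_cases r
  · rfl
  · simp

/-- the height of the value of a polynomial in two variables -/
lemma height_evalEval (Q : K[X][X]) (N E : ℕ) (hE : Q.natDegree ≤ E)
    (hN : ∀ j, (Q.coeff j).natDegree ≤ N) : ∃ C1 : ℝ, 1 ≤ C1 ∧
    ∀ x y : K, mulHeight₁ (Q.evalEval x y) ≤ C1 * mulHeight₁ x ^ N * mulHeight₁ y ^ E := by
  obtain ⟨C1, hC1, h1⟩ := powers_le (K := K) N
  obtain ⟨C2, hC2, h2⟩ := powers_le (K := K) E
  set A : Fin 2 × (Fin (N + 1) × Fin (E + 1)) → K := fun r =>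
    (((![Q, 1] : Fin 2 → K[X][X]) r.1).coeff r.2.2).coeff r.2.1 with hA
  set C0 : ℝ := (Nat.card (Fin (N + 1) × Fin (E + 1)) : ℝ) ^ totalWeight K * mulHeight A with hC0
  have hC00 : 0 ≤ C0 := by
    have : 0 < mulHeight A := mulHeight_pos _
    positivity
  refine ⟨max 1 (C0 * (C1 * C2)), le_max_left _ _, fun x y => ?_⟩
  have h3 := mulHeight_linearMap_apply_le A
    (fun ij : Fin (N + 1) × Fin (E + 1) => x ^ (ij.1 : ℕ) * y ^ (ij.2 : ℕ))
  have hx0 : (fun i : Fin (N + 1) => x ^ (i : ℕ)) ≠ 0 := fun h => by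
    have := congrFun h 0
    simp at this
  have hy0 : (fun i : Fin (E + 1) => y ^ (i : ℕ)) ≠ 0 := fun h => by
    have := congrFun h 0
    simp at this
  rw [mulHeight_fun_mul_eq hx0 hy0] at h3
  have key : ∀ R : K[X][X], R.natDegree ≤ E → (∀ j, (R.coeff j).natDegree ≤ N) →
      R.evalEval x y = ∑ ij : Fin (N + 1) × Fin (E + 1),
        (R.coeff ij.2).coeff ij.1 * (x ^ (ij.1 : ℕ) * y ^ (ij.2 : ℕ)) := by
    intro R hR1 hR2
    rw [evalEval_sum_fin R (E + 1) (by
      refine lt_of_le_of_lt degree_le_natDegree ?_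
      exact_mod_cast Nat.lt_succ_of_le hR1), Fintype.sum_prod_type_right]
    refine Finset.sum_congr rfl fun j _ => ?_
    rw [eval_eq_sum_range' (Nat.lt_succ_of_le (hR2 j)) x, Finset.sum_range, Finset.sum_mul]
    refine Finset.sum_congr rfl fun i _ => ?_
    ring
  have h4 : (fun r : Fin 2 => ∑ ij : Fin (N + 1) × Fin (E + 1),
      A (r, ij) * (x ^ (ij.1 : ℕ) * y ^ (ij.2 : ℕ))) = ![Q.evalEval x y, 1] := by
    funext r
    fin_cases r
    · exact (key Q hE hN).symm
    · show _ = (1 : K)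
      have h5 := key 1 (by rw [natDegree_one]; exact Nat.zero_le _) (by
        intro j
        rw [coeff_one]
        split_ifs
        · rw [natDegree_one]
          exact Nat.zero_le _
        · rw [natDegree_zero]
          exact Nat.zero_le _)
      rw [evalEval_one] at h5
      exact h5.symm
  rw [h4, ← mulHeight₁_eq_mulHeight, ← hC0] at h3
  refine h3.trans ?_
  have h5 : C0 * (mulHeight (fun i : Fin (N + 1) => x ^ (i : ℕ))
      * mulHeight (fun i : Fin (E + 1) => y ^ (i : ℕ)))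
      ≤ C0 * ((C1 * mulHeight₁ x ^ N) * (C2 * mulHeight₁ y ^ E)) := by
    apply mul_le_mul_of_nonneg_left _ hC00
    exact mul_le_mul (h1 x) (h2 y) (mulHeight_pos _).le (by positivity)
  refine h5.trans ?_
  calc C0 * ((C1 * mulHeight₁ x ^ N) * (C2 * mulHeight₁ y ^ E))
      = (C0 * (C1 * C2)) * (mulHeight₁ x ^ N * mulHeight₁ y ^ E) := by ring
    _ ≤ max 1 (C0 * (C1 * C2)) * (mulHeight₁ x ^ N * mulHeight₁ y ^ E) :=
        mul_le_mul_of_nonneg_right (le_max_right _ _) (by positivity)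
    _ = _ := by ring

/-- the lower bound for the height of the value of a polynomial in two variables -/
lemma height_lower (q : K[X][X]) (he : 1 ≤ q.natDegree) : ∃ (C1 : ℝ) (N : ℕ), 1 ≤ C1 ∧
    ∀ x y : K, q.leadingCoeff.eval x ≠ 0 →
      mulHeight₁ y ^ q.natDegree ≤ C1 * mulHeight₁ x ^ N * mulHeight₁ (q.evalEval x y) := by
  set e := q.natDegree with hedef
  have hdiv : ∀ l : Fin (2 * e - 1 + 1), ∃ A B : K[X][X],
      C (q.leadingCoeff ^ e) * X ^ (l : ℕ) = A * q + B ∧ A.degree < (e : ℕ)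
        ∧ B.degree < (e : ℕ) := by
    intro l
    refine pseudo_div q e (X ^ (l : ℕ)) ?_
    rw [degree_X_pow, ← hedef]
    exact_mod_cast (by have := l.isLt; omega : (l : ℕ) < e + e)
  choose A B h1 h2 h3 using hdiv
  -- the matrix
  set M : Fin (2 * e - 1 + 1) × (Fin 2 × Fin e) → K[X] := fun r =>
    ((![A r.1, B r.1] : Fin 2 → K[X][X]) r.2.1).coeff r.2.2 with hM
  obtain ⟨N, hN⟩ : ∃ N : ℕ, ∀ r, (M r).natDegree ≤ N :=
    ⟨Finset.univ.sup fun r => (M r).natDegree, fun r => Finset.le_sup (f := fun r => (M r).natDegree)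
      (Finset.mem_univ r)⟩
  obtain ⟨C1, hC1, h4⟩ := height_poly (K := K) M N hN
  obtain ⟨C2, hC2, h5⟩ := powers_le (K := K) (e - 1)
  set C0 : ℝ := (Nat.card (Fin 2 × Fin e) : ℝ) ^ totalWeight K with hC0
  have hC00 : 0 ≤ C0 := by positivity
  refine ⟨max 1 (C0 * C1 * C2), N, le_max_left _ _, fun x y hx => ?_⟩
  have _ : Nonempty (Fin 2 × Fin e) := ⟨(0, ⟨0, by omega⟩)⟩
  have h6 := mulHeight_linearMap_apply_le (fun r => (M r).eval x)
    (fun ri : Fin 2 × Fin e => (![q.evalEval x y, 1] : Fin 2 → K) ri.1 * y ^ (ri.2 : ℕ))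
  have hz0 : (![q.evalEval x y, 1] : Fin 2 → K) ≠ 0 := fun h => by
    have := congrFun h 1
    simp at this
  have hy0 : (fun i : Fin e => y ^ (i : ℕ)) ≠ 0 := fun h => by
    have := congrFun h ⟨0, by omega⟩
    simp at this
  rw [mulHeight_fun_mul_eq hz0 hy0, ← mulHeight₁_eq_mulHeight, ← hC0] at h6
  have h7 : (fun l : Fin (2 * e - 1 + 1) => ∑ ri : Fin 2 × Fin e, (M (l, ri)).eval x
      * ((![q.evalEval x y, 1] : Fin 2 → K) ri.1 * y ^ (ri.2 : ℕ)))
      = (q.leadingCoeff.eval x ^ e) • fun l : Fin (2 * e - 1 + 1) => y ^ (l : ℕ) := by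
    funext l
    rw [Pi.smul_apply, smul_eq_mul]
    have h8 : q.leadingCoeff.eval x ^ e * y ^ (l : ℕ)
        = (A l).evalEval x y * q.evalEval x y + (B l).evalEval x y := by
      rw [← evalEval_mul, ← evalEval_add, ← h1, evalEval_mul, evalEval_C, evalEval_pow, evalEval_X,
        eval_pow]
    rw [h8, evalEval_sum_fin (A l) e (h2 l), evalEval_sum_fin (B l) e (h3 l),
      Fintype.sum_prod_type, Fin.sum_univ_two, Finset.sum_mul]
    congr 1
    · refine Finset.sum_congr rfl fun i _ => ?_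
      show ((A l).coeff i).eval x * (q.evalEval x y * y ^ (i : ℕ)) = _
      ring
    · refine Finset.sum_congr rfl fun i _ => ?_
      show ((B l).coeff i).eval x * (1 * y ^ (i : ℕ)) = _
      ring
  rw [h7, mulHeight_smul_eq_mulHeight _ (pow_ne_zero _ hx)] at h6
  have h8 := (le_powers (2 * e - 1) y).trans h6
  have h9 : mulHeight (fun i : Fin e => y ^ (i : ℕ)) ≤ C2 * mulHeight₁ y ^ (e - 1) := by
    have h10 := h5 y
    have h11 : e - 1 + 1 = e := by omega
    have h12 : ∀ (n : ℕ) (hn : n = e), mulHeight (fun i : Fin n => y ^ (i : ℕ))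
        = mulHeight (fun i : Fin e => y ^ (i : ℕ)) := by
      intro n hn
      subst hn
      rfl
    rw [h12 _ h11] at h10
    exact h10
  have hHy : 0 < mulHeight₁ y := mulHeight₁_pos y
  have hHx : 0 < mulHeight₁ x := mulHeight₁_pos x
  have hHz : 0 < mulHeight₁ (q.evalEval x y) := mulHeight₁_pos _
  have h10 : C0 * mulHeight (fun r => (M r).eval x)
      * (mulHeight₁ (q.evalEval x y) * mulHeight (fun i : Fin e => y ^ (i : ℕ)))
      ≤ C0 * (C1 * mulHeight₁ x ^ N)
        * (mulHeight₁ (q.evalEval x y) * (C2 * mulHeight₁ y ^ (e - 1))) := by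
    apply mul_le_mul
    · exact mul_le_mul_of_nonneg_left (h4 x) hC00
    · exact mul_le_mul_of_nonneg_left h9 hHz.le
    · have : 0 < mulHeight (fun i : Fin e => y ^ (i : ℕ)) := mulHeight_pos _
      positivity
    · positivity
  have h11 : mulHeight₁ y ^ (2 * e - 1) = mulHeight₁ y ^ e * mulHeight₁ y ^ (e - 1) := by
    rw [← pow_add]
    congr 1
    omega
  rw [h11] at h8
  have h12 := h8.trans h10
  have h13 : 0 < mulHeight₁ y ^ (e - 1) := by positivity
  refine le_of_mul_le_mul_right (h12.trans ?_) h13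
  calc C0 * (C1 * mulHeight₁ x ^ N)
        * (mulHeight₁ (q.evalEval x y) * (C2 * mulHeight₁ y ^ (e - 1)))
      = (C0 * C1 * C2) * (mulHeight₁ x ^ N * mulHeight₁ (q.evalEval x y)
        * mulHeight₁ y ^ (e - 1)) := by ring
    _ ≤ max 1 (C0 * C1 * C2) * (mulHeight₁ x ^ N * mulHeight₁ (q.evalEval x y)
        * mulHeight₁ y ^ (e - 1)) :=
        mul_le_mul_of_nonneg_right (le_max_right _ _) (by positivity)
    _ = _ := by ring

end Pool.Agent.Lib.MP_9ec2c5_nt_h65
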