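import Mathlib
import Pool.Agent.Lib.MP_9ec2c5_nt_h65.Heights

/-!
For an infinite orbit of a polynomial in one variable over a number field there is a place at which
the orbit tends to infinity as fast as the height.
-/

set_option autoImplicit false
set_option linter.unusedSectionVars false

namespace Pool.Agent.Lib.MP_9ec2c5_nt_h65

open Polynomial Finset Height Filter Topology AdmissibleAbsValues

section general

variable {K : Type} [Field K] [AdmissibleAbsValues K]

/-- the places of a field with admissible absolute values -/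
def IsPlace (v : AbsoluteValue K ℝ) : Prop := v ∈ archAbsVal (K := K) ∨ v ∈ nonarchAbsVal (K := K)

lemma finite_ne_one (x : K) :
    (Function.mulSupport fun v : nonarchAbsVal (K := K) => max (v.val x) 1).Finite := by
  rcases eq_or_ne x 0 with rfl | hx
  · have : (Function.mulSupport fun v : nonarchAbsVal (K := K) => max (v.val (0 : K)) 1) = ∅ := by
      ext v
      simp
    rw [this]
    exact Set.finite_empty
  · have h : (fun v : nonarchAbsVal (K := K) => v.val x).HasFiniteMulSupport :=
      hasFiniteMulSupport hx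
    refine Set.Finite.subset (show (Function.mulSupport fun v : nonarchAbsVal (K := K) =>
      v.val x).Finite from h) ?_
    intro v hv h2
    apply hv
    have h3 : v.val x = 1 := h2
    show max (v.val x) 1 = 1
    rw [h3, max_self]

lemma IsPlace.le_height {v : AbsoluteValue K ℝ} (hv : IsPlace v) (x : K) : v x ≤ mulHeight₁ x := by
  have h1 : (1 : ℝ) ≤ ((archAbsVal (K := K)).map fun v => max (v x) 1).prod :=
    Multiset.one_le_prod_map fun _ _ => le_max_right _ _
  have h2 : (1 : ℝ) ≤ ∏ᶠ v : nonarchAbsVal (K := K), max (v.val x) 1 :=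
    one_le_finprod fun _ => le_max_right _ _
  rw [mulHeight₁_eq]
  rcases hv with hv | hv
  · have h3 : v x ≤ ((archAbsVal (K := K)).map fun v => max (v x) 1).prod := by
      obtain ⟨t, ht⟩ := Multiset.exists_cons_of_mem hv
      rw [ht, Multiset.map_cons, Multiset.prod_cons]
      have h4 : (1 : ℝ) ≤ (t.map fun v => max (v x) 1).prod :=
        Multiset.one_le_prod_map fun _ _ => le_max_right _ _
      calc v x ≤ max (v x) 1 * 1 := by
            rw [mul_one]
            exact le_max_left _ _
        _ ≤ _ := mul_le_mul_of_nonneg_left h4 (by positivity)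
    calc v x = v x * 1 := (mul_one _).symm
      _ ≤ _ := mul_le_mul h3 h2 zero_le_one (by linarith)
  · have h3 : v x ≤ ∏ᶠ v : nonarchAbsVal (K := K), max (v.val x) 1 := by
      rw [finprod_eq_prod _ (finite_ne_one x)]
      by_cases h5 : (⟨v, hv⟩ : nonarchAbsVal (K := K)) ∈ (finite_ne_one x).toFinset
      · exact Finset.le_prod_max_one h5 fun v : nonarchAbsVal (K := K) => v.val x
      · rw [Set.Finite.mem_toFinset, Function.notMem_mulSupport] at h5
        have h6 : v x ≤ 1 := by
          rw [← h5]
          exact le_max_left _ _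
        refine h6.trans ?_
        rw [finprod_eq_prod _ (finite_ne_one x)] at h2
        exact h2
    calc v x = 1 * v x := (one_mul _).symm
      _ ≤ _ := mul_le_mul h1 h3 (v.nonneg _) (by linarith)

lemma IsPlace.liouville {v : AbsoluteValue K ℝ} (hv : IsPlace v) {z : K} (hz : z ≠ 0) :
    1 ≤ v z * mulHeight₁ z := by
  have h1 := hv.le_height z⁻¹
  rw [mulHeight₁_inv, map_inv₀] at h1
  have h2 : 0 < v z := v.pos hz
  rwa [inv_le_iff_one_le_mul₀' h2] at h1

/-- bounded at all places -/
lemma height_le_of_forall (S : Set (nonarchAbsVal (K := K))) (hS : S.Finite)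
    (R : AbsoluteValue K ℝ → ℝ) (hR : ∀ v, 1 ≤ R v) : ∃ C1 : ℝ, ∀ x : K,
      (∀ v ∈ archAbsVal (K := K), v x ≤ R v) →
      (∀ v : nonarchAbsVal (K := K), v ∈ S → v.val x ≤ R v.val) →
      (∀ v : nonarchAbsVal (K := K), v ∉ S → v.val x ≤ 1) → mulHeight₁ x ≤ C1 := by
  classical
  refine ⟨((archAbsVal (K := K)).map R).prod
    * ∏ᶠ v : nonarchAbsVal (K := K), (if v ∈ S then R v.val else 1), fun x h1 h2 h3 => ?_⟩
  rw [mulHeight₁_eq]
  apply mul_le_mul
  · exact Multiset.prod_map_le_prod_map₀ _ _ (fun v _ => by positivity)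
      fun v hv => max_le (h1 v hv) (hR v)
  · refine finprod_le_finprod (finite_ne_one x) (fun v => by positivity) ?_ ?_
    · refine hS.subset ?_
      intro v hv
      by_contra hcon
      exact hv (if_neg hcon)
    · intro v
      show max (v.val x) 1 ≤ if v ∈ S then R v.val else 1
      split_ifs with h4
      · exact max_le (h2 v h4) (hR _)
      · exact max_le (h3 v h4) (le_refl _)
  · exact finprod_nonneg fun v => by positivity
  · exact Multiset.prod_map_nonneg fun v _ => zero_le_one.trans (hR v)

end general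

section growth

variable {K : Type} [Field K] (v : AbsoluteValue K ℝ)

/-- growth of a polynomial at infinity -/
lemma poly_growth (p : K[X]) (hd : 1 ≤ p.natDegree) : ∃ R c : ℝ, 1 ≤ R ∧ 0 < c ∧
    ∀ z : K, R ≤ v z → c * v z ^ p.natDegree ≤ v (p.eval z) := by
  set d := p.natDegree with hdd
  have hp : p ≠ 0 := by
    intro hp
    rw [hdd, hp, natDegree_zero] at hd
    omega
  set ν := v p.leadingCoeff with hν
  have hν0 : 0 < ν := v.pos (leadingCoeff_ne_zero.mpr hp)
  set S : ℝ := ∑ j ∈ range d, v (p.coeff j) with hS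
  have hS0 : 0 ≤ S := Finset.sum_nonneg fun j _ => v.nonneg _
  refine ⟨max 1 (2 * S / ν), ν / 2, le_max_left _ _, by positivity, fun z hz => ?_⟩
  have hz1 : 1 ≤ v z := (le_max_left _ _).trans hz
  have hz2 : 2 * S / ν ≤ v z := (le_max_right _ _).trans hz
  have h1 : p.eval z = (∑ j ∈ range d, p.coeff j * z ^ j) + p.leadingCoeff * z ^ d := by
    rw [eval_eq_sum_range, ← hdd, Finset.sum_range_succ]
    rfl
  have h2 : v (∑ j ∈ range d, p.coeff j * z ^ j) ≤ S * v z ^ (d - 1) := by
    refine (v.sum_le _ _).trans ?_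
    rw [hS, Finset.sum_mul]
    apply Finset.sum_le_sum
    intro j hj
    rw [map_mul, map_pow]
    have hj' := Finset.mem_range.mp hj
    exact mul_le_mul_of_nonneg_left (pow_le_pow_right₀ hz1 (by omega)) (v.nonneg _)
  have h3 : S * v z ^ (d - 1) ≤ ν / 2 * v z ^ d := by
    have h4 : v z ^ d = v z * v z ^ (d - 1) := by
      conv_lhs => rw [show d = (d - 1) + 1 by omega]
      rw [pow_succ]
      ring
    rw [h4]
    rw [div_le_iff₀ hν0] at hz2
    have h5 : 0 ≤ v z ^ (d - 1) := pow_nonneg (v.nonneg _) _
    nlinarith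
  have h4 : ν * v z ^ d ≤ v (p.eval z) + v (∑ j ∈ range d, p.coeff j * z ^ j) := by
    have h5 := v.add_le (p.eval z) (-(∑ j ∈ range d, p.coeff j * z ^ j))
    have h6 : p.eval z + -(∑ j ∈ range d, p.coeff j * z ^ j) = p.leadingCoeff * z ^ d := by
      rw [h1]
      ring
    rw [h6, v.map_neg, map_mul, map_pow] at h5
    exact h5
  linarith

/-- exponential escape -/
lemma escape_growth (p : K[X]) (hd : 2 ≤ p.natDegree) : ∃ R : ℝ, 1 ≤ R ∧ ∀ x : ℕ → K,
    (∀ n, x (n + 1) = p.eval (x n)) → (∃ n0, R < v (x n0)) →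
      ∃ c : ℝ, 0 < c ∧ ∀ᶠ n in atTop, c * (p.natDegree : ℝ) ^ n ≤ Real.log (v (x n)) := by
  obtain ⟨R0, c0, hR0, hc0, h1⟩ := poly_growth v p (by omega)
  set A := |Real.log c0| with hA
  have hA0 : 0 ≤ A := abs_nonneg _
  have hA1 : -A ≤ Real.log c0 := neg_abs_le _
  set d := p.natDegree with hdd
  have hd2 : (2 : ℝ) ≤ d := by exact_mod_cast hd
  refine ⟨max R0 (Real.exp (A + 1)), hR0.trans (le_max_left _ _), fun x hx ⟨n0, hn0⟩ => ?_⟩
  set R := max R0 (Real.exp (A + 1)) with hR
  have hRpos : 0 < R := by linarith [le_max_left R0 (Real.exp (A + 1))]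
  have hlogR : A + 1 ≤ Real.log R := by
    rw [← Real.log_exp (A + 1)]
    exact Real.log_le_log (Real.exp_pos _) (le_max_right _ _)
  set m := Real.log (v (x n0)) - A with hm
  have hm1 : 1 ≤ m := by
    have := Real.log_le_log hRpos hn0.le
    linarith
  have key : ∀ j : ℕ, R ≤ v (x (n0 + j)) ∧ (d : ℝ) ^ j * m ≤ Real.log (v (x (n0 + j))) - A := by
    intro j
    induction j with
    | zero =>
      rw [add_zero, pow_zero, one_mul]
      exact ⟨hn0.le, le_refl _⟩
    | succ j ih =>
      obtain ⟨ih1, ih2⟩ := ih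
      have h2 : 0 < v (x (n0 + j)) := by linarith
      have h3 := h1 (x (n0 + j)) ((le_max_left _ _).trans ih1)
      rw [← hx, add_assoc] at h3
      have h4 : Real.log c0 + d * Real.log (v (x (n0 + j))) ≤ Real.log (v (x (n0 + (j + 1)))) := by
        rw [← Real.log_pow, ← Real.log_mul hc0.ne' (by positivity)]
        exact Real.log_le_log (by positivity) h3
      have h5 := Real.log_le_log hRpos ih1
      set l := Real.log (v (x (n0 + j))) with hl
      have h6 : (d : ℝ) * (l - A) ≤ Real.log (v (x (n0 + (j + 1)))) - A := by nlinarith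
      have h7 : l ≤ Real.log (v (x (n0 + (j + 1)))) := by nlinarith
      constructor
      · have h8 : 0 < v (x (n0 + (j + 1))) := lt_of_lt_of_le (by positivity) h3
        have h9 := h5.trans h7
        exact (Real.log_le_log_iff hRpos h8).mp h9
      · refine le_trans ?_ h6
        rw [pow_succ]
        have h8 : 0 ≤ (d : ℝ) := by positivity
        have := mul_le_mul_of_nonneg_left ih2 h8
        linarith
  refine ⟨m / (d : ℝ) ^ n0, by positivity, ?_⟩
  rw [eventually_atTop]
  refine ⟨n0, fun n hn => ?_⟩
  obtain ⟨j, rfl⟩ := Nat.exists_eq_add_of_le hn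
  have h2 := (key j).2
  have h3 : m / (d : ℝ) ^ n0 * (d : ℝ) ^ (n0 + j) = (d : ℝ) ^ j * m := by
    have : (d : ℝ) ^ n0 ≠ 0 := by positivity
    rw [pow_add]
    field_simp
  rw [h3]
  linarith

end growth

section numberfield

variable {K : Type} [Field K] [NumberField K]

/-- the height tends to infinity along a sequence of distinct elements -/
lemma tendsto_height (x : ℕ → K) (hinj : Function.Injective x) :
    Tendsto (fun n => mulHeight₁ (x n)) atTop atTop := by
  rw [tendsto_atTop]
  intro B
  have h1 : {n | mulHeight₁ (x n) ≤ B}.Finite := by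
    refine Set.Finite.of_finite_image ((NumberField.finite_setOfPred_mulHeight₁_le K B).subset ?_)
      hinj.injOn
    rintro _ ⟨n, hn, rfl⟩
    exact hn
  have h2 : ∀ᶠ n in cofinite, ¬ (mulHeight₁ (x n) ≤ B) := h1.eventually_cofinite_notMem
  rw [Nat.cofinite_eq_atTop] at h2
  filter_upwards [h2] with n hn
  exact (not_le.mp hn).le

/-- height growth of the orbit -/
lemma height_growth (p : K[X]) (hd : 2 ≤ p.natDegree) (x : ℕ → K)
    (hx : ∀ n, x (n + 1) = p.eval (x n)) :
    ∃ M : ℝ, 0 ≤ M ∧ ∀ n, Real.log (mulHeight₁ (x n)) ≤ M * (p.natDegree : ℝ) ^ n := by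
  obtain ⟨C1, hC1, h1⟩ := height_eval p
  have hd2 : (2 : ℝ) ≤ p.natDegree := by exact_mod_cast hd
  have hl : 0 ≤ Real.log C1 := Real.log_nonneg hC1
  have h0 : 0 ≤ Real.log (mulHeight₁ (x 0)) := Real.log_nonneg (one_le_mulHeight₁ _)
  have key : ∀ n, Real.log (mulHeight₁ (x n)) + Real.log C1
      ≤ (Real.log (mulHeight₁ (x 0)) + Real.log C1) * (p.natDegree : ℝ) ^ n := by
    intro n
    induction n with
    | zero => simp
    | succ n ih =>
      have h2 : Real.log (mulHeight₁ (x (n + 1)))
          ≤ Real.log C1 + p.natDegree * Real.log (mulHeight₁ (x n)) := by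
        rw [← Real.log_pow, ← Real.log_mul (by positivity) (by positivity), hx]
        exact Real.log_le_log (by positivity) (h1 _)
      have h3 : (p.natDegree : ℝ) * (Real.log (mulHeight₁ (x n)) + Real.log C1)
          ≤ p.natDegree * ((Real.log (mulHeight₁ (x 0)) + Real.log C1)
            * (p.natDegree : ℝ) ^ n) := mul_le_mul_of_nonneg_left ih (by positivity)
      rw [pow_succ]
      nlinarith
  exact ⟨_, add_nonneg h0 hl, fun n => by linarith [key n]⟩

/-- a polynomial of degree at least two -/
lemma exists_place_two (p : K[X]) (hd : 2 ≤ p.natDegree) (x : ℕ → K)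
    (hx : ∀ n, x (n + 1) = p.eval (x n)) (hinj : Function.Injective x) :
    ∃ v : AbsoluteValue K ℝ, IsPlace v ∧ ∃ s : ℕ, ∀ᶠ n in atTop, mulHeight₁ (x n) ≤ v (x n) ^ s := by
  classical
  have hex := fun v : AbsoluteValue K ℝ => escape_growth v p hd
  choose R hR1 hR2 using hex
  have hesc : ∃ v : AbsoluteValue K ℝ, IsPlace v ∧ ∃ n0, R v < v (x n0) := by
    by_contra hcon
    push Not at hcon
    -- the finite set of bad places
    set S : Set (nonarchAbsVal (K := K)) :=
      (⋃ j ∈ range (p.natDegree + 1), Function.mulSupport fun v : nonarchAbsVal (K := K) =>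
        max (v.val (p.coeff j)) 1) ∪ Function.mulSupport fun v : nonarchAbsVal (K := K) =>
        max (v.val (x 0)) 1 with hS
    have hSfin : S.Finite := by
      refine Set.Finite.union ?_ (finite_ne_one _)
      exact Set.Finite.biUnion (Finset.finite_toSet _) fun j _ => finite_ne_one _
    obtain ⟨C1, hC1⟩ := height_le_of_forall S hSfin R hR1
    have hbd : ∀ n, mulHeight₁ (x n) ≤ C1 := by
      intro n
      apply hC1
      · intro v hv
        exact hcon v (Or.inl hv) n
      · intro v _
        exact hcon v.val (Or.inr v.property) n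
      · intro v hv
        rw [hS, Set.mem_union, not_or] at hv
        have hco : ∀ j ∈ range (p.natDegree + 1), v.val (p.coeff j) ≤ 1 := by
          intro j hj
          by_contra h
          push Not at h
          apply hv.1
          rw [Set.mem_iUnion₂]
          refine ⟨j, hj, ?_⟩
          rw [Function.mem_mulSupport]
          rw [max_eq_left h.le]
          exact h.ne'
        have hx0 : v.val (x 0) ≤ 1 := by
          by_contra h
          push Not at h
          apply hv.2
          rw [Function.mem_mulSupport]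
          rw [max_eq_left h.le]
          exact h.ne'
        have hna : IsNonarchimedean v.val := isNonarchimedean v.val v.property
        induction n with
        | zero => exact hx0
        | succ n ih =>
          rw [hx, eval_eq_sum_range]
          refine (hna.apply_sum_le_sup (Finset.nonempty_range_add_one)).trans ?_
          refine Finset.sup'_le _ _ fun j hj => ?_
          rw [map_mul, map_pow]
          exact mul_le_one₀ (hco j hj) (pow_nonneg (v.val.nonneg _) _)
            (pow_le_one₀ (v.val.nonneg _) ih)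
    exact Set.infinite_of_injective_forall_mem hinj hbd
      (NumberField.finite_setOfPred_mulHeight₁_le K C1)
  obtain ⟨v, hv, hn0⟩ := hesc
  refine ⟨v, hv, ?_⟩
  obtain ⟨c, hc, h1⟩ := hR2 v x hx hn0
  obtain ⟨M, hM, h2⟩ := height_growth p hd x hx
  obtain ⟨s, hs⟩ := exists_nat_ge (M / c)
  refine ⟨s, ?_⟩
  filter_upwards [h1] with n hn
  have h3 : 0 < c * (p.natDegree : ℝ) ^ n := by
    have : (2 : ℝ) ≤ p.natDegree := by exact_mod_cast hd
    positivity
  have h4 : 0 < v (x n) := by
    rcases (v.nonneg (x n)).lt_or_eq with h | h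
    · exact h
    · rw [← h, Real.log_zero] at hn
      linarith
  rw [← Real.log_le_log_iff (by positivity) (by positivity), Real.log_pow]
  refine (h2 n).trans ?_
  rw [div_le_iff₀ hc] at hs
  have h5 : (0 : ℝ) ≤ (p.natDegree : ℝ) ^ n := by positivity
  have h6 : (0 : ℝ) ≤ (s : ℝ) := by positivity
  calc M * (p.natDegree : ℝ) ^ n ≤ (s * c) * (p.natDegree : ℝ) ^ n :=
        mul_le_mul_of_nonneg_right hs h5
    _ = s * (c * (p.natDegree : ℝ) ^ n) := by ring
    _ ≤ _ := mul_le_mul_of_nonneg_left hn h6

end numberfield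

end Pool.Agent.Lib.MP_9ec2c5_nt_h65
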