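import Mathlib
import Pool.Agent.Lib.MP_9ec2c5_nt_h65.Places

/-!
A place of a number field extends to an absolute value of an algebraically closed field.
-/

set_option autoImplicit false
set_option linter.unusedSectionVars false

namespace Pool.Agent.Lib.MP_9ec2c5_nt_h65

open Height AdmissibleAbsValues NumberField IsDedekindDomain

/-- an ultrametric complete norm extends to the algebraic closure -/
lemma exists_closure (F : Type) [NontriviallyNormedField F] [CompleteSpace F]
    [IsUltrametricDist F] : ∃ μ : AbsoluteValue (AlgebraicClosure F) ℝ,
      ∀ z : F, μ (algebraMap F (AlgebraicClosure F) z) = ‖z‖ := by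
  let N := spectralMulAlgNorm F (AlgebraicClosure F)
  let μ : AbsoluteValue (AlgebraicClosure F) ℝ :=
    { toFun := fun z => N z
      map_mul' := fun x y => map_mul N x y
      nonneg' := fun x => apply_nonneg N x
      eq_zero' := fun x => by
        constructor
        · intro h
          exact (map_eq_zero_iff_eq_zero N).mp h
        · intro h
          rw [h]
          exact map_zero N
      add_le' := fun x y => map_add_le_add N x y }
  exact ⟨μ, fun z => spectralNorm_extends z⟩

variable {K : Type} [Field K] [NumberField K]

theorem exists_extension (v : AbsoluteValue K ℝ) (hv : IsPlace v) :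
    ∃ (Ω : Type) (_ : Field Ω) (_ : IsAlgClosed Ω) (_ : Algebra K Ω) (μ : AbsoluteValue Ω ℝ),
      ∀ z : K, μ (algebraMap K Ω z) = v z := by
  rcases hv with hv | hv
  · obtain ⟨φ, hφ⟩ := mem_multisetInfinitePlace.mp hv
    refine ⟨ℂ, inferInstance, inferInstance, φ.toAlgebra, NormedField.toAbsoluteValue ℂ, fun z => ?_⟩
    rw [← hφ, place_apply]
    rfl
  · obtain ⟨P, hP⟩ := hv
    let _ : NontriviallyNormedField (P.adicCompletion K) :=
      Valued.toNontriviallyNormedField (P.adicCompletion K) (WithZero (Multiplicative ℤ))
    obtain ⟨μ, hμ⟩ := exists_closure (P.adicCompletion K)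
    refine ⟨AlgebraicClosure (P.adicCompletion K), inferInstance, inferInstance,
      ((algebraMap (P.adicCompletion K) (AlgebraicClosure (P.adicCompletion K))).comp
        (FinitePlace.embedding P)).toAlgebra, μ, fun z => ?_⟩
    rw [← hP, place_apply]
    exact hμ (FinitePlace.embedding P z)

end Pool.Agent.Lib.MP_9ec2c5_nt_h65
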