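import Mathlib

/-!
Polynomial functions in a field with an absolute value: bounds on bounded sets.
-/

set_option autoImplicit false
set_option linter.unusedSectionVars false

namespace Pool.Agent.Lib.MP_9ec2c5_nt_h65

open Polynomial Finset

variable {K Ω : Type} [Field K] [Field Ω] [Algebra K Ω] (μ : AbsoluteValue Ω ℝ)

/-- bounded and Lipschitz on bounded sets -/
def Nice (F : (Fin 3 → Ω) → Ω) : Prop := ∀ R : ℝ, ∃ C : ℝ, 0 ≤ C ∧
  (∀ z, (∀ i, μ (z i) ≤ R) → μ (F z) ≤ C) ∧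
  (∀ z z' ε, (∀ i, μ (z i) ≤ R) → (∀ i, μ (z' i) ≤ R) → (∀ i, μ (z i - z' i) ≤ ε) →
    μ (F z - F z') ≤ C * ε)

variable {μ}

lemma Nice.const (c : Ω) : Nice μ (fun _ => c) := by
  intro R
  refine ⟨μ c, μ.nonneg _, fun z _ => le_refl _, fun z z' ε _ _ h => ?_⟩
  rw [sub_self, map_zero]
  exact mul_nonneg (μ.nonneg _) ((μ.nonneg _).trans (h 0))

lemma Nice.coord (i : Fin 3) : Nice μ (fun z => z i) := by
  intro R
  refine ⟨max R 1, by positivity, fun z h => (h i).trans (le_max_left _ _), fun z z' ε _ _ h => ?_⟩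
  have h1 := h i
  have h2 : 0 ≤ ε := (μ.nonneg _).trans h1
  nlinarith [le_max_right R 1]

lemma Nice.add {F G : (Fin 3 → Ω) → Ω} (hF : Nice μ F) (hG : Nice μ G) :
    Nice μ (fun z => F z + G z) := by
  intro R
  obtain ⟨C, hC, hF1, hF2⟩ := hF R
  obtain ⟨D, hD, hG1, hG2⟩ := hG R
  refine ⟨C + D, by positivity, fun z h => ?_, fun z z' ε h h' he => ?_⟩
  · exact (μ.add_le _ _).trans (add_le_add (hF1 z h) (hG1 z h))
  · have : F z + G z - (F z' + G z') = (F z - F z') + (G z - G z') := by ring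
    rw [this, add_mul]
    exact (μ.add_le _ _).trans (add_le_add (hF2 z z' ε h h' he) (hG2 z z' ε h h' he))

lemma Nice.mul {F G : (Fin 3 → Ω) → Ω} (hF : Nice μ F) (hG : Nice μ G) :
    Nice μ (fun z => F z * G z) := by
  intro R
  obtain ⟨C, hC, hF1, hF2⟩ := hF R
  obtain ⟨D, hD, hG1, hG2⟩ := hG R
  refine ⟨C * D + (C * D + C * D), by positivity, fun z h => ?_, fun z z' ε h h' he => ?_⟩
  · rw [map_mul]
    have := mul_le_mul (hF1 z h) (hG1 z h) (μ.nonneg _) hC
    nlinarith [mul_nonneg hC hD]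
  · have h0 : 0 ≤ ε := (μ.nonneg _).trans (he 0)
    have h1 : F z * G z - F z' * G z' = F z * (G z - G z') + (F z - F z') * G z' := by ring
    have h2 : μ (F z * (G z - G z')) ≤ C * (D * ε) := by
      rw [map_mul]
      exact mul_le_mul (hF1 z h) (hG2 z z' ε h h' he) (μ.nonneg _) hC
    have h3 : μ ((F z - F z') * G z') ≤ (C * ε) * D := by
      rw [map_mul]
      exact mul_le_mul (hF2 z z' ε h h' he) (hG1 z' h') (μ.nonneg _) (by positivity)
    rw [h1]
    refine (μ.add_le _ _).trans ((add_le_add h2 h3).trans ?_)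
    nlinarith [mul_nonneg (mul_nonneg hC hD) h0]

lemma Nice.sum {ι : Type} (s : Finset ι) (F : ι → (Fin 3 → Ω) → Ω) (h : ∀ i ∈ s, Nice μ (F i)) :
    Nice μ (fun z => ∑ i ∈ s, F i z) := by
  classical
  induction s using Finset.induction_on with
  | empty => simpa using Nice.const (μ := μ) 0
  | insert i s hi ih =>
    have h1 := (h i (Finset.mem_insert_self _ _)).add
      (ih fun j hj => h j (Finset.mem_insert_of_mem hj))
    refine cast ?_ h1
    congr 1
    funext z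
    rw [Finset.sum_insert hi]

lemma Nice.pow {F : (Fin 3 → Ω) → Ω} (hF : Nice μ F) (n : ℕ) : Nice μ (fun z => F z ^ n) := by
  induction n with
  | zero => simpa using Nice.const (μ := μ) 1
  | succ n ih => simpa only [pow_succ] using ih.mul hF

lemma Nice.poly (g : K[X]) (i : Fin 3) : Nice μ (fun z => aeval (z i) g) := by
  have h : (fun z : Fin 3 → Ω => aeval (z i) g)
      = fun z => ∑ k ∈ range (g.natDegree + 1), algebraMap K Ω (g.coeff k) * z i ^ k := by
    funext z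
    rw [aeval_eq_sum_range]
    exact Finset.sum_congr rfl fun k _ => by rw [Algebra.smul_def]
  rw [h]
  exact Nice.sum _ _ fun k _ => (Nice.const _).mul ((Nice.coord i).pow k)

/-- the value of a polynomial in two variables -/
noncomputable def ev2 (Q : K[X][X]) (w u : Ω) : Ω := eval₂ (aeval w : K[X] →ₐ[K] Ω).toRingHom u Q

lemma ev2_eq (Q : K[X][X]) (w u : Ω) :
    ev2 Q w u = ∑ j ∈ range (Q.natDegree + 1), aeval w (Q.coeff j) * u ^ j := by
  unfold ev2
  rw [eval₂_eq_sum_range]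
  rfl

lemma Nice.ev2 (Q : K[X][X]) (i j : Fin 3) : Nice μ (fun z => ev2 Q (z i) (z j)) := by
  have h : (fun z : Fin 3 → Ω => Pool.Agent.Lib.MP_9ec2c5_nt_h65.ev2 Q (z i) (z j))
      = fun z => ∑ k ∈ range (Q.natDegree + 1), aeval (z i) (Q.coeff k) * z j ^ k := by
    funext z
    rw [ev2_eq]
  rw [h]
  exact Nice.sum _ _ fun k _ => (Nice.poly _ i).mul ((Nice.coord j).pow k)

/-- substitution of a polynomial -/
lemma aeval_eval (Q : K[X][X]) (w : Ω) (G : K[X]) : aeval w (Q.eval G) = ev2 Q w (aeval w G) := by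
  unfold ev2
  have h := Polynomial.hom_eval₂ Q (RingHom.id K[X]) (aeval w : K[X] →ₐ[K] Ω).toRingHom G
  rw [RingHom.comp_id] at h
  exact h

/-- the difference quotient -/
noncomputable def dq (Q : K[X][X]) (z : Fin 3 → Ω) : Ω :=
  ∑ j ∈ range (Q.natDegree + 1), aeval (z 0) (Q.coeff j) *
    ∑ i ∈ range j, z 1 ^ i * z 2 ^ (j - 1 - i)

lemma Nice.dq (Q : K[X][X]) : Nice μ (dq Q : (Fin 3 → Ω) → Ω) :=
  Nice.sum _ _ fun j _ => (Nice.poly _ 0).mul
    (Nice.sum _ _ fun i _ => ((Nice.coord 1).pow i).mul ((Nice.coord 2).pow _))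

lemma dq_spec (Q : K[X][X]) (w u u' : Ω) :
    ev2 Q w u - ev2 Q w u' = (u - u') * dq Q ![w, u, u'] := by
  rw [ev2_eq, ev2_eq, ← Finset.sum_sub_distrib, dq, Finset.mul_sum]
  refine Finset.sum_congr rfl fun j _ => ?_
  show aeval w (Q.coeff j) * u ^ j - aeval w (Q.coeff j) * u' ^ j
    = (u - u') * (aeval w (Q.coeff j) * ∑ i ∈ range j, u ^ i * u' ^ (j - 1 - i))
  have h := (Commute.all u u').geom_sum₂_mul j
  rw [← mul_sub, ← h]
  ring

/-- the special fibre -/
noncomputable def top0 (Q : K[X][X]) : K[X] := Q.map (constantCoeff : K[X] →+* K)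

lemma aeval_zero (g : K[X]) : aeval (0 : Ω) g = algebraMap K Ω (g.coeff 0) := by
  rw [aeval_def, eval₂_at_zero]

lemma ev2_zero (Q : K[X][X]) (u : Ω) : ev2 Q 0 u = aeval u (top0 Q) := by
  rw [ev2_eq, top0, aeval_def, eval₂_map, eval₂_eq_sum_range]
  refine Finset.sum_congr rfl fun j _ => ?_
  rw [aeval_zero]
  rfl

lemma dq_zero (Q : K[X][X]) (θ : K) :
    dq Q ![(0 : Ω), algebraMap K Ω θ, algebraMap K Ω θ]
      = algebraMap K Ω ((derivative (top0 Q)).eval θ) := by
  have h1 : (derivative (top0 Q)).eval θ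
      = ∑ j ∈ range (Q.natDegree + 1), (Q.coeff j).coeff 0 * (j * θ ^ (j - 1)) := by
    rw [derivative_eval, sum_over_range' (top0 Q) (f := fun n a => a * (n : K) * θ ^ (n - 1))
      (fun n => by rw [zero_mul, zero_mul]) (Q.natDegree + 1) (Nat.lt_succ_of_le natDegree_map_le)]
    refine Finset.sum_congr rfl fun j _ => ?_
    rw [top0, coeff_map, mul_assoc]
    rfl
  rw [h1, dq, map_sum]
  refine Finset.sum_congr rfl fun j _ => ?_
  show aeval (0 : Ω) (Q.coeff j) * ∑ i ∈ range j, algebraMap K Ω θ ^ i * algebraMap K Ω θ ^ (j - 1 - i)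
    = _
  have h2 : ∀ i ∈ range j, algebraMap K Ω θ ^ i * algebraMap K Ω θ ^ (j - 1 - i)
      = algebraMap K Ω θ ^ (j - 1) := by
    intro i hi
    rw [← pow_add]
    congr 1
    have := Finset.mem_range.mp hi
    omega
  rw [aeval_zero, Finset.sum_congr rfl h2, Finset.sum_const, card_range, nsmul_eq_mul, map_mul,
    map_mul, map_natCast, map_pow]

/-- multiples of a power of the variable are small -/
lemma small_of_dvd (g : K[X]) (B : ℕ) (h : X ^ B ∣ g) (R : ℝ) :
    ∃ C : ℝ, 0 ≤ C ∧ ∀ w : Ω, μ w ≤ R → μ (aeval w g) ≤ C * μ w ^ B := by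
  obtain ⟨s, rfl⟩ := h
  obtain ⟨C, hC, h1, -⟩ := Nice.poly (μ := μ) s 0 R
  refine ⟨C, hC, fun w hw => ?_⟩
  rw [map_mul, map_mul, map_pow, aeval_X, map_pow, mul_comm]
  exact mul_le_mul_of_nonneg_right (h1 (fun _ => w) fun _ => hw) (pow_nonneg (μ.nonneg _) _)

end Pool.Agent.Lib.MP_9ec2c5_nt_h65
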