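import Mathlib
import Pool.Agent.Lib.MP_9ec2c5_nt_h65.Nice

/-!
Approximation of roots near a simple root of the special fibre.
-/

set_option autoImplicit false
set_option linter.unusedSectionVars false

namespace Pool.Agent.Lib.MP_9ec2c5_nt_h65

open Polynomial Finset

section hensel

variable {K : Type} [Field K]

lemma coeff_zero_eval (Q : K[X][X]) (G : K[X]) : (Q.eval G).coeff 0 = (top0 Q).eval (G.coeff 0) := by
  have h := Polynomial.hom_eval₂ Q (RingHom.id K[X]) (constantCoeff : K[X] →+* K) G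
  rw [RingHom.comp_id] at h
  rw [top0, eval_map]
  exact h

lemma top0_derivative (Q : K[X][X]) : top0 (derivative Q) = derivative (top0 Q) := by
  rw [top0, top0, derivative_map]

/-- truncated roots -/
theorem hensel (Q : K[X][X]) (g : K[X]) (hg : g.coeff 0 = 0) (θ : K) (h0 : (top0 Q).eval θ = 0)
    (h1 : (derivative (top0 Q)).eval θ ≠ 0) (B : ℕ) :
    ∃ G : K[X], G.coeff 0 = θ ∧ X ^ B ∣ Q.eval G - g := by
  induction B with
  | zero => exact ⟨C θ, coeff_C_zero, by rw [pow_zero]; exact one_dvd _⟩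
  | succ k ih =>
    obtain ⟨G, hG0, s, hs⟩ := ih
    rcases Nat.eq_zero_or_pos k with hk | hk
    · refine ⟨C θ, coeff_C_zero, ?_⟩
      rw [hk, zero_add, pow_one, X_dvd_iff, coeff_sub, coeff_zero_eval, coeff_C_zero, h0, hg,
        sub_self]
    · set D : K := (derivative (top0 Q)).eval θ with hD
      set c : K := -(s.coeff 0) / D with hc
      obtain ⟨m, hm⟩ := binomExpansion Q G (C c * X ^ k)
      refine ⟨G + C c * X ^ k, ?_, ?_⟩
      · rw [coeff_add, hG0, coeff_C_mul, coeff_X_pow, if_neg (by omega), mul_zero, add_zero]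
      · have h2 : Q.eval (G + C c * X ^ k) - g
            = X ^ k * (s + (derivative Q).eval G * C c + m * (C c) ^ 2 * X ^ k) := by
          rw [hm, mul_add, mul_add, ← hs]
          ring
        rw [h2, pow_succ]
        apply mul_dvd_mul_left
        rw [X_dvd_iff, coeff_add, coeff_add, mul_coeff_zero, mul_coeff_zero, coeff_zero_eval,
          top0_derivative, hG0, coeff_C_zero, coeff_X_pow, if_neg (by omega), mul_zero, add_zero,
          ← hD, hc]
        field_simp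
        ring

end hensel

variable {K Ω : Type} [Field K] [Field Ω] [Algebra K Ω] (μ : AbsoluteValue Ω ℝ)

/-- approximation near one simple root -/
lemma near_root (Q : K[X][X]) (g G : K[X]) (θ : K) (B : ℕ) (hG0 : G.coeff 0 = θ)
    (hG : X ^ B ∣ Q.eval G - g) (h1 : (derivative (top0 Q)).eval θ ≠ 0) (A : ℝ) (hA : 0 ≤ A) :
    ∃ ε δ C : ℝ, 0 < ε ∧ 0 < δ ∧ 0 ≤ C ∧ ∀ w u : Ω, μ w ≤ δ → μ (u - algebraMap K Ω θ) ≤ ε →
      μ (ev2 Q w u - aeval w g) ≤ A * μ w ^ B → μ (u - aeval w G) ≤ C * μ w ^ B := by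
  set m : ℝ := μ (algebraMap K Ω ((derivative (top0 Q)).eval θ)) with hm
  have hm0 : 0 < m := by
    apply μ.pos
    rw [Ne, map_eq_zero]
    exact h1
  obtain ⟨C3, hC3, h3⟩ := small_of_dvd (μ := μ) (G - C θ) 1 (by
    rw [pow_one, X_dvd_iff, coeff_sub, hG0, coeff_C_zero, sub_self]) 1
  obtain ⟨C5, hC5, h5⟩ := small_of_dvd (μ := μ) (Q.eval G - g) B hG 1
  obtain ⟨C4, hC4, -, h4⟩ := Nice.dq (μ := μ) Q (μ (algebraMap K Ω θ) + C3 + 1)
  set ε : ℝ := min 1 (m / (2 * (C4 + 1))) with hε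
  have hε0 : 0 < ε := by positivity
  refine ⟨ε, ε / (C3 + 1), (A + C5) * (2 / m), hε0, by positivity, by positivity, ?_⟩
  intro w u hw hu hQ
  have hε1 : ε ≤ 1 := min_le_left _ _
  have hwε : (C3 + 1) * μ w ≤ ε := by
    rw [le_div_iff₀ (by positivity)] at hw
    linarith
  have hμw := μ.nonneg w
  have hw1 : μ w ≤ 1 := by nlinarith
  have hwε' : μ w ≤ ε := by nlinarith
  have hG1 : μ (aeval w G - algebraMap K Ω θ) ≤ C3 * μ w := by
    have := h3 w hw1
    rwa [map_sub, aeval_C, pow_one] at this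
  have hG2 : μ (aeval w G - algebraMap K Ω θ) ≤ ε := by nlinarith
  have hθ := μ.nonneg (algebraMap K Ω θ)
  have bnd : ∀ t : Ω, μ (t - algebraMap K Ω θ) ≤ ε → μ t ≤ μ (algebraMap K Ω θ) + C3 + 1 := by
    intro t ht
    have h6 : t = (t - algebraMap K Ω θ) + algebraMap K Ω θ := by ring
    rw [h6]
    refine (μ.add_le _ _).trans ?_
    linarith
  have hdq : m / 2 ≤ μ (dq Q ![w, u, aeval w G]) := by
    have h7 := h4 ![w, u, aeval w G] ![(0 : Ω), algebraMap K Ω θ, algebraMap K Ω θ] ε (by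
      intro i
      fin_cases i
      · show μ w ≤ _
        linarith
      · exact bnd u hu
      · exact bnd _ hG2) (by
      intro i
      fin_cases i
      · show μ (0 : Ω) ≤ _
        rw [map_zero]
        linarith
      · show μ (algebraMap K Ω θ) ≤ _
        linarith
      · show μ (algebraMap K Ω θ) ≤ _
        linarith) (by
      intro i
      fin_cases i
      · show μ (w - 0) ≤ _
        rw [sub_zero]
        exact hwε'
      · exact hu
      · exact hG2)
    rw [dq_zero] at h7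
    have h8 : C4 * ε ≤ m / 2 := by
      have h9 : ε ≤ m / (2 * (C4 + 1)) := min_le_right _ _
      have h10 : C4 * ε ≤ C4 * (m / (2 * (C4 + 1))) := mul_le_mul_of_nonneg_left h9 hC4
      refine h10.trans ?_
      rw [mul_div_assoc', div_le_div_iff₀ (by positivity) (by positivity)]
      nlinarith
    have h11 : m ≤ μ (dq Q ![w, u, aeval w G]) +
        μ (dq Q ![w, u, aeval w G] - algebraMap K Ω ((derivative (top0 Q)).eval θ)) := by
      have h12 := μ.add_le (dq Q ![w, u, aeval w G])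
        (-(dq Q ![w, u, aeval w G] - algebraMap K Ω ((derivative (top0 Q)).eval θ)))
      rw [μ.map_neg] at h12
      have h13 : dq Q ![w, u, aeval w G] +
          -(dq Q ![w, u, aeval w G] - algebraMap K Ω ((derivative (top0 Q)).eval θ))
          = algebraMap K Ω ((derivative (top0 Q)).eval θ) := by ring
      rw [h13] at h12
      exact h12
    linarith
  have h14 : μ (u - aeval w G) * μ (dq Q ![w, u, aeval w G]) ≤ (A + C5) * μ w ^ B := by
    rw [← map_mul, ← dq_spec]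
    have h15 : ev2 Q w u - ev2 Q w (aeval w G)
        = (ev2 Q w u - aeval w g) + -(aeval w (Q.eval G - g)) := by
      rw [map_sub, aeval_eval]
      ring
    rw [h15, add_mul]
    refine (μ.add_le _ _).trans (add_le_add hQ ?_)
    rw [μ.map_neg]
    exact h5 w hw1
  have h16 : μ (u - aeval w G) * (m / 2) ≤ (A + C5) * μ w ^ B :=
    (mul_le_mul_of_nonneg_left hdq (μ.nonneg _)).trans h14
  have h17 : μ (u - aeval w G) = (μ (u - aeval w G) * (m / 2)) * (2 / m) := by
    field_simp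
  rw [h17]
  calc _ ≤ ((A + C5) * μ w ^ B) * (2 / m) := mul_le_mul_of_nonneg_right h16 (by positivity)
    _ = _ := by ring

/-- The approximate roots of a polynomial whose special fibre has simple roots. -/
theorem root_lemma (Q : K[X][X]) (g : K[X]) (hg : g.coeff 0 = 0) (Θ : Finset K) (c : K)
    (hc : c ≠ 0) (hT : top0 Q = C c * ∏ θ ∈ Θ, (X - C θ))
    (hder : ∀ θ ∈ Θ, (derivative (top0 Q)).eval θ ≠ 0) (B : ℕ) (hB : 1 ≤ B) :
    ∃ G : K → K[X], ∀ R A : ℝ, 0 ≤ R → 0 ≤ A → ∃ δ C : ℝ, 0 < δ ∧ 0 ≤ C ∧ ∀ w u : Ω, μ w ≤ δ →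
      μ u ≤ R → μ (ev2 Q w u - aeval w g) ≤ A * μ w ^ B →
      ∃ θ ∈ Θ, μ (u - aeval w (G θ)) ≤ C * μ w ^ B := by
  classical
  have hex : ∀ θ : K, ∃ G : K[X], θ ∈ Θ → G.coeff 0 = θ ∧ X ^ B ∣ Q.eval G - g := by
    intro θ
    by_cases hθ : θ ∈ Θ
    · have h0 : (top0 Q).eval θ = 0 := by
        rw [hT, eval_mul, eval_prod]
        rw [Finset.prod_eq_zero hθ (by rw [eval_sub, eval_X, eval_C, sub_self]), mul_zero]
      obtain ⟨G, hG⟩ := hensel Q g hg θ h0 (hder θ hθ) B
      exact ⟨G, fun _ => hG⟩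
    · exact ⟨0, fun h => absurd h hθ⟩
  choose G hG using hex
  refine ⟨G, fun R A hR hA => ?_⟩
  have hnear : ∀ θ : K, ∃ ε δ C : ℝ, 0 < ε ∧ 0 < δ ∧ 0 ≤ C ∧ (θ ∈ Θ → ∀ w u : Ω, μ w ≤ δ →
      μ (u - algebraMap K Ω θ) ≤ ε → μ (ev2 Q w u - aeval w g) ≤ A * μ w ^ B →
      μ (u - aeval w (G θ)) ≤ C * μ w ^ B) := by
    intro θ
    by_cases hθ : θ ∈ Θ
    · obtain ⟨ε, δ, C, h1, h2, h3, h4⟩ := near_root μ Q g (G θ) θ B (hG θ hθ).1 (hG θ hθ).2
        (hder θ hθ) A hA
      exact ⟨ε, δ, C, h1, h2, h3, fun _ => h4⟩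
    · exact ⟨1, 1, 0, one_pos, one_pos, le_refl _, fun h => absurd h hθ⟩
  choose ε δ C hε hδ hC hmain using hnear
  -- uniform constants
  obtain ⟨ε0, hε0, hεle⟩ : ∃ ε0 : ℝ, 0 < ε0 ∧ ∀ θ ∈ Θ, ε0 ≤ ε θ := by
    rcases Θ.eq_empty_or_nonempty with h | h
    · exact ⟨1, one_pos, by simp [h]⟩
    · obtain ⟨θ, hθ, hmin⟩ := Finset.exists_min_image Θ ε h
      exact ⟨ε θ, hε θ, hmin⟩
  obtain ⟨δ0, hδ0, hδle⟩ : ∃ δ0 : ℝ, 0 < δ0 ∧ ∀ θ ∈ Θ, δ0 ≤ δ θ := by
    rcases Θ.eq_empty_or_nonempty with h | h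
    · exact ⟨1, one_pos, by simp [h]⟩
    · obtain ⟨θ, hθ, hmin⟩ := Finset.exists_min_image Θ δ h
      exact ⟨δ θ, hδ θ, hmin⟩
  obtain ⟨C1, hC1, -, h1⟩ := Nice.ev2 (μ := μ) Q 0 1 (max R 1)
  obtain ⟨C2, hC2, h2⟩ := small_of_dvd (μ := μ) g 1 (by
    rw [pow_one, X_dvd_iff, hg]) 1
  have hνc : 0 < μ (algebraMap K Ω c) := by
    apply μ.pos
    rw [Ne, map_eq_zero]
    exact hc
  set k := Θ.card
  set C6 : ℝ := C1 + A + C2 with hC6
  have hC60 : 0 ≤ C6 := by positivity
  set δ1 : ℝ := μ (algebraMap K Ω c) * ε0 ^ k / (2 * (C6 + 1)) with hδ1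
  have hδ10 : 0 < δ1 := by positivity
  refine ⟨min 1 (min δ0 δ1), ∑ θ ∈ Θ, C θ, by positivity, Finset.sum_nonneg fun θ _ => hC θ, ?_⟩
  intro w u hw hu hQ
  have hμw := μ.nonneg w
  have hw1 : μ w ≤ 1 := hw.trans (min_le_left _ _)
  have hw2 : μ w ≤ δ0 := hw.trans ((min_le_right _ _).trans (min_le_left _ _))
  have hw3 : μ w ≤ δ1 := hw.trans ((min_le_right _ _).trans (min_le_right _ _))
  have hT1 : μ (aeval u (top0 Q)) ≤ C6 * μ w := by
    have h3 : aeval u (top0 Q) = -(ev2 Q w u - ev2 Q 0 u) + ((ev2 Q w u - aeval w g) + aeval w g) := by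
      rw [ev2_zero]
      ring
    have h4 : μ (ev2 Q w u - ev2 Q 0 u) ≤ C1 * μ w := by
      have := h1 ![w, u, 0] ![0, u, 0] (μ w) (by
        intro i
        fin_cases i
        · exact hw1.trans (le_max_right _ _)
        · exact hu.trans (le_max_left _ _)
        · show μ (0 : Ω) ≤ _
          rw [map_zero]
          positivity) (by
        intro i
        fin_cases i
        · show μ (0 : Ω) ≤ _
          rw [map_zero]
          positivity
        · exact hu.trans (le_max_left _ _)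
        · show μ (0 : Ω) ≤ _
          rw [map_zero]
          positivity) (by
        intro i
        fin_cases i
        · show μ (w - 0) ≤ _
          rw [sub_zero]
        · show μ (u - u) ≤ _
          rw [sub_self, map_zero]
          exact hμw
        · show μ ((0 : Ω) - 0) ≤ _
          rw [sub_self, map_zero]
          exact hμw)
      exact this
    have h5 : A * μ w ^ B ≤ A * μ w := by
      apply mul_le_mul_of_nonneg_left _ hA
      calc μ w ^ B ≤ μ w ^ 1 := pow_le_pow_of_le_one hμw hw1 hB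
        _ = μ w := pow_one _
    have h6 : μ (aeval w g) ≤ C2 * μ w := by
      have := h2 w hw1
      rwa [pow_one] at this
    rw [h3]
    refine (μ.add_le _ _).trans ?_
    rw [μ.map_neg]
    have h7 := μ.add_le (ev2 Q w u - aeval w g) (aeval w g)
    have h8 : C6 * μ w = C1 * μ w + (A * μ w + C2 * μ w) := by
      rw [hC6]
      ring
    linarith
  have hex : ∃ θ ∈ Θ, μ (u - algebraMap K Ω θ) ≤ ε0 := by
    by_contra hcon
    push Not at hcon
    have h3 : aeval u (top0 Q) = algebraMap K Ω c * ∏ θ ∈ Θ, (u - algebraMap K Ω θ) := by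
      rw [hT, map_mul, aeval_C, map_prod]
      congr 1
      refine Finset.prod_congr rfl fun θ _ => ?_
      rw [map_sub, aeval_X, aeval_C]
    rw [h3, map_mul, map_prod] at hT1
    have h4 : ε0 ^ k ≤ ∏ θ ∈ Θ, μ (u - algebraMap K Ω θ) := by
      rw [← Finset.prod_const]
      exact Finset.prod_le_prod (fun _ _ => hε0.le) fun θ hθ => (hcon θ hθ).le
    have h5 : μ (algebraMap K Ω c) * ε0 ^ k ≤ C6 * μ w :=
      (mul_le_mul_of_nonneg_left h4 hνc.le).trans hT1
    have h6 : C6 * μ w ≤ (C6 + 1) * δ1 := by nlinarith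
    have h7 : (C6 + 1) * δ1 = μ (algebraMap K Ω c) * ε0 ^ k / 2 := by
      rw [hδ1]
      field_simp
    have h8 : 0 < μ (algebraMap K Ω c) * ε0 ^ k := by positivity
    linarith
  obtain ⟨θ, hθ, hθu⟩ := hex
  refine ⟨θ, hθ, ?_⟩
  refine (hmain θ hθ w u (hw2.trans (hδle θ hθ)) (hθu.trans (hεle θ hθ)) hQ).trans ?_
  apply mul_le_mul_of_nonneg_right _ (pow_nonneg hμw _)
  exact Finset.single_le_sum (f := C) (fun i _ => hC i) hθ

end Pool.Agent.Lib.MP_9ec2c5_nt_h65
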