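import Mathlib
import Pool.Agent.Lib.MP_9ec2c5_nt_h65.Root

/-!
Sequences approximated by finitely many polynomials in a small sequence.
-/

set_option autoImplicit false
set_option linter.unusedSectionVars false

namespace Pool.Agent.Lib.MP_9ec2c5_nt_h65

open Polynomial Finset Filter Topology

variable {K Ω : Type} [Field K] [Field Ω] [Algebra K Ω] (μ : AbsoluteValue Ω ℝ)

/-- `f n` is close to the value at `w n` of one of finitely many polynomials -/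
def Approx (K : Type) [Field K] [Algebra K Ω] (w f : ℕ → Ω) (L : ℕ) : Prop :=
  ∃ (𝒢 : Finset K[X]) (C : ℝ), 0 ≤ C ∧
    ∀ᶠ n in atTop, ∃ g ∈ 𝒢, μ (f n - aeval (w n) g) ≤ C * μ (w n) ^ L

variable {μ} {w : ℕ → Ω}

lemma eventually_le_one (hw : Tendsto (fun n => μ (w n)) atTop (𝓝 0)) (δ : ℝ) (hδ : 0 < δ) :
    ∀ᶠ n in atTop, μ (w n) ≤ δ :=
  (hw.eventually (gt_mem_nhds hδ)).mono fun _ h => h.le

lemma Approx.const (c : K) (L : ℕ) : Approx μ K w (fun _ => algebraMap K Ω c) L := by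
  refine ⟨{C c}, 0, le_refl _, Eventually.of_forall fun n => ⟨C c, Finset.mem_singleton_self _, ?_⟩⟩
  rw [aeval_C, sub_self, map_zero, zero_mul]

/-- a bounded sequence is approximated to order zero -/
lemma Approx.zero (f : ℕ → Ω) (C : ℝ) (hC : 0 ≤ C) (hf : ∀ᶠ n in atTop, μ (f n) ≤ C) :
    Approx μ K w f 0 := by
  refine ⟨{0}, C, hC, hf.mono fun n h => ⟨0, Finset.mem_singleton_self _, ?_⟩⟩
  rw [map_zero, sub_zero, pow_zero, mul_one]
  exact h

lemma Approx.bounded (hw : Tendsto (fun n => μ (w n)) atTop (𝓝 0)) {f : ℕ → Ω} {L : ℕ}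
    (h : Approx μ K w f L) : ∃ R : ℝ, 0 ≤ R ∧ ∀ᶠ n in atTop, μ (f n) ≤ R := by
  obtain ⟨𝒢, C, hC, h⟩ := h
  have h1 : ∀ g : K[X], ∃ D : ℝ, 0 ≤ D ∧ ∀ w : Ω, μ w ≤ 1 → μ (aeval w g) ≤ D := by
    intro g
    obtain ⟨D, hD, h2, -⟩ := Nice.poly (μ := μ) g 0 1
    exact ⟨D, hD, fun w hw => h2 (fun _ => w) fun _ => hw⟩
  choose D hD h1 using h1
  refine ⟨∑ g ∈ 𝒢, D g + C, add_nonneg (Finset.sum_nonneg fun g _ => hD g) hC, ?_⟩
  filter_upwards [h, eventually_le_one hw 1 one_pos] with n ⟨g, hg, h2⟩ h3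
  have h4 : f n = aeval (w n) g + (f n - aeval (w n) g) := by ring
  rw [h4]
  refine (μ.add_le _ _).trans (add_le_add ?_ ?_)
  · exact (h1 g _ h3).trans (Finset.single_le_sum (f := D) (fun g _ => hD g) hg)
  · refine h2.trans ?_
    calc C * μ (w n) ^ L ≤ C * 1 :=
          mul_le_mul_of_nonneg_left (pow_le_one₀ (μ.nonneg _) h3) hC
      _ = C := mul_one _

lemma Approx.mul (hw : Tendsto (fun n => μ (w n)) atTop (𝓝 0)) {f f' : ℕ → Ω} {L : ℕ}
    (h : Approx μ K w f L) (h' : Approx μ K w f' L) : Approx μ K w (fun n => f n * f' n) L := by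
  classical
  obtain ⟨R, hR, hb⟩ := h.bounded hw
  obtain ⟨R', hR', hb'⟩ := h'.bounded hw
  obtain ⟨𝒢, C, hC, h⟩ := h
  obtain ⟨𝒢', C', hC', h'⟩ := h'
  refine ⟨(𝒢 ×ˢ 𝒢').image fun p => p.1 * p.2, C * R' + (R + C) * C', by positivity, ?_⟩
  filter_upwards [h, h', hb, hb', eventually_le_one hw 1 one_pos]
    with n ⟨g, hg, h1⟩ ⟨g', hg', h2⟩ h3 h4 h5
  refine ⟨g * g', Finset.mem_image.mpr ⟨(g, g'), Finset.mem_product.mpr ⟨hg, hg'⟩, rfl⟩, ?_⟩
  have h6 : f n * f' n - aeval (w n) (g * g')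
      = (f n - aeval (w n) g) * f' n + aeval (w n) g * (f' n - aeval (w n) g') := by
    rw [map_mul]
    ring
  have h7 : μ (aeval (w n) g) ≤ R + C := by
    have h8 : aeval (w n) g = f n + -(f n - aeval (w n) g) := by ring
    rw [h8]
    refine (μ.add_le _ _).trans (add_le_add h3 ?_)
    rw [μ.map_neg]
    refine h1.trans ?_
    calc C * μ (w n) ^ L ≤ C * 1 :=
          mul_le_mul_of_nonneg_left (pow_le_one₀ (μ.nonneg _) h5) hC
      _ = C := mul_one _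
  rw [h6]
  refine (μ.add_le _ _).trans ?_
  rw [map_mul, map_mul, add_mul]
  have hp : 0 ≤ μ (w n) ^ L := pow_nonneg (μ.nonneg _) _
  refine add_le_add ?_ ?_
  · calc _ ≤ (C * μ (w n) ^ L) * R' := mul_le_mul h1 h4 (μ.nonneg _) (by positivity)
      _ = _ := by ring
  · calc _ ≤ (R + C) * (C' * μ (w n) ^ L) := mul_le_mul h7 h2 (μ.nonneg _) (by positivity)
      _ = _ := by ring

lemma Approx.pow (hw : Tendsto (fun n => μ (w n)) atTop (𝓝 0)) {f : ℕ → Ω} {L : ℕ}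
    (h : Approx μ K w f L) (k : ℕ) : Approx μ K w (fun n => f n ^ k) L := by
  induction k with
  | zero =>
    have := Approx.const (μ := μ) (w := w) (1 : K) L
    simpa using this
  | succ k ih => simpa only [pow_succ] using ih.mul hw h

/-- the shifted sequence -/
lemma Approx.shift (hw : Tendsto (fun n => μ (w n)) atTop (𝓝 0)) {u r : ℕ → Ω} {L d : ℕ}
    (hd : 1 ≤ d) (l : K) (hr : Approx μ K w r L)
    (hwr : ∀ᶠ n in atTop, w (n + 1) = w n ^ d * (algebraMap K Ω l * r n))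
    (hu : Approx μ K w u L) : Approx μ K w (fun n => u (n + 1)) L := by
  classical
  obtain ⟨R, hR, hb⟩ := hr.bounded hw
  obtain ⟨𝒮, D, hD, hr⟩ := hr
  obtain ⟨𝒢, C, hC, hu⟩ := hu
  set νl := μ (algebraMap K Ω l) with hνl
  have hνl0 : 0 ≤ νl := μ.nonneg _
  have h1 : ∀ g : K[X], ∃ E : ℝ, 0 ≤ E ∧ ∀ w w' : Ω, μ w ≤ 1 + νl * (R + D) →
      μ w' ≤ 1 + νl * (R + D) → μ (aeval w g - aeval w' g) ≤ E * μ (w - w') := by
    intro g
    obtain ⟨E, hE, -, h2⟩ := Nice.poly (μ := μ) g 0 (1 + νl * (R + D))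
    exact ⟨E, hE, fun w w' hw hw' =>
      h2 (fun _ => w) (fun _ => w') _ (fun _ => hw) (fun _ => hw') fun _ => le_refl _⟩
  choose E hE h1 using h1
  refine ⟨(𝒢 ×ˢ 𝒮).image fun p => p.1.comp (X ^ d * (Polynomial.C l * p.2)),
    C * (νl * R) ^ L + (∑ g ∈ 𝒢, E g) * (νl * D), by
      have : 0 ≤ ∑ g ∈ 𝒢, E g := Finset.sum_nonneg fun g _ => hE g
      positivity, ?_⟩
  have hu' : ∀ᶠ n in atTop, ∃ g ∈ 𝒢, μ (u (n + 1) - aeval (w (n + 1)) g) ≤ C * μ (w (n + 1)) ^ L :=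
    (tendsto_add_atTop_nat 1).eventually hu
  filter_upwards [hu', hr, hwr, hb, eventually_le_one hw 1 one_pos]
    with n ⟨g, hg, h2⟩ ⟨s, hs, h3⟩ h4 h5 h6
  refine ⟨g.comp (X ^ d * (Polynomial.C l * s)),
    Finset.mem_image.mpr ⟨(g, s), Finset.mem_product.mpr ⟨hg, hs⟩, rfl⟩, ?_⟩
  have hμw := μ.nonneg (w n)
  have h7 : aeval (w n) (g.comp (X ^ d * (Polynomial.C l * s)))
      = aeval (w n ^ d * (algebraMap K Ω l * aeval (w n) s)) g := by
    rw [aeval_comp, map_mul, map_mul, map_pow, aeval_X, aeval_C]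
  have hwd : μ (w n) ^ d ≤ μ (w n) := by
    calc μ (w n) ^ d ≤ μ (w n) ^ 1 := pow_le_pow_of_le_one hμw h6 hd
      _ = μ (w n) := pow_one _
  have hwd1 : μ (w n) ^ d ≤ 1 := hwd.trans h6
  have hwd0 : 0 ≤ μ (w n) ^ d := pow_nonneg hμw _
  have hpL : 0 ≤ μ (w n) ^ L := pow_nonneg hμw _
  have hw1 : μ (w (n + 1)) ≤ μ (w n) * (νl * R) := by
    rw [h4, map_mul, map_mul, map_pow]
    have h8 : νl * μ (r n) ≤ νl * R := mul_le_mul_of_nonneg_left h5 hνl0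
    exact mul_le_mul hwd h8 (by positivity) hμw
  have h9 : μ (aeval (w n) s) ≤ R + D := by
    have h10 : aeval (w n) s = r n + -(r n - aeval (w n) s) := by ring
    rw [h10]
    refine (μ.add_le _ _).trans (add_le_add h5 ?_)
    rw [μ.map_neg]
    refine h3.trans ?_
    calc D * μ (w n) ^ L ≤ D * 1 :=
          mul_le_mul_of_nonneg_left (pow_le_one₀ (μ.nonneg _) h6) hD
      _ = D := mul_one _
  have h11 : u (n + 1) - aeval (w n) (g.comp (X ^ d * (Polynomial.C l * s)))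
      = (u (n + 1) - aeval (w (n + 1)) g) + (aeval (w (n + 1)) g
        - aeval (w n ^ d * (algebraMap K Ω l * aeval (w n) s)) g) := by
    rw [h7]
    ring
  rw [h11]
  refine (μ.add_le _ _).trans ?_
  rw [add_mul]
  refine add_le_add ?_ ?_
  · refine h2.trans ?_
    rw [mul_assoc]
    apply mul_le_mul_of_nonneg_left _ hC
    calc μ (w (n + 1)) ^ L ≤ (μ (w n) * (νl * R)) ^ L := pow_le_pow_left₀ (μ.nonneg _) hw1 L
      _ = _ := by rw [mul_pow, mul_comm]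
  · have h12 : μ (w (n + 1)) ≤ 1 + νl * (R + D) := by
      have : μ (w n) * (νl * R) ≤ 1 * (νl * R) :=
        mul_le_mul_of_nonneg_right h6 (by positivity)
      have h13 : 0 ≤ νl * D := by positivity
      nlinarith
    have h13 : μ (w n ^ d * (algebraMap K Ω l * aeval (w n) s)) ≤ 1 + νl * (R + D) := by
      rw [map_mul, map_mul, map_pow]
      have h14 : νl * μ (aeval (w n) s) ≤ νl * (R + D) := mul_le_mul_of_nonneg_left h9 hνl0
      have h15 : μ (w n) ^ d * (νl * μ (aeval (w n) s)) ≤ 1 * (νl * (R + D)) :=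
        mul_le_mul hwd1 h14 (mul_nonneg hνl0 (μ.nonneg _)) zero_le_one
      linarith
    refine (h1 g _ _ h12 h13).trans ?_
    have h16 : w (n + 1) - w n ^ d * (algebraMap K Ω l * aeval (w n) s)
        = w n ^ d * (algebraMap K Ω l * (r n - aeval (w n) s)) := by
      rw [h4]
      ring
    have h17 : μ (w (n + 1) - w n ^ d * (algebraMap K Ω l * aeval (w n) s))
        ≤ νl * D * μ (w n) ^ L := by
      rw [h16, map_mul, map_mul, map_pow]
      calc _ ≤ 1 * (νl * (D * μ (w n) ^ L)) :=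
            mul_le_mul hwd1 (mul_le_mul_of_nonneg_left h3 hνl0)
              (mul_nonneg hνl0 (μ.nonneg _)) zero_le_one
        _ = _ := by ring
    calc E g * μ (w (n + 1) - w n ^ d * (algebraMap K Ω l * aeval (w n) s))
        ≤ (∑ g ∈ 𝒢, E g) * (νl * D * μ (w n) ^ L) :=
          mul_le_mul (Finset.single_le_sum (f := E) (fun g _ => hE g) hg) h17 (μ.nonneg _)
            (Finset.sum_nonneg fun g _ => hE g)
      _ = _ := by ring

/-- roots of an equation with approximated right hand side -/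
lemma Approx.root (hw : Tendsto (fun n => μ (w n)) atTop (𝓝 0)) (Q : K[X][X]) (Θ : Finset K)
    (c : K) (hc : c ≠ 0) (hT : top0 Q = C c * ∏ θ ∈ Θ, (X - C θ))
    (hder : ∀ θ ∈ Θ, (derivative (top0 Q)).eval θ ≠ 0) {u f : ℕ → Ω} {ρ L : ℕ} (hρ : 1 ≤ ρ)
    (hf : Approx μ K w f L) (R : ℝ) (hR : 0 ≤ R) (hu : ∀ᶠ n in atTop, μ (u n) ≤ R)
    (hQ : ∀ᶠ n in atTop, ev2 Q (w n) (u n) = w n ^ ρ * f n) : Approx μ K w u (L + 1) := by
  classical
  obtain ⟨𝒢, A, hA, hf⟩ := hf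
  have h1 : ∀ g : K[X], ∃ G : K → K[X], ∃ δ D : ℝ, 0 < δ ∧ 0 ≤ D ∧ ∀ w u : Ω, μ w ≤ δ →
      μ u ≤ R → μ (ev2 Q w u - aeval w (X ^ ρ * g)) ≤ A * μ w ^ (L + 1) →
      ∃ θ ∈ Θ, μ (u - aeval w (G θ)) ≤ D * μ w ^ (L + 1) := by
    intro g
    obtain ⟨G, hG⟩ := root_lemma μ Q (X ^ ρ * g) (by
      rw [mul_coeff_zero, coeff_X_pow, if_neg (by omega), zero_mul]) Θ c hc hT hder (L + 1)
      (by omega)
    obtain ⟨δ, D, h2⟩ := hG R A hR hA
    exact ⟨G, δ, D, h2⟩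
  choose G δ D hδ hD h1 using h1
  obtain ⟨δ0, hδ0, hδle⟩ : ∃ δ0 : ℝ, 0 < δ0 ∧ ∀ g ∈ 𝒢, δ0 ≤ δ g := by
    rcases 𝒢.eq_empty_or_nonempty with h | h
    · exact ⟨1, one_pos, by simp [h]⟩
    · obtain ⟨g, hg, hmin⟩ := Finset.exists_min_image 𝒢 δ h
      exact ⟨δ g, hδ g, hmin⟩
  refine ⟨𝒢.biUnion fun g => Θ.image (G g), ∑ g ∈ 𝒢, D g, Finset.sum_nonneg fun g _ => hD g, ?_⟩
  filter_upwards [hf, hu, hQ, eventually_le_one hw δ0 hδ0, eventually_le_one hw 1 one_pos]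
    with n ⟨g, hg, h2⟩ h3 h4 h5 h6
  have h7 : μ (ev2 Q (w n) (u n) - aeval (w n) (X ^ ρ * g)) ≤ A * μ (w n) ^ (L + 1) := by
    have h8 : ev2 Q (w n) (u n) - aeval (w n) (X ^ ρ * g) = w n ^ ρ * (f n - aeval (w n) g) := by
      rw [h4, map_mul, map_pow, aeval_X]
      ring
    rw [h8, map_mul, map_pow]
    have h9 : μ (w n) ^ ρ ≤ μ (w n) := by
      calc μ (w n) ^ ρ ≤ μ (w n) ^ 1 := pow_le_pow_of_le_one (μ.nonneg _) h6 hρ
        _ = μ (w n) := pow_one _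
    calc _ ≤ μ (w n) * (A * μ (w n) ^ L) := mul_le_mul h9 h2 (μ.nonneg _) (μ.nonneg _)
      _ = _ := by ring
  obtain ⟨θ, hθ, h8⟩ := h1 g (w n) (u n) (h5.trans (hδle g hg)) h3 h7
  refine ⟨G g θ, Finset.mem_biUnion.mpr ⟨g, hg, Finset.mem_image_of_mem _ hθ⟩, h8.trans ?_⟩
  exact mul_le_mul_of_nonneg_right (Finset.single_le_sum (f := D) (fun g _ => hD g) hg)
    (pow_nonneg (μ.nonneg _) _)

end Pool.Agent.Lib.MP_9ec2c5_nt_h65
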