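import Mathlib
import Pool.Agent.Lib.MP_9ec2c5_nt_h65.Approx

/-!
Slow orbits of a polynomial skew product, at a place where the base orbit tends to infinity.
-/

set_option autoImplicit false
set_option linter.unusedSectionVars false

namespace Pool.Agent.Lib.MP_9ec2c5_nt_h65

open Polynomial Finset Filter Topology

/-- The local data of a slow orbit. -/
structure LocalData (K Ω : Type) [Field K] [CharZero K] [Field Ω] [Algebra K Ω]
    (μ : AbsoluteValue Ω ℝ) where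
  /-- the polynomial of the base -/
  p : K[X]
  /-- the polynomial of the fibre -/
  q : K[X][X]
  /-- the base orbit -/
  x : ℕ → Ω
  /-- the fibre coordinate of the orbit -/
  y : ℕ → Ω
  hx : ∀ n, x (n + 1) = aeval (x n) p
  hy : ∀ n, y (n + 1) = ev2 q (x n) (y n)
  hd : 1 ≤ p.natDegree
  /-- denominator of the slope -/
  b : ℕ
  hb : 1 ≤ b
  /-- numerator of the slope -/
  a : ℤ
  /-- roots of the base orbit -/
  t : ℕ → Ω
  ht : ∀ n, t n ^ b = x n
  hinf : Tendsto (fun n => μ (x n)) atTop atTop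
  hslow : ∃ B : ℕ, ∀ᶠ n in atTop, μ (y n) ≤ μ (x n) ^ B
  /-- root of the leading coefficient -/
  lam : K
  hlam : lam ^ b = p.leadingCoeff
  /-- roots of unity -/
  Z : Finset K
  hZ : (X ^ b - 1 : K[X]) = ∏ ζ ∈ Z, (X - C ζ)
  /-- normalised fibre polynomial -/
  Q : K[X][X]
  /-- its weight -/
  N0 : ℤ
  hQ : ∀ w u : Ω, w ≠ 0 → ev2 Q w u = w ^ N0 * ev2 q (w⁻¹ ^ b) (w⁻¹ ^ a * u)
  /-- the roots of the leading form -/
  Θ : Finset K
  /-- the leading coefficient of the leading form -/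
  c : K
  hc : c ≠ 0
  hT : top0 Q = C c * ∏ θ ∈ Θ, (X - C θ)
  hder : ∀ θ ∈ Θ, (derivative (top0 Q)).eval θ ≠ 0
  hdeg : Q.natDegree ≤ Θ.card
  hde : p.natDegree < Θ.card
  /-- the gain of precision -/
  ρ : ℕ
  hρ1 : 1 ≤ ρ
  hρ : (ρ : ℤ) = N0 - a * p.natDegree

namespace LocalData

variable {K Ω : Type} [Field K] [CharZero K] [Field Ω] [Algebra K Ω] {μ : AbsoluteValue Ω ℝ}
  (D : LocalData K Ω μ)

/-- the small sequence -/
noncomputable def w (n : ℕ) : Ω := (D.t n)⁻¹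

/-- the normalised fibre coordinate -/
noncomputable def u (n : ℕ) : Ω := D.w n ^ D.a * D.y n

/-- the unit part of the next root -/
noncomputable def s (n : ℕ) : Ω := D.t (n + 1) * D.w n ^ D.p.natDegree * algebraMap K Ω D.lam⁻¹

lemma lead_ne : D.p.leadingCoeff ≠ 0 := by
  rw [Ne, leadingCoeff_eq_zero]
  intro h
  have := D.hd
  rw [h, natDegree_zero] at this
  omega

lemma lam_ne : D.lam ≠ 0 := by
  intro h
  have := D.hlam
  rw [h, zero_pow (by have := D.hb; omega)] at this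
  exact D.lead_ne this.symm

lemma ev_ne : ∀ᶠ n in atTop, D.t n ≠ 0 := by
  filter_upwards [D.hinf.eventually (eventually_gt_atTop 0)] with n hn h
  rw [← D.ht, h, zero_pow (by have := D.hb; omega), map_zero] at hn
  exact lt_irrefl _ hn

lemma tendsto_t : Tendsto (fun n => μ (D.t n)) atTop atTop := by
  rw [tendsto_atTop]
  intro R
  filter_upwards [D.hinf.eventually (eventually_ge_atTop (max R 1 ^ D.b))] with n hn
  rw [← D.ht, map_pow] at hn
  exact (le_max_left _ _).trans (le_of_pow_le_pow_left₀ (by have := D.hb; omega) (μ.nonneg _) hn)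

lemma tendsto_w : Tendsto (fun n => μ (D.w n)) atTop (𝓝 0) := by
  have h : (fun n => μ (D.w n)) = fun n => (μ (D.t n))⁻¹ := by
    funext n
    exact map_inv₀ μ _
  rw [h]
  exact D.tendsto_t.inv_tendsto_atTop

/-- the unit -/
noncomputable def P1 : K[X] := C D.p.leadingCoeff⁻¹ * expand K D.b D.p.reverse

lemma P1_zero : D.P1.coeff 0 = 1 := by
  rw [P1, coeff_C_mul, ← constantCoeff_apply, constantCoeff_apply, coeff_expand (by
    have := D.hb; omega), if_pos (dvd_zero _), Nat.zero_div, coeff_zero_reverse,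
    inv_mul_cancel₀ D.lead_ne]

lemma s_pow (n : ℕ) (hn : D.t n ≠ 0) : D.s n ^ D.b = aeval (D.w n) D.P1 := by
  have hx0 : D.t n ^ D.b ≠ 0 := pow_ne_zero _ hn
  let _ : Invertible (D.t n ^ D.b) := invertibleOfNonzero hx0
  have h1 := eval₂_reverse_mul_pow (algebraMap K Ω) (D.t n ^ D.b) D.p
  rw [invOf_eq_inv] at h1
  have h2 : aeval (D.w n) D.P1
      = algebraMap K Ω D.p.leadingCoeff⁻¹ * eval₂ (algebraMap K Ω) (D.t n ^ D.b)⁻¹ D.p.reverse := by
    rw [P1, map_mul, aeval_C, expand_aeval, w, inv_pow]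
    rfl
  have h3 : D.x (n + 1) = eval₂ (algebraMap K Ω) (D.t n ^ D.b) D.p := by
    rw [D.hx, D.ht]
    rfl
  rw [h2, s, mul_pow, mul_pow, D.ht, h3, ← h1, w, ← map_pow, inv_pow D.lam, D.hlam]
  have h4 : (D.t n ^ D.b) ^ D.p.natDegree * ((D.t n)⁻¹ ^ D.p.natDegree) ^ D.b = 1 := by
    rw [← pow_mul, ← pow_mul, mul_comm D.p.natDegree, ← mul_pow, mul_inv_cancel₀ hn, one_pow]
  calc _ = eval₂ (algebraMap K Ω) (D.t n ^ D.b)⁻¹ D.p.reverse *
        ((D.t n ^ D.b) ^ D.p.natDegree * ((D.t n)⁻¹ ^ D.p.natDegree) ^ D.b) *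
        algebraMap K Ω D.p.leadingCoeff⁻¹ := by ring
    _ = _ := by rw [h4]; ring

lemma ev_P1 : ∀ᶠ n in atTop, 1 / 2 ≤ μ (aeval (D.w n) D.P1) ∧ μ (aeval (D.w n) D.P1) ≤ 2 := by
  obtain ⟨C1, hC1, h1⟩ := small_of_dvd (μ := μ) (D.P1 - 1) 1 (by
    rw [pow_one, X_dvd_iff, coeff_sub, D.P1_zero, coeff_one_zero, sub_self]) 1
  filter_upwards [eventually_le_one D.tendsto_w 1 one_pos,
    eventually_le_one D.tendsto_w (1 / (2 * (C1 + 1))) (by positivity)] with n h2 h3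
  have h4 := h1 _ h2
  rw [map_sub, map_one, pow_one] at h4
  have h5 : C1 * μ (D.w n) ≤ 1 / 2 := by
    have h6 : (C1 + 1) * μ (D.w n) ≤ (C1 + 1) * (1 / (2 * (C1 + 1))) :=
      mul_le_mul_of_nonneg_left h3 (by positivity)
    have h7 : (C1 + 1) * (1 / (2 * (C1 + 1))) = 1 / 2 := by field_simp
    have := μ.nonneg (D.w n)
    linarith
  have h6 := μ.add_le (aeval (D.w n) D.P1 - 1) 1
  rw [sub_add_cancel, map_one] at h6
  have h7 := μ.add_le (aeval (D.w n) D.P1) (-(aeval (D.w n) D.P1 - 1))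
  have h8 : aeval (D.w n) D.P1 + -(aeval (D.w n) D.P1 - 1) = 1 := by ring
  rw [h8, μ.map_neg, map_one] at h7
  constructor <;> linarith

lemma pow_bound {b : ℕ} (hb : 1 ≤ b) {r : ℝ} (h : r ^ b ≤ 2) : r ≤ 2 := by
  by_contra hcon
  push Not at hcon
  have h1 : (2 : ℝ) ^ 1 ≤ 2 ^ b := pow_le_pow_right₀ (by norm_num) hb
  have h2 : (2 : ℝ) ^ b < r ^ b := pow_lt_pow_left₀ hcon (by norm_num) (by omega)
  linarith

lemma s_bound : ∀ᶠ n in atTop, μ (D.s n) ≤ 2 := by
  filter_upwards [D.ev_P1, D.ev_ne] with n h1 h2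
  apply pow_bound D.hb
  rw [← map_pow, D.s_pow n h2]
  exact h1.2

lemma s_inv_bound : ∀ᶠ n in atTop, μ (D.s n)⁻¹ ≤ 2 := by
  filter_upwards [D.ev_P1, D.ev_ne] with n h1 h2
  apply pow_bound D.hb
  rw [← map_pow, inv_pow, D.s_pow n h2, map_inv₀, inv_le_comm₀ (by linarith [h1.1]) (by norm_num)]
  linarith [h1.1]

lemma ev_s_ne : ∀ᶠ n in atTop, D.s n ≠ 0 := by
  filter_upwards [D.ev_P1, D.ev_ne] with n h1 h2 h3
  have h4 := D.s_pow n h2
  rw [h3, zero_pow (by have := D.hb; omega)] at h4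
  rw [← h4, map_zero] at h1
  linarith [h1.1]

lemma Z_der : ∀ ζ ∈ D.Z, (derivative (X ^ D.b - 1 : K[X])).eval ζ ≠ 0 := by
  intro ζ hζ
  have hb := D.hb
  have h1 : (X ^ D.b - 1 : K[X]).eval ζ = 0 := by
    rw [D.hZ, eval_prod]
    exact Finset.prod_eq_zero hζ (by rw [eval_sub, eval_X, eval_C, sub_self])
  rw [eval_sub, eval_pow, eval_X, eval_one] at h1
  have h2 : ζ ≠ 0 := by
    intro h
    rw [h, zero_pow (by omega)] at h1
    simp at h1
  rw [derivative_sub, derivative_one, sub_zero, derivative_X_pow, eval_mul, eval_pow, eval_X,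
    eval_C]
  exact mul_ne_zero (by exact_mod_cast (by omega : D.b ≠ 0)) (pow_ne_zero _ h2)

lemma approx_s (L : ℕ) : Approx μ K D.w D.s L := by
  have h1 : top0 (X ^ D.b - C D.P1 : K[X][X]) = C 1 * ∏ ζ ∈ D.Z, (X - C ζ) := by
    rw [top0, Polynomial.map_sub, Polynomial.map_pow, map_X, map_C, constantCoeff_apply, D.P1_zero,
      map_one, ← D.hZ, one_mul]
  have h2 : top0 (X ^ D.b - C D.P1 : K[X][X]) = X ^ D.b - 1 := by
    rw [h1, ← D.hZ, map_one, one_mul]
  have key : Approx μ K D.w D.s (L + 1) := by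
    refine Approx.root D.tendsto_w (X ^ D.b - C D.P1) D.Z 1 one_ne_zero h1 (by
      rw [h2]
      exact D.Z_der) (le_refl 1) (f := fun _ => algebraMap K Ω 0) (Approx.const 0 L) 2 (by norm_num)
      D.s_bound ?_
    filter_upwards [D.ev_ne] with n hn
    have h3 : ev2 (X ^ D.b - C D.P1 : K[X][X]) (D.w n) (D.s n)
        = D.s n ^ D.b - aeval (D.w n) D.P1 := by
      unfold ev2
      rw [eval₂_sub, eval₂_pow, eval₂_X, eval₂_C]
      rfl
    rw [h3, D.s_pow n hn, sub_self, map_zero, mul_zero]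
  obtain ⟨𝒢, C1, hC1, h⟩ := key
  refine ⟨𝒢, C1, hC1, ?_⟩
  filter_upwards [h, eventually_le_one D.tendsto_w 1 one_pos] with n ⟨g, hg, h4⟩ h5
  refine ⟨g, hg, h4.trans (mul_le_mul_of_nonneg_left ?_ hC1)⟩
  exact pow_le_pow_of_le_one (μ.nonneg _) h5 (Nat.le_succ _)

lemma approx_s_inv (L : ℕ) : Approx μ K D.w (fun n => (D.s n)⁻¹) L := by
  have h2 : top0 (C D.P1 * X ^ D.b - 1 : K[X][X]) = X ^ D.b - 1 := by
    rw [top0, Polynomial.map_sub, Polynomial.map_mul, Polynomial.map_pow, map_X, map_C,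
      constantCoeff_apply, D.P1_zero, map_one, one_mul, Polynomial.map_one]
  have h1 : top0 (C D.P1 * X ^ D.b - 1 : K[X][X]) = C 1 * ∏ ζ ∈ D.Z, (X - C ζ) := by
    rw [h2, ← D.hZ, map_one, one_mul]
  have key : Approx μ K D.w (fun n => (D.s n)⁻¹) (L + 1) := by
    refine Approx.root D.tendsto_w (C D.P1 * X ^ D.b - 1) D.Z 1 one_ne_zero h1 (by
      rw [h2]
      exact D.Z_der) (le_refl 1) (f := fun _ => algebraMap K Ω 0) (Approx.const 0 L) 2 (by norm_num)
      D.s_inv_bound ?_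
    filter_upwards [D.ev_ne, D.ev_s_ne] with n hn hs
    have h3 : ev2 (C D.P1 * X ^ D.b - 1 : K[X][X]) (D.w n) (D.s n)⁻¹
        = aeval (D.w n) D.P1 * (D.s n)⁻¹ ^ D.b - 1 := by
      unfold ev2
      rw [eval₂_sub, eval₂_mul, eval₂_pow, eval₂_X, eval₂_C, eval₂_one]
      rfl
    rw [h3, ← D.s_pow n hn, ← mul_pow, mul_inv_cancel₀ hs, one_pow, sub_self, map_zero, mul_zero]
  obtain ⟨𝒢, C1, hC1, h⟩ := key
  refine ⟨𝒢, C1, hC1, ?_⟩
  filter_upwards [h, eventually_le_one D.tendsto_w 1 one_pos] with n ⟨g, hg, h4⟩ h5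
  refine ⟨g, hg, h4.trans (mul_le_mul_of_nonneg_left ?_ hC1)⟩
  exact pow_le_pow_of_le_one (μ.nonneg _) h5 (Nat.le_succ _)

/-- the next root -/
lemma t_succ (n : ℕ) (hn : D.t n ≠ 0) :
    D.t (n + 1) = algebraMap K Ω D.lam * D.s n * D.t n ^ D.p.natDegree := by
  have h1 : algebraMap K Ω D.lam ≠ 0 := by
    rw [Ne, map_eq_zero]
    exact D.lam_ne
  rw [s, w, map_inv₀, inv_pow]
  field_simp

lemma w_succ : ∀ᶠ n in atTop,
    D.w (n + 1) = D.w n ^ D.p.natDegree * (algebraMap K Ω D.lam⁻¹ * (D.s n)⁻¹) := by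
  filter_upwards [D.ev_ne] with n hn
  rw [w, D.t_succ n hn, w, mul_inv, mul_inv, map_inv₀, inv_pow]
  ring

/-- the unit in the functional equation -/
noncomputable def E (n : ℕ) : Ω := (algebraMap K Ω D.lam * D.s n) ^ D.a

lemma approx_E (L : ℕ) : Approx μ K D.w D.E L := by
  rcases Int.eq_nat_or_neg D.a with ⟨k, hk | hk⟩
  · have h := ((Approx.const (μ := μ) (w := D.w) D.lam L).mul D.tendsto_w
      (D.approx_s L)).pow D.tendsto_w k
    refine cast ?_ h
    congr 1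
    funext n
    rw [E, hk, zpow_natCast]
  · have h := ((Approx.const (μ := μ) (w := D.w) D.lam⁻¹ L).mul D.tendsto_w
      (D.approx_s_inv L)).pow D.tendsto_w k
    refine cast ?_ h
    congr 1
    funext n
    rw [E, hk, zpow_neg, zpow_natCast, ← inv_pow, mul_inv, map_inv₀]

lemma functional : ∀ᶠ n in atTop,
    ev2 D.Q (D.w n) (D.u n) = D.w n ^ D.ρ * (D.E n * D.u (n + 1)) := by
  filter_upwards [D.ev_ne, (tendsto_add_atTop_nat 1).eventually D.ev_ne] with n hn hn1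
  have hw : D.w n ≠ 0 := inv_ne_zero hn
  have hw1 : D.w (n + 1) ≠ 0 := inv_ne_zero hn1
  have ht : (D.w n)⁻¹ = D.t n := inv_inv _
  rw [D.hQ _ _ hw, ht, D.ht, u]
  have h1 : D.t n ^ D.a * (D.w n ^ D.a * D.y n) = D.y n := by
    rw [← mul_assoc, ← mul_zpow, w, mul_inv_cancel₀ hn, one_zpow, one_mul]
  rw [h1, ← D.hy, u]
  have h2 : D.y (n + 1) = D.t (n + 1) ^ D.a * (D.w (n + 1) ^ D.a * D.y (n + 1)) := by
    rw [← mul_assoc, ← mul_zpow, w, mul_inv_cancel₀ hn1, one_zpow, one_mul]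
  have h3 : D.t (n + 1) ^ D.a = D.E n * D.t n ^ ((D.p.natDegree : ℤ) * D.a) := by
    rw [D.t_succ n hn, mul_zpow, E, zpow_mul, zpow_natCast]
  have h4 : D.w n ^ D.N0 * D.t n ^ ((D.p.natDegree : ℤ) * D.a) = D.w n ^ D.ρ := by
    rw [← zpow_natCast, D.hρ, ← ht, inv_zpow', ← zpow_add₀ hw]
    congr 1
    ring
  conv_lhs => rw [h2, h3]
  rw [← h4]
  ring

/-- the norm of the unit in the functional equation is bounded -/
lemma E_bound : ∃ R : ℝ, 0 < R ∧ ∀ᶠ n in atTop, μ (D.E n) ≤ R := by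
  obtain ⟨R, hR, h⟩ := (D.approx_E 0).bounded D.tendsto_w
  exact ⟨R + 1, by positivity, h.mono fun n hn => by linarith⟩

/-- the top coefficient dominates -/
lemma Q_lower : ∃ C1 c1 : ℝ, 1 ≤ C1 ∧ 0 < c1 ∧ ∀ᶠ n in atTop, ∀ v : Ω, C1 ≤ μ v →
    c1 * μ v ^ D.Θ.card ≤ μ (ev2 D.Q (D.w n) v) := by
  set e := D.Θ.card with he
  have he1 : 1 ≤ e := by
    have := D.hd
    have := D.hde
    omega
  have htop : (D.Q.coeff e).coeff 0 = D.c := by
    have h1 : (top0 D.Q).coeff e = (D.Q.coeff e).coeff 0 := by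
      rw [top0, coeff_map]
      rfl
    rw [← h1, D.hT, coeff_C_mul]
    have h2 : (∏ θ ∈ D.Θ, (X - C θ) : K[X]).Monic := monic_prod_of_monic _ _ fun θ _ => monic_X_sub_C θ
    have h3 : (∏ θ ∈ D.Θ, (X - C θ) : K[X]).natDegree = e := by
      rw [natDegree_prod_of_monic _ _ fun θ _ => monic_X_sub_C θ]
      simp [he]
    have h4 := h2.coeff_natDegree
    rw [h3] at h4
    rw [h4, mul_one]
  set ν : ℝ := μ (algebraMap K Ω D.c) with hν
  have hν0 : 0 < ν := by
    apply μ.pos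
    rw [Ne, map_eq_zero]
    exact D.hc
  have hb : ∀ g : K[X], ∃ B : ℝ, 0 ≤ B ∧ ∀ w : Ω, μ w ≤ 1 → μ (aeval w g) ≤ B := by
    intro g
    obtain ⟨B, hB, h2, -⟩ := Nice.poly (μ := μ) g 0 1
    exact ⟨B, hB, fun w hw => h2 (fun _ => w) fun _ => hw⟩
  choose B hB hb using hb
  obtain ⟨C2, hC2, h2⟩ := small_of_dvd (μ := μ) (D.Q.coeff e - C D.c) 1 (by
    rw [pow_one, X_dvd_iff, coeff_sub, htop, coeff_C_zero, sub_self]) 1
  set S : ℝ := ∑ j ∈ range e, B (D.Q.coeff j) with hS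
  have hS0 : 0 ≤ S := Finset.sum_nonneg fun j _ => hB _
  refine ⟨max 1 (4 * S / ν), ν / 4, le_max_left _ _, by positivity, ?_⟩
  filter_upwards [eventually_le_one D.tendsto_w 1 one_pos,
    eventually_le_one D.tendsto_w (ν / (2 * (C2 + 1))) (by positivity)] with n h3 h4 v hv
  have hv1 : 1 ≤ μ v := (le_max_left _ _).trans hv
  have hv2 : 4 * S / ν ≤ μ v := (le_max_right _ _).trans hv
  have h5 : ν / 2 ≤ μ (aeval (D.w n) (D.Q.coeff e)) := by
    have h6 := h2 _ h3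
    rw [map_sub, aeval_C, pow_one] at h6
    have h7 : C2 * μ (D.w n) ≤ ν / 2 := by
      have h8 : (C2 + 1) * μ (D.w n) ≤ (C2 + 1) * (ν / (2 * (C2 + 1))) :=
        mul_le_mul_of_nonneg_left h4 (by positivity)
      have h9 : (C2 + 1) * (ν / (2 * (C2 + 1))) = ν / 2 := by field_simp
      have := μ.nonneg (D.w n)
      linarith
    have h8 := μ.add_le (aeval (D.w n) (D.Q.coeff e))
      (-(aeval (D.w n) (D.Q.coeff e) - algebraMap K Ω D.c))
    have h9 : aeval (D.w n) (D.Q.coeff e) + -(aeval (D.w n) (D.Q.coeff e) - algebraMap K Ω D.c)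
        = algebraMap K Ω D.c := by ring
    rw [h9, μ.map_neg] at h8
    linarith
  have h6 : ev2 D.Q (D.w n) v = (∑ j ∈ range e, aeval (D.w n) (D.Q.coeff j) * v ^ j)
      + aeval (D.w n) (D.Q.coeff e) * v ^ e := by
    have h7 : ev2 D.Q (D.w n) v = ∑ j ∈ range (e + 1), aeval (D.w n) (D.Q.coeff j) * v ^ j := by
      rw [ev2_eq]
      apply Finset.sum_subset
      · exact Finset.range_subset_range.mpr (Nat.succ_le_succ D.hdeg)
      · intro j _ hj
        rw [Finset.mem_range, not_lt] at hj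
        rw [coeff_eq_zero_of_natDegree_lt (by omega), map_zero, zero_mul]
    rw [h7, Finset.sum_range_succ]
  have h7 : μ (∑ j ∈ range e, aeval (D.w n) (D.Q.coeff j) * v ^ j) ≤ S * μ v ^ (e - 1) := by
    refine (μ.sum_le _ _).trans ?_
    rw [hS, Finset.sum_mul]
    apply Finset.sum_le_sum
    intro j hj
    rw [map_mul, map_pow]
    have hj' := Finset.mem_range.mp hj
    exact mul_le_mul (hb _ _ h3) (pow_le_pow_right₀ hv1 (by omega)) (pow_nonneg (μ.nonneg _) _)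
      (hB _)
  have h8 : S * μ v ^ (e - 1) ≤ ν / 4 * μ v ^ e := by
    have h9 : μ v ^ e = μ v * μ v ^ (e - 1) := by
      conv_lhs => rw [show e = (e - 1) + 1 by omega]
      rw [pow_succ]
      ring
    rw [h9]
    rw [div_le_iff₀ hν0] at hv2
    have h10 : 0 ≤ μ v ^ (e - 1) := pow_nonneg (μ.nonneg _) _
    nlinarith
  have h9 : ν / 2 * μ v ^ e ≤ μ (aeval (D.w n) (D.Q.coeff e) * v ^ e) := by
    rw [map_mul, map_pow]
    exact mul_le_mul_of_nonneg_right h5 (pow_nonneg (μ.nonneg _) _)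
  have h10 : μ (aeval (D.w n) (D.Q.coeff e) * v ^ e) ≤ μ (ev2 D.Q (D.w n) v)
      + μ (∑ j ∈ range e, aeval (D.w n) (D.Q.coeff j) * v ^ j) := by
    have h11 := μ.add_le (ev2 D.Q (D.w n) v)
      (-(∑ j ∈ range e, aeval (D.w n) (D.Q.coeff j) * v ^ j))
    have h12 : ev2 D.Q (D.w n) v + -(∑ j ∈ range e, aeval (D.w n) (D.Q.coeff j) * v ^ j)
        = aeval (D.w n) (D.Q.coeff e) * v ^ e := by
      rw [h6]
      ring
    rw [h12, μ.map_neg] at h11
    exact h11
  linarith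

/-- once large, the fibre coordinate escapes -/
lemma escape : ∃ C1 : ℝ, 2 ≤ C1 ∧ ∀ᶠ n in atTop, C1 ≤ μ (D.u n) →
    μ (D.u n) ^ D.Θ.card ≤ μ (D.u (n + 1)) := by
  obtain ⟨C1, c1, hC1, hc1, h1⟩ := D.Q_lower
  obtain ⟨R, hR, h2⟩ := D.E_bound
  refine ⟨max 2 C1, le_max_left _ _, ?_⟩
  filter_upwards [h1, h2, D.functional, eventually_le_one D.tendsto_w 1 one_pos,
    eventually_le_one D.tendsto_w (c1 / R) (by positivity)] with n h3 h4 h5 h6 h7 h8
  have h9 := h3 (D.u n) ((le_max_right _ _).trans h8)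
  rw [h5, map_mul, map_mul, map_pow] at h9
  have h10 : μ (D.w n) ^ D.ρ ≤ μ (D.w n) := by
    calc μ (D.w n) ^ D.ρ ≤ μ (D.w n) ^ 1 := pow_le_pow_of_le_one (μ.nonneg _) h6 D.hρ1
      _ = μ (D.w n) := pow_one _
  have h11 : μ (D.w n) ^ D.ρ * (μ (D.E n) * μ (D.u (n + 1))) ≤ c1 * μ (D.u (n + 1)) := by
    have h12 : μ (D.w n) ^ D.ρ * μ (D.E n) ≤ c1 / R * R :=
      mul_le_mul (h10.trans h7) h4 (μ.nonneg _) (by positivity)
    rw [div_mul_cancel₀ _ hR.ne'] at h12
    calc _ = (μ (D.w n) ^ D.ρ * μ (D.E n)) * μ (D.u (n + 1)) := by ring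
      _ ≤ _ := mul_le_mul_of_nonneg_right h12 (μ.nonneg _)
  exact le_of_mul_le_mul_left (h9.trans h11) hc1

/-- crude upper bound for the fibre coordinate -/
lemma u_upper : ∃ M : ℕ, ∀ᶠ n in atTop, μ (D.u n) ≤ μ (D.t n) ^ M := by
  obtain ⟨B, hB⟩ := D.hslow
  refine ⟨D.a.natAbs + D.b * B, ?_⟩
  filter_upwards [hB, D.tendsto_t.eventually (eventually_ge_atTop 1)] with n h1 h2
  rw [u, map_mul, map_zpow₀, pow_add, pow_mul]
  have h3 : μ (D.w n) = (μ (D.t n))⁻¹ := map_inv₀ μ _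
  have h4 : μ (D.t n) ^ D.b = μ (D.x n) := by rw [← map_pow, D.ht]
  rw [h3, h4]
  refine mul_le_mul ?_ h1 (μ.nonneg _) (pow_nonneg (μ.nonneg _) _)
  rw [inv_zpow', ← zpow_natCast]
  exact zpow_le_zpow_right₀ h2 (by omega)

/-- growth of the base orbit -/
lemma t_growth : ∃ C1 : ℝ, 1 ≤ C1 ∧ ∀ᶠ n in atTop,
    μ (D.t (n + 1)) ≤ C1 * μ (D.t n) ^ D.p.natDegree := by
  refine ⟨max 1 (μ (algebraMap K Ω D.lam) * 2), le_max_left _ _, ?_⟩
  filter_upwards [D.ev_ne, D.s_bound] with n h1 h2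
  rw [D.t_succ n h1, map_mul, map_mul, map_pow]
  apply mul_le_mul_of_nonneg_right _ (pow_nonneg (μ.nonneg _) _)
  exact (mul_le_mul_of_nonneg_left h2 (μ.nonneg _)).trans (le_max_right _ _)

/-- an elementary comparison of growth -/
lemma growth_false (d e : ℕ) (hde : d < e) (A B l : ℝ) (hl : 0 < l)
    (h : ∀ k : ℕ, (e : ℝ) ^ k * l ≤ (d : ℝ) ^ k * (A + B * k)) : False := by
  have he : (0 : ℝ) < e := by
    have : 0 < e := by omega
    exact_mod_cast this
  have hd : (0 : ℝ) ≤ d := Nat.cast_nonneg d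
  set r : ℝ := d / e with hr
  have hr0 : 0 ≤ r := by positivity
  have hr1 : r < 1 := by
    rw [hr, div_lt_one he]
    exact_mod_cast hde
  have h1 : ∀ k : ℕ, l ≤ A * r ^ k + B * (k * r ^ k) := by
    intro k
    have h2 := h k
    have h3 : (0 : ℝ) < (e : ℝ) ^ k := by positivity
    have h4 : l ≤ (d : ℝ) ^ k * (A + B * k) / (e : ℝ) ^ k := by
      rw [le_div_iff₀ h3]
      linarith
    refine h4.trans (le_of_eq ?_)
    rw [hr, div_pow]
    ring
  have h2 : Tendsto (fun k : ℕ => A * r ^ k + B * (k * r ^ k)) atTop (𝓝 (A * 0 + B * 0)) :=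
    ((tendsto_pow_atTop_nhds_zero_of_lt_one hr0 hr1).const_mul A).add
      ((tendsto_self_mul_const_pow_of_lt_one hr0 hr1).const_mul B)
  have h3 := ge_of_tendsto' h2 h1
  linarith

/-- the normalised fibre coordinate of a slow orbit is bounded -/
lemma u_bounded : ∃ C1 : ℝ, 0 ≤ C1 ∧ ∀ᶠ n in atTop, μ (D.u n) ≤ C1 := by
  obtain ⟨C1, hC1, h1⟩ := D.escape
  obtain ⟨M, h2⟩ := D.u_upper
  obtain ⟨C2, hC2, h3⟩ := D.t_growth
  refine ⟨C1, by linarith, ?_⟩
  have h4 := D.tendsto_t.eventually (eventually_ge_atTop 1)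
  obtain ⟨n0, hn0⟩ := eventually_atTop.mp (h1.and (h2.and (h3.and h4)))
  rw [eventually_atTop]
  refine ⟨n0, fun n hn => ?_⟩
  by_contra hcon
  push Not at hcon
  set e := D.Θ.card with he
  set d := D.p.natDegree with hd
  have he1 : 1 ≤ e := by
    have := D.hd
    have := D.hde
    omega
  have h5 : ∀ k : ℕ, C1 ^ (e ^ k) ≤ μ (D.u (n + k)) := by
    intro k
    induction k with
    | zero =>
      rw [pow_zero, pow_one, add_zero]
      exact hcon.le
    | succ k ih =>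
      have h6 : C1 ≤ μ (D.u (n + k)) := by
        refine le_trans ?_ ih
        calc C1 = C1 ^ 1 := (pow_one _).symm
          _ ≤ C1 ^ (e ^ k) := pow_le_pow_right₀ (by linarith) (Nat.one_le_pow _ _ he1)
      have h7 := (hn0 (n + k) (by omega)).1 h6
      rw [pow_succ, pow_mul]
      exact (pow_le_pow_left₀ (by positivity) ih e).trans h7
  have h6 : ∀ k : ℕ, Real.log (μ (D.t (n + k)))
      ≤ (d : ℝ) ^ k * (Real.log (μ (D.t n)) + Real.log C2 * k) := by
    intro k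
    induction k with
    | zero => simp
    | succ k ih =>
      obtain ⟨-, -, h7, h8⟩ := hn0 (n + k) (by omega)
      obtain ⟨-, -, -, h9⟩ := hn0 (n + k + 1) (by omega)
      have h10 : Real.log (μ (D.t (n + k + 1))) ≤ Real.log C2 + d * Real.log (μ (D.t (n + k))) := by
        rw [← Real.log_pow, ← Real.log_mul (by positivity) (by positivity)]
        exact Real.log_le_log (by linarith) h7
      have hd1 : (1 : ℝ) ≤ (d : ℝ) := by exact_mod_cast D.hd
      have h11 : (1 : ℝ) ≤ (d : ℝ) ^ (k + 1) := one_le_pow₀ hd1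
      have h12 : 0 ≤ Real.log C2 := Real.log_nonneg hC2
      have h13 : (d : ℝ) * Real.log (μ (D.t (n + k)))
          ≤ d * ((d : ℝ) ^ k * (Real.log (μ (D.t n)) + Real.log C2 * k)) :=
        mul_le_mul_of_nonneg_left ih (by linarith)
      rw [← add_assoc]
      push_cast
      have h14 : (d : ℝ) ^ (k + 1) * (Real.log (μ (D.t n)) + Real.log C2 * (k + 1))
          = d * ((d : ℝ) ^ k * (Real.log (μ (D.t n)) + Real.log C2 * k))
            + (d : ℝ) ^ (k + 1) * Real.log C2 := by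
        rw [pow_succ]
        ring
      rw [h14]
      nlinarith
  refine growth_false d e D.hde (M * Real.log (μ (D.t n))) (M * Real.log C2) (Real.log C1)
    (Real.log_pos (by linarith)) ?_
  intro k
  obtain ⟨-, h7, -, h8⟩ := hn0 (n + k) (by omega)
  have h9 := (h5 k).trans h7
  have h10 := Real.log_le_log (by positivity) h9
  rw [Real.log_pow, Real.log_pow] at h10
  push_cast at h10
  refine h10.trans ?_
  have h11 := mul_le_mul_of_nonneg_left (h6 k) (Nat.cast_nonneg (α := ℝ) M)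
  refine h11.trans (le_of_eq ?_)
  ring

/-- The normalised fibre coordinate of a slow orbit is approximated to any order by finitely many
polynomials in the small base coordinate. -/
theorem approx_u (L : ℕ) : Approx μ K D.w D.u L := by
  obtain ⟨C1, hC1, hb⟩ := D.u_bounded
  induction L with
  | zero => exact Approx.zero D.u C1 hC1 hb
  | succ L ih =>
    exact Approx.root D.tendsto_w D.Q D.Θ D.c D.hc D.hT D.hder D.hρ1
      ((D.approx_E L).mul D.tendsto_w
        (Approx.shift D.tendsto_w D.hd D.lam⁻¹ (D.approx_s_inv L) D.w_succ ih))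
      C1 hC1 hb D.functional

end LocalData

end Pool.Agent.Lib.MP_9ec2c5_nt_h65
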