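import Mathlib
import Pool.Agent.Lib.MP_9ec2c5_nt_h65.Local

/-!
Auxiliary polynomials over the base field which are tiny along a slow orbit.
-/

set_option autoImplicit false
set_option linter.unusedSectionVars false

namespace Pool.Agent.Lib.MP_9ec2c5_nt_h65

open Polynomial Finset Filter Topology

variable {k K Ω : Type} [Field k] [Field K] [Field Ω] [Algebra k K] [Algebra K Ω]
  [Algebra k Ω] [IsScalarTower k K Ω] [FiniteDimensional k K] {μ : AbsoluteValue Ω ℝ}

/-- exponents -/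
def expo (b : ℕ) (a : ℤ) (N i j : ℕ) : ℕ := (((b + a.natAbs) * N : ℕ) - b * i - a * j : ℤ).toNat

lemma expo_spec (b : ℕ) (a : ℤ) (N i j : ℕ) (hi : i ≤ N) (hj : j ≤ N) :
    (expo b a N i j : ℤ) = ((b + a.natAbs) * N : ℕ) - b * i - a * j := by
  rw [expo, Int.toNat_of_nonneg]
  have h1 : (b : ℤ) * i ≤ b * N := by
    have : (i : ℤ) ≤ N := by exact_mod_cast hi
    exact mul_le_mul_of_nonneg_left this (by positivity)
  have h2 : a * j ≤ a.natAbs * N := by
    have h3 : a ≤ a.natAbs := Int.le_natAbs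
    have h4 : (j : ℤ) ≤ N := by exact_mod_cast hj
    calc a * j ≤ a.natAbs * j := mul_le_mul_of_nonneg_right h3 (by positivity)
      _ ≤ a.natAbs * N := mul_le_mul_of_nonneg_left h4 (by positivity)
  push_cast
  push_cast at h2
  linarith

/-- the polynomial with given coefficients -/
noncomputable def mkP (N : ℕ) (c : Fin (N + 1) × Fin (N + 1) → k) : k[X][X] :=
  ∑ ij, monomial (ij.2 : ℕ) (monomial (ij.1 : ℕ) (c ij))

lemma mkP_coeff (N : ℕ) (c : Fin (N + 1) × Fin (N + 1) → k) (i j : Fin (N + 1)) :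
    ((mkP N c).coeff j).coeff i = c (i, j) := by
  classical
  rw [mkP, finsetSum_coeff, finsetSum_coeff, Finset.sum_eq_single (i, j)]
  · rw [coeff_monomial_same, coeff_monomial_same]
  · intro ij _ hne
    rw [coeff_monomial]
    split_ifs with h
    · rw [coeff_monomial, if_neg]
      intro h2
      exact hne (Prod.ext (Fin.ext h2) (Fin.ext h))
    · rw [coeff_zero]
  · intro h
    exact absurd (Finset.mem_univ _) h

lemma mkP_ne (N : ℕ) (c : Fin (N + 1) × Fin (N + 1) → k) (hc : c ≠ 0) : mkP N c ≠ 0 := by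
  intro h
  apply hc
  funext ⟨i, j⟩
  rw [← mkP_coeff N c i j, h, coeff_zero, coeff_zero]
  rfl

lemma mkP_natDegree (N : ℕ) (c : Fin (N + 1) × Fin (N + 1) → k) : (mkP N c).natDegree ≤ N := by
  rw [natDegree_le_iff_coeff_eq_zero]
  intro M hM
  rw [mkP, finsetSum_coeff]
  refine Finset.sum_eq_zero fun ij _ => ?_
  rw [coeff_monomial, if_neg]
  have := ij.2.isLt
  omega

lemma mkP_coeff_natDegree (N : ℕ) (c : Fin (N + 1) × Fin (N + 1) → k) (j : ℕ) :
    ((mkP N c).coeff j).natDegree ≤ N := by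
  rw [natDegree_le_iff_coeff_eq_zero]
  intro M hM
  rw [mkP, finsetSum_coeff, finsetSum_coeff]
  refine Finset.sum_eq_zero fun ij _ => ?_
  rw [coeff_monomial]
  split_ifs
  · rw [coeff_monomial, if_neg]
    have := ij.1.isLt
    omega
  · exact coeff_zero _

lemma ev2_mkP (N : ℕ) (c : Fin (N + 1) × Fin (N + 1) → k) (x y : Ω) :
    ev2 (mkP N c) x y = ∑ ij, algebraMap k Ω (c ij) * (x ^ (ij.1 : ℕ) * y ^ (ij.2 : ℕ)) := by
  unfold ev2
  rw [mkP, eval₂_finsetSum]
  refine Finset.sum_congr rfl fun ij _ => ?_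
  rw [eval₂_monomial]
  show aeval x (monomial (ij.1 : ℕ) (c ij)) * y ^ (ij.2 : ℕ) = _
  rw [aeval_monomial, mul_assoc]

/-- the linear system -/
noncomputable def sys (k : Type) [Field k] [Algebra k K] (b : ℕ) (a : ℤ) (N : ℕ) (g : K[X]) :
    (Fin (N + 1) × Fin (N + 1) → k) →ₗ[k] K[X] where
  toFun c := ∑ ij, C (algebraMap k K (c ij)) * (X ^ expo b a N ij.1 ij.2 * g ^ (ij.2 : ℕ))
  map_add' c c' := by
    rw [← Finset.sum_add_distrib]
    refine Finset.sum_congr rfl fun ij _ => ?_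
    rw [Pi.add_apply, map_add, map_add, add_mul]
  map_smul' r c := by
    rw [RingHom.id_apply, Finset.smul_sum]
    refine Finset.sum_congr rfl fun ij _ => ?_
    rw [Pi.smul_apply, smul_eq_mul, map_mul, map_mul, mul_assoc, Algebra.smul_def]
    rfl

lemma exists_coeffs (b : ℕ) (a : ℤ) (N L : ℕ) (hNL : L * Module.finrank k K < (N + 1) ^ 2)
    (g : K[X]) : ∃ c : Fin (N + 1) × Fin (N + 1) → k, c ≠ 0 ∧ X ^ L ∣ sys k b a N g c := by
  let T : (Fin (N + 1) × Fin (N + 1) → k) →ₗ[k] (Fin L → K) :=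
    LinearMap.pi fun l => ((lcoeff K l).restrictScalars k).comp (sys k b a N g)
  have h1 : Module.finrank k (Fin L → K) < Module.finrank k (Fin (N + 1) × Fin (N + 1) → k) := by
    rw [Module.finrank_pi_fintype, Module.finrank_fintype_fun_eq_card]
    simp only [Finset.sum_const, Finset.card_univ, Fintype.card_fin, smul_eq_mul,
      Fintype.card_prod]
    rw [← pow_two]
    exact hNL
  have h2 := LinearMap.ker_ne_bot_of_finrank_lt (f := T) h1
  obtain ⟨c, hc, hc0⟩ := Submodule.exists_mem_ne_zero_of_ne_bot h2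
  refine ⟨c, hc0, ?_⟩
  rw [X_pow_dvd_iff]
  intro d hd
  rw [LinearMap.mem_ker] at hc
  exact congrFun hc ⟨d, hd⟩

lemma exists_poly (b : ℕ) (a : ℤ) (N L : ℕ) (hNL : L * Module.finrank k K < (N + 1) ^ 2)
    (g : K[X]) (R : ℝ) : ∃ P : k[X][X], P ≠ 0 ∧ P.natDegree ≤ N ∧
      (∀ j, (P.coeff j).natDegree ≤ N) ∧ ∃ C1 : ℝ, 0 ≤ C1 ∧ ∀ w u : Ω, w ≠ 0 → μ w ≤ 1 → μ u ≤ R →
        μ (w ^ ((b + a.natAbs) * N) * ev2 P (w⁻¹ ^ b) (w⁻¹ ^ a * u))
          ≤ C1 * (μ w ^ L + μ (u - aeval w g)) := by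
  obtain ⟨c, hc0, hc⟩ := exists_coeffs (k := k) b a N L hNL g
  refine ⟨mkP N c, mkP_ne N c hc0, mkP_natDegree N c, mkP_coeff_natDegree N c, ?_⟩
  obtain ⟨A, hA, h1⟩ := small_of_dvd (μ := μ) (sys k b a N g c) L hc 1
  obtain ⟨G, hG, h2, -⟩ := Nice.poly (μ := μ) g 0 1
  have h3 : Nice μ (fun z : Fin 3 → Ω => ∑ ij : Fin (N + 1) × Fin (N + 1),
      algebraMap k Ω (c ij) * (z 0 ^ expo b a N ij.1 ij.2 * z 1 ^ (ij.2 : ℕ))) :=
    Nice.sum _ _ fun ij _ => (Nice.const _).mul (((Nice.coord 0).pow _).mul ((Nice.coord 1).pow _))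
  obtain ⟨B, hB, -, h4⟩ := h3 (max 1 (max R G))
  refine ⟨max A B, le_trans hA (le_max_left _ _), fun w u hw hw1 hu => ?_⟩
  have h5 : w ^ ((b + a.natAbs) * N) * ev2 (mkP N c) (w⁻¹ ^ b) (w⁻¹ ^ a * u)
      = ∑ ij : Fin (N + 1) × Fin (N + 1),
        algebraMap k Ω (c ij) * (w ^ expo b a N ij.1 ij.2 * u ^ (ij.2 : ℕ)) := by
    rw [ev2_mkP, Finset.mul_sum]
    refine Finset.sum_congr rfl fun ij _ => ?_
    have h6 : w ^ ((b + a.natAbs) * N) * ((w⁻¹ ^ b) ^ (ij.1 : ℕ) * (w⁻¹ ^ a) ^ (ij.2 : ℕ))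
        = w ^ expo b a N ij.1 ij.2 := by
      have h7 := expo_spec b a N ij.1 ij.2 (by have := ij.1.isLt; omega) (by
        have := ij.2.isLt
        omega)
      rw [← zpow_natCast w (expo b a N ij.1 ij.2), h7, zpow_sub₀ hw, zpow_sub₀ hw, zpow_natCast,
        ← pow_mul, ← zpow_natCast (w⁻¹ ^ a), ← zpow_mul, inv_zpow, inv_pow]
      rw [div_eq_mul_inv, div_eq_mul_inv, ← zpow_natCast w (b * (ij.1 : ℕ))]
      push_cast
      ring
    rw [mul_pow, ← h6]
    ring
  have h6 : aeval w (sys k b a N g c) = ∑ ij : Fin (N + 1) × Fin (N + 1),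
        algebraMap k Ω (c ij) * (w ^ expo b a N ij.1 ij.2 * aeval w g ^ (ij.2 : ℕ)) := by
    show aeval w (∑ ij : Fin (N + 1) × Fin (N + 1),
      C (algebraMap k K (c ij)) * (X ^ expo b a N ij.1 ij.2 * g ^ (ij.2 : ℕ))) = _
    rw [map_sum]
    refine Finset.sum_congr rfl fun ij _ => ?_
    rw [map_mul, map_mul, map_pow, map_pow, aeval_X, aeval_C, ← IsScalarTower.algebraMap_apply]
  have h7 := h4 ![w, u, 0] ![w, aeval w g, 0] (μ (u - aeval w g)) (by
    intro i
    fin_cases i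
    · exact hw1.trans (le_max_left _ _)
    · exact (hu.trans (le_max_left _ _)).trans (le_max_right _ _)
    · show μ 0 ≤ _
      rw [map_zero]
      exact zero_le_one.trans (le_max_left _ _)) (by
    intro i
    fin_cases i
    · exact hw1.trans (le_max_left _ _)
    · exact ((h2 (fun _ => w) fun _ => hw1).trans (le_max_right _ _)).trans (le_max_right _ _)
    · show μ 0 ≤ _
      rw [map_zero]
      exact zero_le_one.trans (le_max_left _ _)) (by
    intro i
    fin_cases i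
    · show μ (w - w) ≤ _
      rw [sub_self, map_zero]
      exact μ.nonneg _
    · exact le_refl _
    · show μ ((0 : Ω) - 0) ≤ _
      rw [sub_self, map_zero]
      exact μ.nonneg _)
  have h8 : μ ((∑ ij : Fin (N + 1) × Fin (N + 1),
      algebraMap k Ω (c ij) * (w ^ expo b a N ij.1 ij.2 * u ^ (ij.2 : ℕ)))
      - aeval w (sys k b a N g c)) ≤ B * μ (u - aeval w g) := by
    rw [h6]
    exact h7
  rw [h5]
  have h9 : ∀ S T : Ω, μ S ≤ μ T + μ (S - T) := by
    intro S T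
    have := μ.add_le T (S - T)
    rwa [add_sub_cancel] at this
  refine (h9 _ (aeval w (sys k b a N g c))).trans ((add_le_add (h1 w hw1) h8).trans ?_)
  rw [mul_add]
  exact add_le_add (mul_le_mul_of_nonneg_right (le_max_left _ _) (pow_nonneg (μ.nonneg _) _))
    (mul_le_mul_of_nonneg_right (le_max_right _ _) (μ.nonneg _))

/-- Finitely many nonzero polynomials over the base field, one of which is tiny at each late point
of a slow orbit. -/
theorem LocalData.tiny [CharZero K] (D : LocalData K Ω μ) (A : ℕ) :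
    ∃ (N : ℕ) (𝒬 : Finset k[X][X]) (C1 : ℝ), 1 ≤ N ∧
      (∀ P ∈ 𝒬, P ≠ 0 ∧ P.natDegree ≤ N ∧ ∀ j, (P.coeff j).natDegree ≤ N) ∧
      ∀ᶠ n in atTop, ∃ P ∈ 𝒬, μ (ev2 P (D.x n) (D.y n)) * μ (D.x n) ^ (A * N) ≤ C1 := by
  classical
  set r := Module.finrank k K with hr
  have hr1 : 1 ≤ r := Module.finrank_pos
  set M := D.b * A + D.b + D.a.natAbs with hM
  have hM1 : 1 ≤ M := by
    have := D.hb
    omega
  set N := r * M with hN
  set L := r * M ^ 2 with hL
  have hNL : L * Module.finrank k K < (N + 1) ^ 2 := by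
    have : L * r = N ^ 2 := by
      rw [hL, hN]
      ring
    rw [← hr, this]
    nlinarith
  obtain ⟨R, hR, hu⟩ := D.u_bounded
  obtain ⟨𝒢, C0, hC0, happ⟩ := D.approx_u L
  have hex := fun g : K[X] => exists_poly (k := k) (μ := μ) D.b D.a N L hNL g R
  choose P hP0 hPd hPc Cg hCg hP using hex
  refine ⟨N, 𝒢.image P, (∑ g ∈ 𝒢, Cg g) * (1 + C0), Nat.one_le_iff_ne_zero.mpr (by
    rw [hN]
    exact Nat.mul_ne_zero (by omega) (by omega)), ?_, ?_⟩
  · intro Q hQ
    obtain ⟨g, _, rfl⟩ := Finset.mem_image.mp hQ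
    exact ⟨hP0 g, hPd g, hPc g⟩
  · filter_upwards [happ, hu, D.ev_ne, eventually_le_one D.tendsto_w 1 one_pos]
      with n ⟨g, hg, h1⟩ h2 h3 h4
    refine ⟨P g, Finset.mem_image_of_mem P hg, ?_⟩
    have hw : D.w n ≠ 0 := inv_ne_zero h3
    have hw0 : 0 < μ (D.w n) := μ.pos hw
    have h5 := hP g (D.w n) (D.u n) hw h4 h2
    have h6 : (D.w n)⁻¹ ^ D.b = D.x n := by
      rw [LocalData.w, inv_inv, D.ht]
    have h7 : (D.w n)⁻¹ ^ D.a * D.u n = D.y n := by
      rw [LocalData.u, ← mul_assoc, ← mul_zpow, inv_mul_cancel₀ hw, one_zpow, one_mul]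
    rw [h6, h7, map_mul, map_pow] at h5
    have h8 : Cg g ≤ ∑ g ∈ 𝒢, Cg g :=
      Finset.single_le_sum (f := Cg) (fun g _ => hCg g) hg
    have h9 : μ (D.w n) ^ ((D.b + D.a.natAbs) * N) * μ (ev2 (P g) (D.x n) (D.y n))
        ≤ (∑ g ∈ 𝒢, Cg g) * (1 + C0) * μ (D.w n) ^ L := by
      refine h5.trans ?_
      calc Cg g * (μ (D.w n) ^ L + μ (D.u n - aeval (D.w n) g))
          ≤ Cg g * (μ (D.w n) ^ L + C0 * μ (D.w n) ^ L) :=
            mul_le_mul_of_nonneg_left (by linarith) (hCg g)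
        _ = Cg g * (1 + C0) * μ (D.w n) ^ L := by ring
        _ ≤ _ := by
          apply mul_le_mul_of_nonneg_right _ (by positivity)
          exact mul_le_mul_of_nonneg_right h8 (by positivity)
    have h10 : L = (D.b + D.a.natAbs) * N + D.b * (A * N) := by
      rw [hL, hN, hM]
      ring
    have h11 : μ (D.x n) ^ (A * N) = (μ (D.w n) ^ (D.b * (A * N)))⁻¹ := by
      rw [← h6, map_pow, map_inv₀, ← pow_mul, inv_pow]
    rw [h10, pow_add] at h9
    rw [h11, ← div_eq_mul_inv, div_le_iff₀ (by positivity)]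
    have h12 : 0 < μ (D.w n) ^ ((D.b + D.a.natAbs) * N) := by positivity
    refine le_of_mul_le_mul_left ?_ h12
    refine h9.trans (le_of_eq ?_)
    ring

end Pool.Agent.Lib.MP_9ec2c5_nt_h65
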