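import Mathlib
import Pool.Agent.Lib.MP_9ec2c5_nt_h65.Vanish
import Pool.Agent.Lib.MP_9ec2c5_nt_h65.Defs

/-!
From a polynomial skew product satisfying the genericity hypothesis to the local data.
-/

set_option autoImplicit false
set_option linter.unusedSectionVars false

namespace Pool.Agent.Lib.MP_9ec2c5_nt_h65

open Polynomial Finset Filter Topology

section

variable {K Ω : Type} [Field K] [Field Ω] [Algebra K Ω]

/-- the weight of the leading form -/
noncomputable def wt (q : K[X][X]) (a : ℤ) (b : ℕ) : ℤ :=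
  b * q.leadingCoeff.natDegree + a * q.natDegree

/-- the normalised fibre polynomial -/
noncomputable def Qp (q : K[X][X]) (a : ℤ) (b : ℕ) : K[X][X] :=
  ∑ j ∈ range (q.natDegree + 1), monomial j
    (∑ i ∈ range ((q.coeff j).natDegree + 1),
      monomial (wt q a b - (b * i + a * j)).toNat ((q.coeff j).coeff i))

lemma ev2_sum_range (q : K[X][X]) (x y : Ω) :
    ev2 q x y = ∑ j ∈ range (q.natDegree + 1), ∑ i ∈ range ((q.coeff j).natDegree + 1),
      algebraMap K Ω ((q.coeff j).coeff i) * (x ^ i * y ^ j) := by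
  rw [ev2_eq]
  refine Finset.sum_congr rfl fun j _ => ?_
  rw [aeval_eq_sum_range, Finset.sum_mul]
  refine Finset.sum_congr rfl fun i _ => ?_
  rw [Algebra.smul_def]
  ring

/-- the exponents of the terms are nonnegative -/
lemma expo_nonneg {q : K[X][X]} {a : ℤ} {b : ℕ}
    (hs : ∀ j, q.coeff j ≠ 0 → (b * (q.coeff j).natDegree + a * j : ℤ) ≤ wt q a b) (i j : ℕ)
    (h : (q.coeff j).coeff i ≠ 0) : (0 : ℤ) ≤ wt q a b - (b * i + a * j) := by
  have h1 : q.coeff j ≠ 0 := by
    intro h2
    rw [h2, coeff_zero] at h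
    exact h rfl
  have h3 := hs j h1
  have h4 : (i : ℤ) ≤ (q.coeff j).natDegree := by
    exact_mod_cast le_natDegree_of_ne_zero h
  have h5 : (b : ℤ) * i ≤ b * (q.coeff j).natDegree := mul_le_mul_of_nonneg_left h4 (by positivity)
  linarith

lemma ev2_Qp {q : K[X][X]} {a : ℤ} {b : ℕ}
    (hs : ∀ j, q.coeff j ≠ 0 → (b * (q.coeff j).natDegree + a * j : ℤ) ≤ wt q a b)
    (w u : Ω) (hw : w ≠ 0) :
    ev2 (Qp q a b) w u = w ^ wt q a b * ev2 q (w⁻¹ ^ b) (w⁻¹ ^ a * u) := by
  have h1 : ev2 (Qp q a b) w u = ∑ j ∈ range (q.natDegree + 1),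
      ∑ i ∈ range ((q.coeff j).natDegree + 1),
        algebraMap K Ω ((q.coeff j).coeff i) * (w ^ (wt q a b - (b * i + a * j)).toNat * u ^ j) := by
    unfold ev2
    rw [Qp, eval₂_finsetSum]
    refine Finset.sum_congr rfl fun j _ => ?_
    rw [eval₂_monomial]
    show aeval w (∑ i ∈ range ((q.coeff j).natDegree + 1),
      monomial (wt q a b - (b * i + a * j)).toNat ((q.coeff j).coeff i)) * u ^ j = _
    rw [map_sum, Finset.sum_mul]
    refine Finset.sum_congr rfl fun i _ => ?_
    rw [aeval_monomial, mul_assoc]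
  rw [h1, ev2_sum_range, Finset.mul_sum]
  refine Finset.sum_congr rfl fun j hj => ?_
  rw [Finset.mul_sum]
  refine Finset.sum_congr rfl fun i hi => ?_
  rcases eq_or_ne ((q.coeff j).coeff i) 0 with h0 | h0
  · rw [h0, map_zero, zero_mul, zero_mul, mul_zero]
  have h2 := expo_nonneg hs i j h0
  have h3 : w ^ (wt q a b - (b * i + a * j)).toNat
      = w ^ wt q a b * ((w⁻¹ ^ b) ^ i * (w⁻¹ ^ a) ^ j) := by
    rw [← zpow_natCast, Int.toNat_of_nonneg h2,
      zpow_sub₀ hw, zpow_add₀ hw, ← pow_mul, ← zpow_natCast (w⁻¹ ^ a), ← zpow_mul, inv_zpow,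
      inv_pow, ← zpow_natCast w (b * i), div_eq_mul_inv, mul_inv]
    push_cast
    rfl
  rw [h3, mul_pow]
  ring

lemma top0_Qp {q : K[X][X]} {a : ℤ} {b : ℕ}
    (hs : ∀ j, q.coeff j ≠ 0 → (b * (q.coeff j).natDegree + a * j : ℤ) ≤ wt q a b) :
    top0 (Qp q a b) = leadForm q a b := by
  rw [top0, Qp, Polynomial.map_sum, leadForm]
  refine Finset.sum_congr rfl fun j hj => ?_
  rw [map_monomial]
  refine congrArg _ ?_
  rw [map_sum]
  refine Finset.sum_congr rfl fun i hi => ?_
  rw [constantCoeff_apply, coeff_monomial]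
  rcases eq_or_ne ((q.coeff j).coeff i) 0 with h0 | h0
  · rw [h0, ite_self, ite_self]
  have h2 := expo_nonneg hs i j h0
  have h3 : (wt q a b - (b * i + a * j)).toNat = 0
      ↔ (b * i + a * j : ℤ) = b * q.leadingCoeff.natDegree + a * q.natDegree := by
    rw [Int.toNat_eq_zero]
    rw [wt] at h2 ⊢
    omega
  simp only [h3]

lemma natDegree_Qp (q : K[X][X]) (a : ℤ) (b : ℕ) : (Qp q a b).natDegree ≤ q.natDegree := by
  rw [Qp]
  refine natDegree_sum_le_of_forall_le _ _ fun j hj => ?_
  refine (natDegree_monomial_le _).trans ?_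
  have := Finset.mem_range.mp hj
  omega

lemma leadForm_coeff (q : K[X][X]) (a : ℤ) (b : ℕ) (hb : 1 ≤ b) :
    (leadForm q a b).coeff q.natDegree = q.leadingCoeff.leadingCoeff := by
  classical
  rw [leadForm, finsetSum_coeff, Finset.sum_eq_single q.natDegree]
  · rw [coeff_monomial_same, Finset.sum_eq_single q.leadingCoeff.natDegree]
    · rw [if_pos rfl]
      rfl
    · intro i _ hi
      rw [if_neg]
      intro h
      have h1 : (b : ℤ) * i = b * q.leadingCoeff.natDegree := by linarith
      have h2 : (i : ℤ) = q.leadingCoeff.natDegree :=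
        mul_left_cancel₀ (by exact_mod_cast (by omega : b ≠ 0)) h1
      exact hi (by exact_mod_cast h2)
    · intro h
      exact absurd (Finset.mem_range.mpr (Nat.lt_succ_self _)) h
  · intro j _ hj
    rw [coeff_monomial, if_neg hj]
  · intro h
    exact absurd (Finset.mem_range.mpr (Nat.lt_succ_self _)) h

lemma leadForm_natDegree (q : K[X][X]) (a : ℤ) (b : ℕ) (hb : 1 ≤ b) (hq : q ≠ 0) :
    (leadForm q a b).natDegree = q.natDegree := by
  apply le_antisymm
  · rw [leadForm]
    refine natDegree_sum_le_of_forall_le _ _ fun j hj => ?_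
    refine (natDegree_monomial_le _).trans ?_
    have := Finset.mem_range.mp hj
    omega
  · apply le_natDegree_of_ne_zero
    rw [leadForm_coeff q a b hb, Ne, leadingCoeff_eq_zero, leadingCoeff_eq_zero]
    exact hq

end

section

variable {k K : Type} [Field k] [Field K] [Algebra k K]

/-- extension of scalars -/
noncomputable def ext (K : Type) [Field K] [Algebra k K] (q : k[X][X]) : K[X][X] :=
  q.map (mapRingHom (algebraMap k K))

lemma ext_coeff (q : k[X][X]) (j : ℕ) : (ext K q).coeff j = (q.coeff j).map (algebraMap k K) := by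
  rw [ext, coeff_map]
  rfl

lemma mapRingHom_inj : Function.Injective (mapRingHom (algebraMap k K)) :=
  map_injective _ (algebraMap k K).injective

lemma ext_natDegree (q : k[X][X]) : (ext K q).natDegree = q.natDegree :=
  natDegree_map_eq_of_injective mapRingHom_inj q

lemma ext_leadingCoeff (q : k[X][X]) :
    (ext K q).leadingCoeff = q.leadingCoeff.map (algebraMap k K) := by
  rw [leadingCoeff, ext_natDegree, ext_coeff]
  rfl

lemma leadForm_ext (q : k[X][X]) (a : ℤ) (b : ℕ) :
    leadForm (ext K q) a b = (leadForm q a b).map (algebraMap k K) := by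
  rw [leadForm, leadForm, Polynomial.map_sum, ext_natDegree, ext_leadingCoeff, natDegree_map]
  refine Finset.sum_congr rfl fun j _ => ?_
  rw [map_monomial, ext_coeff, natDegree_map]
  refine congrArg _ ?_
  rw [map_sum]
  refine Finset.sum_congr rfl fun i _ => ?_
  split_ifs
  · rw [coeff_map]
  · rw [map_zero]

lemma Generic.ext {p : k[X]} {q : k[X][X]} {a : ℤ} {b : ℕ} (h : Generic p q a b) :
    Generic (p.map (algebraMap k K)) (ext K q) a b where
  hd := by
    rw [natDegree_map]
    exact h.hd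
  hde := by
    rw [natDegree_map, ext_natDegree]
    exact h.hde
  hb := h.hb
  slope := by
    intro j hj
    rw [ext_coeff, Ne, Polynomial.map_eq_zero] at hj
    rw [ext_natDegree, ext_coeff, ext_leadingCoeff, natDegree_map, natDegree_map]
    exact h.slope j hj
  gain := by
    rw [ext_natDegree, ext_leadingCoeff, natDegree_map, natDegree_map]
    exact h.gain
  sep := by
    rw [leadForm_ext]
    exact h.sep.map

lemma ev2_ext {Ω : Type} [Field Ω] [Algebra K Ω] [Algebra k Ω] [IsScalarTower k K Ω]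
    (q : k[X][X]) (x y : Ω) : ev2 (Pool.Agent.Lib.MP_9ec2c5_nt_h65.ext K q) x y = ev2 q x y := by
  unfold ev2 Pool.Agent.Lib.MP_9ec2c5_nt_h65.ext
  rw [eval₂_map]
  congr 1
  ext1
  · ext1 c
    simp [IsScalarTower.algebraMap_apply k K Ω]
  · simp

end

/-- a separable split polynomial -/
lemma exists_roots {K : Type} [Field K] (T : K[X]) (hs : T.Splits) (hsep : T.Separable) :
    ∃ Θ : Finset K, T = C T.leadingCoeff * ∏ θ ∈ Θ, (X - C θ) ∧ Θ.card = T.natDegree ∧
      ∀ θ ∈ Θ, (derivative T).eval θ ≠ 0 := by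
  classical
  have hnd := nodup_roots hsep
  refine ⟨T.roots.toFinset, ?_, ?_, ?_⟩
  · conv_lhs => rw [hs.eq_prod_roots]
    congr 1
    rw [Finset.prod_eq_multiset_prod, Multiset.toFinset_val, hnd.dedup]
  · rw [Multiset.toFinset_card_of_nodup hnd, ← hs.natDegree_eq_card_roots]
  · intro θ hθ
    rw [Multiset.mem_toFinset, mem_roots hsep.ne_zero] at hθ
    have := hsep.eval₂_derivative_ne_zero (RingHom.id K) (x := θ) hθ
    exact this

/-- The local theorem for a slow orbit over an algebraically closed valued field. -/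
theorem tiny_of_slow {k Ω : Type} [Field k] [CharZero k] [Field Ω] [IsAlgClosed Ω] [Algebra k Ω]
    (μ : AbsoluteValue Ω ℝ) {p : k[X]} {q : k[X][X]} {a : ℤ} {b : ℕ} (h : Generic p q a b)
    (x y : ℕ → Ω) (hx : ∀ n, x (n + 1) = aeval (x n) p) (hy : ∀ n, y (n + 1) = ev2 q (x n) (y n))
    (hinf : Tendsto (fun n => μ (x n)) atTop atTop)
    (hslow : ∃ B : ℕ, ∀ᶠ n in atTop, μ (y n) ≤ μ (x n) ^ B) (A : ℕ) :
    ∃ (N : ℕ) (𝒬 : Finset k[X][X]) (C1 : ℝ), 1 ≤ N ∧
      (∀ P ∈ 𝒬, P ≠ 0 ∧ P.natDegree ≤ N ∧ ∀ j, (P.coeff j).natDegree ≤ N) ∧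
      ∀ᶠ n in atTop, ∃ P ∈ 𝒬, μ (ev2 P (x n) (y n)) * μ (x n) ^ (A * N) ≤ C1 := by
  have hb := h.hb
  have hp0 : p ≠ 0 := by
    intro hp
    have := h.hd
    rw [hp, natDegree_zero] at this
    omega
  have hq0 : q ≠ 0 := by
    intro hq
    have := h.hde
    rw [hq, natDegree_zero] at this
    omega
  have h1 : leadForm q a b ≠ 0 := h.sep.ne_zero
  have h2 : (X ^ b - C p.leadingCoeff : k[X]) ≠ 0 := X_pow_sub_C_ne_zero (by omega) _
  have h3 : (X ^ b - 1 : k[X]) ≠ 0 := by
    have := X_pow_sub_C_ne_zero (R := k) (by omega : 0 < b) 1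
    rwa [map_one] at this
  set F : k[X] := leadForm q a b * (X ^ b - C p.leadingCoeff) * (X ^ b - 1) with hF
  have hF0 : F ≠ 0 := mul_ne_zero (mul_ne_zero h1 h2) h3
  let K := F.SplittingField
  let f : K →ₐ[k] Ω := SplittingField.lift F (IsAlgClosed.splits _)
  let _ : Algebra K Ω := f.toAlgebra
  have _ : IsScalarTower k K Ω := IsScalarTower.of_algebraMap_eq fun r => (f.commutes r).symm
  have _ : CharZero K := charZero_of_injective_algebraMap (algebraMap k K).injective
  have hsplit : (F.map (algebraMap k K)).Splits := SplittingField.splits F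
  have hFK : F.map (algebraMap k K) ≠ 0 := (Polynomial.map_ne_zero_iff (algebraMap k K).injective).mpr
    hF0
  have hdv : ∀ g : k[X], g ∣ F → (g.map (algebraMap k K)).Splits := fun g hg =>
    hsplit.of_dvd hFK (Polynomial.map_dvd _ hg)
  have s1 := hdv (leadForm q a b) ⟨(X ^ b - C p.leadingCoeff) * (X ^ b - 1), by rw [hF, mul_assoc]⟩
  have s2 := hdv (X ^ b - C p.leadingCoeff) ⟨leadForm q a b * (X ^ b - 1), by rw [hF]; ring⟩
  have s3 := hdv (X ^ b - 1) ⟨leadForm q a b * (X ^ b - C p.leadingCoeff), by rw [hF]; ring⟩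
  have hG := h.ext (K := K)
  rw [← leadForm_ext] at s1
  obtain ⟨Θ, hΘ1, hΘ2, hΘ3⟩ := exists_roots _ s1 hG.sep
  rw [leadForm_natDegree _ a b hb (by
    rw [ext, Polynomial.map_ne_zero_iff mapRingHom_inj]
    exact hq0), ext_natDegree] at hΘ2
  have hsepZ : (X ^ b - 1 : K[X]).Separable :=
    X_pow_sub_one_separable_iff.mpr (by exact_mod_cast (by omega : b ≠ 0))
  rw [Polynomial.map_sub, Polynomial.map_pow, map_X, Polynomial.map_one] at s3
  obtain ⟨Z, hZ1, -, -⟩ := exists_roots _ s3 hsepZ
  have hmon : (X ^ b - 1 : K[X]).leadingCoeff = 1 := by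
    have := leadingCoeff_X_pow_sub_C (R := K) (r := 1) (by omega : 0 < b)
    rwa [map_one] at this
  rw [hmon, map_one, one_mul] at hZ1
  rw [Polynomial.map_sub, Polynomial.map_pow, map_X, map_C] at s2
  obtain ⟨lam, hlam⟩ := s2.exists_eval_eq_zero (by
    rw [degree_X_pow_sub_C (by omega)]
    exact_mod_cast (by omega : b ≠ 0))
  rw [eval_sub, eval_pow, eval_X, eval_C, sub_eq_zero] at hlam
  have ht : ∀ n, ∃ t : Ω, t ^ b = x n := fun n => IsAlgClosed.exists_pow_nat_eq (x n) (by omega)
  choose t ht using ht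
  have hs' : ∀ j, (ext K q).coeff j ≠ 0 →
      (b * ((ext K q).coeff j).natDegree + a * j : ℤ) ≤ wt (ext K q) a b := hG.slope
  have hgain := hG.gain
  let D : LocalData K Ω μ :=
    { p := p.map (algebraMap k K)
      q := ext K q
      x := x
      y := y
      hx := fun n => by rw [aeval_map_algebraMap]; exact hx n
      hy := fun n => by rw [ev2_ext]; exact hy n
      hd := hG.hd
      b := b
      hb := hb
      a := a
      t := t
      ht := ht
      hinf := hinf
      hslow := hslow
      lam := lam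
      hlam := by
        rw [hlam, leadingCoeff_map]
      Z := Z
      hZ := hZ1
      Q := Qp (ext K q) a b
      N0 := wt (ext K q) a b
      hQ := fun w u hw => ev2_Qp hs' w u hw
      Θ := Θ
      c := (leadForm (ext K q) a b).leadingCoeff
      hc := by
        rw [Ne, leadingCoeff_eq_zero]
        exact hG.sep.ne_zero
      hT := by
        rw [top0_Qp hs']
        exact hΘ1
      hder := by
        rw [top0_Qp hs']
        exact hΘ3
      hdeg := by
        rw [hΘ2]
        exact (natDegree_Qp _ a b).trans (le_of_eq (ext_natDegree q))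
      hde := by
        rw [hΘ2, natDegree_map]
        exact h.hde
      ρ := (wt (ext K q) a b - a * (p.map (algebraMap k K)).natDegree).toNat
      hρ1 := by
        have h4 : 0 < wt (ext K q) a b - a * (p.map (algebraMap k K)).natDegree := by
          rw [wt]
          linarith
        omega
      hρ := by
        rw [Int.toNat_of_nonneg]
        rw [wt]
        linarith }
  exact D.tiny A

end Pool.Agent.Lib.MP_9ec2c5_nt_h65
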