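import Mathlib
import Pool.Agent.Lib.MP_9ec2c5_nt_h65.Places

/-!
The place for a polynomial of degree one, and the combined statement.
-/

set_option autoImplicit false
set_option linter.unusedSectionVars false

namespace Pool.Agent.Lib.MP_9ec2c5_nt_h65

open Polynomial Finset Height Filter Topology AdmissibleAbsValues

variable {K : Type} [Field K] [NumberField K]

lemma height_natCast (n : ℕ) (hn : 1 ≤ n) :
    mulHeight₁ (n : K) ≤ (n : ℝ) ^ totalWeight K := by
  have h := mulHeight₁_sum_le (K := K) (s := range n) (by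
    rw [Finset.nonempty_range_iff]
    omega) (fun _ => 1)
  simpa using h

/-- an archimedean place -/
lemma exists_arch : ∃ v : AbsoluteValue K ℝ, IsPlace v ∧ ∀ n : ℕ, v (n : K) = n := by
  obtain ⟨φ⟩ : Nonempty (K →+* ℂ) := inferInstance
  refine ⟨NumberField.place φ, Or.inl ?_, fun n => ?_⟩
  · exact NumberField.mem_multisetInfinitePlace.mpr ⟨φ, rfl⟩
  · rw [NumberField.place_apply, map_natCast, Complex.norm_natCast]

/-- a translation -/
lemma exists_place_translation (β : K) (x : ℕ → K) (hx : ∀ n, x (n + 1) = x n + β) (hβ : β ≠ 0) :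
    ∃ v : AbsoluteValue K ℝ, IsPlace v ∧ ∃ s : ℕ, ∀ᶠ n in atTop, mulHeight₁ (x n) ≤ v (x n) ^ s := by
  obtain ⟨v, hv, hvn⟩ := exists_arch (K := K)
  have h1 : ∀ n : ℕ, x n = x 0 + (n : K) * β := by
    intro n
    induction n with
    | zero => simp
    | succ n ih =>
      rw [hx, ih]
      push_cast
      ring
  set w := totalWeight K with hw
  refine ⟨v, hv, w + 1, ?_⟩
  have hvβ : 0 < v β := v.pos hβ
  set C1 : ℝ := 2 ^ w * mulHeight₁ (x 0) * mulHeight₁ β with hC1
  have hC1p : 0 < C1 := by positivity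
  filter_upwards [eventually_ge_atTop 1,
    tendsto_natCast_atTop_atTop.eventually (eventually_ge_atTop (2 * v (x 0) / v β)),
    tendsto_natCast_atTop_atTop.eventually (eventually_ge_atTop (C1 * (2 / v β) ^ (w + 1)))]
    with n hn h2 h3
  have hn0 : (0 : ℝ) < n := by exact_mod_cast hn
  have h4 : mulHeight₁ (x n) ≤ C1 * (n : ℝ) ^ w := by
    rw [h1 n]
    have h5 := mulHeight₁_add_le (x 0) ((n : K) * β)
    have h6 := mulHeight₁_mul_le (n : K) β
    have h7 := height_natCast (K := K) n hn
    calc mulHeight₁ (x 0 + (n : K) * β) ≤ 2 ^ w * mulHeight₁ (x 0) * mulHeight₁ ((n : K) * β) := h5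
      _ ≤ 2 ^ w * mulHeight₁ (x 0) * ((n : ℝ) ^ w * mulHeight₁ β) := by
          apply mul_le_mul_of_nonneg_left _ (by positivity)
          exact h6.trans (mul_le_mul_of_nonneg_right h7 (by positivity))
      _ = C1 * (n : ℝ) ^ w := by
          rw [hC1]
          ring
  have h5 : n * v β / 2 ≤ v (x n) := by
    have h6 := v.add_le (x n) (-(x 0))
    have h7 : x n + -(x 0) = (n : K) * β := by
      rw [h1 n]
      ring
    rw [h7, v.map_neg, map_mul, hvn] at h6
    rw [div_le_iff₀ hvβ] at h2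
    linarith
  refine h4.trans ?_
  have h6 : (n * v β / 2) ^ (w + 1) ≤ v (x n) ^ (w + 1) := pow_le_pow_left₀ (by positivity) h5 _
  refine le_trans ?_ h6
  have h7 : (n * v β / 2) ^ (w + 1) = (n : ℝ) ^ w * (n * ((2 / v β) ^ (w + 1))⁻¹) := by
    have h8 : n * v β / 2 = n * (2 / v β)⁻¹ := by
      rw [inv_div]
      ring
    rw [h8, mul_pow, inv_pow, pow_succ (n : ℝ)]
    ring
  rw [h7, mul_comm C1]
  apply mul_le_mul_of_nonneg_left _ (by positivity)
  rw [← div_eq_mul_inv, le_div_iff₀ (by positivity)]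
  exact h3

/-- a multiplier which is not a root of unity has absolute value larger than one somewhere -/
lemma exists_place_gt_one (α : K) (hα : Function.Injective fun n : ℕ => α ^ n) :
    ∃ v : AbsoluteValue K ℝ, IsPlace v ∧ 1 < v α := by
  by_contra hcon
  push Not at hcon
  obtain ⟨C1, h1⟩ := height_le_of_forall (K := K) (∅ : Set (nonarchAbsVal (K := K))) Set.finite_empty
    (fun _ => 1) (fun _ => le_refl _)
  have h2 : ∀ n, mulHeight₁ (α ^ n) ≤ C1 := by
    intro n
    apply h1
    · intro v hv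
      rw [map_pow]
      exact pow_le_one₀ (v.nonneg _) (hcon v (Or.inl hv))
    · intro v hv
      exact absurd hv (Set.notMem_empty _)
    · intro v _
      rw [map_pow]
      exact pow_le_one₀ (v.val.nonneg _) (hcon v.val (Or.inr v.property))
  exact Set.infinite_of_injective_forall_mem hα h2
    (NumberField.finite_setOfPred_mulHeight₁_le K C1)

/-- an affine map with multiplier different from one -/
lemma exists_place_affine (α β : K) (hα1 : α ≠ 1) (x : ℕ → K) (hx : ∀ n, x (n + 1) = α * x n + β)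
    (hinj : Function.Injective x) :
    ∃ v : AbsoluteValue K ℝ, IsPlace v ∧ ∃ s : ℕ, ∀ᶠ n in atTop, mulHeight₁ (x n) ≤ v (x n) ^ s := by
  have hα1' : 1 - α ≠ 0 := sub_ne_zero.mpr hα1.symm
  set x' := β / (1 - α) with hx'
  have hfix : α * x' + β = x' := by
    rw [hx']
    field_simp
    ring
  have h1 : ∀ n : ℕ, x n = x' + α ^ n * (x 0 - x') := by
    intro n
    induction n with
    | zero => simp
    | succ n ih =>
      rw [hx, ih, pow_succ]
      linear_combination hfix
  set δ := x 0 - x' with hδ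
  have hδ0 : δ ≠ 0 := by
    intro h
    have h2 : x 0 = x 1 := by
      rw [h1 0, h1 1, h]
      ring
    exact absurd (hinj h2) (by norm_num)
  have hαinj : Function.Injective fun n : ℕ => α ^ n := by
    intro i j hij
    apply hinj
    rw [h1 i, h1 j]
    have : α ^ i = α ^ j := hij
    rw [this]
  obtain ⟨v, hv, hvα⟩ := exists_place_gt_one α hαinj
  have hvδ : 0 < v δ := v.pos hδ0
  have hHα : 0 < mulHeight₁ α := mulHeight₁_pos α
  set w := totalWeight K with hw
  set C1 : ℝ := 2 ^ w * mulHeight₁ x' * mulHeight₁ δ with hC1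
  have hC1p : 0 < C1 := by positivity
  obtain ⟨s, hs⟩ := pow_unbounded_of_one_lt (2 * mulHeight₁ α) hvα
  refine ⟨v, hv, s, ?_⟩
  filter_upwards [(tendsto_pow_atTop_atTop_of_one_lt hvα).eventually
      (eventually_ge_atTop (2 * v x' / v δ)),
    (tendsto_pow_atTop_atTop_of_one_lt (one_lt_two (α := ℝ))).eventually
      (eventually_ge_atTop (C1 * (2 / v δ) ^ s))] with n h2 h3
  have h4 : mulHeight₁ (x n) ≤ C1 * mulHeight₁ α ^ n := by
    rw [h1 n]
    have h5 := mulHeight₁_add_le x' (α ^ n * δ)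
    have h6 := mulHeight₁_mul_le (α ^ n) δ
    rw [mulHeight₁_pow] at h6
    calc mulHeight₁ (x' + α ^ n * δ) ≤ 2 ^ w * mulHeight₁ x' * mulHeight₁ (α ^ n * δ) := h5
      _ ≤ 2 ^ w * mulHeight₁ x' * (mulHeight₁ α ^ n * mulHeight₁ δ) :=
          mul_le_mul_of_nonneg_left h6 (by positivity)
      _ = C1 * mulHeight₁ α ^ n := by
          rw [hC1]
          ring
  have h5 : v α ^ n * v δ / 2 ≤ v (x n) := by
    have h6 := v.add_le (x n) (-x')
    have h7 : x n + -x' = α ^ n * δ := by
      rw [h1 n]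
      ring
    rw [h7, v.map_neg, map_mul, map_pow] at h6
    rw [div_le_iff₀ hvδ] at h2
    linarith
  refine h4.trans ?_
  have hvαn : 0 < v α ^ n := by positivity
  have h6 : (v α ^ n * v δ / 2) ^ s ≤ v (x n) ^ s := pow_le_pow_left₀ (by positivity) h5 _
  refine le_trans ?_ h6
  have h7 : (v α ^ n * v δ / 2) ^ s = (v α ^ s) ^ n * ((2 / v δ) ^ s)⁻¹ := by
    have h8 : v α ^ n * v δ / 2 = v α ^ n * (2 / v δ)⁻¹ := by
      rw [inv_div]
      ring
    rw [h8, mul_pow, inv_pow, ← pow_mul, ← pow_mul, mul_comm n s]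
  have h8 : (2 * mulHeight₁ α) ^ n ≤ (v α ^ s) ^ n := pow_le_pow_left₀ (by positivity) hs.le _
  rw [h7, ← div_eq_mul_inv, le_div_iff₀ (by positivity)]
  refine le_trans ?_ h8
  rw [mul_pow]
  calc C1 * mulHeight₁ α ^ n * (2 / v δ) ^ s = (C1 * (2 / v δ) ^ s) * mulHeight₁ α ^ n := by ring
    _ ≤ 2 ^ n * mulHeight₁ α ^ n := mul_le_mul_of_nonneg_right h3 (by positivity)

/-- Along an infinite orbit of a polynomial over a number field there is a place at which the orbit
tends to infinity, at least as fast as a power of the height. -/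
theorem exists_place (p : K[X]) (hd : 1 ≤ p.natDegree) (x : ℕ → K)
    (hx : ∀ n, x (n + 1) = p.eval (x n)) (hinj : Function.Injective x) :
    ∃ v : AbsoluteValue K ℝ, IsPlace v ∧ Tendsto (fun n => v (x n)) atTop atTop ∧
      ∃ s : ℕ, ∀ᶠ n in atTop, mulHeight₁ (x n) ≤ v (x n) ^ s := by
  have key : ∃ v : AbsoluteValue K ℝ, IsPlace v ∧
      ∃ s : ℕ, ∀ᶠ n in atTop, mulHeight₁ (x n) ≤ v (x n) ^ s := by
    rcases Nat.lt_or_ge 1 p.natDegree with h1 | h1
    · exact exists_place_two p h1 x hx hinj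
    · have h2 : p.natDegree = 1 := by omega
      have h3 : ∀ n, x (n + 1) = p.coeff 1 * x n + p.coeff 0 := by
        intro n
        rw [hx, eval_eq_sum_range, h2, Finset.sum_range_succ, Finset.sum_range_one, pow_zero,
          pow_one, mul_one, add_comm]
      by_cases h4 : p.coeff 1 = 1
      · refine exists_place_translation (p.coeff 0) x (fun n => by rw [h3, h4, one_mul]) ?_
        intro h5
        have h6 : x 1 = x 0 := by rw [h3 0, h4, h5, one_mul, add_zero]
        exact absurd (hinj h6) (by norm_num)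
      · exact exists_place_affine (p.coeff 1) (p.coeff 0) h4 x h3 hinj
  obtain ⟨v, hv, s, hs⟩ := key
  refine ⟨v, hv, ?_, s, hs⟩
  have hH := tendsto_height x hinj
  rw [tendsto_atTop]
  intro B
  filter_upwards [hs, hH.eventually (eventually_gt_atTop (max B 1 ^ s))] with n h1 h2
  have h3 := h2.trans_le h1
  have h4 : max B 1 < v (x n) := lt_of_pow_lt_pow_left₀ s (v.nonneg _) h3
  exact ((le_max_left _ _).trans h4.le)

end Pool.Agent.Lib.MP_9ec2c5_nt_h65
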