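import Mathlib
import Pool.Agent.Lib.MP_9ec2c5_nt_h65.Base
import Pool.Agent.Lib.MP_9ec2c5_nt_h65.PlacesOne
import Pool.Agent.Lib.MP_9ec2c5_nt_h65.Omega

/-!
Growth of heights along a Zariski dense orbit of a generic polynomial skew product.
-/

set_option autoImplicit false
set_option linter.unusedSectionVars false

namespace Pool.Agent.Lib.MP_9ec2c5_nt_h65

open Polynomial Finset Height Filter Topology AdmissibleAbsValues

section real

variable (d e : ℕ) (k h : ℕ → ℝ) (C0 C1 : ℝ)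

lemma ineq_aux {d e : ℕ} (hde : d < e) (hd : 1 ≤ d) {κ C0 C1 B : ℝ} (hκ : 0 ≤ κ) (h0 : 0 ≤ C0)
    (h1 : 0 ≤ C1) (hB : C1 ≤ B) :
    C1 * (κ + 1) + B * (d * κ + C0 + (1 + C0)) ≤ e * (B * (κ + (1 + C0))) := by
  have hB0 : 0 ≤ B := h1.trans hB
  have h2 : ((d : ℝ) + 1) ≤ e := by exact_mod_cast hde
  have h3 : (2 : ℝ) ≤ e := by exact_mod_cast (by omega : 2 ≤ e)
  have h4 : (d + 1) * (B * κ) ≤ e * (B * κ) := mul_le_mul_of_nonneg_right h2 (by positivity)
  have h5 : 2 * (B * (1 + C0)) ≤ e * (B * (1 + C0)) := mul_le_mul_of_nonneg_right h3 (by positivity)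
  have h6 : C1 * κ ≤ B * κ := mul_le_mul_of_nonneg_right hB hκ
  nlinarith

lemma upper_growth (hd : 1 ≤ d) (hde : d < e) (hk : ∀ n, 0 ≤ k n) (hh : ∀ n, 0 ≤ h n)
    (h0 : 0 ≤ C0) (h1 : 0 ≤ C1) (ha : ∀ n, k (n + 1) ≤ d * k n + C0)
    (hb : ∀ n, h (n + 1) ≤ e * h n + C1 * (k n + 1)) :
    ∃ M : ℝ, 0 ≤ M ∧ ∀ n, h n ≤ M * (e : ℝ) ^ n ∧ k n ≤ M * (e : ℝ) ^ n := by
  set B := C1 + 1 with hB
  have hstep : ∀ n, h (n + 1) + B * (k (n + 1) + (1 + C0))
      ≤ e * (h n + B * (k n + (1 + C0))) := by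
    intro n
    have h2 := ineq_aux (B := B) hde hd (hk n) h0 h1 (by linarith)
    have h3 : B * (k (n + 1) + (1 + C0)) ≤ B * (d * k n + C0 + (1 + C0)) :=
      mul_le_mul_of_nonneg_left (by linarith [ha n]) (by positivity)
    have h4 := hb n
    linarith
  have key : ∀ n, h n + B * (k n + (1 + C0)) ≤ (h 0 + B * (k 0 + (1 + C0))) * (e : ℝ) ^ n := by
    intro n
    induction n with
    | zero => simp
    | succ n ih =>
      refine (hstep n).trans ?_
      have := mul_le_mul_of_nonneg_left ih (Nat.cast_nonneg (α := ℝ) e)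
      refine this.trans (le_of_eq ?_)
      rw [pow_succ]
      ring
  have hM : 0 ≤ h 0 + B * (k 0 + (1 + C0)) := by
    have := hh 0
    have := hk 0
    positivity
  refine ⟨_, hM, fun n => ?_⟩
  have h2 := key n
  have h3 := hh n
  have h4 := hk n
  have h5 : k n ≤ B * (k n + (1 + C0)) := by nlinarith
  have h6 : 0 ≤ B * (k n + (1 + C0)) := by positivity
  exact ⟨by linarith, by linarith⟩

lemma dichotomy (hd : 1 ≤ d) (hde : d < e) (hk : ∀ n, 0 ≤ k n)
    (h0 : 0 ≤ C0) (h1 : 0 ≤ C1) (ha : ∀ n, k (n + 1) ≤ d * k n + C0)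
    (hc : ∀ᶠ n in atTop, e * h n ≤ h (n + 1) + C1 * (k n + 1)) :
    (∃ c : ℝ, 0 < c ∧ ∀ᶠ n in atTop, c * (e : ℝ) ^ n ≤ h n)
      ∨ ∃ B : ℝ, 0 ≤ B ∧ ∀ᶠ n in atTop, h n ≤ B * (k n + 1) := by
  obtain ⟨n0, hn0⟩ := eventually_atTop.mp hc
  have he : (0 : ℝ) < e := by exact_mod_cast (by omega : 0 < e)
  have hstep : ∀ n, n0 ≤ n → e * (h n - C1 * (k n + (1 + C0)))
      ≤ h (n + 1) - C1 * (k (n + 1) + (1 + C0)) := by
    intro n hn
    have h2 := ineq_aux (B := C1) hde hd (hk n) h0 h1 (le_refl _)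
    have h3 : C1 * (k (n + 1) + (1 + C0)) ≤ C1 * (d * k n + C0 + (1 + C0)) :=
      mul_le_mul_of_nonneg_left (by linarith [ha n]) (by positivity)
    have h4 := hn0 n hn
    linarith
  by_cases hcase : ∃ n1, n0 ≤ n1 ∧ 0 < h n1 - C1 * (k n1 + (1 + C0))
  · left
    obtain ⟨n1, hn1, hpos⟩ := hcase
    set m := h n1 - C1 * (k n1 + (1 + C0)) with hm
    have key : ∀ j, (e : ℝ) ^ j * m ≤ h (n1 + j) - C1 * (k (n1 + j) + (1 + C0)) := by
      intro j
      induction j with
      | zero =>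
        rw [pow_zero, one_mul, add_zero]
      | succ j ih =>
        have h2 := hstep (n1 + j) (by omega)
        refine le_trans ?_ h2
        rw [pow_succ]
        have := mul_le_mul_of_nonneg_left ih he.le
        linarith
    refine ⟨m / (e : ℝ) ^ n1, by positivity, ?_⟩
    rw [eventually_atTop]
    refine ⟨n1, fun n hn => ?_⟩
    obtain ⟨j, rfl⟩ := Nat.exists_eq_add_of_le hn
    have h2 := key j
    have h3 : m / (e : ℝ) ^ n1 * (e : ℝ) ^ (n1 + j) = (e : ℝ) ^ j * m := by
      have : (e : ℝ) ^ n1 ≠ 0 := by positivity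
      rw [pow_add]
      field_simp
    rw [h3]
    have h4 : 0 ≤ C1 * (k (n1 + j) + (1 + C0)) := by
      have := hk (n1 + j)
      positivity
    linarith
  · right
    push Not at hcase
    refine ⟨C1 * (1 + C0), by positivity, ?_⟩
    rw [eventually_atTop]
    refine ⟨n0, fun n hn => ?_⟩
    have h2 := hcase n hn
    have h3 := hk n
    have h4 : C1 * (k n + (1 + C0)) ≤ C1 * (1 + C0) * (k n + 1) := by
      have h5 : 0 ≤ C1 * (C0 * k n) := by positivity
      nlinarith
    linarith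

end real

section field

variable {K : Type} [Field K]

lemma ev2_algebraMap {Ω : Type} [Field Ω] [Algebra K Ω] (Q : K[X][X]) (x y : K) :
    ev2 Q (algebraMap K Ω x) (algebraMap K Ω y) = algebraMap K Ω (Q.evalEval x y) := by
  rw [ev2_eq]
  conv_rhs => rw [Q.as_sum_range_C_mul_X_pow]
  rw [evalEval_finsetSum, map_sum]
  refine Finset.sum_congr rfl fun j _ => ?_
  rw [evalEval_mul, evalEval_C, evalEval_pow, evalEval_X, map_mul, map_pow,
    aeval_algebraMap_apply_eq_algebraMap_eval]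

/-- a Zariski dense orbit has an infinite base orbit -/
lemma injective_of_dense (p : K[X]) (x y : ℕ → K) (hx : ∀ n, x (n + 1) = p.eval (x n))
    (hdense : ∀ R : K[X][X], (∀ n, R.evalEval (x n) (y n) = 0) → R = 0) : Function.Injective x := by
  classical
  by_contra hcon
  rw [Function.not_injective_iff] at hcon
  obtain ⟨i, j, hij, hne⟩ := hcon
  wlog hlt : i < j generalizing i j
  · exact this j i hij.symm hne.symm (by omega)
  have hper : ∀ n, x (i + n) = x (j + n) := by
    intro n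
    induction n with
    | zero => exact hij
    | succ n ih => rw [← add_assoc, ← add_assoc, hx, hx, ih]
  have hfin : ∀ n, ∃ m < j, x n = x m := by
    intro n
    induction n using Nat.strong_induction_on with
    | _ n ih =>
      rcases Nat.lt_or_ge n j with h | h
      · exact ⟨n, h, rfl⟩
      · obtain ⟨l, rfl⟩ := Nat.exists_eq_add_of_le h
        rw [← hper]
        exact ih (i + l) (by omega)
  have hR := hdense (C (∏ m ∈ range j, (X - C (x m)))) (by
    intro n
    obtain ⟨m, hm, hnm⟩ := hfin n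
    rw [evalEval_C, eval_prod, hnm]
    exact Finset.prod_eq_zero (Finset.mem_range.mpr hm) (by rw [eval_sub, eval_X, eval_C, sub_self]))
  rw [C_eq_zero] at hR
  exact Finset.prod_ne_zero_iff.mpr (fun m _ => X_sub_C_ne_zero (x m)) hR

end field

variable {K : Type} [Field K] [NumberField K]

/-- Heights along a Zariski dense orbit of a generic polynomial skew product. -/
theorem dense_growth {p : K[X]} {q : K[X][X]} {a : ℤ} {b : ℕ} (hG : Generic p q a b)
    (x y : ℕ → K) (hx : ∀ n, x (n + 1) = p.eval (x n))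
    (hy : ∀ n, y (n + 1) = q.evalEval (x n) (y n))
    (hdense : ∀ R : K[X][X], (∀ n, R.evalEval (x n) (y n) = 0) → R = 0) :
    ∃ c M : ℝ, 0 < c ∧ 0 ≤ M ∧
      (∀ᶠ n in atTop, c * (q.natDegree : ℝ) ^ n ≤ Real.log (mulHeight₁ (y n))) ∧
      ∀ n, Real.log (mulHeight₁ (y n)) ≤ M * (q.natDegree : ℝ) ^ n ∧
        Real.log (mulHeight₁ (x n)) ≤ M * (q.natDegree : ℝ) ^ n := by
  classical
  have hd := hG.hd
  have hde := hG.hde
  have hinj := injective_of_dense p x y hx hdense
  have hHx := tendsto_height x hinj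
  have hk : ∀ n, 0 ≤ Real.log (mulHeight₁ (x n)) := fun n => Real.log_nonneg (one_le_mulHeight₁ _)
  have hh : ∀ n, 0 ≤ Real.log (mulHeight₁ (y n)) := fun n => Real.log_nonneg (one_le_mulHeight₁ _)
  -- the base
  obtain ⟨C0, hC0, h0⟩ := height_eval p
  have ha : ∀ n, Real.log (mulHeight₁ (x (n + 1)))
      ≤ p.natDegree * Real.log (mulHeight₁ (x n)) + Real.log C0 := by
    intro n
    rw [hx, ← Real.log_pow, ← Real.log_mul (by positivity) (by positivity), mul_comm]
    exact Real.log_le_log (by positivity) (h0 _)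
  -- degree bound for the coefficients
  obtain ⟨N, hN⟩ : ∃ N : ℕ, ∀ j, (q.coeff j).natDegree ≤ N := by
    refine ⟨(range (q.natDegree + 1)).sup fun j => (q.coeff j).natDegree, fun j => ?_⟩
    rcases Nat.lt_or_ge q.natDegree j with h | h
    · rw [coeff_eq_zero_of_natDegree_lt h, natDegree_zero]
      exact Nat.zero_le _
    · exact Finset.le_sup (f := fun j => (q.coeff j).natDegree)
        (Finset.mem_range.mpr (Nat.lt_succ_of_le h))
  obtain ⟨C2, hC2, h2⟩ := height_evalEval q N q.natDegree (le_refl _) hN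
  obtain ⟨C3, N3, hC3, h3⟩ := height_lower q (by omega)
  set C1 : ℝ := (Real.log C2 + N) + (Real.log C3 + N3) with hC1
  have hl0 : 0 ≤ Real.log C0 := Real.log_nonneg hC0
  have hl2 : 0 ≤ Real.log C2 := Real.log_nonneg hC2
  have hl3 : 0 ≤ Real.log C3 := Real.log_nonneg hC3
  have hC10 : 0 ≤ C1 := by positivity
  have hb : ∀ n, Real.log (mulHeight₁ (y (n + 1)))
      ≤ q.natDegree * Real.log (mulHeight₁ (y n)) + C1 * (Real.log (mulHeight₁ (x n)) + 1) := by
    intro n
    have h4 := Real.log_le_log (by positivity) (h2 (x n) (y n))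
    rw [← hy, Real.log_mul (by positivity) (by positivity), Real.log_mul (by positivity)
      (by positivity), Real.log_pow, Real.log_pow] at h4
    have h5 := hk n
    have h6 : (0 : ℝ) ≤ N := Nat.cast_nonneg _
    have h7 : (0 : ℝ) ≤ N3 := Nat.cast_nonneg _
    have h8 : Real.log C2 + N * Real.log (mulHeight₁ (x n))
        ≤ C1 * (Real.log (mulHeight₁ (x n)) + 1) := by
      rw [hC1]
      nlinarith [mul_nonneg hl2 h5, mul_nonneg hl3 h5, mul_nonneg h7 h5]
    linarith
  have hc : ∀ᶠ n in atTop, q.natDegree * Real.log (mulHeight₁ (y n))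
      ≤ Real.log (mulHeight₁ (y (n + 1))) + C1 * (Real.log (mulHeight₁ (x n)) + 1) := by
    have hq0 : q ≠ 0 := by
      intro hq
      rw [hq, natDegree_zero] at hde
      omega
    have hfin : {n | q.leadingCoeff.eval (x n) = 0}.Finite := by
      refine Set.Finite.of_finite_image (Set.Finite.subset
        (Finset.finite_toSet q.leadingCoeff.roots.toFinset) ?_) hinj.injOn
      rintro _ ⟨n, hn, rfl⟩
      rw [Finset.mem_coe, Multiset.mem_toFinset, mem_roots (leadingCoeff_ne_zero.mpr hq0)]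
      exact hn
    have h4 : ∀ᶠ n in cofinite, ¬ (q.leadingCoeff.eval (x n) = 0) := hfin.eventually_cofinite_notMem
    rw [Nat.cofinite_eq_atTop] at h4
    filter_upwards [h4] with n hn
    have h5 := Real.log_le_log (by positivity) (h3 (x n) (y n) hn)
    rw [← hy, Real.log_mul (by positivity) (by positivity), Real.log_mul (by positivity)
      (by positivity), Real.log_pow, Real.log_pow] at h5
    have h6 := hk n
    have h7 : (0 : ℝ) ≤ N := Nat.cast_nonneg _
    have h8 : (0 : ℝ) ≤ N3 := Nat.cast_nonneg _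
    have h9 : Real.log C3 + N3 * Real.log (mulHeight₁ (x n))
        ≤ C1 * (Real.log (mulHeight₁ (x n)) + 1) := by
      rw [hC1]
      nlinarith [mul_nonneg hl2 h6, mul_nonneg hl3 h6, mul_nonneg h7 h6]
    linarith
  obtain ⟨M, hM, hup⟩ := upper_growth p.natDegree q.natDegree
    (fun n => Real.log (mulHeight₁ (x n))) (fun n => Real.log (mulHeight₁ (y n)))
    (Real.log C0) C1 hd hde hk hh hl0 hC10 ha hb
  rcases dichotomy p.natDegree q.natDegree
    (fun n => Real.log (mulHeight₁ (x n))) (fun n => Real.log (mulHeight₁ (y n)))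
    (Real.log C0) C1 hd hde hk hl0 hC10 ha hc with ⟨c, hc0, hlow⟩ | ⟨B, hB, hslow⟩
  · exact ⟨c, M, hc0, hM, hlow, hup⟩
  exfalso
  -- slow orbits are not dense
  obtain ⟨B1, hB1⟩ := exists_nat_ge B
  have hslow1 : ∀ᶠ n in atTop, mulHeight₁ (y n) ≤ mulHeight₁ (x n) ^ (2 * B1) := by
    filter_upwards [hslow, hHx.eventually (eventually_ge_atTop (Real.exp 1))] with n h4 h5
    have h6 : 1 ≤ Real.log (mulHeight₁ (x n)) := by
      rw [← Real.log_exp 1]
      exact Real.log_le_log (Real.exp_pos _) h5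
    rw [← Real.log_le_log_iff (by positivity) (by positivity), Real.log_pow]
    push_cast
    have h7 : B * (Real.log (mulHeight₁ (x n)) + 1) ≤ B1 * (Real.log (mulHeight₁ (x n)) + 1) :=
      mul_le_mul_of_nonneg_right hB1 (by linarith)
    have h8 : (0 : ℝ) ≤ B1 := Nat.cast_nonneg _
    nlinarith
  set B2 := 2 * B1 with hB2
  obtain ⟨v, hv, hvinf, s, hs⟩ := exists_place p hd x hx hinj
  obtain ⟨Ω, _, _, _, μ, hμ⟩ := exists_extension v hv
  obtain ⟨N4, 𝒬, C4, hN4, hQ, htiny⟩ := tiny_of_slow μ hG (fun n => algebraMap K Ω (x n))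
    (fun n => algebraMap K Ω (y n)) (fun n => by
      show algebraMap K Ω (x (n + 1)) = _
      rw [hx, aeval_algebraMap_apply_eq_algebraMap_eval]) (fun n => by
      show algebraMap K Ω (y (n + 1)) = _
      rw [hy, ev2_algebraMap]) (by
      simp only [hμ]
      exact hvinf) ⟨s * B2, by
      filter_upwards [hslow1, hs] with n h4 h5
      rw [hμ, hμ, pow_mul]
      exact (hv.le_height _).trans (h4.trans (pow_le_pow_left₀ (by positivity) h5 _))⟩
    (s * (1 + B2) + 1)
  have hCP : ∀ P : K[X][X], ∃ C5 : ℝ, 1 ≤ C5 ∧ (P ∈ 𝒬 → ∀ x y : K,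
      mulHeight₁ (P.evalEval x y) ≤ C5 * mulHeight₁ x ^ N4 * mulHeight₁ y ^ N4) := by
    intro P
    by_cases hP : P ∈ 𝒬
    · obtain ⟨C5, hC5, h5⟩ := height_evalEval P N4 N4 (hQ P hP).2.1 (hQ P hP).2.2
      exact ⟨C5, hC5, fun _ => h5⟩
    · exact ⟨1, le_refl _, fun h => absurd h hP⟩
  choose C5 hC5 h5 using hCP
  set C6 : ℝ := ∑ P ∈ 𝒬, C5 P with hC6
  have hvan : ∀ᶠ n in atTop, ∃ P ∈ 𝒬, P.evalEval (x n) (y n) = 0 := by
    filter_upwards [htiny, hslow1, hs, hvinf.eventually (eventually_gt_atTop (max 1 (C6 * C4)))]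
      with n ⟨P, hP, h6⟩ h7 h8 h9
    refine ⟨P, hP, ?_⟩
    by_contra hne
    rw [ev2_algebraMap, hμ, hμ] at h6
    have hvx : 1 < v (x n) := (le_max_left _ _).trans_lt h9
    have h10 := hv.liouville hne
    have h11 := h5 P hP (x n) (y n)
    have h12 : C5 P ≤ C6 :=
      Finset.single_le_sum (f := C5) (fun P _ => zero_le_one.trans (hC5 P)) hP
    have hC60 : 0 < C6 := lt_of_lt_of_le (lt_of_lt_of_le zero_lt_one (hC5 P)) h12
    have h13 : mulHeight₁ (P.evalEval (x n) (y n)) ≤ C6 * v (x n) ^ (s * (1 + B2) * N4) := by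
      have h14 : mulHeight₁ (y n) ^ N4 ≤ (mulHeight₁ (x n) ^ B2) ^ N4 :=
        pow_le_pow_left₀ (by positivity) h7 _
      have h15 : (mulHeight₁ (x n)) ^ ((1 + B2) * N4) ≤ (v (x n) ^ s) ^ ((1 + B2) * N4) :=
        pow_le_pow_left₀ (by positivity) h8 _
      calc mulHeight₁ (P.evalEval (x n) (y n))
          ≤ C5 P * mulHeight₁ (x n) ^ N4 * mulHeight₁ (y n) ^ N4 := h11
        _ ≤ C6 * mulHeight₁ (x n) ^ N4 * (mulHeight₁ (x n) ^ B2) ^ N4 := by
            apply mul_le_mul _ h14 (by positivity) (by positivity)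
            exact mul_le_mul_of_nonneg_right h12 (by positivity)
        _ = C6 * mulHeight₁ (x n) ^ ((1 + B2) * N4) := by ring
        _ ≤ C6 * (v (x n) ^ s) ^ ((1 + B2) * N4) :=
            mul_le_mul_of_nonneg_left h15 hC60.le
        _ = C6 * v (x n) ^ (s * (1 + B2) * N4) := by ring
    have hvP : 0 ≤ v (P.evalEval (x n) (y n)) := v.nonneg _
    have h14 : v (x n) ^ N4 ≤ C6 * C4 := by
      have h15 : 1 ≤ v (P.evalEval (x n) (y n)) * (C6 * v (x n) ^ (s * (1 + B2) * N4)) :=
        h10.trans (mul_le_mul_of_nonneg_left h13 hvP)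
      calc v (x n) ^ N4 = v (x n) ^ N4 * 1 := (mul_one _).symm
        _ ≤ v (x n) ^ N4 * (v (P.evalEval (x n) (y n))
            * (C6 * v (x n) ^ (s * (1 + B2) * N4))) :=
            mul_le_mul_of_nonneg_left h15 (by positivity)
        _ = C6 * (v (P.evalEval (x n) (y n)) * v (x n) ^ ((s * (1 + B2) + 1) * N4)) := by
            ring
        _ ≤ C6 * C4 := mul_le_mul_of_nonneg_left h6 hC60.le
    have h15 : v (x n) ≤ v (x n) ^ N4 := by
      calc v (x n) = v (x n) ^ 1 := (pow_one _).symm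
        _ ≤ _ := pow_le_pow_right₀ hvx.le hN4
    have h16 := (le_max_right 1 (C6 * C4)).trans_lt h9
    linarith
  obtain ⟨n0, hn0⟩ := eventually_atTop.mp hvan
  have hR := hdense ((∏ P ∈ 𝒬, P) * C (∏ m ∈ range n0, (X - C (x m)))) (by
    intro n
    rw [evalEval_mul, evalEval_C, evalEval_prod, eval_prod]
    rcases Nat.lt_or_ge n n0 with h | h
    · have : ∏ j ∈ range n0, eval (x n) (X - C (x j)) = 0 :=
        Finset.prod_eq_zero (Finset.mem_range.mpr h) (by rw [eval_sub, eval_X, eval_C, sub_self])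
      rw [this, mul_zero]
    · obtain ⟨P, hP, h6⟩ := hn0 n h
      rw [Finset.prod_eq_zero hP h6, zero_mul])
  rcases mul_eq_zero.mp hR with h | h
  · exact Finset.prod_ne_zero_iff.mpr (fun P hP => (hQ P hP).1) h
  · rw [C_eq_zero] at h
    exact Finset.prod_ne_zero_iff.mpr (fun m _ => X_sub_C_ne_zero (x m)) h

end Pool.Agent.Lib.MP_9ec2c5_nt_h65
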