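import Mathlib
import Pool.Agent.Lib.MP_9ec2c5_nt_h65.Growth

/-!
At each place the base orbit is bounded or tends to infinity; where it is bounded, a slow orbit is
bounded.
-/

set_option autoImplicit false
set_option linter.unusedSectionVars false

namespace Pool.Agent.Lib.MP_9ec2c5_nt_h65

open Polynomial Finset Height Filter Topology AdmissibleAbsValues

/-- escape is incompatible with slow growth -/
lemma real_escape (d e : ℕ) (hde : d < e) (he : 2 ≤ e) (h : ℕ → ℝ) (T c : ℝ) (hc : 0 ≤ c)
    (hTc : c ≤ T) (hstep : ∀ n, T < h n → e * h n - c ≤ h (n + 1))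
    (hup : ∃ A B : ℝ, ∀ n : ℕ, h n ≤ (d : ℝ) ^ n * (A + B * n)) (n : ℕ) : h n ≤ T := by
  by_contra hcon
  push Not at hcon
  obtain ⟨A, B, hup⟩ := hup
  have he2 : (2 : ℝ) ≤ e := by exact_mod_cast he
  have key : ∀ j : ℕ, T < h (n + j) ∧ (e : ℝ) ^ j * (h n - c) ≤ h (n + j) - c := by
    intro j
    induction j with
    | zero =>
      rw [pow_zero, one_mul, add_zero]
      exact ⟨hcon, le_refl _⟩
    | succ j ih =>
      obtain ⟨ih1, ih2⟩ := ih
      have h1 := hstep (n + j) ih1
      rw [← add_assoc]
      have h2 : 0 ≤ (e : ℝ) := by positivity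
      have h3 := mul_le_mul_of_nonneg_left ih2 h2
      constructor
      · nlinarith
      · rw [pow_succ]
        nlinarith
  refine LocalData.growth_false d e hde ((d : ℝ) ^ n * (A + B * n)) ((d : ℝ) ^ n * B) (h n - c)
    (by linarith) fun j => ?_
  have h1 := (key j).2
  have h2 := hup (n + j)
  push_cast at h2
  have h3 : (d : ℝ) ^ (n + j) * (A + B * (n + j))
      = (d : ℝ) ^ j * ((d : ℝ) ^ n * (A + B * n) + (d : ℝ) ^ n * B * j) := by
    rw [pow_add]
    ring
  rw [h3] at h2
  linarith

section abs

variable {K : Type} [Field K] (v : AbsoluteValue K ℝ)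

lemma log_slow (d : ℕ) (y : ℕ → K)
    (hslow : ∃ A B : ℝ, ∀ n : ℕ, v (y n) ≤ Real.exp ((d : ℝ) ^ n * (A + B * n))) :
    ∃ A B : ℝ, ∀ n : ℕ, Real.log (v (y n)) ≤ (d : ℝ) ^ n * (A + B * n) := by
  obtain ⟨A, B, h⟩ := hslow
  refine ⟨max A 0, max B 0, fun n => ?_⟩
  have h1 : (d : ℝ) ^ n * (A + B * n) ≤ (d : ℝ) ^ n * (max A 0 + max B 0 * n) := by
    apply mul_le_mul_of_nonneg_left _ (by positivity)
    exact add_le_add (le_max_left _ _) (mul_le_mul_of_nonneg_right (le_max_left _ _)
      (Nat.cast_nonneg n))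
  rcases (v.nonneg (y n)).lt_or_eq with h0 | h0
  · have h2 := Real.log_le_log h0 (h n)
    rw [Real.log_exp] at h2
    exact h2.trans h1
  · rw [← h0, Real.log_zero]
    positivity

/-- expansion of the value of a polynomial in two variables, with constant top coefficient -/
lemma evalEval_top (q : K[X][X]) (e : ℕ) (he : q.natDegree = e) (c : K)
    (hc : q.leadingCoeff = C c) (x y : K) :
    q.evalEval x y = (∑ j ∈ range e, (q.coeff j).eval x * y ^ j) + c * y ^ e := by
  conv_lhs => rw [q.as_sum_range_C_mul_X_pow]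
  rw [evalEval_finsetSum, he, Finset.sum_range_succ]
  have h1 : q.coeff e = C c := by
    rw [← he]
    exact hc
  rw [h1]
  congr 1
  · refine Finset.sum_congr rfl fun j _ => ?_
    rw [evalEval_mul, evalEval_C, evalEval_pow, evalEval_X]
  · rw [evalEval_mul, evalEval_C, evalEval_pow, evalEval_X, eval_C]

/-- the fibre coordinate of a slow orbit is bounded where the base orbit is bounded -/
lemma y_bounded (q : K[X][X]) (d e : ℕ) (hde : d < e) (he2 : 2 ≤ e) (he : q.natDegree = e) (c : K)
    (hc0 : c ≠ 0) (hc : q.leadingCoeff = C c) (x y : ℕ → K)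
    (hy : ∀ n, y (n + 1) = q.evalEval (x n) (y n)) (hx : ∃ B : ℝ, ∀ n, v (x n) ≤ B)
    (hslow : ∃ A B : ℝ, ∀ n : ℕ, v (y n) ≤ Real.exp ((d : ℝ) ^ n * (A + B * n))) :
    ∃ B : ℝ, ∀ n, v (y n) ≤ B := by
  obtain ⟨Bx, hBx⟩ := hx
  have hb : ∀ g : K[X], ∃ B : ℝ, 0 ≤ B ∧ ∀ n, v (g.eval (x n)) ≤ B := by
    intro g
    obtain ⟨B, hB, h2, -⟩ := Nice.poly (K := K) (Ω := K) (μ := v) g 0 Bx
    refine ⟨B, hB, fun n => ?_⟩
    have h3 : aeval (x n) g = g.eval (x n) := by rw [coe_aeval_eq_eval]
    rw [← h3]
    exact h2 (fun _ => x n) fun _ => hBx n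
  choose B hB hb using hb
  set S : ℝ := ∑ j ∈ range e, B (q.coeff j) with hS
  have hS0 : 0 ≤ S := Finset.sum_nonneg fun j _ => hB _
  set ν : ℝ := v c with hν
  have hν0 : 0 < ν := v.pos hc0
  set c1 : ℝ := |Real.log (ν / 2)| with hc1
  set T : ℝ := max c1 (Real.log (max 1 (2 * S / ν))) with hT
  have hstep : ∀ n, T < Real.log (v (y n)) → e * Real.log (v (y n)) - c1
      ≤ Real.log (v (y (n + 1))) := by
    intro n hn
    have h0 : 0 < Real.log (v (y n)) := by
      have : 0 ≤ T := (abs_nonneg _).trans (le_max_left _ _)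
      linarith
    have h1 : 1 < v (y n) := by
      by_contra hcon
      push Not at hcon
      have := Real.log_nonpos (v.nonneg _) hcon
      linarith
    have h2 : max 1 (2 * S / ν) ≤ v (y n) := by
      have h3 : Real.log (max 1 (2 * S / ν)) ≤ Real.log (v (y n)) := (le_max_right _ _).trans hn.le
      exact (Real.log_le_log_iff (by positivity) (by linarith)).mp h3
    have h3 : 2 * S ≤ v (y n) * ν := by
      have := (le_max_right _ _).trans h2
      rwa [div_le_iff₀ hν0] at this
    have h4 : v (∑ j ∈ range e, (q.coeff j).eval (x n) * y n ^ j) ≤ S * v (y n) ^ (e - 1) := by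
      refine (v.sum_le _ _).trans ?_
      rw [hS, Finset.sum_mul]
      apply Finset.sum_le_sum
      intro j hj
      rw [map_mul, map_pow]
      have hj' := Finset.mem_range.mp hj
      exact mul_le_mul (hb _ _) (pow_le_pow_right₀ h1.le (by omega)) (pow_nonneg (v.nonneg _) _)
        (hB _)
    have h5 : S * v (y n) ^ (e - 1) ≤ ν / 2 * v (y n) ^ e := by
      have h6 : v (y n) ^ e = v (y n) * v (y n) ^ (e - 1) := by
        conv_lhs => rw [show e = (e - 1) + 1 by omega]
        rw [pow_succ]
        ring
      rw [h6]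
      have h7 : 0 ≤ v (y n) ^ (e - 1) := pow_nonneg (v.nonneg _) _
      nlinarith
    have h6 : ν * v (y n) ^ e ≤ v (y (n + 1))
        + v (∑ j ∈ range e, (q.coeff j).eval (x n) * y n ^ j) := by
      have h7 := v.add_le (y (n + 1)) (-(∑ j ∈ range e, (q.coeff j).eval (x n) * y n ^ j))
      have h8 : y (n + 1) + -(∑ j ∈ range e, (q.coeff j).eval (x n) * y n ^ j)
          = c * y n ^ e := by
        rw [hy, evalEval_top q e he c hc]
        ring
      rw [h8, v.map_neg, map_mul, map_pow] at h7
      exact h7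
    have h7 : ν / 2 * v (y n) ^ e ≤ v (y (n + 1)) := by linarith
    have h8 := Real.log_le_log (by positivity) h7
    rw [Real.log_mul (by positivity) (by positivity), Real.log_pow] at h8
    have h9 := neg_abs_le (Real.log (ν / 2))
    linarith
  have h1 := real_escape d e hde he2 (fun n => Real.log (v (y n))) T c1 (abs_nonneg _)
    (le_max_left _ _) hstep (log_slow v d y hslow)
  refine ⟨Real.exp T, fun n => ?_⟩
  rcases (v.nonneg (y n)).lt_or_eq with h0 | h0
  · rw [← Real.exp_log h0]
    exact Real.exp_le_exp.mpr (h1 n)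
  · rw [← h0]
    positivity

/-- the fibre coordinate of a slow orbit is integral where everything is integral -/
lemma y_integral (hna : IsNonarchimedean v) (q : K[X][X]) (d e : ℕ) (hde : d < e) (he2 : 2 ≤ e)
    (he : q.natDegree = e) (c : K) (hc : q.leadingCoeff = C c) (hc1 : v c = 1)
    (x y : ℕ → K) (hy : ∀ n, y (n + 1) = q.evalEval (x n) (y n)) (hx : ∀ n, v (x n) ≤ 1)
    (hq : ∀ i j, v ((q.coeff j).coeff i) ≤ 1)
    (hslow : ∃ A B : ℝ, ∀ n : ℕ, v (y n) ≤ Real.exp ((d : ℝ) ^ n * (A + B * n))) (n : ℕ) :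
    v (y n) ≤ 1 := by
  have hb : ∀ j n, v ((q.coeff j).eval (x n)) ≤ 1 := by
    intro j n
    rw [eval_eq_sum_range]
    refine (hna.apply_sum_le_sup (Finset.nonempty_range_add_one)).trans ?_
    refine Finset.sup'_le _ _ fun i _ => ?_
    rw [map_mul, map_pow]
    exact mul_le_one₀ (hq i j) (pow_nonneg (v.nonneg _) _) (pow_le_one₀ (v.nonneg _) (hx n))
  have hstep : ∀ n, 0 < Real.log (v (y n)) → e * Real.log (v (y n)) - 0
      ≤ Real.log (v (y (n + 1))) := by
    intro n h0
    have h1 : 1 < v (y n) := by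
      by_contra hcon
      push Not at hcon
      have := Real.log_nonpos (v.nonneg _) hcon
      linarith
    have h4 : v (∑ j ∈ range e, (q.coeff j).eval (x n) * y n ^ j) ≤ v (y n) ^ (e - 1) := by
      refine (hna.apply_sum_le_sup (Finset.nonempty_range_iff.mpr (by omega))).trans ?_
      refine Finset.sup'_le _ _ fun j hj => ?_
      have hj' := Finset.mem_range.mp hj
      rw [map_mul, map_pow]
      calc _ ≤ 1 * v (y n) ^ (e - 1) := mul_le_mul (hb _ _)
            (pow_le_pow_right₀ h1.le (by omega)) (pow_nonneg (v.nonneg _) _) zero_le_one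
        _ = _ := one_mul _
    have h5 : v (y n) ^ (e - 1) < v (y n) ^ e := pow_lt_pow_right₀ h1 (by omega)
    have h6 := hna (y (n + 1)) (-(∑ j ∈ range e, (q.coeff j).eval (x n) * y n ^ j))
    have h8 : y (n + 1) + -(∑ j ∈ range e, (q.coeff j).eval (x n) * y n ^ j)
        = c * y n ^ e := by
      rw [hy, evalEval_top q e he c hc]
      ring
    rw [h8, v.map_neg, map_mul, map_pow, hc1, one_mul] at h6
    have h7 : v (y n) ^ e ≤ v (y (n + 1)) := by
      rcases le_max_iff.mp h6 with h9 | h9
      · exact h9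
      · linarith
    have h9 := Real.log_le_log (by positivity) h7
    rw [Real.log_pow] at h9
    linarith
  have h1 := real_escape d e hde he2 (fun n => Real.log (v (y n))) 0 0 (le_refl _)
    (le_refl _) hstep (log_slow v d y hslow) n
  by_contra hcon
  push Not at hcon
  have := Real.log_pos hcon
  linarith

/-- a polynomial is bounded along a bounded orbit -/
lemma value_bounded (P : K[X][X]) (x y : ℕ → K) (hx : ∃ B : ℝ, ∀ n, v (x n) ≤ B)
    (hy : ∃ B : ℝ, ∀ n, v (y n) ≤ B) : ∃ B : ℝ, ∀ n, v (P.evalEval (x n) (y n)) ≤ B := by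
  obtain ⟨Bx, hBx⟩ := hx
  obtain ⟨By, hBy⟩ := hy
  obtain ⟨B, hB, h1, -⟩ := Nice.ev2 (K := K) (Ω := K) (μ := v) P 0 1 (max 0 (max Bx By))
  refine ⟨B, fun n => ?_⟩
  have h2 := h1 ![x n, y n, 0] (by
    intro i
    fin_cases i
    · exact (hBx n).trans ((le_max_left _ _).trans (le_max_right _ _))
    · exact (hBy n).trans ((le_max_right _ _).trans (le_max_right _ _))
    · show v 0 ≤ _
      rw [map_zero]
      exact le_max_left _ _)
  have h3 : ev2 P (x n) (y n) = P.evalEval (x n) (y n) := ev2_algebraMap (Ω := K) P (x n) (y n)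
  rw [← h3]
  exact h2

/-- integral values -/
lemma value_integral (hna : IsNonarchimedean v) (P : K[X][X]) (x y : K) (hx : v x ≤ 1)
    (hy : v y ≤ 1) (hP : ∀ i j, v ((P.coeff j).coeff i) ≤ 1) : v (P.evalEval x y) ≤ 1 := by
  conv_lhs => rw [P.as_sum_range_C_mul_X_pow]
  rw [evalEval_finsetSum]
  refine (hna.apply_sum_le_sup (Finset.nonempty_range_add_one)).trans ?_
  refine Finset.sup'_le _ _ fun j _ => ?_
  rw [evalEval_mul, evalEval_C, evalEval_pow, evalEval_X, map_mul, map_pow]
  refine mul_le_one₀ ?_ (pow_nonneg (v.nonneg _) _) (pow_le_one₀ (v.nonneg _) hy)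
  rw [eval_eq_sum_range]
  refine (hna.apply_sum_le_sup (Finset.nonempty_range_add_one)).trans ?_
  refine Finset.sup'_le _ _ fun i _ => ?_
  rw [map_mul, map_pow]
  exact mul_le_one₀ (hP i j) (pow_nonneg (v.nonneg _) _) (pow_le_one₀ (v.nonneg _) hx)

end abs

section numberfield

variable {K : Type} [Field K] [NumberField K]

lemma place_natCast (v : AbsoluteValue K ℝ) (hv : IsPlace v) :
    (∀ n : ℕ, v (n : K) = n) ∨ (∀ n : ℕ, v (n : K) ≤ 1) := by
  rcases hv with hv | hv
  · left
    obtain ⟨φ, hφ⟩ := NumberField.mem_multisetInfinitePlace.mp hv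
    intro n
    rw [← hφ, NumberField.place_apply, map_natCast, Complex.norm_natCast]
  · right
    intro n
    have hna : IsNonarchimedean v := isNonarchimedean v hv
    induction n with
    | zero => simp
    | succ n ih =>
      push_cast
      refine (hna _ _).trans (max_le ih ?_)
      rw [map_one]

/-- at each place the base orbit is bounded or tends to infinity -/
theorem dich_place (p : K[X]) (hd : 1 ≤ p.natDegree) (x : ℕ → K)
    (hx : ∀ n, x (n + 1) = p.eval (x n)) (v : AbsoluteValue K ℝ) (hv : IsPlace v) :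
    (∃ B : ℝ, ∀ n, v (x n) ≤ B) ∨ Tendsto (fun n => v (x n)) atTop atTop := by
  rcases Nat.lt_or_ge 1 p.natDegree with h1 | h1
  · obtain ⟨R, hR, h2⟩ := escape_growth v p h1
    by_cases h3 : ∃ n0, R < v (x n0)
    · right
      obtain ⟨c, hc, h4⟩ := h2 x hx h3
      have hd2 : (1 : ℝ) < p.natDegree := by exact_mod_cast h1
      have h5 : Tendsto (fun n : ℕ => c * (p.natDegree : ℝ) ^ n) atTop atTop :=
        (tendsto_pow_atTop_atTop_of_one_lt hd2).const_mul_atTop hc
      have h6 : Tendsto (fun n => Real.log (v (x n))) atTop atTop :=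
        tendsto_atTop_mono' atTop h4 h5
      refine tendsto_atTop_mono (fun n => ?_) h6
      exact (Real.log_le_self (v.nonneg _))
    · push Not at h3
      exact Or.inl ⟨R, h3⟩
  · have h2 : p.natDegree = 1 := by omega
    have h3 : ∀ n, x (n + 1) = p.coeff 1 * x n + p.coeff 0 := by
      intro n
      rw [hx, eval_eq_sum_range, h2, Finset.sum_range_succ, Finset.sum_range_one, pow_zero,
        pow_one, mul_one, add_comm]
    set α := p.coeff 1 with hα
    set β := p.coeff 0 with hβ
    by_cases h4 : α = 1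
    · have h5 : ∀ n : ℕ, x n = x 0 + (n : K) * β := by
        intro n
        induction n with
        | zero => simp
        | succ n ih =>
          rw [h3, ih, h4]
          push_cast
          ring
      rcases place_natCast v hv with h6 | h6
      · by_cases h7 : β = 0
        · left
          refine ⟨v (x 0), fun n => ?_⟩
          rw [h5 n, h7, mul_zero, add_zero]
        · right
          have hvβ : 0 < v β := v.pos h7
          have h8 : Tendsto (fun n : ℕ => (n : ℝ) * v β + -v (x 0)) atTop atTop :=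
            tendsto_atTop_add_const_right _ _
              (tendsto_natCast_atTop_atTop.atTop_mul_const hvβ)
          refine tendsto_atTop_mono (fun n => ?_) h8
          have h9 := v.add_le (x n) (-(x 0))
          have h10 : x n + -(x 0) = (n : K) * β := by
            rw [h5 n]
            ring
          rw [h10, v.map_neg, map_mul, h6] at h9
          linarith
      · left
        refine ⟨v (x 0) + v β, fun n => ?_⟩
        rw [h5 n]
        refine (v.add_le _ _).trans ?_
        rw [map_mul]
        have := mul_le_mul_of_nonneg_right (h6 n) (v.nonneg β)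
        linarith
    · have hα1' : 1 - α ≠ 0 := sub_ne_zero.mpr (Ne.symm h4)
      set x' := β / (1 - α) with hx'
      have hfix : α * x' + β = x' := by
        rw [hx']
        field_simp
        ring
      have h5 : ∀ n : ℕ, x n = x' + α ^ n * (x 0 - x') := by
        intro n
        induction n with
        | zero => simp
        | succ n ih =>
          rw [h3, ih, pow_succ]
          linear_combination hfix
      set δ := x 0 - x' with hδ
      by_cases h6 : δ = 0
      · left
        refine ⟨v x', fun n => ?_⟩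
        rw [h5 n, h6, mul_zero, add_zero]
      rcases le_or_gt (v α) 1 with h7 | h7
      · left
        refine ⟨v x' + v δ, fun n => ?_⟩
        rw [h5 n]
        refine (v.add_le _ _).trans ?_
        rw [map_mul, map_pow]
        have := mul_le_mul_of_nonneg_right (pow_le_one₀ (v.nonneg α) h7 (n := n)) (v.nonneg δ)
        linarith
      · right
        have hvδ : 0 < v δ := v.pos h6
        have h8 : Tendsto (fun n : ℕ => v α ^ n * v δ + -v x') atTop atTop :=
          tendsto_atTop_add_const_right _ _
            ((tendsto_pow_atTop_atTop_of_one_lt h7).atTop_mul_const hvδ)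
        refine tendsto_atTop_mono (fun n => ?_) h8
        have h9 := v.add_le (x n) (-x')
        have h10 : x n + -x' = α ^ n * δ := by
          rw [h5 n]
          ring
        rw [h10, v.map_neg, map_mul, map_pow] at h9
        linarith

end numberfield

end Pool.Agent.Lib.MP_9ec2c5_nt_h65
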