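import Mathlib
import Pool.Agent.Lib.MP_9ec2c5_nt_h65.Root

/-!
Approximate factorisation of polynomials over the polynomial ring, by lifting coprime factors.
-/

set_option autoImplicit false
set_option linter.unusedSectionVars false

namespace Pool.Agent.Lib.MP_9ec2c5_nt_h65

open Polynomial Finset

variable {K : Type} [Field K]

lemma isCoprime_X (S : K[X]) (hS : S.coeff 0 ≠ 0) : IsCoprime (X : K[X]) S := by
  refine ⟨-(C (S.coeff 0)⁻¹ * S.divX), C (S.coeff 0)⁻¹, ?_⟩
  have h1 : C (S.coeff 0)⁻¹ * C (S.coeff 0) = 1 := by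
    rw [← map_mul, inv_mul_cancel₀ hS, map_one]
  have h2 := divX_mul_X_add S
  calc -(C (S.coeff 0)⁻¹ * S.divX) * X + C (S.coeff 0)⁻¹ * S
      = -(C (S.coeff 0)⁻¹ * (S.divX * X)) + C (S.coeff 0)⁻¹ * (S.divX * X + C (S.coeff 0)) := by
        rw [h2]
        ring
    _ = C (S.coeff 0)⁻¹ * C (S.coeff 0) := by ring
    _ = 1 := h1

/-- inverse of a unit to finite order -/
lemma inv_mod (S : K[X]) (hS : S.coeff 0 ≠ 0) (M : ℕ) : ∃ S' : K[X], X ^ M ∣ S * S' - 1 := by
  obtain ⟨a, b, h⟩ := (isCoprime_X S hS).pow_left (m := M)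
  refine ⟨b, -a, ?_⟩
  linear_combination h

lemma top0_mul (F G : K[X][X]) : top0 (F * G) = top0 F * top0 G := Polynomial.map_mul _

lemma top0_add (F G : K[X][X]) : top0 (F + G) = top0 F + top0 G := Polynomial.map_add _

lemma top0_sub (F G : K[X][X]) : top0 (F - G) = top0 F - top0 G := Polynomial.map_sub _

lemma top0_map_C (f : K[X]) : top0 (f.map C) = f := by
  rw [top0, Polynomial.map_map]
  have : (constantCoeff : K[X] →+* K).comp C = RingHom.id K := by
    ext1 x
    simp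
  rw [this, Polynomial.map_id]

lemma top0_C_pow (M : ℕ) (hM : 1 ≤ M) : top0 (C (X ^ M) : K[X][X]) = 0 := by
  rw [top0, map_C, constantCoeff_apply, coeff_X_pow, if_neg (by omega), map_zero]

lemma dvd_of_top0 (H : K[X][X]) (h : top0 H = 0) : C X ∣ H := by
  rw [C_dvd_iff_dvd_coeff]
  intro i
  rw [X_dvd_iff]
  have h1 : (top0 H).coeff i = 0 := by rw [h, coeff_zero]
  rw [top0, coeff_map] at h1
  exact h1

/-- lifting a coprime factorisation -/
theorem hensel_factor (f g : K[X]) (hf : f.Monic) (hfg : IsCoprime f g) (F : K[X][X])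
    (h0 : top0 F = f * g) (M : ℕ) : ∃ F1 G1 : K[X][X], F1.Monic ∧ F1.natDegree = f.natDegree ∧
      top0 F1 = f ∧ top0 G1 = g ∧ C (X ^ M) ∣ F - F1 * G1 := by
  induction M with
  | zero =>
    refine ⟨f.map C, g.map C, hf.map _, hf.natDegree_map _, top0_map_C f, top0_map_C g, ?_⟩
    rw [pow_zero, map_one]
    exact one_dvd _
  | succ M ih =>
    obtain ⟨F1, G1, hm, hd, hF, hG, Δ, hΔ⟩ := ih
    rcases Nat.eq_zero_or_pos M with hM | hM
    · refine ⟨F1, G1, hm, hd, hF, hG, ?_⟩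
      rw [hM, zero_add, pow_one]
      apply dvd_of_top0
      rw [top0_sub, top0_mul, h0, hF, hG, sub_self]
    · obtain ⟨u, v, huv⟩ := hfg
      set δ0 := top0 Δ with hδ0
      set δ1 := (v * δ0) %ₘ f with hδ1
      set h := (v * δ0) /ₘ f with hh
      set δ2 := u * δ0 + h * g with hδ2
      have h1 : δ1 + f * h = v * δ0 := modByMonic_add_div _ f
      have h2 : δ1 * g + δ2 * f = δ0 := by
        calc δ1 * g + δ2 * f = (δ1 + f * h) * g + u * δ0 * f := by
              rw [hδ2]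
              ring
          _ = δ0 * (u * f + v * g) := by
              rw [h1]
              ring
          _ = δ0 := by rw [huv, mul_one]
      have hdeg : (C (X ^ M) * δ1.map C : K[X][X]).degree < F1.degree := by
        have h3 : (C (X ^ M) * δ1.map C : K[X][X]).degree ≤ δ1.degree := by
          refine (degree_mul_le _ _).trans ?_
          refine (add_le_add degree_C_le degree_map_le).trans ?_
          rw [zero_add]
        have h4 : δ1.degree < f.degree := degree_modByMonic_lt _ hf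
        have h5 : F1.degree = f.degree := by
          rw [degree_eq_natDegree hm.ne_zero, degree_eq_natDegree hf.ne_zero, hd]
        rw [h5]
        exact h3.trans_lt h4
      refine ⟨F1 + C (X ^ M) * δ1.map C, G1 + C (X ^ M) * δ2.map C, hm.add_of_left hdeg, ?_, ?_, ?_,
        ?_⟩
      · rw [natDegree_add_eq_left_of_degree_lt hdeg, hd]
      · rw [top0_add, top0_mul, top0_C_pow M hM, zero_mul, add_zero, hF]
      · rw [top0_add, top0_mul, top0_C_pow M hM, zero_mul, add_zero, hG]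
      · have h3 : F - (F1 + C (X ^ M) * δ1.map C) * (G1 + C (X ^ M) * δ2.map C)
            = C (X ^ M) * (Δ - (δ1.map C * G1 + δ2.map C * F1)
              - C (X ^ M) * (δ1.map C * δ2.map C)) := by
          calc F - (F1 + C (X ^ M) * δ1.map C) * (G1 + C (X ^ M) * δ2.map C)
              = (F - F1 * G1) - C (X ^ M) * (δ1.map C * G1 + δ2.map C * F1)
                - C (X ^ M) * (C (X ^ M) * (δ1.map C * δ2.map C)) := by ring
            _ = _ := by
              rw [hΔ]
              ring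
        rw [h3, pow_succ, map_mul]
        apply mul_dvd_mul_left
        apply dvd_of_top0
        rw [top0_sub, top0_sub, top0_add, top0_mul, top0_mul, top0_mul, top0_C_pow M hM, zero_mul,
          sub_zero, top0_map_C, top0_map_C, hF, hG, h2, ← hδ0, sub_self]

variable {Ω : Type} [Field Ω] [Algebra K Ω] {μ : AbsoluteValue Ω ℝ}

lemma ev2_mul (F G : K[X][X]) (w u : Ω) : ev2 (F * G) w u = ev2 F w u * ev2 G w u := by
  unfold ev2
  rw [eval₂_mul]

lemma ev2_add (F G : K[X][X]) (w u : Ω) : ev2 (F + G) w u = ev2 F w u + ev2 G w u := by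
  unfold ev2
  rw [eval₂_add]

lemma ev2_sub (F G : K[X][X]) (w u : Ω) : ev2 (F - G) w u = ev2 F w u - ev2 G w u := by
  unfold ev2
  rw [eval₂_sub]

lemma ev2_pow (F : K[X][X]) (n : ℕ) (w u : Ω) : ev2 (F ^ n) w u = ev2 F w u ^ n := by
  unfold ev2
  rw [eval₂_pow]

lemma ev2_C (g : K[X]) (w u : Ω) : ev2 (C g) w u = aeval w g := by
  unfold ev2
  rw [eval₂_C]
  rfl

lemma ev2_X (w u : Ω) : ev2 (X : K[X][X]) w u = u := by
  unfold ev2
  rw [eval₂_X]

lemma ev2_one (w u : Ω) : ev2 (1 : K[X][X]) w u = 1 := by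
  unfold ev2
  rw [eval₂_one]

lemma ev2_sum {ι : Type} (s : Finset ι) (F : ι → K[X][X]) (w u : Ω) :
    ev2 (∑ i ∈ s, F i) w u = ∑ i ∈ s, ev2 (F i) w u := by
  unfold ev2
  rw [eval₂_finsetSum]

lemma ev2_prod {ι : Type} (s : Finset ι) (F : ι → K[X][X]) (w u : Ω) :
    ev2 (∏ i ∈ s, F i) w u = ∏ i ∈ s, ev2 (F i) w u := by
  unfold ev2
  rw [eval₂_finsetProd]

/-- a polynomial function is bounded on bounded sets -/
lemma ev2_bounded (F : K[X][X]) (R : ℝ) : ∃ C1 : ℝ, 0 ≤ C1 ∧ ∀ w u : Ω, μ w ≤ 1 → μ u ≤ R →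
    μ (ev2 F w u) ≤ C1 := by
  obtain ⟨C1, hC1, h1, -⟩ := Nice.ev2 (μ := μ) F 0 1 (max 1 R)
  refine ⟨C1, hC1, fun w u hw hu => ?_⟩
  exact h1 ![w, u, 0] (by
    intro i
    fin_cases i
    · exact hw.trans (le_max_left _ _)
    · exact hu.trans (le_max_right _ _)
    · show μ 0 ≤ _
      rw [map_zero]
      exact zero_le_one.trans (le_max_left _ _))

/-- a polynomial function divisible by a power of the first variable -/
lemma ev2_small_of_dvd (H : K[X][X]) (M : ℕ) (h : C (X ^ M) ∣ H) (R : ℝ) :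
    ∃ C1 : ℝ, 0 ≤ C1 ∧ ∀ w u : Ω, μ w ≤ 1 → μ u ≤ R → μ (ev2 H w u) ≤ C1 * μ w ^ M := by
  obtain ⟨G, rfl⟩ := h
  obtain ⟨C1, hC1, h1⟩ := ev2_bounded (μ := μ) G R
  refine ⟨C1, hC1, fun w u hw hu => ?_⟩
  rw [ev2_mul, ev2_C, map_pow, aeval_X, map_mul, map_pow, mul_comm]
  exact mul_le_mul_of_nonneg_right (h1 w u hw hu) (pow_nonneg (μ.nonneg _) _)

/-- the value at a small first variable is close to the value of the special fibre -/
lemma ev2_close_top0 (F : K[X][X]) (R : ℝ) : ∃ C1 : ℝ, 0 ≤ C1 ∧ ∀ w u : Ω, μ w ≤ 1 → μ u ≤ R →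
    μ (ev2 F w u - aeval u (top0 F)) ≤ C1 * μ w := by
  obtain ⟨C1, hC1, h1⟩ := ev2_small_of_dvd (μ := μ) (F - (top0 F).map C) 1 (by
    rw [pow_one]
    apply dvd_of_top0
    rw [top0_sub, top0_map_C, sub_self]) R
  refine ⟨C1, hC1, fun w u hw hu => ?_⟩
  have h2 := h1 w u hw hu
  rw [ev2_sub, pow_one] at h2
  have h3 : ev2 ((top0 F).map C) w u = aeval u (top0 F) := by
    unfold ev2
    rw [eval₂_map]
    have : (aeval w : K[X] →ₐ[K] Ω).toRingHom.comp C = algebraMap K Ω := by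
      ext1 x
      simp
    rw [this]
    rfl
  rwa [h3] at h2

end Pool.Agent.Lib.MP_9ec2c5_nt_h65
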