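import Mathlib
import Pool.Agent.Lib.MP_9ec2c5_nt_h65.Seg

/-!
Polynomials which are smaller than expected along all segments with itineraries in a small set.
-/

set_option autoImplicit false
set_option linter.unusedSectionVars false

namespace Pool.Agent.Lib.MP_9ec2c5_nt_h65

open Polynomial Finset Filter

namespace SkewData

variable {K : Type} [Field K] (D : SkewData K)

lemma expo_rec (L : ℕ) : D.ρ * D.e ^ L + D.d * (D.a * (D.e ^ L - D.d ^ L))
    = D.a * (D.e ^ (L + 1) - D.d ^ (L + 1)) := by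
  have h1 := D.hde
  obtain ⟨g, hg⟩ := Nat.exists_eq_add_of_le h1.le
  obtain ⟨k, hk⟩ := Nat.exists_eq_add_of_le (Nat.pow_le_pow_left h1.le L)
  have h2 : D.e - D.d = g := by omega
  have h3 : D.e ^ L - D.d ^ L = k := by omega
  have h4 : D.e ^ (L + 1) = D.d ^ (L + 1) + (D.d * k + g * (D.d ^ L + k)) := by
    rw [pow_succ D.e, hk]
    conv_lhs => rw [hg]
    ring
  rw [ρ, h2, h3, h4, Nat.add_sub_cancel_left, hk]
  ring

/-- the polynomial for all itineraries -/
theorem universal (L : ℕ) : ∃ A : K[X][X], A.Monic ∧ A.natDegree = D.e ^ L ∧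
    D.Good L univ A (D.a * (D.e ^ L - D.d ^ L)) := by
  induction L with
  | zero =>
    refine ⟨X, monic_X, by rw [natDegree_X, pow_zero], ?_⟩
    intro Ω _ _ μ C0 C1 R _ _ hR
    refine ⟨1, R, one_pos, hR, fun w u s i hs _ => ?_⟩
    rw [ev2_X, pow_zero, pow_zero, Nat.sub_self, mul_zero, pow_zero, mul_one]
    exact (hs.step 0).u0_le
  | succ L ih =>
    obtain ⟨A, hA, hAd, hAg⟩ := ih
    obtain ⟨F, hF, hFd, hFg⟩ := D.step_back univ L (fun _ => univ) (fun _ => A) _ _
      (fun _ _ => ⟨hA, hAd, hAg⟩) univ (fun v _ => ⟨mem_univ _, mem_univ _⟩)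
    refine ⟨F, hF, ?_, ?_⟩
    · rw [hFd, D.he, pow_succ]
      ring
    · rw [← D.expo_rec]
      exact hFg

lemma exists_L1 : ∃ L1 : ℕ, ∀ L, L1 ≤ L → D.d ^ (L + 1) < D.e ^ L := by
  have hd : (0 : ℝ) < D.d := by exact_mod_cast D.hd
  have h1 : (1 : ℝ) < (D.e : ℝ) / D.d := by
    rw [one_lt_div hd]
    exact_mod_cast D.hde
  obtain ⟨L1, hL1⟩ := eventually_atTop.mp
    ((tendsto_pow_atTop_atTop_of_one_lt h1).eventually (eventually_gt_atTop (D.d : ℝ)))
  refine ⟨L1, fun L hL => ?_⟩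
  have h2 := hL1 L hL
  have h3 : (0 : ℝ) < (D.d : ℝ) ^ L := by positivity
  rw [div_pow, lt_div_iff₀ h3] at h2
  have h4 : ((D.d ^ (L + 1) : ℕ) : ℝ) < ((D.e ^ L : ℕ) : ℝ) := by
    push_cast
    rw [pow_succ]
    linarith
  exact_mod_cast h4

/-- Polynomials of degree `Δ` small to an order larger than `a Δ` for few itineraries. -/
theorem exists_good (hcard : 2 ≤ Fintype.card D.ι) (L1 : ℕ)
    (hL1 : ∀ L, L1 ≤ L → D.d ^ (L + 1) < D.e ^ L) (Z : ℕ) :
    ∀ L, Z + L1 ≤ L → ∀ V : Finset (Fin (L + 1) → D.ι), V.Nonempty → V.card ≤ Z →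
      ∃ (A : K[X][X]) (Δ α : ℕ), A.Monic ∧ A.natDegree = Δ ∧ 1 ≤ Δ ∧ D.a * Δ < α ∧
        D.Good (L + 1) V A α := by
  classical
  induction Z with
  | zero =>
    intro L _ V hV hc
    rw [Nat.le_zero, Finset.card_eq_zero] at hc
    rw [hc] at hV
    exact absurd hV Finset.not_nonempty_empty
  | succ Z ih =>
    intro L hL V hV hc
    obtain ⟨L', rfl⟩ : ∃ L', L = L' + 1 := ⟨L - 1, by omega⟩
    have ha := D.ha
    have hd := D.hd
    have hde := D.hde
    set J : Finset D.ι := V.image fun v => v 0 with hJ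
    by_cases hJu : J = univ
    · -- all first letters occur
      set W : D.ι → Finset (Fin (L' + 1) → D.ι) := fun θ =>
        (V.filter fun v => v 0 = θ).image Fin.tail with hW
      have hWn : ∀ θ, (W θ).Nonempty := by
        intro θ
        have h1 : θ ∈ J := by rw [hJu]; exact mem_univ _
        rw [hJ, Finset.mem_image] at h1
        obtain ⟨v, hv, hvθ⟩ := h1
        exact ⟨Fin.tail v, Finset.mem_image_of_mem _ (Finset.mem_filter.mpr ⟨hv, hvθ⟩)⟩
      have hWc : ∀ θ, (W θ).card ≤ Z := by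
        intro θ
        have h1 : (W θ).card ≤ (V.filter fun v => v 0 = θ).card := Finset.card_image_le
        have h2 : (V.filter fun v => v 0 = θ).card < V.card := by
          obtain ⟨θ', hθ'⟩ := Fintype.exists_ne_of_one_lt_card (by omega) θ
          have h3 : θ' ∈ J := by rw [hJu]; exact mem_univ _
          rw [hJ, Finset.mem_image] at h3
          obtain ⟨v, hv, hvθ⟩ := h3
          refine Finset.card_lt_card (Finset.filter_ssubset.mpr ⟨v, hv, ?_⟩)
          rw [hvθ]
          exact hθ'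
        omega
      have hex := fun θ => ih L' (by omega) (W θ) (hWn θ) (hWc θ)
      choose A Δ α hAm hAd hΔ hα hAg using hex
      set Δ' := ∏ θ, Δ θ with hΔ'
      set n : D.ι → ℕ := fun θ => ∏ θ' ∈ univ.erase θ, Δ θ' with hn
      have hnΔ : ∀ θ, n θ * Δ θ = Δ' := fun θ => Finset.prod_erase_mul univ _ (mem_univ θ)
      have hn1 : ∀ θ, 1 ≤ n θ := fun θ => Nat.one_le_iff_ne_zero.mpr
        (Finset.prod_ne_zero_iff.mpr fun x _ => Nat.one_le_iff_ne_zero.mp (hΔ x))
      have hΔ1 : 1 ≤ Δ' := Nat.one_le_iff_ne_zero.mpr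
        (Finset.prod_ne_zero_iff.mpr fun x _ => Nat.one_le_iff_ne_zero.mp (hΔ x))
      obtain ⟨F, hF, hFd, hFg⟩ := D.step_back univ (L' + 1) W (fun θ => A θ ^ n θ) Δ'
        (D.a * Δ' + 1) (fun θ _ => ⟨(hAm θ).pow _, by
          rw [(hAm θ).natDegree_pow, hAd, hnΔ], Good.weaken D (Good.pow D (hAg θ) (n θ)) (by
          have h1 : D.a * Δ θ + 1 ≤ α θ := hα θ
          have h2 := Nat.mul_le_mul_left (n θ) h1
          have h3 := hn1 θ
          have h4 : n θ * (D.a * Δ θ + 1) = D.a * Δ' + n θ := by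
            rw [← hnΔ θ]
            ring
          omega)⟩) V (fun v hv => ⟨mem_univ _,
            Finset.mem_image_of_mem _ (Finset.mem_filter.mpr ⟨hv, rfl⟩)⟩)
      refine ⟨F, _, _, hF, hFd, ?_, ?_, hFg⟩
      · rw [D.he]
        exact Nat.one_le_iff_ne_zero.mpr (Nat.mul_ne_zero (by omega) (by omega))
      · rw [D.he, ρ]
        obtain ⟨g, hg⟩ := Nat.exists_eq_add_of_le hde.le
        have h1 : D.e - D.d = g := by omega
        rw [h1, hg]
        have h2 : D.a * g * Δ' + D.d * (D.a * Δ' + 1) = D.a * ((D.d + g) * Δ') + D.d := by ring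
        rw [h2]
        omega
    · -- a first letter is missing
      obtain ⟨A, hA, hAd, hAg⟩ := D.universal (L' + 1)
      obtain ⟨F, hF, hFd, hFg⟩ := D.step_back J (L' + 1) (fun _ => univ) (fun _ => A) _ _
        (fun _ _ => ⟨hA, hAd, hAg⟩) V
        (fun v hv => ⟨Finset.mem_image_of_mem (fun v : Fin (L' + 1 + 1) → D.ι => v 0) hv,
          mem_univ _⟩)
      have hJn : J.Nonempty := hV.image _
      have hs1 : 1 ≤ ∑ θ ∈ J, D.m θ := by
        obtain ⟨θ, hθ⟩ := hJn
        exact (D.hm θ).trans (Finset.single_le_sum (f := D.m) (fun _ _ => Nat.zero_le _) hθ)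
      have hs2 : ∑ θ ∈ J, D.m θ + 1 ≤ D.e := by
        obtain ⟨θ, hθ⟩ : ∃ θ, θ ∉ J := by
          by_contra hcon
          push Not at hcon
          exact hJu (Finset.eq_univ_of_forall hcon)
        have h1 : ∑ x ∈ insert θ J, D.m x ≤ ∑ x, D.m x :=
          Finset.sum_le_sum_of_subset (Finset.subset_univ _)
        rw [Finset.sum_insert hθ, D.he] at h1
        have h2 := D.hm θ
        omega
      have he0 : 0 < D.e ^ (L' + 1) := Nat.pow_pos (by omega)
      refine ⟨F, _, _, hF, hFd, ?_, ?_, hFg⟩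
      · exact Nat.one_le_iff_ne_zero.mpr (Nat.mul_ne_zero (by omega) (by omega))
      · rw [D.expo_rec]
        apply Nat.mul_lt_mul_of_pos_left _ ha
        have h1 := hL1 (L' + 1) (by omega)
        have h2 : (∑ θ ∈ J, D.m θ + 1) * D.e ^ (L' + 1) ≤ D.e * D.e ^ (L' + 1) :=
          Nat.mul_le_mul_right _ hs2
        have h3 : D.e ^ (L' + 1 + 1) = D.e * D.e ^ (L' + 1) := by
          rw [pow_succ]
          ring
        rw [add_mul, one_mul] at h2
        omega

end SkewData

end Pool.Agent.Lib.MP_9ec2c5_nt_h65
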