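import Mathlib
import Pool.Agent.Lib.MP_9ec2c5_nt_h65.Combi

/-!
From a monic polynomial which is small to a high order to a polynomial in `t` and `y` which is small.
-/

set_option autoImplicit false
set_option linter.unusedSectionVars false

namespace Pool.Agent.Lib.MP_9ec2c5_nt_h65

open Polynomial Finset

variable {K : Type} [Field K]

/-- the quotient by a monic polynomial is linear -/
noncomputable def quoL (A : K[X][X]) (hA : A.Monic) : K[X][X] →ₗ[K[X]] K[X][X] where
  toFun F := F /ₘ A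
  map_add' F G := by
    refine (div_modByMonic_unique (F /ₘ A + G /ₘ A) (F %ₘ A + G %ₘ A) hA ⟨?_, ?_⟩).1
    · have h1 := modByMonic_add_div F A
      have h2 := modByMonic_add_div G A
      linear_combination h1 + h2
    · exact (degree_add_le _ _).trans_lt
        (max_lt (degree_modByMonic_lt _ hA) (degree_modByMonic_lt _ hA))
  map_smul' c F := by
    refine (div_modByMonic_unique (c • (F /ₘ A)) (c • (F %ₘ A)) hA ⟨?_, ?_⟩).1
    · have h1 := modByMonic_add_div F A
      rw [mul_smul_comm, ← smul_add, h1]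
    · exact (degree_smul_le _ _).trans_lt (degree_modByMonic_lt _ hA)

/-- the digits of the expansion in powers of a monic polynomial -/
noncomputable def digL (A : K[X][X]) (hA : A.Monic) : ℕ → (K[X][X] →ₗ[K[X]] K[X][X])
  | 0 => modByMonicHom A
  | i + 1 => (digL A hA i).comp (quoL A hA)

lemma digL_zero (A : K[X][X]) (hA : A.Monic) (F : K[X][X]) : digL A hA 0 F = F %ₘ A := rfl

lemma digL_succ (A : K[X][X]) (hA : A.Monic) (i : ℕ) (F : K[X][X]) :
    digL A hA (i + 1) F = digL A hA i (F /ₘ A) := rfl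

lemma digL_sum (A : K[X][X]) (hA : A.Monic) (Δ : ℕ) (hΔ : A.natDegree = Δ) (N : ℕ) :
    ∀ F : K[X][X], F.degree < ((Δ * N : ℕ) : WithBot ℕ) →
      F = ∑ i ∈ range N, digL A hA i F * A ^ i := by
  induction N with
  | zero =>
    intro F hF
    rw [Finset.sum_range_zero]
    rw [mul_zero] at hF
    exact degree_eq_bot.mp (Nat.WithBot.lt_zero_iff.mp (by exact_mod_cast hF))
  | succ N ih =>
    intro F hF
    have h1 : (F /ₘ A).degree < ((Δ * N : ℕ) : WithBot ℕ) := by
      by_cases h0 : F /ₘ A = 0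
      · rw [h0, degree_zero]
        exact WithBot.bot_lt_coe _
      · have h2 : ¬ F.degree < A.degree := fun h => h0 ((divByMonic_eq_zero_iff hA).mpr h)
        have h3 := degree_add_divByMonic hA (not_lt.mp h2)
        have h4 : F ≠ 0 := by
          intro h
          rw [h, zero_divByMonic] at h0
          exact h0 rfl
        rw [degree_eq_natDegree hA.ne_zero, degree_eq_natDegree h0, degree_eq_natDegree h4,
          hΔ] at h3
        rw [degree_eq_natDegree h4] at hF
        rw [degree_eq_natDegree h0]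
        norm_cast at h3 hF ⊢
        have : Δ * (N + 1) = Δ * N + Δ := by ring
        omega
    have h2 := ih (F /ₘ A) h1
    have h3 := modByMonic_add_div F A
    rw [Finset.sum_range_succ']
    simp only [digL_succ, digL_zero, pow_zero, mul_one]
    conv_lhs => rw [← h3, h2]
    rw [Finset.mul_sum, add_comm (F %ₘ A)]
    refine congrArg (fun z => z + F %ₘ A) (Finset.sum_congr rfl fun i _ => ?_)
    rw [pow_succ, mul_comm A, mul_assoc]

lemma digL_natDegree (A : K[X][X]) (hA : A.Monic) (Δ : ℕ) (hΔ : A.natDegree = Δ) (i : ℕ) :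
    ∀ (F : K[X][X]) (j : ℕ), Δ ≤ j → (digL A hA i F).coeff j = 0 := by
  induction i with
  | zero =>
    intro F j hj
    have h1 : (F %ₘ A).degree < A.degree := degree_modByMonic_lt _ hA
    refine coeff_eq_zero_of_degree_lt ?_
    rw [digL_zero]
    rw [degree_eq_natDegree hA.ne_zero, hΔ] at h1
    exact h1.trans_le (by exact_mod_cast hj)
  | succ i ih =>
    intro F j hj
    rw [digL_succ]
    exact ih (F /ₘ A) j hj

/-- the count of unknowns and conditions -/
lemma count_lt (a Δ α : ℕ) (ha : 1 ≤ a) (hΔ : 1 ≤ Δ) (hα : a * Δ < α) :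
    ∑ i : Fin α, Δ * (α * (α - i) + 1) < ∑ j : Fin (Δ * α), (α * α - a * j + 1) := by
  have h1 : ∀ M : ℕ, M ≤ α →
      ((∑ i ∈ range M, Δ * (α * (α - i) + 1) : ℕ) : ℤ) * 2
        = Δ * (2 * (α * α + 1) * M - α * (M * (M - 1))) := by
    intro M
    induction M with
    | zero => simp
    | succ M ih =>
      intro hM
      have := ih (by omega)
      rw [Finset.sum_range_succ]
      push_cast [Nat.cast_sub (by omega : M ≤ α)] at this ⊢
      linear_combination this
  have h2 : ∀ M : ℕ, a * M ≤ α * α →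
      ((∑ j ∈ range M, (α * α - a * j + 1) : ℕ) : ℤ) * 2
        = 2 * (α * α + 1) * M - a * (M * (M - 1)) := by
    intro M
    induction M with
    | zero => simp
    | succ M ih =>
      intro hM
      have h3 : a * M ≤ α * α := le_trans (Nat.mul_le_mul_left a (Nat.le_succ M)) hM
      have := ih h3
      rw [Finset.sum_range_succ]
      push_cast [Nat.cast_sub h3] at this ⊢
      linear_combination this
  rw [Fin.sum_univ_eq_sum_range (fun i => Δ * (α * (α - i) + 1)),
    Fin.sum_univ_eq_sum_range (fun j => α * α - a * j + 1)]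
  have h3 := h1 α le_rfl
  have h4 := h2 (Δ * α) (by
    rw [← mul_assoc]
    exact Nat.mul_le_mul_right _ hα.le)
  have h5 : (1 : ℤ) ≤ a := by exact_mod_cast ha
  have h6 : (1 : ℤ) ≤ Δ := by exact_mod_cast hΔ
  have h7 : (a : ℤ) * Δ + 1 ≤ α := by exact_mod_cast hα
  have h8 : (0 : ℤ) < α := by nlinarith
  have h9 : ((∑ i ∈ range α, Δ * (α * (α - i) + 1) : ℕ) : ℤ) * 2
      < ((∑ j ∈ range (Δ * α), (α * α - a * j + 1) : ℕ) : ℤ) * 2 := by
    rw [h3, h4]
    push_cast
    have h10 : (0 : ℤ) < Δ * α := by positivity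
    have h11 : (0 : ℤ) ≤ α - a * Δ - 1 := by linarith
    have h12 : (0 : ℤ) < (Δ * α) * (α * (α - a * Δ - 1) + a) := by positivity
    nlinarith
  have h10 : ((∑ i ∈ range α, Δ * (α * (α - i) + 1) : ℕ) : ℤ)
      < ((∑ j ∈ range (Δ * α), (α * α - a * j + 1) : ℕ) : ℤ) := by linarith
  exact_mod_cast h10

section aux

variable (a Δ α : ℕ)

/-- the index set of the unknowns -/
abbrev Unk : Type := Σ j : Fin (Δ * α), Fin (α * α - a * j + 1)

/-- the index set of the conditions -/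
abbrev Cnd : Type := Σ i : Fin α, Fin Δ × Fin (α * (α - i) + 1)

/-- the polynomial in `w` and `U` -/
noncomputable def mkW : (Unk a Δ α → K) →ₗ[K] K[X][X] where
  toFun c := ∑ σ, monomial (σ.1 : ℕ) (monomial (σ.2 : ℕ) (c σ))
  map_add' c c' := by
    rw [← Finset.sum_add_distrib]
    refine Finset.sum_congr rfl fun σ _ => ?_
    rw [Pi.add_apply, map_add, map_add]
  map_smul' r c := by
    rw [RingHom.id_apply, Finset.smul_sum]
    refine Finset.sum_congr rfl fun σ _ => ?_
    rw [Pi.smul_apply, smul_monomial, smul_monomial]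

/-- the polynomial in `t` and `y` -/
noncomputable def mkT (c : Unk a Δ α → K) : K[X][X] :=
  ∑ σ, monomial (σ.1 : ℕ) (monomial (α * α - a * σ.1 - σ.2) (c σ))

variable {a Δ α}

lemma mkT_ne (c : Unk a Δ α → K) (hc : c ≠ 0) : mkT a Δ α c ≠ 0 := by
  classical
  intro h
  apply hc
  funext σ
  have h1 : ((mkT a Δ α c).coeff σ.1).coeff (α * α - a * σ.1 - σ.2) = c σ := by
    rw [mkT, finsetSum_coeff, finsetSum_coeff, Finset.sum_eq_single σ]
    · rw [coeff_monomial_same, coeff_monomial_same]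
    · rintro ⟨j, l⟩ _ hne
      obtain ⟨j', l'⟩ := σ
      rw [coeff_monomial]
      split_ifs with h2
      · have h3 : j = j' := Fin.ext h2
        subst h3
        rw [coeff_monomial, if_neg]
        intro h4
        apply hne
        have h5 : l = l' := by
          apply Fin.ext
          have := l.isLt
          have := l'.isLt
          simp only at h4
          omega
        rw [h5]
      · rw [coeff_zero]
    · intro h
      exact absurd (Finset.mem_univ _) h
  rw [h, coeff_zero, coeff_zero] at h1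
  exact h1.symm

lemma mkW_degree (c : Unk a Δ α → K) : (mkW a Δ α c).degree < ((Δ * α : ℕ) : WithBot ℕ) := by
  refine (degree_sum_le _ _).trans_lt ?_
  rw [Finset.sup_lt_iff (WithBot.bot_lt_coe _)]
  intro σ _
  refine (degree_monomial_le _ _).trans_lt ?_
  exact_mod_cast σ.1.isLt

variable {Ω : Type} [Field Ω] [Algebra K Ω]

lemma ev2_mk (c : Unk a Δ α → K) (haα : a * Δ ≤ α) (w u : Ω) (hw : w ≠ 0) :
    w ^ (α * α) * ev2 (mkT a Δ α c) w⁻¹ (w⁻¹ ^ a * u) = ev2 (mkW a Δ α c) w u := by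
  have h1 : ev2 (mkT a Δ α c) w⁻¹ (w⁻¹ ^ a * u) = ∑ σ : Unk a Δ α,
      algebraMap K Ω (c σ) * (w⁻¹ ^ (α * α - a * σ.1 - σ.2) * (w⁻¹ ^ a * u) ^ (σ.1 : ℕ)) := by
    rw [mkT, ev2_sum]
    refine Finset.sum_congr rfl fun σ _ => ?_
    unfold ev2
    rw [eval₂_monomial]
    show aeval _ (monomial _ (c σ)) * _ = _
    rw [aeval_monomial, mul_assoc]
  have h2 : ev2 (mkW a Δ α c) w u = ∑ σ : Unk a Δ α,
      algebraMap K Ω (c σ) * (w ^ (σ.2 : ℕ) * u ^ (σ.1 : ℕ)) := by
    show ev2 (∑ σ, monomial (σ.1 : ℕ) (monomial (σ.2 : ℕ) (c σ))) w u = _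
    rw [ev2_sum]
    refine Finset.sum_congr rfl fun σ _ => ?_
    unfold ev2
    rw [eval₂_monomial]
    show aeval _ (monomial _ (c σ)) * _ = _
    rw [aeval_monomial, mul_assoc]
  rw [h1, h2, Finset.mul_sum]
  refine Finset.sum_congr rfl fun σ _ => ?_
  have h3 : a * σ.1 ≤ α * α := by
    have h4 : (σ.1 : ℕ) ≤ Δ * α := σ.1.isLt.le
    calc a * σ.1 ≤ a * (Δ * α) := Nat.mul_le_mul_left _ h4
      _ = (a * Δ) * α := by ring
      _ ≤ α * α := Nat.mul_le_mul_right _ haα
  have h4 : (σ.2 : ℕ) ≤ α * α - a * σ.1 := by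
    have := σ.2.isLt
    omega
  have h5 : w ^ (α * α) = w ^ (σ.2 : ℕ) * (w ^ (α * α - a * σ.1 - σ.2) * (w ^ a) ^ (σ.1 : ℕ)) := by
    rw [← pow_mul, ← pow_add, ← pow_add]
    congr 1
    omega
  rw [h5, mul_pow, inv_pow, inv_pow, inv_pow]
  have h6 : w ^ (α * α - a * σ.1 - σ.2) ≠ 0 := pow_ne_zero _ hw
  have h7 : (w ^ a) ^ (σ.1 : ℕ) ≠ 0 := pow_ne_zero _ (pow_ne_zero _ hw)
  field_simp

/-- the conditions -/
noncomputable def cnd (a Δ α : ℕ) (A : K[X][X]) (hA : A.Monic) :
    (Unk a Δ α → K) →ₗ[K] (Cnd Δ α → K) :=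
  LinearMap.pi fun σ => (lcoeff K (σ.2.2 : ℕ)).comp
    (((lcoeff K[X] (σ.2.1 : ℕ)).restrictScalars K).comp
      (((digL A hA σ.1).restrictScalars K).comp (mkW a Δ α)))

end aux

/-- A nonzero polynomial in `t` and `y` which is small wherever `A` is small to the order `α`. -/
theorem exists_aux (a Δ α : ℕ) (ha : 1 ≤ a) (hΔ : 1 ≤ Δ) (hα : a * Δ < α) (A : K[X][X])
    (hA : A.Monic) (hAd : A.natDegree = Δ) : ∃ P : K[X][X], P ≠ 0 ∧
      ∀ (Ω : Type) [Field Ω] [Algebra K Ω] (μ : AbsoluteValue Ω ℝ) (C0 R : ℝ), 0 ≤ C0 →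
        ∃ C1 : ℝ, 0 ≤ C1 ∧ ∀ w u : Ω, w ≠ 0 → μ w ≤ 1 → μ u ≤ R → μ (ev2 A w u) ≤ C0 * μ w ^ α →
          μ (ev2 P w⁻¹ (w⁻¹ ^ a * u)) ≤ C1 * μ w := by
  have h1 : Module.finrank K (Cnd Δ α → K) < Module.finrank K (Unk a Δ α → K) := by
    rw [Module.finrank_fintype_fun_eq_card, Module.finrank_fintype_fun_eq_card,
      Fintype.card_sigma, Fintype.card_sigma]
    simp only [Fintype.card_prod, Fintype.card_fin]
    exact count_lt a Δ α ha hΔ hα
  have h2 := LinearMap.ker_ne_bot_of_finrank_lt (f := cnd a Δ α A hA) h1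
  obtain ⟨c, hc, hc0⟩ := Submodule.exists_mem_ne_zero_of_ne_bot h2
  rw [LinearMap.mem_ker] at hc
  refine ⟨mkT a Δ α c, mkT_ne c hc0, ?_⟩
  have h3 : ∀ i : ℕ, i < α → C (X ^ (α * (α - i) + 1)) ∣ digL A hA i (mkW a Δ α c) := by
    intro i hi
    rw [C_dvd_iff_dvd_coeff]
    intro j
    rcases Nat.lt_or_ge j Δ with hj | hj
    · rw [X_pow_dvd_iff]
      intro l hl
      exact congrFun hc ⟨⟨i, hi⟩, ⟨j, hj⟩, ⟨l, hl⟩⟩
    · rw [digL_natDegree A hA Δ hAd i _ j hj]
      exact dvd_zero _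
  intro Ω _ _ μ C0 R hC0
  have h4 : ∀ i : ℕ, ∃ B : ℝ, 0 ≤ B ∧ (i < α → ∀ w u : Ω, μ w ≤ 1 → μ u ≤ R →
      μ (ev2 (digL A hA i (mkW a Δ α c)) w u) ≤ B * μ w ^ (α * (α - i) + 1)) := by
    intro i
    rcases Nat.lt_or_ge i α with hi | hi
    · obtain ⟨B, hB, h5⟩ := ev2_small_of_dvd (μ := μ) _ _ (h3 i hi) R
      exact ⟨B, hB, fun _ => h5⟩
    · exact ⟨0, le_refl _, fun h => absurd h (by omega)⟩
  choose B hB h4 using h4
  refine ⟨∑ i ∈ range α, B i * C0 ^ i, Finset.sum_nonneg fun i _ => mul_nonneg (hB i)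
    (pow_nonneg hC0 _), fun w u hw hw1 hu hAs => ?_⟩
  have hμ : 0 < μ w := μ.pos hw
  have h5 : μ (ev2 (mkW a Δ α c) w u) ≤ (∑ i ∈ range α, B i * C0 ^ i) * μ w ^ (α * α + 1) := by
    conv_lhs => rw [digL_sum A hA Δ hAd α _ (mkW_degree c)]
    rw [ev2_sum]
    refine (μ.sum_le _ _).trans ?_
    rw [Finset.sum_mul]
    refine Finset.sum_le_sum fun i hi => ?_
    have hi' := Finset.mem_range.mp hi
    rw [ev2_mul, ev2_pow, map_mul, map_pow]
    calc _ ≤ (B i * μ w ^ (α * (α - i) + 1)) * (C0 * μ w ^ α) ^ i :=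
          mul_le_mul (h4 i hi' w u hw1 hu) (pow_le_pow_left₀ (μ.nonneg _) hAs _)
            (pow_nonneg (μ.nonneg _) _) (mul_nonneg (hB i) (by positivity))
      _ = B i * C0 ^ i * (μ w ^ (α * (α - i) + 1) * (μ w ^ α) ^ i) := by ring
      _ = B i * C0 ^ i * μ w ^ (α * α + 1) := by
          rw [← pow_mul, ← pow_add]
          congr 2
          obtain ⟨k, hk⟩ := Nat.exists_eq_add_of_le hi'.le
          have : α - i = k := by omega
          rw [this]
          conv_rhs => rw [hk]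
          conv_lhs => rw [hk]
          ring
  rw [← ev2_mk c hα.le w u hw, map_mul, map_pow, pow_succ] at h5
  have h6 : 0 < μ w ^ (α * α) := by positivity
  refine le_of_mul_le_mul_left ?_ h6
  refine h5.trans (le_of_eq ?_)
  ring

end Pool.Agent.Lib.MP_9ec2c5_nt_h65
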