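import Mathlib
import Pool.Agent.Lib.MP_9ec2c5_nt_h65.Fac
import Pool.Agent.Lib.MP_9ec2c5_nt_h65.Degree

/-!
The norm of a polynomial in `t` and `y` over the polynomials in `t ^ b` and `y`.
-/

set_option autoImplicit false
set_option linter.unusedSectionVars false

namespace Pool.Agent.Lib.MP_9ec2c5_nt_h65

open Polynomial Finset

variable {K : Type} [Field K]

lemma Z_facts (b : ℕ) (_hb : 1 ≤ b) (Z : Finset K) (hZ : (X ^ b - 1 : K[X]) = ∏ ζ ∈ Z, (X - C ζ)) :
    Z.card = b ∧ ∀ ζ : K, ζ ∈ Z ↔ ζ ^ b = 1 := by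
  constructor
  · have h1 : (X ^ b - 1 : K[X]).natDegree = b := by
      have := natDegree_X_pow_sub_C (R := K) (n := b) (r := 1)
      rwa [map_one] at this
    rw [hZ, natDegree_prod_of_monic _ _ fun ζ _ => monic_X_sub_C ζ] at h1
    simpa using h1
  · intro ζ
    have h1 : (X ^ b - 1 : K[X]).eval ζ = ∏ ξ ∈ Z, (ζ - ξ) := by
      rw [hZ, eval_prod]
      exact Finset.prod_congr rfl fun ξ _ => by rw [eval_sub, eval_X, eval_C]
    rw [eval_sub, eval_pow, eval_X, eval_one] at h1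
    rw [← sub_eq_zero (a := ζ ^ b), h1, Finset.prod_eq_zero_iff]
    constructor
    · intro h
      exact ⟨ζ, h, sub_self _⟩
    · rintro ⟨ξ, h2, h3⟩
      rw [sub_eq_zero] at h3
      rwa [h3]

lemma exists_ne_one (b : ℕ) (hb : 1 ≤ b) (Z : Finset K)
    (hZ : (X ^ b - 1 : K[X]) = ∏ ζ ∈ Z, (X - C ζ)) (i : ℕ) (hi : ¬ b ∣ i) :
    ∃ ζ ∈ Z, ζ ^ i ≠ 1 := by
  classical
  obtain ⟨hc, hm⟩ := Z_facts b hb Z hZ
  by_contra hcon
  push Not at hcon
  have hg : 0 < Nat.gcd i b := Nat.gcd_pos_of_pos_right i (by omega)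
  have h1 : Z ⊆ (X ^ Nat.gcd i b - C 1 : K[X]).roots.toFinset := by
    intro ζ hζ
    rw [Multiset.mem_toFinset, mem_roots (X_pow_sub_C_ne_zero hg 1), IsRoot.def, eval_sub, eval_pow,
      eval_X, eval_C, sub_eq_zero]
    exact pow_gcd_eq_one.mpr ⟨hcon ζ hζ, (hm ζ).mp hζ⟩
  have h2 := Finset.card_le_card h1
  have h3 : (X ^ Nat.gcd i b - C 1 : K[X]).roots.toFinset.card ≤ Nat.gcd i b := by
    refine (Multiset.toFinset_card_le _).trans ((card_roots' _).trans ?_)
    rw [natDegree_X_pow_sub_C]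
  rw [hc] at h2
  have h4 : Nat.gcd i b = b := le_antisymm (Nat.gcd_le_right i (by omega)) (h2.trans h3)
  exact hi (by rw [← h4]; exact Nat.gcd_dvd_left i b)

/-- the rotated polynomial -/
noncomputable def rot (ζ : K) (P : K[X][X]) : K[X][X] := P.map (compRingHom (C ζ * X))

lemma ev2_rot {Ω : Type} [Field Ω] [Algebra K Ω] (ζ : K) (P : K[X][X]) (t y : Ω) :
    ev2 (rot ζ P) t y = ev2 P (algebraMap K Ω ζ * t) y := by
  unfold ev2 rot
  rw [eval₂_map]
  congr 1
  ext1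
  · ext1 c
    simp
  · simp

lemma rot_ne (ζ : K) (hζ : ζ ≠ 0) (P : K[X][X]) (hP : P ≠ 0) : rot ζ P ≠ 0 := by
  rw [rot, Ne, Polynomial.map_eq_zero_iff]
  · exact hP
  · apply comp_injective
    rw [natDegree_C_mul_X ζ hζ]

lemma rot_rot (ζ ξ : K) (P : K[X][X]) : rot ζ (rot ξ P) = rot (ξ * ζ) P := by
  unfold rot
  rw [Polynomial.map_map]
  congr 1
  ext1
  · ext1 c
    simp
  · simp [mul_assoc]

/-- The norm from polynomials in `t`, `y` to polynomials in `t ^ b`, `y`. -/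
theorem exists_norm (b : ℕ) (hb : 1 ≤ b) (Z : Finset K)
    (hZ : (X ^ b - 1 : K[X]) = ∏ ζ ∈ Z, (X - C ζ)) (P : K[X][X]) (hP : P ≠ 0) :
    ∃ R : K[X][X], R ≠ 0 ∧ ∀ (Ω : Type) [Field Ω] [Algebra K Ω] (t y : Ω),
      ev2 R (t ^ b) y = ∏ ζ ∈ Z, ev2 P (algebraMap K Ω ζ * t) y := by
  classical
  obtain ⟨hc, hm⟩ := Z_facts b hb Z hZ
  have hz0 : ∀ ζ ∈ Z, ζ ≠ 0 := by
    intro ζ hζ h
    have := (hm ζ).mp hζ
    rw [h, zero_pow (by omega)] at this
    exact zero_ne_one this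
  set N : K[X][X] := ∏ ζ ∈ Z, rot ζ P with hN
  have hN0 : N ≠ 0 := Finset.prod_ne_zero_iff.mpr fun ζ hζ => rot_ne ζ (hz0 ζ hζ) P hP
  have hrot : ∀ ξ ∈ Z, rot ξ N = N := by
    intro ξ hξ
    have h1 : rot ξ N = ∏ ζ ∈ Z, rot (ζ * ξ) P := by
      rw [hN]
      conv_lhs => rw [rot, Polynomial.map_prod]
      refine Finset.prod_congr rfl fun ζ _ => ?_
      exact rot_rot ξ ζ P
    rw [h1, hN]
    refine Finset.prod_bij (fun ζ _ => ζ * ξ) ?_ ?_ ?_ ?_
    · intro ζ hζ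
      rw [hm, mul_pow, (hm ζ).mp hζ, (hm ξ).mp hξ, one_mul]
    · intro ζ _ ζ' _ h
      exact mul_right_cancel₀ (hz0 ξ hξ) h
    · intro ζ hζ
      refine ⟨ζ * ξ⁻¹, ?_, ?_⟩
      · rw [hm, mul_pow, inv_pow, (hm ζ).mp hζ, (hm ξ).mp hξ, inv_one, one_mul]
      · rw [mul_assoc, inv_mul_cancel₀ (hz0 ξ hξ), mul_one]
    · intro ζ _
      rfl
  have hcoef : ∀ j i : ℕ, ¬ b ∣ i → (N.coeff j).coeff i = 0 := by
    intro j i hi
    obtain ⟨ζ, hζ, hζi⟩ := exists_ne_one b hb Z hZ i hi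
    have h1 : ((rot ζ N).coeff j).coeff i = (N.coeff j).coeff i := by rw [hrot ζ hζ]
    rw [rot, coeff_map] at h1
    have h2 : (compRingHom (C ζ * X) (N.coeff j)).coeff i = (N.coeff j).coeff i * ζ ^ i := by
      rw [coe_compRingHom_apply, comp_C_mul_X_coeff]
    rw [h2] at h1
    have h3 : (N.coeff j).coeff i * (ζ ^ i - 1) = 0 := by
      linear_combination h1
    rcases mul_eq_zero.mp h3 with h4 | h4
    · exact h4
    · exact absurd (sub_eq_zero.mp h4) hζi
  have hexp : ∀ j, expand K b (contract b (N.coeff j)) = N.coeff j := by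
    intro j
    ext i
    rw [coeff_expand (by omega)]
    split_ifs with h
    · rw [coeff_contract (by omega), Nat.div_mul_cancel h]
    · exact (hcoef j i h).symm
  set R : K[X][X] := ∑ j ∈ range (N.natDegree + 1), monomial j (contract b (N.coeff j)) with hR
  refine ⟨R, ?_, ?_⟩
  · intro h
    apply hN0
    have h1 : N.leadingCoeff = 0 := by
      have h2 : R.coeff N.natDegree = contract b (N.coeff N.natDegree) := by
        rw [hR, finsetSum_coeff, Finset.sum_eq_single N.natDegree]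
        · rw [coeff_monomial_same]
        · intro j _ hj
          rw [coeff_monomial, if_neg hj]
        · intro h
          exact absurd (Finset.mem_range.mpr (Nat.lt_succ_self _)) h
      rw [h, coeff_zero] at h2
      rw [leadingCoeff, ← hexp, ← h2, map_zero]
    exact leadingCoeff_eq_zero.mp h1
  · intro Ω _ _ t y
    have h1 : ev2 R (t ^ b) y = ev2 N t y := by
      rw [hR, ev2_sum, ev2_eq N]
      refine Finset.sum_congr rfl fun j _ => ?_
      unfold ev2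
      rw [eval₂_monomial]
      show aeval (t ^ b) (contract b (N.coeff j)) * y ^ j = _
      rw [← expand_aeval, hexp]
    rw [h1, hN, ev2_prod]
    exact Finset.prod_congr rfl fun ζ _ => ev2_rot ζ P t y

end Pool.Agent.Lib.MP_9ec2c5_nt_h65
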