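import Mathlib
import Pool.Agent.Lib.MP_9ec2c5_nt_h65.Combi
import Pool.Agent.Lib.MP_9ec2c5_nt_h65.Local
import Pool.Agent.Lib.MP_9ec2c5_nt_h65.NormT

/-!
Segments of slow orbits at a place at which the base orbit tends to infinity.
-/

set_option autoImplicit false
set_option linter.unusedSectionVars false

namespace Pool.Agent.Lib.MP_9ec2c5_nt_h65

open Polynomial Finset Filter Topology

/-- A skew product with its normalised data at infinity. -/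
structure SkewMap (K : Type) [Field K] extends SkewData K where
  /-- the base polynomial -/
  p : K[X]
  /-- the fibre polynomial -/
  q : K[X][X]
  hpd : p.natDegree = d
  hP : P1 = C p.leadingCoeff⁻¹ * expand K b p.reverse
  hlamb : lam ^ b = p.leadingCoeff
  hQ : ∀ (Ω : Type) [Field Ω] [Algebra K Ω] (w u : Ω), w ≠ 0 →
    ev2 Q w u = w ^ (a * e) * ev2 q (w⁻¹ ^ b) (w⁻¹ ^ a * u)
  hQdeg : Q.natDegree ≤ e
  /-- roots of unity -/
  Z : Finset K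
  hZ : (X ^ b - 1 : K[X]) = ∏ ζ ∈ Z, (X - C ζ)
  hcard : 2 ≤ Fintype.card ι

namespace SkewMap

variable {K : Type} [Field K] (D : SkewMap K)

lemma lead_ne : D.p.leadingCoeff ≠ 0 := by
  rw [← D.hlamb]
  exact pow_ne_zero _ D.hlam

section

variable {Ω : Type} [Field Ω] [Algebra K Ω] (μ : AbsoluteValue Ω ℝ)

/-- the nearest root of unity -/
lemma near_unity : ∃ κ : ℝ, 0 ≤ κ ∧ ∀ s : Ω, ∃ ζ ∈ D.Z,
    μ (s - algebraMap K Ω ζ) ≤ κ * μ (s ^ D.b - 1) := by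
  classical
  obtain ⟨hc, hm⟩ := Z_facts D.b D.hb D.Z D.hZ
  have hne : D.Z.Nonempty := by
    rw [← Finset.card_pos, hc]
    exact D.hb
  have hdist : ∃ η : ℝ, 0 < η ∧ ∀ ζ ∈ D.Z, ∀ ξ ∈ D.Z, ζ ≠ ξ →
      η ≤ μ (algebraMap K Ω ζ - algebraMap K Ω ξ) := by
    set P : Finset (K × K) := (D.Z ×ˢ D.Z).filter fun z => z.1 ≠ z.2 with hP
    rcases P.eq_empty_or_nonempty with h | h
    · refine ⟨1, one_pos, fun ζ hζ ξ hξ hne => ?_⟩
      have : (ζ, ξ) ∈ P := Finset.mem_filter.mpr ⟨Finset.mem_product.mpr ⟨hζ, hξ⟩, hne⟩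
      rw [h] at this
      exact absurd this (Finset.notMem_empty _)
    · obtain ⟨z, hz, hmin⟩ := Finset.exists_min_image P
        (fun z => μ (algebraMap K Ω z.1 - algebraMap K Ω z.2)) h
      refine ⟨_, ?_, fun ζ hζ ξ hξ hne =>
        hmin (ζ, ξ) (Finset.mem_filter.mpr ⟨Finset.mem_product.mpr ⟨hζ, hξ⟩, hne⟩)⟩
      apply μ.pos
      rw [sub_ne_zero]
      intro h
      exact (Finset.mem_filter.mp hz).2 ((algebraMap K Ω).injective h)
  obtain ⟨η, hη, hη'⟩ := hdist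
  refine ⟨((η / 2) ^ (D.b - 1))⁻¹, by positivity, fun s => ?_⟩
  obtain ⟨ζ, hζ, hmin⟩ := Finset.exists_min_image D.Z (fun ζ => μ (s - algebraMap K Ω ζ)) hne
  refine ⟨ζ, hζ, ?_⟩
  have h1 : s ^ D.b - 1 = ∏ ξ ∈ D.Z, (s - algebraMap K Ω ξ) := by
    have h2 := congrArg (aeval s) D.hZ
    rw [map_sub, map_pow, aeval_X, map_one, map_prod] at h2
    rw [h2]
    exact Finset.prod_congr rfl fun ξ _ => by rw [map_sub, aeval_X, aeval_C]
  rw [h1, map_prod, ← Finset.mul_prod_erase D.Z _ hζ]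
  have h2 : (η / 2) ^ (D.b - 1) ≤ ∏ ξ ∈ D.Z.erase ζ, μ (s - algebraMap K Ω ξ) := by
    rw [← hc, ← Finset.card_erase_of_mem hζ, ← Finset.prod_const]
    refine Finset.prod_le_prod (fun _ _ => by positivity) fun ξ hξ => ?_
    have hξ' := Finset.mem_erase.mp hξ
    have h3 := hη' ξ hξ'.2 ζ hζ hξ'.1
    have h4 := hmin ξ hξ'.2
    have h5 := μ.add_le (s - algebraMap K Ω ζ) (-(s - algebraMap K Ω ξ))
    rw [μ.map_neg] at h5
    have h6 : s - algebraMap K Ω ζ + -(s - algebraMap K Ω ξ)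
        = algebraMap K Ω ξ - algebraMap K Ω ζ := by ring
    rw [h6] at h5
    linarith
  rw [← div_eq_inv_mul, le_div_iff₀ (by positivity)]
  exact mul_le_mul_of_nonneg_left h2 (μ.nonneg _)

lemma unity_norm {ζ : K} (hζ : ζ ∈ D.Z) : μ (algebraMap K Ω ζ) = 1 := by
  have h1 := ((Z_facts D.b D.hb D.Z D.hZ).2 ζ).mp hζ
  have h2 : μ (algebraMap K Ω ζ) ^ D.b = 1 := by
    rw [← map_pow, ← map_pow, h1, map_one, map_one]
  exact (pow_eq_one_iff_of_nonneg (μ.nonneg _) (by have := D.hb; omega)).mp h2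

/-- the base polynomial in the coordinate at infinity -/
lemma base_eq (t : Ω) (ht : t ≠ 0) : aeval (t ^ D.b) D.p
    = (algebraMap K Ω D.lam * t ^ D.d) ^ D.b * aeval t⁻¹ D.P1 := by
  have hx0 : t ^ D.b ≠ 0 := pow_ne_zero _ ht
  let _ : Invertible (t ^ D.b) := invertibleOfNonzero hx0
  have h1 := eval₂_reverse_mul_pow (algebraMap K Ω) (t ^ D.b) D.p
  rw [invOf_eq_inv, D.hpd] at h1
  have h2 : aeval t⁻¹ D.P1
      = algebraMap K Ω D.p.leadingCoeff⁻¹ * eval₂ (algebraMap K Ω) (t ^ D.b)⁻¹ D.p.reverse := by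
    rw [D.hP, map_mul, aeval_C, expand_aeval, inv_pow]
    rfl
  have h3 : aeval (t ^ D.b) D.p = eval₂ (algebraMap K Ω) (t ^ D.b) D.p := rfl
  have h4 : (algebraMap K Ω D.lam * t ^ D.d) ^ D.b * algebraMap K Ω D.p.leadingCoeff⁻¹
      = (t ^ D.b) ^ D.d := by
    rw [mul_pow, ← map_pow, D.hlamb, map_inv₀]
    have h5 : algebraMap K Ω D.p.leadingCoeff ≠ 0 := by
      rw [Ne, map_eq_zero]
      exact D.lead_ne
    field_simp
    ring
  rw [h3, ← h1, h2, ← mul_assoc, h4]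
  ring

/-- the next coherent root -/
lemma next_root [IsAlgClosed Ω] : ∃ C1 : ℝ, 0 ≤ C1 ∧ ∀ t : Ω, t ≠ 0 → μ t⁻¹ ≤ 1 →
    ∃ s : Ω, (algebraMap K Ω D.lam * t ^ D.d * s) ^ D.b = aeval (t ^ D.b) D.p ∧
      s ^ D.b = aeval t⁻¹ D.P1 ∧ μ (s - 1) ≤ C1 * μ t⁻¹ := by
  obtain ⟨κ, hκ, h1⟩ := D.near_unity μ
  obtain ⟨C2, hC2, h2⟩ := small_of_dvd (μ := μ) (D.P1 - 1) 1 (by
    rw [pow_one, X_dvd_iff, coeff_sub, D.hP1, coeff_one_zero, sub_self]) 1
  refine ⟨κ * C2, by positivity, fun t ht ht1 => ?_⟩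
  obtain ⟨s0, hs0⟩ := IsAlgClosed.exists_pow_nat_eq (aeval t⁻¹ D.P1) (by have := D.hb; omega : 0 < D.b)
  obtain ⟨ζ, hζ, h3⟩ := h1 s0
  have hζ1 := D.unity_norm μ hζ
  have hζ0 : algebraMap K Ω ζ ≠ 0 := by
    intro h
    rw [h, map_zero] at hζ1
    exact zero_ne_one hζ1
  have hζb : algebraMap K Ω ζ ^ D.b = 1 := by
    rw [← map_pow, ((Z_facts D.b D.hb D.Z D.hZ).2 ζ).mp hζ, map_one]
  have hsb : (s0 * (algebraMap K Ω ζ)⁻¹) ^ D.b = aeval t⁻¹ D.P1 := by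
    rw [mul_pow, hs0, inv_pow, hζb, inv_one, mul_one]
  refine ⟨s0 * (algebraMap K Ω ζ)⁻¹, ?_, hsb, ?_⟩
  · rw [mul_pow, hsb, D.base_eq t ht]
  · have h4 : s0 * (algebraMap K Ω ζ)⁻¹ - 1 = (algebraMap K Ω ζ)⁻¹ * (s0 - algebraMap K Ω ζ) := by
      field_simp
    have h5 := h2 t⁻¹ ht1
    rw [map_sub, map_one, pow_one, ← hs0] at h5
    rw [h4, map_mul, map_inv₀, hζ1, inv_one, one_mul]
    refine h3.trans ?_
    rw [mul_assoc]
    exact mul_le_mul_of_nonneg_left h5 hκ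

/-- the top coefficient dominates -/
lemma Q_lower : ∃ δ C1 c1 : ℝ, 0 < δ ∧ 1 ≤ C1 ∧ 0 < c1 ∧ ∀ w v : Ω, μ w ≤ δ → C1 ≤ μ v →
    c1 * μ v ^ D.e ≤ μ (ev2 D.Q w v) := by
  set e := D.e with he
  have he1 : 1 ≤ e := D.he1
  have htop : (D.Q.coeff e).coeff 0 = D.c := by
    have h1 : (top0 D.Q).coeff e = (D.Q.coeff e).coeff 0 := by
      rw [top0, coeff_map]
      rfl
    have h2 : (∏ i, (X - C (D.r i)) ^ D.m i : K[X]).Monic :=
      monic_prod_of_monic _ _ fun i _ => (monic_X_sub_C _).pow _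
    have h3 : (∏ i, (X - C (D.r i)) ^ D.m i : K[X]).natDegree = e := by
      rw [natDegree_prod_of_monic _ _ fun i _ => (monic_X_sub_C _).pow _, he, ← D.he]
      refine Finset.sum_congr rfl fun i _ => ?_
      rw [(monic_X_sub_C _).natDegree_pow, natDegree_X_sub_C, mul_one]
    have h4 := h2.coeff_natDegree
    rw [h3] at h4
    rw [← h1, D.hT, coeff_C_mul, h4, mul_one]
  set ν : ℝ := μ (algebraMap K Ω D.c) with hν
  have hν0 : 0 < ν := by
    apply μ.pos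
    rw [Ne, map_eq_zero]
    exact D.hc
  have hb : ∀ g : K[X], ∃ B : ℝ, 0 ≤ B ∧ ∀ w : Ω, μ w ≤ 1 → μ (aeval w g) ≤ B := by
    intro g
    obtain ⟨B, hB, h2, -⟩ := Nice.poly (μ := μ) g 0 1
    exact ⟨B, hB, fun w hw => h2 (fun _ => w) fun _ => hw⟩
  choose B hB hb using hb
  obtain ⟨C2, hC2, h2⟩ := small_of_dvd (μ := μ) (D.Q.coeff e - C D.c) 1 (by
    rw [pow_one, X_dvd_iff, coeff_sub, htop, coeff_C_zero, sub_self]) 1
  set S : ℝ := ∑ j ∈ range e, B (D.Q.coeff j) with hS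
  have hS0 : 0 ≤ S := Finset.sum_nonneg fun j _ => hB _
  refine ⟨min 1 (ν / (2 * (C2 + 1))), max 1 (4 * S / ν), ν / 4, by positivity, le_max_left _ _,
    by positivity, fun w v hw hv => ?_⟩
  have h3 : μ w ≤ 1 := hw.trans (min_le_left _ _)
  have h4 : μ w ≤ ν / (2 * (C2 + 1)) := hw.trans (min_le_right _ _)
  have hv1 : 1 ≤ μ v := (le_max_left _ _).trans hv
  have hv2 : 4 * S / ν ≤ μ v := (le_max_right _ _).trans hv
  have h5 : ν / 2 ≤ μ (aeval w (D.Q.coeff e)) := by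
    have h6 := h2 _ h3
    rw [map_sub, aeval_C, pow_one] at h6
    have h7 : C2 * μ w ≤ ν / 2 := by
      have h8 : (C2 + 1) * μ w ≤ (C2 + 1) * (ν / (2 * (C2 + 1))) :=
        mul_le_mul_of_nonneg_left h4 (by positivity)
      have h9 : (C2 + 1) * (ν / (2 * (C2 + 1))) = ν / 2 := by field_simp
      have := μ.nonneg w
      linarith
    have h8 := μ.add_le (aeval w (D.Q.coeff e)) (-(aeval w (D.Q.coeff e) - algebraMap K Ω D.c))
    have h9 : aeval w (D.Q.coeff e) + -(aeval w (D.Q.coeff e) - algebraMap K Ω D.c)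
        = algebraMap K Ω D.c := by ring
    rw [h9, μ.map_neg] at h8
    linarith
  have h6 : ev2 D.Q w v = (∑ j ∈ range e, aeval w (D.Q.coeff j) * v ^ j)
      + aeval w (D.Q.coeff e) * v ^ e := by
    have h7 : ev2 D.Q w v = ∑ j ∈ range (e + 1), aeval w (D.Q.coeff j) * v ^ j := by
      rw [ev2_eq]
      apply Finset.sum_subset
      · exact Finset.range_subset_range.mpr (Nat.succ_le_succ D.hQdeg)
      · intro j _ hj
        rw [Finset.mem_range, not_lt] at hj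
        rw [coeff_eq_zero_of_natDegree_lt (by omega), map_zero, zero_mul]
    rw [h7, Finset.sum_range_succ]
  have h7 : μ (∑ j ∈ range e, aeval w (D.Q.coeff j) * v ^ j) ≤ S * μ v ^ (e - 1) := by
    refine (μ.sum_le _ _).trans ?_
    rw [hS, Finset.sum_mul]
    apply Finset.sum_le_sum
    intro j hj
    rw [map_mul, map_pow]
    have hj' := Finset.mem_range.mp hj
    exact mul_le_mul (hb _ _ h3) (pow_le_pow_right₀ hv1 (by omega)) (pow_nonneg (μ.nonneg _) _)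
      (hB _)
  have h8 : S * μ v ^ (e - 1) ≤ ν / 4 * μ v ^ e := by
    have h9 : μ v ^ e = μ v * μ v ^ (e - 1) := by
      conv_lhs => rw [show e = (e - 1) + 1 by omega]
      rw [pow_succ]
      ring
    rw [h9]
    rw [div_le_iff₀ hν0] at hv2
    have h10 : 0 ≤ μ v ^ (e - 1) := pow_nonneg (μ.nonneg _) _
    nlinarith
  have h9 : ν / 2 * μ v ^ e ≤ μ (aeval w (D.Q.coeff e) * v ^ e) := by
    rw [map_mul, map_pow]
    exact mul_le_mul_of_nonneg_right h5 (pow_nonneg (μ.nonneg _) _)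
  have h10 : μ (aeval w (D.Q.coeff e) * v ^ e) ≤ μ (ev2 D.Q w v)
      + μ (∑ j ∈ range e, aeval w (D.Q.coeff j) * v ^ j) := by
    have h11 := μ.add_le (ev2 D.Q w v) (-(∑ j ∈ range e, aeval w (D.Q.coeff j) * v ^ j))
    have h12 : ev2 D.Q w v + -(∑ j ∈ range e, aeval w (D.Q.coeff j) * v ^ j)
        = aeval w (D.Q.coeff e) * v ^ e := by
      rw [h6]
      ring
    rw [h12, μ.map_neg] at h11
    exact h11
  linarith

/-- the normalised fibre coordinate of a slow segment is bounded -/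
lemma u_bounded (C1 : ℝ) (hC1 : 0 ≤ C1) : ∃ δ R : ℝ, 0 < δ ∧ 2 ≤ R ∧ ∀ w u s : ℕ → Ω,
    (∀ k, μ (w k) ≤ δ) → (∀ k, μ (s k - 1) ≤ C1 * μ (w k)) →
    (∀ k, ev2 D.Q (w k) (u k) = w k ^ D.ρ * (algebraMap K Ω D.lam * s k) ^ D.a * u (k + 1)) →
    (∃ A B : ℝ, ∀ k : ℕ, μ (u k) ≤ Real.exp ((D.d : ℝ) ^ k * (A + B * k))) →
    ∀ k, μ (u k) ≤ R := by
  obtain ⟨δ1, hδ1, h1⟩ := SkewData.s_bounds μ C1 hC1
  obtain ⟨δ2, R, c1, hδ2, hR, hc1, h2⟩ := D.Q_lower μ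
  set lam : Ω := algebraMap K Ω D.lam with hlam
  have hlam0 : lam ≠ 0 := by
    rw [hlam, Ne, map_eq_zero]
    exact D.hlam
  have hl : 0 < μ lam := μ.pos hlam0
  set L : ℝ := (μ lam * 2) ^ D.a with hL
  have hL0 : 0 < L := by positivity
  refine ⟨min 1 (min δ1 (min δ2 (c1 / L))), max 2 R, by positivity, le_max_left _ _,
    fun w u s hw hs hf ⟨A, B, hup⟩ => ?_⟩
  set δ := min 1 (min δ1 (min δ2 (c1 / L))) with hδ
  have e1 : δ ≤ 1 := min_le_left _ _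
  have e2 : δ ≤ δ1 := (min_le_right _ _).trans (min_le_left _ _)
  have e3 : δ ≤ δ2 := (min_le_right _ _).trans ((min_le_right _ _).trans (min_le_left _ _))
  have e4 : δ ≤ c1 / L := (min_le_right _ _).trans ((min_le_right _ _).trans (min_le_right _ _))
  have hesc : ∀ k, max 2 R ≤ μ (u k) → μ (u k) ^ D.e ≤ μ (u (k + 1)) := by
    intro k hk
    have h3 := h2 (w k) (u k) ((hw k).trans e3) ((le_max_right _ _).trans hk)
    have h4 := (h1 (s k) (w k) ((hw k).trans e2) (hs k)).1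
    rw [hf, map_mul, map_mul, map_pow] at h3
    have hw1 : μ (w k) ≤ 1 := (hw k).trans e1
    have h5 : μ (w k) ^ D.ρ ≤ μ (w k) := by
      calc μ (w k) ^ D.ρ ≤ μ (w k) ^ 1 := pow_le_pow_of_le_one (μ.nonneg _) hw1 D.hρ
        _ = μ (w k) := pow_one _
    have h6 : μ ((lam * s k) ^ D.a) ≤ L := by
      rw [map_pow, map_mul, hL]
      exact pow_le_pow_left₀ (mul_nonneg hl.le (μ.nonneg _))
        (mul_le_mul_of_nonneg_left h4 hl.le) _
    have h7 : μ (w k) ^ D.ρ * μ ((lam * s k) ^ D.a) ≤ c1 := by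
      calc _ ≤ (c1 / L) * L :=
            mul_le_mul (h5.trans ((hw k).trans e4)) h6 (μ.nonneg _) (by positivity)
        _ = c1 := div_mul_cancel₀ _ hL0.ne'
    have h8 := h3.trans (mul_le_mul_of_nonneg_right h7 (μ.nonneg (u (k + 1))))
    exact le_of_mul_le_mul_left h8 hc1
  intro k
  by_contra hcon
  push Not at hcon
  set R' := max 2 R with hR'
  have hR2 : 2 ≤ R' := le_max_left _ _
  have he1 := D.he1
  have h5 : ∀ j : ℕ, R' ^ (D.e ^ j) ≤ μ (u (k + j)) := by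
    intro j
    induction j with
    | zero =>
      rw [pow_zero, pow_one, add_zero]
      exact hcon.le
    | succ j ih =>
      have h6 : R' ≤ μ (u (k + j)) := by
        refine le_trans ?_ ih
        calc R' = R' ^ 1 := (pow_one _).symm
          _ ≤ R' ^ (D.e ^ j) := pow_le_pow_right₀ (by linarith) (Nat.one_le_pow _ _ he1)
      have h7 := hesc (k + j) h6
      rw [pow_succ, pow_mul]
      exact (pow_le_pow_left₀ (by positivity) ih D.e).trans h7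
  refine LocalData.growth_false D.d D.e D.hde ((D.d : ℝ) ^ k * (A + B * k)) ((D.d : ℝ) ^ k * B)
    (Real.log R') (Real.log_pos (by linarith)) ?_
  intro j
  have h6 := (h5 j).trans (hup (k + j))
  have h7 := Real.log_le_log (by positivity) h6
  rw [Real.log_pow, Real.log_exp] at h7
  push_cast at h7
  refine h7.trans (le_of_eq ?_)
  rw [pow_add]
  ring

/-- the itinerary -/
lemma exists_itinerary (C1 R : ℝ) (hC1 : 0 ≤ C1) (hR : 0 ≤ R) : ∃ δ C0 : ℝ, 0 < δ ∧ 0 ≤ C0 ∧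
    ∀ w0 u0 s0 w1 u1 : Ω, D.Step μ C1 R w0 u0 s0 w1 u1 → μ w0 ≤ δ →
      ∃ i, μ (u0 - algebraMap K Ω (D.r i)) ^ D.e ≤ C0 * μ w0 := by
  obtain ⟨δ1, hδ1, h1⟩ := SkewData.s_bounds μ C1 hC1
  obtain ⟨C2, hC2, h2⟩ := ev2_close_top0 (μ := μ) D.Q R
  set lam : Ω := algebraMap K Ω D.lam with hlam
  set L : ℝ := (μ lam * 2) ^ D.a with hL
  have hL0 : 0 ≤ L := pow_nonneg (mul_nonneg (μ.nonneg _) (by norm_num)) _
  set ν : ℝ := μ (algebraMap K Ω D.c) with hν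
  have hν0 : 0 < ν := by
    apply μ.pos
    rw [Ne, map_eq_zero]
    exact D.hc
  refine ⟨min 1 δ1, (L * R + C2) / ν, by positivity, by positivity,
    fun w0 u0 s0 w1 u1 hst hw => ?_⟩
  have hw1 : μ w0 ≤ 1 := hw.trans (min_le_left _ _)
  have h3 := (h1 s0 w0 (hw.trans (min_le_right _ _)) hst.s_near).1
  have h4 := h2 w0 u0 hw1 hst.u0_le
  have h5 : μ (ev2 D.Q w0 u0) ≤ (L * R) * μ w0 := by
    rw [hst.func, map_mul, map_mul, map_pow]
    have h6 : μ w0 ^ D.ρ ≤ μ w0 := by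
      calc μ w0 ^ D.ρ ≤ μ w0 ^ 1 := pow_le_pow_of_le_one (μ.nonneg _) hw1 D.hρ
        _ = μ w0 := pow_one _
    have h7 : μ ((lam * s0) ^ D.a) ≤ L := by
      rw [map_pow, map_mul, hL]
      exact pow_le_pow_left₀ (mul_nonneg (μ.nonneg _) (μ.nonneg _))
        (mul_le_mul_of_nonneg_left h3 (μ.nonneg _)) _
    calc μ w0 ^ D.ρ * μ ((lam * s0) ^ D.a) * μ u1 ≤ (μ w0 * L) * R :=
          mul_le_mul (mul_le_mul h6 h7 (μ.nonneg _) (μ.nonneg _)) hst.u1_le (μ.nonneg _)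
            (mul_nonneg (μ.nonneg _) hL0)
      _ = _ := by ring
  have h6 : μ (aeval u0 (top0 D.Q)) ≤ (L * R + C2) * μ w0 := by
    have h7 : aeval u0 (top0 D.Q) = ev2 D.Q w0 u0 + -(ev2 D.Q w0 u0 - aeval u0 (top0 D.Q)) := by
      ring
    rw [h7, add_mul]
    refine (μ.add_le _ _).trans (add_le_add h5 ?_)
    rw [μ.map_neg]
    exact h4
  have hne : Nonempty D.ι := by
    rw [← Fintype.card_pos_iff]
    have := D.hcard
    omega
  obtain ⟨i, hi⟩ := Finite.exists_min fun i => μ (u0 - algebraMap K Ω (D.r i))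
  refine ⟨i, ?_⟩
  have h7 : aeval u0 (top0 D.Q)
      = algebraMap K Ω D.c * ∏ i, (u0 - algebraMap K Ω (D.r i)) ^ D.m i := by
    rw [D.hT, map_mul, aeval_C, map_prod]
    refine congrArg _ (Finset.prod_congr rfl fun i _ => ?_)
    rw [map_pow, map_sub, aeval_X, aeval_C]
  rw [h7, map_mul, map_prod] at h6
  have h8 : μ (u0 - algebraMap K Ω (D.r i)) ^ D.e
      ≤ ∏ i, μ ((u0 - algebraMap K Ω (D.r i)) ^ D.m i) := by
    rw [← D.he, ← Finset.prod_pow_eq_pow_sum]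
    refine Finset.prod_le_prod (fun _ _ => pow_nonneg (μ.nonneg _) _) fun j _ => ?_
    rw [map_pow]
    exact pow_le_pow_left₀ (μ.nonneg _) (hi j) _
  rw [div_mul_eq_mul_div, le_div_iff₀ hν0]
  calc _ ≤ (∏ i, μ ((u0 - algebraMap K Ω (D.r i)) ^ D.m i)) * ν :=
        mul_le_mul_of_nonneg_right h8 hν0.le
    _ = ν * ∏ i, μ ((u0 - algebraMap K Ω (D.r i)) ^ D.m i) := by ring
    _ ≤ _ := h6

/-- Late points of a slow orbit are the starts of segments. -/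
theorem exists_segments [IsAlgClosed Ω] (x y : ℕ → Ω) (hx : ∀ n, x (n + 1) = aeval (x n) D.p)
    (hy : ∀ n, y (n + 1) = ev2 D.q (x n) (y n)) (hinf : Tendsto (fun n => μ (x n)) atTop atTop)
    (hslow : ∃ A B : ℝ, ∀ n : ℕ, μ (y n) ≤ Real.exp ((D.d : ℝ) ^ n * (A + B * n))) :
    ∃ C0 C1 R : ℝ, 0 ≤ C0 ∧ 0 ≤ C1 ∧ 0 ≤ R ∧ ∀ δ : ℝ, 0 < δ → ∀ᶠ n in atTop, ∀ t : Ω,
      t ^ D.b = x n → t ≠ 0 ∧ ∃ (w u s : ℕ → Ω) (i : ℕ → D.ι), D.Seg μ C0 C1 R δ w u s i ∧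
        w 0 = t⁻¹ ∧ u 0 = t⁻¹ ^ D.a * y n := by
  have hb := D.hb
  obtain ⟨C1, hC1, hroot⟩ := D.next_root (Ω := Ω) μ
  obtain ⟨δ1, R, hδ1, hR, hub⟩ := D.u_bounded (Ω := Ω) μ C1 hC1
  obtain ⟨δ2, C0, hδ2, hC0, hit⟩ := D.exists_itinerary (Ω := Ω) μ C1 R hC1 (by linarith)
  obtain ⟨A, B, hup⟩ := hslow
  refine ⟨C0, C1, R, hC0, hC1, by linarith, fun δ hδ => ?_⟩
  set ε := min (min 1 δ) (min δ1 δ2) with hε
  have hε0 : 0 < ε := by positivity
  have e1 : ε ≤ 1 := (min_le_left _ _).trans (min_le_left _ _)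
  have e2 : ε ≤ δ := (min_le_left _ _).trans (min_le_right _ _)
  have e3 : ε ≤ δ1 := (min_le_right _ _).trans (min_le_left _ _)
  have e4 : ε ≤ δ2 := (min_le_right _ _).trans (min_le_right _ _)
  obtain ⟨n0, hn0⟩ := eventually_atTop.mp (hinf.eventually (eventually_ge_atTop ((ε⁻¹) ^ D.b)))
  rw [eventually_atTop]
  refine ⟨n0, fun n hn t ht => ?_⟩
  have hlarge : ∀ m, n0 ≤ m → ∀ t : Ω, t ^ D.b = x m → t ≠ 0 ∧ μ t⁻¹ ≤ ε := by
    intro m hm t ht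
    have h1 := hn0 m hm
    rw [← ht, map_pow] at h1
    have h2 : ε⁻¹ ≤ μ t := le_of_pow_le_pow_left₀ (by omega) (μ.nonneg _) h1
    have h3 : 0 < μ t := lt_of_lt_of_le (by positivity) h2
    refine ⟨fun h => ?_, ?_⟩
    · rw [h, map_zero] at h3
      exact lt_irrefl _ h3
    · rw [map_inv₀]
      exact inv_le_of_inv_le₀ hε0 h2
  have hroot' : ∀ t : Ω, ∃ s : Ω, t ≠ 0 → μ t⁻¹ ≤ 1 →
      (algebraMap K Ω D.lam * t ^ D.d * s) ^ D.b = aeval (t ^ D.b) D.p ∧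
      s ^ D.b = aeval t⁻¹ D.P1 ∧ μ (s - 1) ≤ C1 * μ t⁻¹ := by
    intro t
    by_cases h : t ≠ 0 ∧ μ t⁻¹ ≤ 1
    · obtain ⟨s, hs⟩ := hroot t h.1 h.2
      exact ⟨s, fun _ _ => hs⟩
    · exact ⟨0, fun h1 h2 => absurd ⟨h1, h2⟩ h⟩
  choose S hS using hroot'
  set T : ℕ → Ω := fun k => Nat.rec t (fun _ z => algebraMap K Ω D.lam * z ^ D.d * S z) k with hT
  have hT0 : T 0 = t := rfl
  have hTs : ∀ k, T (k + 1) = algebraMap K Ω D.lam * T k ^ D.d * S (T k) := fun k => rfl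
  have hTx : ∀ k, T k ^ D.b = x (n + k) := by
    intro k
    induction k with
    | zero => exact ht
    | succ k ih =>
      obtain ⟨h1, h2⟩ := hlarge (n + k) (by omega) (T k) ih
      rw [hTs, (hS (T k) h1 (h2.trans e1)).1, ih, ← add_assoc, hx]
  have hTn : ∀ k, T k ≠ 0 ∧ μ (T k)⁻¹ ≤ ε := fun k => hlarge (n + k) (by omega) (T k) (hTx k)
  set w : ℕ → Ω := fun k => (T k)⁻¹ with hw
  set u : ℕ → Ω := fun k => (T k)⁻¹ ^ D.a * y (n + k) with hu
  set s : ℕ → Ω := fun k => S (T k) with hs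
  have hsnear : ∀ k, μ (s k - 1) ≤ C1 * μ (w k) := fun k =>
    (hS (T k) (hTn k).1 ((hTn k).2.trans e1)).2.2
  have hwnext : ∀ k, w (k + 1) * (algebraMap K Ω D.lam * s k) = w k ^ D.d := by
    intro k
    have h1 := (hTn (k + 1)).1
    have h2 := (hTn k).1
    show (T (k + 1))⁻¹ * (algebraMap K Ω D.lam * S (T k)) = (T k)⁻¹ ^ D.d
    rw [hTs] at h1 ⊢
    have h3 : algebraMap K Ω D.lam ≠ 0 := by
      rw [Ne, map_eq_zero]
      exact D.hlam
    have h4 : S (T k) ≠ 0 := right_ne_zero_of_mul h1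
    have h5 : T k ^ D.d ≠ 0 := pow_ne_zero _ h2
    rw [inv_pow]
    field_simp
  have hfunc : ∀ k, ev2 D.Q (w k) (u k)
      = w k ^ D.ρ * (algebraMap K Ω D.lam * s k) ^ D.a * u (k + 1) := by
    intro k
    have h2 := (hTn k).1
    have hwk : w k ≠ 0 := inv_ne_zero h2
    rw [D.hQ Ω (w k) (u k) hwk]
    have h3 : (w k)⁻¹ = T k := inv_inv _
    have h4 : T k ^ D.a * u k = y (n + k) := by
      show T k ^ D.a * ((T k)⁻¹ ^ D.a * y (n + k)) = _
      rw [← mul_assoc, ← mul_pow, mul_inv_cancel₀ h2, one_pow, one_mul]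
    rw [h3, h4, hTx, ← hy]
    have h5 : u (k + 1) = w (k + 1) ^ D.a * y (n + k + 1) := rfl
    have h6 : (algebraMap K Ω D.lam * s k) ^ D.a * w (k + 1) ^ D.a = (w k ^ D.d) ^ D.a := by
      rw [← mul_pow, mul_comm, hwnext]
    rw [h5]
    have h7 : w k ^ (D.a * D.e) = w k ^ D.ρ * (w k ^ D.d) ^ D.a := by
      rw [← pow_mul, ← pow_add, SkewData.ρ]
      congr 1
      obtain ⟨g, hg⟩ := Nat.exists_eq_add_of_le D.hde.le
      have : D.e - D.d = g := by omega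
      rw [this, hg]
      ring
    rw [h7, ← h6]
    ring
  have hwε : ∀ k, μ (w k) ≤ ε := fun k => (hTn k).2
  have huR : ∀ k, μ (u k) ≤ R := by
    refine hub w u s (fun k => (hwε k).trans e3) hsnear hfunc
      ⟨(D.d : ℝ) ^ n * (A + B * n), (D.d : ℝ) ^ n * B, fun k => ?_⟩
    have h1 : μ (u k) ≤ μ (y (n + k)) := by
      show μ ((T k)⁻¹ ^ D.a * y (n + k)) ≤ _
      rw [map_mul, map_pow]
      calc _ ≤ 1 * μ (y (n + k)) := mul_le_mul_of_nonneg_right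
            (pow_le_one₀ (μ.nonneg _) ((hwε k).trans e1)) (μ.nonneg _)
        _ = _ := one_mul _
    refine h1.trans ((hup (n + k)).trans (le_of_eq ?_))
    congr 1
    push_cast
    rw [pow_add]
    ring
  have hstep : ∀ k, D.Step μ C1 R (w k) (u k) (s k) (w (k + 1)) (u (k + 1)) := fun k =>
    ⟨(hS (T k) (hTn k).1 ((hTn k).2.trans e1)).2.1, hsnear k, hwnext k, hfunc k, huR k,
      huR (k + 1)⟩
  have hit' : ∀ k, ∃ i, μ (u k - algebraMap K Ω (D.r i)) ^ D.e ≤ C0 * μ (w k) := fun k =>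
    hit _ _ _ _ _ (hstep k) ((hwε k).trans e4)
  choose i hi using hit'
  exact ⟨(hTn 0).1, w, u, s, i, ⟨hstep, fun k => (hwε k).trans e2, hi⟩, rfl, rfl⟩

end

end SkewMap

end Pool.Agent.Lib.MP_9ec2c5_nt_h65
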