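import Mathlib
import Pool.Agent.Lib.MP_9ec2c5_nt_h65.Loc2
import Pool.Agent.Lib.MP_9ec2c5_nt_h65.Dim
import Pool.Agent.Lib.MP_9ec2c5_nt_h65.Growth

/-!
Polynomials over the base field which are small at the late points of a slow orbit, at one place.
-/

set_option autoImplicit false
set_option linter.unusedSectionVars false

namespace Pool.Agent.Lib.MP_9ec2c5_nt_h65

open Polynomial Finset Filter Topology

namespace SkewMap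

variable {K : Type} [Field K] (D : SkewMap K)

/-- `R` is small at each point all of whose segments have itineraries in `V` -/
def GoodR (L : ℕ) (V : Finset (Fin (L + 1) → D.ι)) (R : K[X][X]) : Prop :=
  ∀ (Ω : Type) [Field Ω] [Algebra K Ω] (μ : AbsoluteValue Ω ℝ) (C0 C1 R0 : ℝ),
    0 ≤ C0 → 0 ≤ C1 → 0 ≤ R0 → ∃ δ C2 : ℝ, 0 < δ ∧ 0 ≤ C2 ∧ ∀ t0 y0 : Ω, t0 ≠ 0 →
      (∀ ζ ∈ D.Z, ∃ (w u s : ℕ → Ω) (i : ℕ → D.ι), D.Seg μ C0 C1 R0 δ w u s i ∧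
        w 0 = (algebraMap K Ω ζ * t0)⁻¹ ∧ u 0 = (algebraMap K Ω ζ * t0)⁻¹ ^ D.a * y0 ∧
        (fun k : Fin (L + 1) => i k) ∈ V) →
      μ (ev2 R (t0 ^ D.b) y0) ≤ C2 * μ t0⁻¹

theorem exists_R (L1 : ℕ) (hL1 : ∀ L, L1 ≤ L → D.d ^ (L + 1) < D.e ^ L) (N L : ℕ)
    (hL : N + L1 ≤ L) (V : Finset (Fin (L + 1) → D.ι)) (hV : V.Nonempty) (hVc : V.card ≤ N) :
    ∃ R : K[X][X], R ≠ 0 ∧ D.GoodR L V R := by
  obtain ⟨A, Δ, α, hA, hAd, hΔ, hα, hAg⟩ := D.exists_good D.hcard L1 hL1 N L hL V hV hVc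
  obtain ⟨P, hP, hPs⟩ := exists_aux D.a Δ α D.ha hΔ hα A hA hAd
  obtain ⟨R, hR, hRs⟩ := exists_norm D.b D.hb D.Z D.hZ P hP
  refine ⟨R, hR, ?_⟩
  intro Ω _ _ μ C0 C1 R0 hC0 hC1 hR0
  obtain ⟨δ, C2, hδ, hC2, h1⟩ := hAg Ω μ C0 C1 R0 hC0 hC1 hR0
  obtain ⟨C3, hC3, h2⟩ := hPs Ω μ C2 R0 hC2
  refine ⟨min 1 δ, C3 ^ D.b, by positivity, by positivity, fun t0 y0 ht0 hseg => ?_⟩
  obtain ⟨hc, hm⟩ := Z_facts D.b D.hb D.Z D.hZ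
  have h3 : ∀ ζ ∈ D.Z, μ t0⁻¹ ≤ 1 ∧ μ (ev2 P (algebraMap K Ω ζ * t0) y0) ≤ C3 * μ t0⁻¹ := by
    intro ζ hζ
    obtain ⟨w, u, s, i, hs, hw, hu, hi⟩ := hseg ζ hζ
    have hζ1 := D.unity_norm μ hζ
    have hζ0 : algebraMap K Ω ζ ≠ 0 := by
      intro h
      rw [h, map_zero] at hζ1
      exact zero_ne_one hζ1
    have hw0 : w 0 ≠ 0 := by
      rw [hw]
      exact inv_ne_zero (mul_ne_zero hζ0 ht0)
    have hwn : μ (w 0) = μ t0⁻¹ := by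
      rw [hw, mul_inv, map_mul, map_inv₀ μ (algebraMap K Ω ζ), hζ1, inv_one, one_mul]
    have hw1 : μ (w 0) ≤ 1 := (hs.small 0).trans (min_le_left _ _)
    have h4 := h1 w u s i (SkewData.Seg.mono _ hs (min_le_right _ _)) hi
    have h5 := h2 (w 0) (u 0) hw0 hw1 (hs.step 0).u0_le h4
    have h6 : (w 0)⁻¹ = algebraMap K Ω ζ * t0 := by rw [hw, inv_inv]
    have h7 : (w 0)⁻¹ ^ D.a * u 0 = y0 := by
      rw [hu, h6, ← mul_assoc, ← mul_pow, mul_inv_cancel₀ (mul_ne_zero hζ0 ht0), one_pow, one_mul]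
    rw [h7, h6] at h5
    exact ⟨hwn ▸ hw1, hwn ▸ h5⟩
  have hne : D.Z.Nonempty := by
    rw [← Finset.card_pos, hc]
    exact D.hb
  obtain ⟨ζ0, hζ0⟩ := hne
  have h4 := (h3 ζ0 hζ0).1
  rw [hRs, map_prod]
  calc ∏ ζ ∈ D.Z, μ (ev2 P (algebraMap K Ω ζ * t0) y0) ≤ ∏ _ζ ∈ D.Z, C3 * μ t0⁻¹ :=
        Finset.prod_le_prod (fun _ _ => μ.nonneg _) fun ζ hζ => (h3 ζ hζ).2
    _ = C3 ^ D.b * μ t0⁻¹ ^ D.b := by rw [Finset.prod_const, hc, mul_pow]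
    _ ≤ C3 ^ D.b * μ t0⁻¹ := by
        apply mul_le_mul_of_nonneg_left _ (by positivity)
        calc μ t0⁻¹ ^ D.b ≤ μ t0⁻¹ ^ 1 := pow_le_pow_of_le_one (μ.nonneg _) h4 D.hb
          _ = μ t0⁻¹ := pow_one _

/-- the local statement at a place at which the base orbit tends to infinity -/
theorem local_place [NumberField K] (v : AbsoluteValue K ℝ) (hv : IsPlace v) (x y : ℕ → K)
    (hx : ∀ n, x (n + 1) = D.p.eval (x n)) (hy : ∀ n, y (n + 1) = D.q.evalEval (x n) (y n))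
    (hinf : Tendsto (fun n => v (x n)) atTop atTop)
    (hslow : ∃ A B : ℝ, ∀ n : ℕ, v (y n) ≤ Real.exp ((D.d : ℝ) ^ n * (A + B * n)))
    (L : ℕ) (𝓡 : Finset (Fin (L + 1) → D.ι) → K[X][X]) (𝒱 : Finset (Finset (Fin (L + 1) → D.ι)))
    (h𝓡 : ∀ V ∈ 𝒱, D.GoodR L V (𝓡 V)) :
    ∃ (It : ℕ → K → Fin (L + 1) → D.ι) (C : ℝ), 0 ≤ C ∧ ∀ᶠ n in atTop, ∀ V ∈ 𝒱,
      (∀ ζ ∈ D.Z, It n ζ ∈ V) → v ((𝓡 V).evalEval (x n) (y n)) ^ D.b * v (x n) ≤ C ∧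
        v ((𝓡 V).evalEval (x n) (y n)) ≤ C := by
  classical
  have hb := D.hb
  obtain ⟨Ω, _, _, _, μ, hμ⟩ := exists_extension v hv
  obtain ⟨C0, C1, R0, hC0, hC1, hR0, hseg⟩ := D.exists_segments μ (fun n => algebraMap K Ω (x n))
    (fun n => algebraMap K Ω (y n)) (fun n => by
      show algebraMap K Ω (x (n + 1)) = _
      rw [hx, aeval_algebraMap_apply_eq_algebraMap_eval]) (fun n => by
      show algebraMap K Ω (y (n + 1)) = _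
      rw [hy, ev2_algebraMap]) (by
      simp only [hμ]
      exact hinf) (by
      obtain ⟨A, B, h⟩ := hslow
      exact ⟨A, B, fun n => by
        rw [hμ]
        exact h n⟩)
  have hcon : ∀ V, ∃ δ C2 : ℝ, 0 < δ ∧ 0 ≤ C2 ∧ (V ∈ 𝒱 → ∀ t0 y0 : Ω, t0 ≠ 0 →
      (∀ ζ ∈ D.Z, ∃ (w u s : ℕ → Ω) (i : ℕ → D.ι), D.Seg μ C0 C1 R0 δ w u s i ∧
        w 0 = (algebraMap K Ω ζ * t0)⁻¹ ∧ u 0 = (algebraMap K Ω ζ * t0)⁻¹ ^ D.a * y0 ∧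
        (fun k : Fin (L + 1) => i k) ∈ V) →
      μ (ev2 (𝓡 V) (t0 ^ D.b) y0) ≤ C2 * μ t0⁻¹) := by
    intro V
    by_cases hV : V ∈ 𝒱
    · obtain ⟨δ, C2, h1, h2, h3⟩ := h𝓡 V hV Ω μ C0 C1 R0 hC0 hC1 hR0
      exact ⟨δ, C2, h1, h2, fun _ => h3⟩
    · exact ⟨1, 0, one_pos, le_refl _, fun h => absurd h hV⟩
  choose δ C2 hδ hC2 hmain using hcon
  obtain ⟨δ0, hδ0, hδle⟩ : ∃ δ0 : ℝ, 0 < δ0 ∧ ∀ V ∈ 𝒱, δ0 ≤ δ V := by
    rcases 𝒱.eq_empty_or_nonempty with h | h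
    · exact ⟨1, one_pos, by simp [h]⟩
    · obtain ⟨V, hV, hmin⟩ := Finset.exists_min_image 𝒱 δ h
      exact ⟨δ V, hδ V, hmin⟩
  have ht : ∀ n, ∃ t : Ω, t ^ D.b = algebraMap K Ω (x n) := fun n =>
    IsAlgClosed.exists_pow_nat_eq _ (by omega)
  choose t ht using ht
  have hne : Nonempty D.ι := by
    rw [← Fintype.card_pos_iff]
    have := D.hcard
    omega
  have hIt : ∀ (n : ℕ) (ζ : K), ∃ it : Fin (L + 1) → D.ι,
      (∃ (w u s : ℕ → Ω) (i : ℕ → D.ι), D.Seg μ C0 C1 R0 δ0 w u s i ∧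
        w 0 = (algebraMap K Ω ζ * t n)⁻¹ ∧
        u 0 = (algebraMap K Ω ζ * t n)⁻¹ ^ D.a * algebraMap K Ω (y n)) →
      ∃ (w u s : ℕ → Ω) (i : ℕ → D.ι), D.Seg μ C0 C1 R0 δ0 w u s i ∧
        w 0 = (algebraMap K Ω ζ * t n)⁻¹ ∧
        u 0 = (algebraMap K Ω ζ * t n)⁻¹ ^ D.a * algebraMap K Ω (y n) ∧
        (fun k : Fin (L + 1) => i k) = it := by
    intro n ζ
    by_cases h : ∃ (w u s : ℕ → Ω) (i : ℕ → D.ι), D.Seg μ C0 C1 R0 δ0 w u s i ∧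
        w 0 = (algebraMap K Ω ζ * t n)⁻¹ ∧
        u 0 = (algebraMap K Ω ζ * t n)⁻¹ ^ D.a * algebraMap K Ω (y n)
    · obtain ⟨w, u, s, i, h1, h2, h3⟩ := h
      exact ⟨fun k => i k, fun _ => ⟨w, u, s, i, h1, h2, h3, rfl⟩⟩
    · exact ⟨fun _ => Classical.arbitrary _, fun h' => absurd h' h⟩
  choose It hIt using hIt
  set C3 : ℝ := ∑ V ∈ 𝒱, C2 V with hC3
  have hC30 : 0 ≤ C3 := Finset.sum_nonneg fun V _ => hC2 V
  refine ⟨It, max C3 (C3 ^ D.b), le_max_of_le_left hC30, ?_⟩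
  filter_upwards [hseg δ0 hδ0, hinf.eventually (eventually_ge_atTop 1)] with n hn hx1 V hV hItV
  obtain ⟨htn, -⟩ := hn (t n) (ht n)
  have h1 := hmain V hV (t n) (algebraMap K Ω (y n)) htn (by
    intro ζ hζ
    have hζb : (algebraMap K Ω ζ * t n) ^ D.b = algebraMap K Ω (x n) := by
      rw [mul_pow, ← map_pow, ((Z_facts D.b D.hb D.Z D.hZ).2 ζ).mp hζ, map_one, one_mul, ht]
    obtain ⟨w, u, s, i, h1, h2, h3, h4⟩ := hIt n ζ (hn _ hζb).2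
    refine ⟨w, u, s, i, SkewData.Seg.mono _ h1 (hδle V hV), h2, h3, ?_⟩
    rw [h4]
    exact hItV ζ hζ)
  rw [ht, ev2_algebraMap, hμ] at h1
  have h2 : C2 V ≤ C3 := Finset.single_le_sum (f := C2) (fun V _ => hC2 V) hV
  have h3 : v ((𝓡 V).evalEval (x n) (y n)) ≤ C3 * μ (t n)⁻¹ :=
    h1.trans (mul_le_mul_of_nonneg_right h2 (μ.nonneg _))
  have h4 : μ (t n)⁻¹ ^ D.b * v (x n) = 1 := by
    have h5 : v (x n) = μ (t n) ^ D.b := by rw [← hμ, ← ht, map_pow]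
    have h6 : μ (t n) ≠ 0 := (μ.pos htn).ne'
    rw [h5, map_inv₀, ← mul_pow, inv_mul_cancel₀ h6, one_pow]
  constructor
  · refine le_trans ?_ (le_max_right _ _)
    calc v ((𝓡 V).evalEval (x n) (y n)) ^ D.b * v (x n)
        ≤ (C3 * μ (t n)⁻¹) ^ D.b * v (x n) :=
          mul_le_mul_of_nonneg_right (pow_le_pow_left₀ (v.nonneg _) h3 _) (v.nonneg _)
      _ = C3 ^ D.b * (μ (t n)⁻¹ ^ D.b * v (x n)) := by ring
      _ = C3 ^ D.b := by rw [h4, mul_one]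
  · refine le_trans ?_ (le_max_left _ _)
    have h5 : μ (t n)⁻¹ ≤ 1 := by
      by_contra hcon
      push Not at hcon
      have h6 : 1 < μ (t n)⁻¹ ^ D.b := one_lt_pow₀ hcon (by omega)
      have h7 : 1 < μ (t n)⁻¹ ^ D.b * v (x n) := by nlinarith
      linarith
    calc _ ≤ C3 * μ (t n)⁻¹ := h3
      _ ≤ C3 * 1 := mul_le_mul_of_nonneg_left h5 hC30
      _ = C3 := mul_one _

end SkewMap

end Pool.Agent.Lib.MP_9ec2c5_nt_h65
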