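import Mathlib
import Pool.Agent.Lib.MP_9ec2c5_nt_h65.Loc3
import Pool.Agent.Lib.MP_9ec2c5_nt_h65.Dich

/-!
A nonzero polynomial vanishes along a slow orbit.
-/

set_option autoImplicit false
set_option linter.unusedSectionVars false

namespace Pool.Agent.Lib.MP_9ec2c5_nt_h65

open Polynomial Finset Height Filter Topology AdmissibleAbsValues

variable {K : Type} [Field K] [NumberField K]

/-- the places at which a coefficient is not integral -/
lemma finite_coeff (P : K[X][X]) : ∃ S : Set (nonarchAbsVal (K := K)), S.Finite ∧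
    ∀ v : nonarchAbsVal (K := K), v ∉ S → ∀ i j, v.val ((P.coeff j).coeff i) ≤ 1 := by
  refine ⟨⋃ j ∈ range (P.natDegree + 1), ⋃ i ∈ range ((P.coeff j).natDegree + 1),
    Function.mulSupport fun v : nonarchAbsVal (K := K) => max (v.val ((P.coeff j).coeff i)) 1,
    ?_, ?_⟩
  · refine Set.Finite.biUnion (Finset.finite_toSet _) fun j _ => ?_
    exact Set.Finite.biUnion (Finset.finite_toSet _) fun i _ => finite_ne_one _
  · intro v hv i j
    by_contra hcon
    push Not at hcon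
    apply hv
    have h1 : (P.coeff j).coeff i ≠ 0 := by
      intro h
      rw [h, map_zero] at hcon
      linarith
    have h2 : P.coeff j ≠ 0 := by
      intro h
      rw [h, coeff_zero] at h1
      exact h1 rfl
    rw [Set.mem_iUnion₂]
    refine ⟨j, Finset.mem_coe.mpr (Finset.mem_range.mpr
      (Nat.lt_succ_of_le (le_natDegree_of_ne_zero h2))), ?_⟩
    rw [Set.mem_iUnion₂]
    refine ⟨i, Finset.mem_coe.mpr (Finset.mem_range.mpr
      (Nat.lt_succ_of_le (le_natDegree_of_ne_zero h1))), ?_⟩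
    rw [Function.mem_mulSupport, max_eq_left hcon.le]
    exact hcon.ne'

lemma finite_unit (c : K) (hc : c ≠ 0) : ∃ S : Set (nonarchAbsVal (K := K)), S.Finite ∧
    ∀ v : nonarchAbsVal (K := K), v ∉ S → v.val c = 1 := by
  have h : (fun v : nonarchAbsVal (K := K) => v.val c).HasFiniteMulSupport :=
    hasFiniteMulSupport hc
  refine ⟨Function.mulSupport fun v : nonarchAbsVal (K := K) => v.val c, h, fun v hv => ?_⟩
  rwa [Function.notMem_mulSupport] at hv

lemma finite_elt (c : K) : ∃ S : Set (nonarchAbsVal (K := K)), S.Finite ∧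
    ∀ v : nonarchAbsVal (K := K), v ∉ S → v.val c ≤ 1 := by
  refine ⟨_, finite_ne_one c, fun v hv => ?_⟩
  rw [Function.notMem_mulSupport] at hv
  rw [← hv]
  exact le_max_left _ _

namespace SkewMap

variable (D : SkewMap K)

/-- the integral places -/
lemma exists_good_places (c : K) (hc0 : c ≠ 0) (hqe : D.q.natDegree = D.e)
    (hlc : D.q.leadingCoeff = C c) (x y : ℕ → K) (hx : ∀ n, x (n + 1) = D.p.eval (x n))
    (hy : ∀ n, y (n + 1) = D.q.evalEval (x n) (y n))
    (hslow : ∀ v : AbsoluteValue K ℝ, IsPlace v →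
      ∃ A B : ℝ, ∀ n : ℕ, v (y n) ≤ Real.exp ((D.d : ℝ) ^ n * (A + B * n))) :
    ∃ S : Set (nonarchAbsVal (K := K)), S.Finite ∧ ∀ v : nonarchAbsVal (K := K), v ∉ S →
      (∀ n, v.val (x n) ≤ 1) ∧ ∀ n, v.val (y n) ≤ 1 := by
  obtain ⟨S1, hS1, h1⟩ := finite_coeff (C D.p)
  obtain ⟨S2, hS2, h2⟩ := finite_coeff D.q
  obtain ⟨S3, hS3, h3⟩ := finite_unit c hc0
  obtain ⟨S4, hS4, h4⟩ := finite_elt (x 0)
  refine ⟨(S1 ∪ S2) ∪ (S3 ∪ S4), (hS1.union hS2).union (hS3.union hS4), fun v hv => ?_⟩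
  simp only [Set.mem_union, not_or] at hv
  obtain ⟨⟨hv1, hv2⟩, hv3, hv4⟩ := hv
  have hna : IsNonarchimedean v.val := isNonarchimedean v.val v.property
  have hxi : ∀ n, v.val (x n) ≤ 1 := by
    intro n
    induction n with
    | zero => exact h4 v hv4
    | succ n ih =>
      have h5 := value_integral v.val hna (C D.p) (x n) 0 ih (by rw [map_zero]; exact zero_le_one)
        (h1 v hv1)
      rw [evalEval_C] at h5
      rw [hx]
      exact h5
  have hd := D.hd
  have hde := D.hde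
  exact ⟨hxi, y_integral v.val hna D.q D.d D.e hde (by omega) hqe c hlc (h3 v hv3) x y hy hxi
    (h2 v hv2) (hslow v.val (Or.inr v.property))⟩

/-- A nonzero polynomial vanishes along a slow orbit. -/
theorem vanish (c : K) (hc0 : c ≠ 0) (hqe : D.q.natDegree = D.e)
    (hlc : D.q.leadingCoeff = C c) (x y : ℕ → K) (hx : ∀ n, x (n + 1) = D.p.eval (x n))
    (hy : ∀ n, y (n + 1) = D.q.evalEval (x n) (y n)) (hinj : Function.Injective x)
    (hslow : ∀ v : AbsoluteValue K ℝ, IsPlace v →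
      ∃ A B : ℝ, ∀ n : ℕ, v (y n) ≤ Real.exp ((D.d : ℝ) ^ n * (A + B * n))) :
    ∃ R : K[X][X], R ≠ 0 ∧ ∀ n, R.evalEval (x n) (y n) = 0 := by
  classical
  have hd := D.hd
  have hde := D.hde
  have hb := D.hb
  have hpd : 1 ≤ D.p.natDegree := by rw [D.hpd]; exact hd
  obtain ⟨S0, hS0, hgood⟩ := D.exists_good_places c hc0 hqe hlc x y hx hy hslow
  -- the places at infinity
  set PI : Set (AbsoluteValue K ℝ) :=
    {v | IsPlace v ∧ Tendsto (fun n => v (x n)) atTop atTop} with hPI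
  have hPIf : PI.Finite := by
    refine Set.Finite.subset ((Finset.finite_toSet (archAbsVal (K := K)).toFinset).union
      (hS0.image Subtype.val)) ?_
    rintro v ⟨hv | hv, hvt⟩
    · left
      rw [Finset.mem_coe, Multiset.mem_toFinset]
      exact hv
    · right
      refine ⟨⟨v, hv⟩, ?_, rfl⟩
      by_contra hcon
      have h1 := (hgood ⟨v, hv⟩ hcon).1
      obtain ⟨n, hn⟩ := (hvt.eventually (eventually_gt_atTop 1)).exists
      exact absurd (h1 n) (not_le.mpr hn)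
  obtain ⟨v0, hv0, hv0t, -⟩ := exists_place D.p hpd x hx hinj
  have hv0P : v0 ∈ PI := ⟨hv0, hv0t⟩
  set F := hPIf.toFinset with hF
  have hFm : ∀ v, v ∈ F ↔ v ∈ PI := fun v => hPIf.mem_toFinset
  obtain ⟨hZc, hZm⟩ := Z_facts D.b D.hb D.Z D.hZ
  have hZne : D.Z.Nonempty := by
    rw [← Finset.card_pos, hZc]
    exact hb
  -- the auxiliary polynomials
  set N := F.card * D.b with hN
  obtain ⟨L1, hL1⟩ := D.exists_L1
  set L := N + L1 with hL
  set 𝒱 : Finset (Finset (Fin (L + 1) → D.ι)) :=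
    univ.filter fun V => V.Nonempty ∧ V.card ≤ N with h𝒱
  have hex : ∀ V : Finset (Fin (L + 1) → D.ι), ∃ R : K[X][X], R ≠ 0 ∧
      (V ∈ 𝒱 → D.GoodR L V R) := by
    intro V
    by_cases hV : V ∈ 𝒱
    · obtain ⟨hV1, hV2⟩ := (Finset.mem_filter.mp hV).2
      obtain ⟨R, hR, hR'⟩ := D.exists_R L1 hL1 N L le_rfl V hV1 hV2
      exact ⟨R, hR, fun _ => hR'⟩
    · exact ⟨1, one_ne_zero, fun h => absurd h hV⟩
  choose 𝓡 h𝓡0 h𝓡 using hex
  have hloc : ∀ v : AbsoluteValue K ℝ, ∃ (It : ℕ → K → Fin (L + 1) → D.ι) (C1 : ℝ), 0 ≤ C1 ∧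
      (v ∈ PI → ∀ᶠ n in atTop, ∀ V ∈ 𝒱,
        (∀ ζ ∈ D.Z, It n ζ ∈ V) → v ((𝓡 V).evalEval (x n) (y n)) ^ D.b * v (x n) ≤ C1 ∧
          v ((𝓡 V).evalEval (x n) (y n)) ≤ C1) := by
    intro v
    by_cases hv : v ∈ PI
    · obtain ⟨It, C1, hC1, h1⟩ := D.local_place v hv.1 x y hx hy hv.2 (hslow v hv.1) L 𝓡 𝒱
        fun V hV => h𝓡 V hV
      exact ⟨It, C1, hC1, fun _ => h1⟩
    · have hne : Nonempty D.ι := by
        rw [← Fintype.card_pos_iff]
        have := D.hcard
        omega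
      exact ⟨fun _ _ _ => Classical.arbitrary _, 0, le_refl _, fun h => absurd h hv⟩
  choose It C1 hC1 hloc using hloc
  set W : ℕ → Finset (Fin (L + 1) → D.ι) := fun n => F.biUnion fun v => D.Z.image (It v n) with hW
  have hW𝒱 : ∀ n, W n ∈ 𝒱 := by
    intro n
    refine Finset.mem_filter.mpr ⟨mem_univ _, ?_, ?_⟩
    · obtain ⟨ζ, hζ⟩ := hZne
      exact ⟨It v0 n ζ, Finset.mem_biUnion.mpr ⟨v0, (hFm v0).mpr hv0P,
        Finset.mem_image_of_mem _ hζ⟩⟩
    · refine Finset.card_biUnion_le.trans ?_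
      refine (Finset.sum_le_card_nsmul F _ D.b fun v _ => ?_).trans_eq (smul_eq_mul _ _)
      refine Finset.card_image_le.trans hZc.le
  have hItW : ∀ v ∈ PI, ∀ n, ∀ ζ ∈ D.Z, It v n ζ ∈ W n := fun v hv n ζ hζ =>
    Finset.mem_biUnion.mpr ⟨v, (hFm v).mpr hv, Finset.mem_image_of_mem _ hζ⟩
  -- the bad places
  have hS : ∀ V : Finset (Fin (L + 1) → D.ι), ∃ S : Set (nonarchAbsVal (K := K)), S.Finite ∧
      ∀ v : nonarchAbsVal (K := K), v ∉ S → ∀ i j, v.val (((𝓡 V).coeff j).coeff i) ≤ 1 :=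
    fun V => finite_coeff (𝓡 V)
  choose SV hSV hSV' using hS
  set S : Set (nonarchAbsVal (K := K)) := S0 ∪ ⋃ V, SV V with hSdef
  have hSfin : S.Finite := hS0.union (Set.finite_iUnion hSV)
  -- the bounds
  have hbd : ∀ v : AbsoluteValue K ℝ, ∃ B : ℝ, 1 ≤ B ∧ (v ∈ PI → C1 v ≤ B) ∧
      (IsPlace v → v ∉ PI → ∀ n V, v ((𝓡 V).evalEval (x n) (y n)) ≤ B) := by
    intro v
    by_cases hv : v ∈ PI
    · exact ⟨max 1 (C1 v), le_max_left _ _, fun _ => le_max_right _ _, fun _ h => absurd hv h⟩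
    · by_cases hvp : IsPlace v
      · have hxb : ∃ B : ℝ, ∀ n, v (x n) ≤ B := by
          rcases dich_place D.p hpd x hx v hvp with h | h
          · exact h
          · exact absurd ⟨hvp, h⟩ hv
        have hyb := y_bounded v D.q D.d D.e hde (by omega) hqe c hc0 hlc x y hy hxb (hslow v hvp)
        have hB := fun V => value_bounded v (𝓡 V) x y hxb hyb
        choose B hB using hB
        refine ⟨1 + ∑ V, |B V|, ?_, fun h => absurd h hv, fun _ _ n V => ?_⟩
        · have : 0 ≤ ∑ V, |B V| := Finset.sum_nonneg fun _ _ => abs_nonneg _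
          linarith
        · have h1 : |B V| ≤ ∑ V, |B V| :=
            Finset.single_le_sum (f := fun V => |B V|) (fun _ _ => abs_nonneg _) (mem_univ V)
          have h2 := hB V n
          have h3 := le_abs_self (B V)
          linarith
      · exact ⟨1, le_refl _, fun h => absurd h hv, fun h => absurd h hvp⟩
  choose B hB1 hB2 hB3 using hbd
  obtain ⟨C2, hC2⟩ := height_le_of_forall S hSfin B hB1
  -- vanishing
  have hvan : ∀ᶠ n in atTop, (𝓡 (W n)).evalEval (x n) (y n) = 0 := by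
    have hall : ∀ᶠ n in atTop, ∀ v ∈ F, ∀ V ∈ 𝒱,
        (∀ ζ ∈ D.Z, It v n ζ ∈ V) → v ((𝓡 V).evalEval (x n) (y n)) ^ D.b * v (x n) ≤ C1 v ∧
          v ((𝓡 V).evalEval (x n) (y n)) ≤ C1 v :=
      (Filter.eventually_all_finset F).mpr fun v hv => hloc v ((hFm v).mp hv)
    filter_upwards [hall, hv0t.eventually (eventually_gt_atTop (C1 v0 * C2 ^ D.b))] with n h1 h2
    by_contra hne
    set z := (𝓡 (W n)).evalEval (x n) (y n) with hz
    have h3 : ∀ v ∈ PI, v z ^ D.b * v (x n) ≤ C1 v ∧ v z ≤ C1 v := fun v hv =>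
      h1 v ((hFm v).mpr hv) (W n) (hW𝒱 n) (hItW v hv n)
    have hplace : ∀ v : AbsoluteValue K ℝ, IsPlace v → v z ≤ B v := by
      intro v hv
      by_cases hvP : v ∈ PI
      · exact (h3 v hvP).2.trans (hB2 v hvP)
      · exact hB3 v hv hvP n (W n)
    have hH : mulHeight₁ z ≤ C2 := by
      refine hC2 z (fun v hv => hplace v (Or.inl hv)) (fun v _ => hplace v.val (Or.inr v.property))
        fun v hv => ?_
      rw [hSdef, Set.mem_union, not_or, Set.mem_iUnion, not_exists] at hv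
      have hna : IsNonarchimedean v.val := isNonarchimedean v.val v.property
      exact value_integral v.val hna _ _ _ ((hgood v hv.1).1 n) ((hgood v hv.1).2 n)
        (hSV' (W n) v (hv.2 (W n)))
    have h4 := hv0.liouville hne
    have h5 : 1 ≤ v0 z * C2 := h4.trans (mul_le_mul_of_nonneg_left hH (v0.nonneg _))
    have h6 : 1 ≤ v0 z ^ D.b * C2 ^ D.b := by
      rw [← mul_pow]
      exact one_le_pow₀ h5
    have hC2p : 0 ≤ C2 := le_trans (by positivity) hH
    have h7 : v0 (x n) ≤ C1 v0 * C2 ^ D.b := by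
      calc v0 (x n) = 1 * v0 (x n) := (one_mul _).symm
        _ ≤ (v0 z ^ D.b * C2 ^ D.b) * v0 (x n) := mul_le_mul_of_nonneg_right h6 (v0.nonneg _)
        _ = (v0 z ^ D.b * v0 (x n)) * C2 ^ D.b := by ring
        _ ≤ C1 v0 * C2 ^ D.b :=
          mul_le_mul_of_nonneg_right (h3 v0 hv0P).1 (pow_nonneg hC2p _)
    linarith
  obtain ⟨n0, hn0⟩ := eventually_atTop.mp hvan
  refine ⟨(∏ V ∈ 𝒱, 𝓡 V) * C (∏ m ∈ range n0, (X - C (x m))), ?_, fun n => ?_⟩
  · refine mul_ne_zero (Finset.prod_ne_zero_iff.mpr fun V _ => h𝓡0 V) ?_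
    rw [Ne, C_eq_zero]
    exact Finset.prod_ne_zero_iff.mpr fun m _ => X_sub_C_ne_zero (x m)
  · rw [evalEval_mul, evalEval_C, evalEval_prod, eval_prod]
    rcases Nat.lt_or_ge n n0 with h | h
    · have : ∏ j ∈ range n0, eval (x n) (X - C (x j)) = 0 :=
        Finset.prod_eq_zero (Finset.mem_range.mpr h) (by rw [eval_sub, eval_X, eval_C, sub_self])
      rw [this, mul_zero]
    · rw [Finset.prod_eq_zero (hW𝒱 n) (hn0 n h), zero_mul]

end SkewMap

end Pool.Agent.Lib.MP_9ec2c5_nt_h65
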