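import Mathlib
import Pool.Agent.Lib.MP_9ec2c5_nt_h65.Glob

/-!
The normalised data of a skew product whose fibre polynomial has constant leading coefficient, no
term of degree one less, and a nonconstant coefficient.
-/

set_option autoImplicit false
set_option linter.unusedSectionVars false

namespace Pool.Agent.Lib.MP_9ec2c5_nt_h65

open Polynomial Finset

lemma exists_mult {K : Type} [Field K] (T : K[X]) (hs : T.Splits) :
    ∃ (Θ : Finset K) (m : K → ℕ), (∀ θ ∈ Θ, 1 ≤ m θ) ∧ ∑ θ ∈ Θ, m θ = T.natDegree ∧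
      T = C T.leadingCoeff * ∏ θ ∈ Θ, (X - C θ) ^ m θ := by
  classical
  refine ⟨T.roots.toFinset, fun θ => T.roots.count θ, ?_, ?_, ?_⟩
  · intro θ hθ
    exact Multiset.one_le_count_iff_mem.mpr (Multiset.mem_toFinset.mp hθ)
  · rw [Multiset.toFinset_sum_count_eq, hs.natDegree_eq_card_roots]
  · conv_lhs => rw [hs.eq_prod_roots]
    rw [Finset.prod_multiset_map_count]

lemma coeff_X_sub_C_pow' {K : Type} [Field K] (r : K) (n i : ℕ) :
    ((X - C r) ^ n : K[X]).coeff i = (-r) ^ (n - i) * (n.choose i : K) := by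
  rw [sub_eq_add_neg, ← C_neg, coeff_X_add_C_pow]

lemma two_roots {K : Type} [Field K] [CharZero K] (T : K[X]) (e : ℕ) (he2 : 2 ≤ e)
    (hTe : T.natDegree = e) (h1 : T.coeff (e - 1) = 0) (j : ℕ) (hj : j < e) (hjne : T.coeff j ≠ 0)
    (Θ : Finset K) (m : K → ℕ) (hsum : ∑ θ ∈ Θ, m θ = T.natDegree)
    (hT : T = C T.leadingCoeff * ∏ θ ∈ Θ, (X - C θ) ^ m θ) : 2 ≤ Θ.card := by
  by_contra hcon
  have hT0 : T ≠ 0 := by
    intro h
    rw [h, coeff_zero] at hjne
    exact hjne rfl
  have hlc : T.leadingCoeff ≠ 0 := leadingCoeff_ne_zero.mpr hT0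
  rcases Nat.lt_or_ge Θ.card 1 with h2 | h2
  · have h3 : Θ = ∅ := Finset.card_eq_zero.mp (by omega)
    rw [h3, Finset.sum_empty] at hsum
    omega
  · obtain ⟨r, hr⟩ := Finset.card_eq_one.mp (by omega : Θ.card = 1)
    rw [hr, Finset.sum_singleton, hTe] at hsum
    rw [hr, Finset.prod_singleton, hsum] at hT
    have h3 : T.coeff (e - 1) = T.leadingCoeff * (-r * e) := by
      conv_lhs => rw [hT]
      rw [coeff_C_mul, coeff_X_sub_C_pow']
      have h4 : e - (e - 1) = 1 := by omega
      rw [h4, pow_one, ← Nat.choose_symm (by omega : e - 1 ≤ e), h4, Nat.choose_one_right]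
    rw [h1] at h3
    have he0 : (e : K) ≠ 0 := by
      rw [Nat.cast_ne_zero]
      omega
    have hr0 : r = 0 := by
      rcases mul_eq_zero.mp h3.symm with h4 | h4
      · exact absurd h4 hlc
      · rcases mul_eq_zero.mp h4 with h5 | h5
        · exact neg_eq_zero.mp h5
        · exact absurd h5 he0
    apply hjne
    rw [hT, coeff_C_mul, coeff_X_sub_C_pow', hr0, neg_zero, zero_pow (by omega), zero_mul, mul_zero]

/-- the coefficients of the leading form -/
lemma leadForm_coeff' {K : Type} [Field K] (q : K[X][X]) (a : ℤ) (b : ℕ) (j : ℕ)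
    (hj : j ≤ q.natDegree) : (leadForm q a b).coeff j
      = ∑ i ∈ range ((q.coeff j).natDegree + 1),
        if (b * i + a * j : ℤ) = b * q.leadingCoeff.natDegree + a * q.natDegree
        then (q.coeff j).coeff i else 0 := by
  rw [leadForm, finsetSum_coeff, Finset.sum_eq_single j]
  · rw [coeff_monomial_same]
  · intro i _ hi
    rw [coeff_monomial, if_neg hi]
  · intro h
    exact absurd (Finset.mem_range.mpr (Nat.lt_succ_of_le hj)) h

/-- The slope of the leading form. -/
lemma exists_slope {K : Type} [Field K] (q : K[X][X]) (c : K) (hlc : q.leadingCoeff = C c)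
    (hne : ∃ j, 1 ≤ (q.coeff j).natDegree) :
    ∃ j a b : ℕ, j < q.natDegree ∧ 1 ≤ a ∧ 1 ≤ b ∧
      (∀ j, q.coeff j ≠ 0 → (b * (q.coeff j).natDegree + (a : ℤ) * j : ℤ) ≤ wt q a b) ∧
      (leadForm q a b).coeff j ≠ 0 := by
  classical
  set e := q.natDegree with he
  have hde : q.leadingCoeff.natDegree = 0 := by rw [hlc, natDegree_C]
  obtain ⟨j0, hj0⟩ := hne
  have hj0e : j0 < e := by
    by_contra hcon
    push Not at hcon
    rcases hcon.lt_or_eq with h | h
    · rw [coeff_eq_zero_of_natDegree_lt h, natDegree_zero] at hj0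
      omega
    · rw [← h] at hj0
      have : (q.coeff e).natDegree = 0 := hde
      omega
  obtain ⟨j1, hj1, hmax⟩ := Finset.exists_max_image (range e)
    (fun j => ((q.coeff j).natDegree : ℚ) / ((e - j : ℕ) : ℚ)) ⟨j0, Finset.mem_range.mpr hj0e⟩
  have hj1e := Finset.mem_range.mp hj1
  set a := (q.coeff j1).natDegree with ha
  set b := e - j1 with hb
  have hb1 : 1 ≤ b := by omega
  have hcmp : ∀ j, j < e → b * (q.coeff j).natDegree ≤ a * (e - j) := by
    intro j hj
    have h1 := hmax j (Finset.mem_range.mpr hj)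
    have h2 : (0 : ℚ) < ((e - j : ℕ) : ℚ) := by
      rw [Nat.cast_pos]
      omega
    have h3 : (0 : ℚ) < ((e - j1 : ℕ) : ℚ) := by
      rw [Nat.cast_pos]
      omega
    rw [div_le_div_iff₀ h2 h3] at h1
    have h4 : (q.coeff j).natDegree * b ≤ a * (e - j) := by exact_mod_cast h1
    rw [mul_comm]
    exact h4
  have ha1 : 1 ≤ a := by
    have h1 := hcmp j0 hj0e
    by_contra hcon
    have h2 : a = 0 := by omega
    rw [h2, zero_mul] at h1
    have h3 : 1 * 1 ≤ b * (q.coeff j0).natDegree := Nat.mul_le_mul hb1 hj0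
    omega
  refine ⟨j1, a, b, hj1e, ha1, hb1, ?_, ?_⟩
  · intro j hj
    have hje : j ≤ e := le_natDegree_of_ne_zero hj
    rw [wt, hde]
    rcases hje.lt_or_eq with h | h
    · have h1 := hcmp j h
      have h2 : ((b * (q.coeff j).natDegree : ℕ) : ℤ) ≤ ((a * (e - j) : ℕ) : ℤ) := by
        exact_mod_cast h1
      push_cast [Nat.cast_sub hje] at h2
      rw [← he]
      push_cast
      linarith
    · have h3 : (q.coeff j).natDegree = 0 := by rw [h]; exact hde
      rw [h3, h]
  · rw [leadForm_coeff' q a b j1 hj1e.le, Finset.sum_eq_single a]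
    · rw [if_pos]
      · have h2 : q.coeff j1 ≠ 0 := by
          intro h
          rw [ha, h, natDegree_zero] at ha1
          omega
        exact leadingCoeff_ne_zero.mpr h2
      · rw [hde, ← he, hb]
        push_cast [Nat.cast_sub hj1e.le]
        ring
    · intro i _ hi
      rw [if_neg]
      intro h
      apply hi
      rw [hde, ← he] at h
      have h3 : (b : ℤ) * i = b * a := by
        have h4 : (b : ℤ) = e - j1 := by
          rw [hb]
          push_cast [Nat.cast_sub hj1e.le]
          ring
        have h5 : (b : ℤ) * a = (a : ℤ) * e - a * j1 := by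
          rw [h4]
          ring
        rw [h5]
        push_cast at h
        linarith
      have h4 : (i : ℤ) = a := mul_left_cancel₀ (by exact_mod_cast (by omega : b ≠ 0)) h3
      exact_mod_cast h4
    · intro h
      exact absurd (Finset.mem_range.mpr (Nat.lt_succ_self _)) h

theorem exists_skewMap {k : Type} [Field k] [NumberField k] (p : k[X]) (q : k[X][X])
    (hd : 1 ≤ p.natDegree) (hde : p.natDegree < q.natDegree) (c : k)
    (hlc : q.leadingCoeff = C c) (h1 : q.coeff (q.natDegree - 1) = 0)
    (hne : ∃ j, 1 ≤ (q.coeff j).natDegree) :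
    ∃ (K : Type) (_ : Field K) (_ : NumberField K) (_ : Algebra k K) (_ : Module.Finite k K)
      (D : SkewMap K), D.p = p.map (algebraMap k K) ∧ D.q = ext K q ∧ D.d = p.natDegree ∧
        D.e = q.natDegree := by
  classical
  obtain ⟨j, a, b, hj, ha, hb, hs, hjne⟩ := exists_slope q c hlc hne
  have hp0 : p ≠ 0 := by
    intro hp
    rw [hp, natDegree_zero] at hd
    omega
  have hq0 : q ≠ 0 := by
    intro hq
    rw [hq, natDegree_zero] at hde
    omega
  have e1 : leadForm q a b ≠ 0 := by
    intro h
    rw [h, coeff_zero] at hjne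
    exact hjne rfl
  have e2 : (X ^ b - C p.leadingCoeff : k[X]) ≠ 0 := X_pow_sub_C_ne_zero (by omega) _
  have e3 : (X ^ b - 1 : k[X]) ≠ 0 := by
    have := X_pow_sub_C_ne_zero (R := k) (by omega : 0 < b) 1
    rwa [map_one] at this
  set F : k[X] := leadForm q a b * (X ^ b - C p.leadingCoeff) * (X ^ b - 1) with hF
  have hF0 : F ≠ 0 := mul_ne_zero (mul_ne_zero e1 e2) e3
  let K := F.SplittingField
  have _ : CharZero K := charZero_of_injective_algebraMap (algebraMap k K).injective
  have hfin : Module.Finite k K := inferInstance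
  have hNF : NumberField K := NumberField.of_module_finite k K
  have hsplit : (F.map (algebraMap k K)).Splits := SplittingField.splits F
  have hFK : F.map (algebraMap k K) ≠ 0 := (Polynomial.map_ne_zero_iff (algebraMap k K).injective).mpr
    hF0
  have hdv : ∀ g : k[X], g ∣ F → (g.map (algebraMap k K)).Splits := fun g hg =>
    hsplit.of_dvd hFK (Polynomial.map_dvd _ hg)
  have s1 := hdv (leadForm q a b) ⟨(X ^ b - C p.leadingCoeff) * (X ^ b - 1), by rw [hF, mul_assoc]⟩
  have s2 := hdv (X ^ b - C p.leadingCoeff) ⟨leadForm q a b * (X ^ b - 1), by rw [hF]; ring⟩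
  have s3 := hdv (X ^ b - 1) ⟨leadForm q a b * (X ^ b - C p.leadingCoeff), by rw [hF]; ring⟩
  -- roots of unity and the root of the leading coefficient
  have hsepZ : (X ^ b - 1 : K[X]).Separable :=
    X_pow_sub_one_separable_iff.mpr (by exact_mod_cast (by omega : b ≠ 0))
  rw [Polynomial.map_sub, Polynomial.map_pow, map_X, Polynomial.map_one] at s3
  obtain ⟨Z, hZ1, -, -⟩ := exists_roots _ s3 hsepZ
  have hmon : (X ^ b - 1 : K[X]).leadingCoeff = 1 := by
    have := leadingCoeff_X_pow_sub_C (R := K) (r := 1) (by omega : 0 < b)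
    rwa [map_one] at this
  rw [hmon, map_one, one_mul] at hZ1
  rw [Polynomial.map_sub, Polynomial.map_pow, map_X, map_C] at s2
  obtain ⟨lam, hlam⟩ := s2.exists_eval_eq_zero (by
    rw [degree_X_pow_sub_C (by omega)]
    exact_mod_cast (by omega : b ≠ 0))
  rw [eval_sub, eval_pow, eval_X, eval_C, sub_eq_zero] at hlam
  -- the leading form
  have hqK : (ext K q).leadingCoeff = C (algebraMap k K c) := by
    rw [ext_leadingCoeff, hlc, map_C]
  have hwt : wt (ext K q) a b = ((a * q.natDegree : ℕ) : ℤ) := by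
    rw [wt, hqK, natDegree_C, ext_natDegree]
    push_cast
    ring
  have hs' : ∀ j, (ext K q).coeff j ≠ 0 →
      (b * ((ext K q).coeff j).natDegree + (a : ℤ) * j : ℤ) ≤ wt (ext K q) a b := by
    intro i hi
    rw [ext_coeff, Ne, Polynomial.map_eq_zero] at hi
    have h2 := hs i hi
    rw [wt, hlc, natDegree_C] at h2
    rw [ext_coeff, natDegree_map, wt, hqK, natDegree_C, ext_natDegree]
    exact h2
  rw [← leadForm_ext] at s1
  set T := leadForm (ext K q) a b with hT
  have hTe : T.natDegree = q.natDegree := by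
    rw [hT, leadForm_natDegree _ a b hb (by
      rw [ext, Polynomial.map_ne_zero_iff mapRingHom_inj]
      exact hq0), ext_natDegree]
  have hT0 : T ≠ 0 := by
    intro h
    rw [h, natDegree_zero] at hTe
    omega
  have hTj : T.coeff j ≠ 0 := by
    rw [hT, leadForm_ext, coeff_map, Ne, map_eq_zero]
    exact hjne
  have hT1 : T.coeff (q.natDegree - 1) = 0 := by
    rw [hT, leadForm_ext, coeff_map, leadForm_coeff' q a b _ (Nat.sub_le _ _), h1]
    simp
  obtain ⟨Θ, m, hm1, hm2, hm3⟩ := exists_mult T s1
  have hΘ := two_roots T q.natDegree (by omega) hTe hT1 j hj hTj Θ m hm2 hm3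
  have hlam0 : lam ≠ 0 := by
    intro h
    rw [h, zero_pow (by omega)] at hlam
    have h2 : algebraMap k K p.leadingCoeff ≠ 0 := by
      rw [Ne, map_eq_zero, leadingCoeff_eq_zero]
      exact hp0
    exact h2 hlam.symm
  have hplc : (p.map (algebraMap k K)).leadingCoeff = algebraMap k K p.leadingCoeff :=
    leadingCoeff_map _
  have hpl0 : (p.map (algebraMap k K)).leadingCoeff ≠ 0 := by
    rw [hplc, Ne, map_eq_zero, leadingCoeff_eq_zero]
    exact hp0
  let D : SkewMap K :=
    { d := p.natDegree
      hd := hd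
      e := q.natDegree
      hde := hde
      a := a
      ha := ha
      b := b
      hb := hb
      hb0 := by exact_mod_cast (by omega : b ≠ 0)
      P1 := C (p.map (algebraMap k K)).leadingCoeff⁻¹ * expand K b (p.map (algebraMap k K)).reverse
      hP1 := by
        rw [coeff_C_mul, coeff_expand (by omega), if_pos (dvd_zero _), Nat.zero_div,
          coeff_zero_reverse, inv_mul_cancel₀ hpl0]
      lam := lam
      hlam := hlam0
      Q := Qp (ext K q) a b
      c := T.leadingCoeff
      hc := leadingCoeff_ne_zero.mpr hT0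
      ι := Θ
      hfin := inferInstance
      hdec := inferInstance
      r := fun θ => (θ : K)
      hr := Subtype.val_injective
      m := fun θ => m θ
      hm := fun θ => hm1 θ θ.property
      hT := by
        rw [top0_Qp hs', Finset.prod_coe_sort Θ (fun θ => (X - C θ) ^ m θ)]
        exact hm3
      he := by
        rw [Finset.sum_coe_sort Θ (fun θ => m θ), hm2, hTe]
      p := p.map (algebraMap k K)
      q := ext K q
      hpd := natDegree_map _
      hP := rfl
      hlamb := by rw [hlam, hplc]
      hQ := by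
        intro Ω _ _ w u hw
        rw [ev2_Qp hs' w u hw, hwt, zpow_natCast, zpow_natCast]
      hQdeg := (natDegree_Qp _ _ _).trans (le_of_eq (ext_natDegree q))
      Z := Z
      hZ := hZ1
      hcard := by
        rw [Fintype.card_coe]
        exact hΘ }
  exact ⟨K, inferInstance, hNF, inferInstance, hfin, D, rfl, rfl, rfl, rfl⟩

end Pool.Agent.Lib.MP_9ec2c5_nt_h65
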