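import Mathlib
import Pool.Agent.Lib.MP_9ec2c5_nt_h65.Growth
import Pool.Agent.Lib.MP_9ec2c5_nt_h65.Degree

/-!
The arithmetic degree of a Zariski dense orbit of a generic polynomial skew product.
-/

set_option autoImplicit false
set_option linter.unusedSectionVars false

namespace Pool.Agent.Lib.MP_9ec2c5_nt_h65

open Polynomial Finset Height Filter Topology

variable {K : Type} [Field K] [NumberField K]

lemma logHeight_ge (x y : K) : Real.log (mulHeight₁ y) ≤ logHeight ![x, y, 1] := by
  have h := logHeight_comp_le (![1, 2] : Fin 2 → Fin 3) ![x, y, 1]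
  have h1 : (![x, y, 1] : Fin 3 → K) ∘ (![1, 2] : Fin 2 → Fin 3) = ![y, 1] := by
    funext i
    fin_cases i <;> rfl
  rw [h1, ← logHeight₁_eq_logHeight] at h
  exact h

lemma logHeight_le (x y : K) :
    logHeight ![x, y, 1] ≤ Real.log (mulHeight₁ x) + Real.log (mulHeight₁ y) := by
  have hx : (![x, 1] : Fin 2 → K) ≠ 0 := fun h => by
    have := congrFun h 1
    simp at this
  have hy : (![y, 1] : Fin 2 → K) ≠ 0 := fun h => by
    have := congrFun h 1
    simp at this
  have h := logHeight_comp_le (![(0, 1), (1, 0), (1, 1)] : Fin 3 → Fin 2 × Fin 2)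
    (fun r : Fin 2 × Fin 2 => (![x, 1] : Fin 2 → K) r.1 * (![y, 1] : Fin 2 → K) r.2)
  rw [logHeight_fun_mul_eq hx hy, ← logHeight₁_eq_logHeight, ← logHeight₁_eq_logHeight] at h
  refine le_trans (le_of_eq ?_) h
  congr 1
  funext i
  fin_cases i
  · show x = x * 1
    rw [mul_one]
  · show y = 1 * y
    rw [one_mul]
  · show (1 : K) = 1 * 1
    rw [mul_one]

/-- The arithmetic degree of a Zariski dense orbit of a generic polynomial skew product exists and
equals the first dynamical degree. -/
theorem arithmetic_degree (p : K[X]) (q : K[X][X]) (a : ℤ) (b : ℕ) (h : Generic p q a b) :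
    Tendsto (fun n : ℕ => (iterDeg p q n : ℝ) ^ (1 / (n : ℝ))) atTop (𝓝 (q.natDegree : ℝ)) ∧
    ∀ x y : ℕ → K, (∀ n, x (n + 1) = p.eval (x n)) →
      (∀ n, y (n + 1) = q.evalEval (x n) (y n)) →
      (∀ R : K[X][X], (∀ n, R.evalEval (x n) (y n) = 0) → R = 0) →
      Tendsto (fun n : ℕ => weilHeight (x n) (y n) ^ (1 / (n : ℝ))) atTop
        (𝓝 (q.natDegree : ℝ)) := by
  refine ⟨tendsto_iterDeg p q h.hd h.hde, fun x y hx hy hdense => ?_⟩
  obtain ⟨c, M, hc, hM, h1, h2⟩ := dense_growth h x y hx hy hdense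
  have he : 1 ≤ q.natDegree := by
    have := h.hde
    omega
  have hD : (0 : ℝ) < Module.finrank ℚ K := by
    exact_mod_cast Module.finrank_pos
  set D : ℝ := (Module.finrank ℚ K : ℝ) with hDdef
  refine tendsto_root q.natDegree he _ (c / D) (1 + 2 * M / D) (by positivity) ?_ ?_
  · filter_upwards [h1] with n hn
    have h3 := logHeight_ge (x n) (y n)
    have h4 : c / D * (q.natDegree : ℝ) ^ n ≤ logHeight ![x n, y n, 1] / D := by
      rw [div_mul_eq_mul_div]
      exact div_le_div_of_nonneg_right (hn.trans h3) hD.le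
    rw [weilHeight]
    linarith
  · refine Eventually.of_forall fun n => ?_
    have h3 := logHeight_le (x n) (y n)
    obtain ⟨h4, h5⟩ := h2 n
    have h6 : (1 : ℝ) ≤ (q.natDegree : ℝ) ^ n := one_le_pow₀ (by exact_mod_cast he)
    have h7 : logHeight ![x n, y n, 1] / D ≤ 2 * M / D * (q.natDegree : ℝ) ^ n := by
      rw [div_mul_eq_mul_div]
      exact div_le_div_of_nonneg_right (by linarith) hD.le
    rw [weilHeight, add_mul, one_mul]
    linarith

end Pool.Agent.Lib.MP_9ec2c5_nt_h65
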