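import Mathlib
import Pool.Agent.Lib.MP_9ec2c5_nt_h65.Build

/-!
Removing the term of degree one less than the degree, and descent of vanishing polynomials.
-/

set_option autoImplicit false
set_option linter.unusedSectionVars false

namespace Pool.Agent.Lib.MP_9ec2c5_nt_h65

open Polynomial Finset Height Filter Topology AdmissibleAbsValues

section tsch

variable {K : Type} [Field K]

lemma eval_eval' (q : K[X][X]) (x : K) (G : K[X]) : eval x (eval G q) = q.evalEval x (G.eval x) := by
  have h1 := aeval_eval (Ω := K) q x G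
  rw [coe_aeval_eq_eval] at h1
  rw [h1]
  exact ev2_algebraMap (Ω := K) q x (G.eval x)

lemma evalEval_comp (q r : K[X][X]) (x y : K) :
    (q.comp r).evalEval x y = q.evalEval x (r.evalEval x y) := by
  show eval x (eval (C y) (q.comp r)) = _
  rw [eval_comp, eval_eval']

/-- the transformed fibre polynomial -/
noncomputable def tsch (p : K[X]) (q : K[X][X]) (s : K[X]) : K[X][X] :=
  q.comp (X - C s) + C (s.comp p)

lemma tsch_eval (p : K[X]) (q : K[X][X]) (s : K[X]) (x y : K) :
    (tsch p q s).evalEval x (y + s.eval x) = q.evalEval x y + s.eval (p.eval x) := by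
  have h1 : ∀ F G : K[X][X], (F + G).evalEval x (y + s.eval x)
      = F.evalEval x (y + s.eval x) + G.evalEval x (y + s.eval x) := fun F G => by
    show eval x (eval _ (F + G)) = _
    rw [eval_add, eval_add]
  have h2 : ((X : K[X][X]) - C s).evalEval x (y + s.eval x) = y := by
    show eval x (eval (C (y + s.eval x)) (X - C s)) = y
    rw [eval_sub, eval_X, eval_C, eval_sub, eval_C]
    ring
  rw [tsch, h1, evalEval_comp, h2, evalEval_C, eval_comp]

lemma tsch_natDegree (p : K[X]) (q : K[X][X]) (s : K[X]) :
    (tsch p q s).natDegree = q.natDegree := by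
  rw [tsch, natDegree_add_C, natDegree_comp, natDegree_X_sub_C, mul_one]

lemma tsch_lead (p : K[X]) (q : K[X][X]) (s : K[X]) (hq : 1 ≤ q.natDegree) :
    (tsch p q s).leadingCoeff = q.leadingCoeff := by
  have h1 : (q.comp (X - C s)).leadingCoeff = q.leadingCoeff := by
    rw [leadingCoeff_comp (by rw [natDegree_X_sub_C]; exact one_ne_zero), leadingCoeff_X_sub_C,
      one_pow, mul_one]
  rw [leadingCoeff, tsch_natDegree, tsch, coeff_add, coeff_C, if_neg (by omega), add_zero]
  rw [leadingCoeff, natDegree_comp, natDegree_X_sub_C, mul_one] at h1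
  exact h1

lemma tsch_coeff (p : K[X]) (q : K[X][X]) (s : K[X]) (hq : 2 ≤ q.natDegree) :
    (tsch p q s).coeff (q.natDegree - 1)
      = q.coeff (q.natDegree - 1) - q.natDegree * q.leadingCoeff * s := by
  set e := q.natDegree with he
  have h1 : q.comp (X - C s) = taylor (-s) q := by
    rw [taylor_apply, C_neg, ← sub_eq_add_neg]
  have h2 : (hasseDeriv (e - 1) q).natDegree < 2 := by
    have := natDegree_hasseDeriv_le q (e - 1)
    omega
  rw [tsch, coeff_add, coeff_C, if_neg (by omega), add_zero, h1, taylor_coeff,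
    eval_eq_sum_range' h2, Finset.sum_range_succ, Finset.sum_range_one, hasseDeriv_coeff,
    hasseDeriv_coeff, zero_add, Nat.choose_self, Nat.cast_one, one_mul, pow_zero, mul_one, pow_one]
  have h3 : 1 + (e - 1) = e := by omega
  rw [h3, ← Nat.choose_symm (by omega : e - 1 ≤ e)]
  have h4 : e - (e - 1) = 1 := by omega
  rw [h4, Nat.choose_one_right]
  have h5 : q.coeff e = q.leadingCoeff := rfl
  rw [h5]
  ring

/-- the shift which removes the second coefficient -/
lemma exists_tsch [CharZero K] (p : K[X]) (q : K[X][X]) (hq : 2 ≤ q.natDegree) (c : K)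
    (hc : c ≠ 0) (hlc : q.leadingCoeff = C c) :
    ∃ s : K[X], (tsch p q s).coeff ((tsch p q s).natDegree - 1) = 0 := by
  have he : (q.natDegree : K) ≠ 0 := by
    rw [Nat.cast_ne_zero]
    omega
  refine ⟨C ((q.natDegree * c)⁻¹) * q.coeff (q.natDegree - 1), ?_⟩
  rw [tsch_natDegree, tsch_coeff p q _ hq, hlc]
  have h1 : ((q.natDegree : K[X])) * C c * (C ((q.natDegree * c)⁻¹) * q.coeff (q.natDegree - 1))
      = C ((q.natDegree * c) * (q.natDegree * c)⁻¹) * q.coeff (q.natDegree - 1) := by
    rw [map_mul, map_mul, map_natCast]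
    ring
  rw [h1, mul_inv_cancel₀ (mul_ne_zero he hc), map_one, one_mul, sub_self]

/-- undoing the shift -/
lemma untsch (s : K[X]) (R : K[X][X]) (hR : R ≠ 0) (x y : ℕ → K)
    (h : ∀ n, R.evalEval (x n) (y n + s.eval (x n)) = 0) :
    ∃ R' : K[X][X], R' ≠ 0 ∧ ∀ n, R'.evalEval (x n) (y n) = 0 := by
  refine ⟨R.comp (X + C s), comp_X_add_C_ne_zero_iff.mpr hR, fun n => ?_⟩
  rw [evalEval_comp]
  have h2 : ((X : K[X][X]) + C s).evalEval (x n) (y n) = y n + s.eval (x n) := by
    show eval (x n) (eval (C (y n)) (X + C s)) = _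
    rw [eval_add, eval_X, eval_C, eval_add, eval_C]
  rw [h2]
  exact h n

end tsch

section descent

variable {k K : Type} [Field k] [Field K] [Algebra k K]

/-- a polynomial over an extension which vanishes at points of the ground field gives one over the
ground field -/
lemma descend (R : K[X][X]) (hR : R ≠ 0) (x y : ℕ → k)
    (h : ∀ n, R.evalEval (algebraMap k K (x n)) (algebraMap k K (y n)) = 0) :
    ∃ R' : k[X][X], R' ≠ 0 ∧ ∀ n, R'.evalEval (x n) (y n) = 0 := by
  have h1 : R.leadingCoeff ≠ 0 := leadingCoeff_ne_zero.mpr hR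
  have h2 : R.leadingCoeff.leadingCoeff ≠ 0 := leadingCoeff_ne_zero.mpr h1
  obtain ⟨φ, hφ⟩ := Module.Projective.exists_dual_ne_zero k h2
  set R' : k[X][X] := ∑ j ∈ range (R.natDegree + 1), monomial j
    (∑ i ∈ range ((R.coeff j).natDegree + 1), monomial i (φ ((R.coeff j).coeff i))) with hR'
  refine ⟨R', ?_, fun n => ?_⟩
  · intro h0
    apply hφ
    have h3 : (R'.coeff R.natDegree).coeff R.leadingCoeff.natDegree
        = φ R.leadingCoeff.leadingCoeff := by
      rw [hR', finsetSum_coeff, Finset.sum_eq_single R.natDegree]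
      · rw [coeff_monomial_same, finsetSum_coeff, Finset.sum_eq_single R.leadingCoeff.natDegree]
        · rw [coeff_monomial_same]
          rfl
        · intro i _ hi
          rw [coeff_monomial, if_neg hi]
        · intro h
          exact absurd (Finset.mem_range.mpr (Nat.lt_succ_self _)) h
      · intro j _ hj
        rw [coeff_monomial, if_neg hj]
      · intro h
        exact absurd (Finset.mem_range.mpr (Nat.lt_succ_self _)) h
    rw [← h3, h0, coeff_zero, coeff_zero]
  · have h3 : R'.evalEval (x n) (y n) = ∑ j ∈ range (R.natDegree + 1),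
        ∑ i ∈ range ((R.coeff j).natDegree + 1),
          φ ((R.coeff j).coeff i) * (x n ^ i * y n ^ j) := by
      rw [hR', evalEval_finsetSum]
      refine Finset.sum_congr rfl fun j _ => ?_
      show eval (x n) (eval (C (y n)) (monomial j _)) = _
      rw [eval_monomial, eval_mul, eval_finsetSum, ← C_pow, eval_C, Finset.sum_mul]
      refine Finset.sum_congr rfl fun i _ => ?_
      rw [eval_monomial]
      ring
    have h4 : R.evalEval (algebraMap k K (x n)) (algebraMap k K (y n))
        = ∑ j ∈ range (R.natDegree + 1), ∑ i ∈ range ((R.coeff j).natDegree + 1),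
          (x n ^ i * y n ^ j) • (R.coeff j).coeff i := by
      have h5 := ev2_sum_range R (algebraMap k K (x n)) (algebraMap k K (y n))
      have h6 : ev2 R (algebraMap k K (x n)) (algebraMap k K (y n))
          = R.evalEval (algebraMap k K (x n)) (algebraMap k K (y n)) :=
        ev2_algebraMap (Ω := K) R _ _
      rw [← h6, h5]
      refine Finset.sum_congr rfl fun j _ => Finset.sum_congr rfl fun i _ => ?_
      rw [Algebra.smul_def, map_mul, map_pow, map_pow, Algebra.algebraMap_self, RingHom.id_apply]
      ring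
    have h5 : φ (R.evalEval (algebraMap k K (x n)) (algebraMap k K (y n)))
        = R'.evalEval (x n) (y n) := by
      rw [h4, h3, map_sum]
      refine Finset.sum_congr rfl fun j _ => ?_
      rw [map_sum]
      refine Finset.sum_congr rfl fun i _ => ?_
      rw [map_smul, smul_eq_mul, mul_comm]
    rw [← h5, h n, map_zero]

end descent

section places

variable {k K : Type} [Field k] [NumberField k] [Field K] [NumberField K] [Algebra k K]

lemma integral_le_one (v : AbsoluteValue K ℝ) (hna : IsNonarchimedean v)
    (hn : ∀ m : ℤ, v (m : K) ≤ 1) (z : K) (hz : IsIntegral ℤ z) : v z ≤ 1 := by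
  obtain ⟨f, hf, hfz⟩ := hz
  by_contra hcon
  push Not at hcon
  have hd : 1 ≤ f.natDegree := by
    by_contra h
    have h1 : f = 1 := by
      have : f.natDegree = 0 := by omega
      exact (Monic.natDegree_eq_zero hf).mp this
    rw [h1, eval₂_one] at hfz
    exact one_ne_zero hfz
  rw [eval₂_eq_sum_range, Finset.sum_range_succ] at hfz
  have h1 : f.coeff f.natDegree = 1 := hf
  rw [h1, map_one, one_mul] at hfz
  have h2 : z ^ f.natDegree = -∑ i ∈ range f.natDegree, (Int.castRingHom K) (f.coeff i) * z ^ i := by
    linear_combination hfz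
  have h3 : v (∑ i ∈ range f.natDegree, (Int.castRingHom K) (f.coeff i) * z ^ i)
      ≤ v z ^ (f.natDegree - 1) := by
    refine (hna.apply_sum_le_sup (Finset.nonempty_range_iff.mpr (by omega))).trans ?_
    refine Finset.sup'_le _ _ fun j hj => ?_
    have hj' := Finset.mem_range.mp hj
    rw [map_mul, map_pow]
    calc _ ≤ 1 * v z ^ (f.natDegree - 1) := mul_le_mul (hn _)
          (pow_le_pow_right₀ hcon.le (by omega)) (pow_nonneg (v.nonneg _) _) zero_le_one
      _ = _ := one_mul _
  have h4 := congrArg v h2
  rw [v.map_neg, map_pow] at h4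
  rw [← h4] at h3
  have h5 : v z ^ (f.natDegree - 1) < v z ^ f.natDegree := pow_lt_pow_right₀ hcon (by omega)
  linarith

/-- places of an extension are bounded by the height over the ground field -/
theorem place_le (v : AbsoluteValue K ℝ) (hv : IsPlace v) (z : k) :
    v (algebraMap k K z) ≤ mulHeight₁ z ^ totalWeight K := by
  have hW : 1 ≤ totalWeight K := NumberField.totalWeight_pos K
  have hH : 1 ≤ mulHeight₁ z := one_le_mulHeight₁ z
  rcases hv with hv' | hv'
  · obtain ⟨φ, hφ⟩ := NumberField.mem_multisetInfinitePlace.mp hv'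
    have h1 : v (algebraMap k K z) = NumberField.place (φ.comp (algebraMap k K)) z := by
      rw [← hφ, NumberField.place_apply, NumberField.place_apply]
      rfl
    have h2 : IsPlace (NumberField.place (φ.comp (algebraMap k K))) :=
      Or.inl (NumberField.mem_multisetInfinitePlace.mpr ⟨_, rfl⟩)
    rw [h1]
    refine (h2.le_height z).trans ?_
    calc mulHeight₁ z = mulHeight₁ z ^ 1 := (pow_one _).symm
      _ ≤ _ := pow_le_pow_right₀ hH hW
  · have hna : IsNonarchimedean v := isNonarchimedean v hv'
    have hnat : ∀ m : ℕ, v (m : K) ≤ 1 := by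
      intro m
      induction m with
      | zero => simp
      | succ m ih =>
        push_cast
        refine (hna _ _).trans (max_le ih ?_)
        rw [map_one]
    have hint : ∀ m : ℤ, v (m : K) ≤ 1 := by
      intro m
      rcases Int.eq_nat_or_neg m with ⟨l, hl | hl⟩
      · rw [hl, Int.cast_natCast]
        exact hnat l
      · rw [hl, Int.cast_neg, Int.cast_natCast, v.map_neg]
        exact hnat l
    obtain ⟨n, hn0, hn1, hn2⟩ := NumberField.exists_nat_le_mulHeight₁ z
    have h1 : IsIntegral ℤ (algebraMap k K (n * z)) := hn2.algebraMap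
    have h2 := integral_le_one v hna hint _ h1
    rw [map_mul, map_natCast, map_mul] at h2
    have hnK : (n : K) ≠ 0 := Nat.cast_ne_zero.mpr hn0
    have h3 := IsPlace.liouville (Or.inr hv' : IsPlace v) hnK
    have h4 := height_natCast (K := K) n (Nat.one_le_iff_ne_zero.mpr hn0)
    have h5 : (n : ℝ) ^ totalWeight K ≤ mulHeight₁ z ^ totalWeight K :=
      pow_le_pow_left₀ (Nat.cast_nonneg n) hn1 _
    have h6 : 0 ≤ v (algebraMap k K z) := v.nonneg _
    have h7 : 0 < v (n : K) := v.pos hnK
    calc v (algebraMap k K z) = 1 * v (algebraMap k K z) := (one_mul _).symm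
      _ ≤ (v (n : K) * mulHeight₁ (n : K)) * v (algebraMap k K z) :=
          mul_le_mul_of_nonneg_right h3 h6
      _ = (v (n : K) * v (algebraMap k K z)) * mulHeight₁ (n : K) := by ring
      _ ≤ 1 * mulHeight₁ (n : K) := mul_le_mul_of_nonneg_right h2 (by positivity)
      _ ≤ mulHeight₁ z ^ totalWeight K := by
          rw [one_mul]
          exact h4.trans h5

end places

end Pool.Agent.Lib.MP_9ec2c5_nt_h65
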