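import Mathlib
import Pool.Agent.Lib.MP_9ec2c5_nt_h65.Tsch

/-!
Slow orbits of a polynomial skew product with constant leading coefficient are not Zariski dense.
-/

set_option autoImplicit false
set_option linter.unusedSectionVars false

namespace Pool.Agent.Lib.MP_9ec2c5_nt_h65

open Polynomial Finset Height Filter Topology AdmissibleAbsValues

section real

/-- heights of the base orbit -/
lemma base_slow (d : ℕ) (hd : 1 ≤ d) (κ : ℕ → ℝ) (C0 : ℝ) (h0 : 0 ≤ C0)
    (ha : ∀ n, κ (n + 1) ≤ d * κ n + C0) (n : ℕ) : κ n ≤ (d : ℝ) ^ n * (κ 0 + C0 * n) := by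
  induction n with
  | zero => simp
  | succ n ih =>
    have hd1 : (1 : ℝ) ≤ d := by exact_mod_cast hd
    have h1 : (1 : ℝ) ≤ (d : ℝ) ^ (n + 1) := one_le_pow₀ hd1
    have h2 := ha n
    have h3 : (d : ℝ) * κ n ≤ d * ((d : ℝ) ^ n * (κ 0 + C0 * n)) :=
      mul_le_mul_of_nonneg_left ih (by linarith)
    push_cast
    have h4 : (d : ℝ) ^ (n + 1) * (κ 0 + C0 * (n + 1))
        = d * ((d : ℝ) ^ n * (κ 0 + C0 * n)) + (d : ℝ) ^ (n + 1) * C0 := by
      rw [pow_succ]
      ring
    rw [h4]
    nlinarith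

/-- from an eventual bound to a bound -/
lemma all_slow (d : ℕ) (hd : 1 ≤ d) (h : ℕ → ℝ) (hh : ∀ n, 0 ≤ h n) (A B : ℝ) (hA : 0 ≤ A)
    (hB : 0 ≤ B) (hev : ∀ᶠ n : ℕ in atTop, h n ≤ (d : ℝ) ^ n * (A + B * n)) :
    ∃ A' : ℝ, 0 ≤ A' ∧ ∀ n : ℕ, h n ≤ (d : ℝ) ^ n * (A' + B * n) := by
  obtain ⟨n0, hn0⟩ := eventually_atTop.mp hev
  have hs : 0 ≤ ∑ m ∈ range n0, h m := Finset.sum_nonneg fun m _ => hh m
  refine ⟨A + ∑ m ∈ range n0, h m, by positivity, fun n => ?_⟩
  have hd1 : (1 : ℝ) ≤ (d : ℝ) ^ n := one_le_pow₀ (by exact_mod_cast hd)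
  rcases Nat.lt_or_ge n n0 with h1 | h1
  · have h2 : h n ≤ ∑ m ∈ range n0, h m :=
      Finset.single_le_sum (f := h) (fun m _ => hh m) (Finset.mem_range.mpr h1)
    have h3 : (0 : ℝ) ≤ B * n := by positivity
    calc h n ≤ 1 * (A + ∑ m ∈ range n0, h m + B * n) := by linarith
      _ ≤ _ := mul_le_mul_of_nonneg_right hd1 (by positivity)
  · refine (hn0 n h1).trans (mul_le_mul_of_nonneg_left ?_ (by positivity))
    linarith

end real

variable {K : Type} [Field K] [NumberField K]

/-- the case of a product map -/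
lemma const_vanish (q : K[X][X]) (d : ℕ) (hde : d < q.natDegree) (hq2 : 2 ≤ q.natDegree)
    (c : K) (hc : c ≠ 0) (hlc : q.leadingCoeff = C c) (hconst : ∀ j, (q.coeff j).natDegree = 0)
    (x y : ℕ → K) (hy : ∀ n, y (n + 1) = q.evalEval (x n) (y n))
    (hslow : ∃ A B : ℝ, ∀ n : ℕ, Real.log (mulHeight₁ (y n)) ≤ (d : ℝ) ^ n * (A + B * n)) :
    ∃ R : K[X][X], R ≠ 0 ∧ ∀ n, R.evalEval (x n) (y n) = 0 := by
  classical
  obtain ⟨C3, N3, hC3, h3⟩ := height_lower q (by omega)
  have h4 : ∀ n, y (n + 1) = q.evalEval 0 (y n) := by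
    intro n
    rw [hy]
    conv_lhs => rw [q.as_sum_range_C_mul_X_pow]
    conv_rhs => rw [q.as_sum_range_C_mul_X_pow]
    rw [evalEval_finsetSum, evalEval_finsetSum]
    refine Finset.sum_congr rfl fun j _ => ?_
    rw [evalEval_mul, evalEval_C, evalEval_pow, evalEval_X, evalEval_mul, evalEval_C, evalEval_pow,
      evalEval_X]
    have h5 : ∀ z : K, (q.coeff j).eval z = (q.coeff j).coeff 0 := by
      intro z
      rw [eq_C_of_natDegree_eq_zero (hconst j), eval_C, coeff_C_zero]
    rw [h5, h5]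
  have hstep : ∀ n, q.natDegree * Real.log (mulHeight₁ (y n)) - Real.log C3
      ≤ Real.log (mulHeight₁ (y (n + 1))) := by
    intro n
    have h5 := h3 0 (y n) (by rw [hlc, eval_C]; exact hc)
    rw [← h4, mulHeight₁_zero, one_pow, mul_one] at h5
    have h6 := Real.log_le_log (by positivity) h5
    rw [Real.log_mul (by positivity) (by positivity), Real.log_pow] at h6
    linarith
  have h5 := real_escape d q.natDegree hde hq2 (fun n => Real.log (mulHeight₁ (y n)))
    (Real.log C3) (Real.log C3) (Real.log_nonneg hC3) (le_refl _) (fun n _ => hstep n) hslow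
  have hfin : {z : K | mulHeight₁ z ≤ C3}.Finite := NumberField.finite_setOfPred_mulHeight₁_le K C3
  refine ⟨∏ z ∈ hfin.toFinset, (X - C (C z)), Finset.prod_ne_zero_iff.mpr fun z _ =>
    X_sub_C_ne_zero _, fun n => ?_⟩
  rw [evalEval_prod]
  refine Finset.prod_eq_zero (i := y n) ?_ ?_
  · rw [Set.Finite.mem_toFinset]
    exact (Real.log_le_log_iff (by positivity) (by positivity)).mp (h5 n)
  · show eval (x n) (eval (C (y n)) (X - C (C (y n)))) = 0
    rw [eval_sub, eval_X, eval_C, sub_self, eval_zero]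

/-- Slow orbits of a polynomial skew product with constant leading coefficient are not dense. -/
theorem slow_vanish (p : K[X]) (q : K[X][X]) (hd : 1 ≤ p.natDegree)
    (hde : p.natDegree < q.natDegree) (c : K) (hc : c ≠ 0) (hlc : q.leadingCoeff = C c)
    (x y : ℕ → K) (hx : ∀ n, x (n + 1) = p.eval (x n))
    (hy : ∀ n, y (n + 1) = q.evalEval (x n) (y n)) (hinj : Function.Injective x)
    (hslow : ∃ B : ℝ, 0 ≤ B ∧ ∀ᶠ n in atTop,
      Real.log (mulHeight₁ (y n)) ≤ B * (Real.log (mulHeight₁ (x n)) + 1)) :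
    ∃ R : K[X][X], R ≠ 0 ∧ ∀ n, R.evalEval (x n) (y n) = 0 := by
  classical
  have hk : ∀ n, 0 ≤ Real.log (mulHeight₁ (x n)) := fun n => Real.log_nonneg (one_le_mulHeight₁ _)
  have hh : ∀ n, 0 ≤ Real.log (mulHeight₁ (y n)) := fun n => Real.log_nonneg (one_le_mulHeight₁ _)
  -- the base
  obtain ⟨C0, hC0, h0⟩ := height_eval p
  have hl0 : 0 ≤ Real.log C0 := Real.log_nonneg hC0
  have ha : ∀ n, Real.log (mulHeight₁ (x (n + 1)))
      ≤ p.natDegree * Real.log (mulHeight₁ (x n)) + Real.log C0 := by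
    intro n
    rw [hx, ← Real.log_pow, ← Real.log_mul (by positivity) (by positivity), mul_comm]
    exact Real.log_le_log (by positivity) (h0 _)
  have hbase := base_slow p.natDegree hd (fun n => Real.log (mulHeight₁ (x n))) (Real.log C0) hl0 ha
  set κ0 := Real.log (mulHeight₁ (x 0)) with hκ0
  have hκ : 0 ≤ κ0 := hk 0
  -- the shift
  obtain ⟨s, hs⟩ := exists_tsch p q (by omega) c hc hlc
  set q' := tsch p q s with hq'
  set y' : ℕ → K := fun n => y n + s.eval (x n) with hy'
  have hy1 : ∀ n, y' (n + 1) = q'.evalEval (x n) (y' n) := by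
    intro n
    rw [hq', hy', tsch_eval]
    show y (n + 1) + s.eval (x (n + 1)) = _
    rw [hx, hy]
  have hdeg : q'.natDegree = q.natDegree := tsch_natDegree p q s
  have hlc' : q'.leadingCoeff = C c := by
    rw [hq', tsch_lead p q s (by omega), hlc]
  -- slow growth of the new coordinate
  obtain ⟨C2, hC2, h2⟩ := height_eval s
  have hl2 : 0 ≤ Real.log C2 := Real.log_nonneg hC2
  obtain ⟨B, hB, hev⟩ := hslow
  obtain ⟨A1, hA1, hys⟩ := all_slow p.natDegree hd (fun n => Real.log (mulHeight₁ (y n))) hh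
    (B * (κ0 + 1)) (B * Real.log C0) (by positivity) (by positivity) (by
      filter_upwards [hev] with n hn
      have h1 : (1 : ℝ) ≤ (p.natDegree : ℝ) ^ n := one_le_pow₀ (by exact_mod_cast hd)
      refine hn.trans ?_
      have h3 := hbase n
      calc B * (Real.log (mulHeight₁ (x n)) + 1)
          ≤ B * ((p.natDegree : ℝ) ^ n * (κ0 + Real.log C0 * n) + (p.natDegree : ℝ) ^ n) :=
            mul_le_mul_of_nonneg_left (add_le_add h3 h1) hB
        _ = _ := by ring)
  set w2 : ℝ := totalWeight K * Real.log 2 with hw2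
  have hw20 : 0 ≤ w2 := mul_nonneg (Nat.cast_nonneg _) (Real.log_nonneg (by norm_num))
  set sd : ℝ := (s.natDegree : ℝ) with hsd
  have hsd0 : 0 ≤ sd := Nat.cast_nonneg _
  set A2 : ℝ := w2 + Real.log C2 + A1 + sd * κ0 with hA2
  set B2 : ℝ := B * Real.log C0 + sd * Real.log C0 with hB2
  have hyslow : ∀ n : ℕ, Real.log (mulHeight₁ (y' n)) ≤ (p.natDegree : ℝ) ^ n * (A2 + B2 * n) := by
    intro n
    have h1 : (1 : ℝ) ≤ (p.natDegree : ℝ) ^ n := one_le_pow₀ (by exact_mod_cast hd)
    have h3 : mulHeight₁ (y' n) ≤ 2 ^ totalWeight K * mulHeight₁ (y n)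
        * (C2 * mulHeight₁ (x n) ^ s.natDegree) :=
      (mulHeight₁_add_le _ _).trans (mul_le_mul_of_nonneg_left (h2 _) (by positivity))
    have h4 := Real.log_le_log (by positivity) h3
    rw [Real.log_mul (by positivity) (by positivity), Real.log_mul (by positivity) (by positivity),
      Real.log_mul (by positivity) (by positivity), Real.log_pow, Real.log_pow] at h4
    have h5 := hys n
    have h6 := mul_le_mul_of_nonneg_left (hbase n) hsd0
    have h7 : w2 + Real.log C2 ≤ (p.natDegree : ℝ) ^ n * (w2 + Real.log C2) := by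
      have h8 : 0 ≤ w2 + Real.log C2 := by positivity
      nlinarith
    have h8 : (p.natDegree : ℝ) ^ n * (A2 + B2 * n)
        = (p.natDegree : ℝ) ^ n * (w2 + Real.log C2)
          + (p.natDegree : ℝ) ^ n * (A1 + B * Real.log C0 * n)
          + sd * ((p.natDegree : ℝ) ^ n * (κ0 + Real.log C0 * n)) := by
      rw [hA2, hB2]
      ring
    rw [h8]
    linarith
  -- the two cases
  suffices h : ∃ R : K[X][X], R ≠ 0 ∧ ∀ n, R.evalEval (x n) (y' n) = 0 by
    obtain ⟨R, hR, hR'⟩ := h
    exact untsch s R hR x y hR'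
  by_cases hconst : ∀ j, (q'.coeff j).natDegree = 0
  · exact const_vanish q' p.natDegree (by rw [hdeg]; exact hde) (by rw [hdeg]; omega) c hc hlc'
      hconst x y' hy1 ⟨A2, B2, hyslow⟩
  · push Not at hconst
    obtain ⟨K', _, _, _, _, D, hDp, hDq, hDd, hDe⟩ := exists_skewMap p q' hd
      (by rw [hdeg]; exact hde) c hlc' hs (by
        obtain ⟨j, hj⟩ := hconst
        exact ⟨j, Nat.one_le_iff_ne_zero.mpr hj⟩)
    have hcK : algebraMap K K' c ≠ 0 := by
      rw [Ne, map_eq_zero]
      exact hc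
    obtain ⟨R, hR, hR'⟩ := D.vanish (algebraMap K K' c) hcK (by rw [hDq, hDe, ext_natDegree])
      (by rw [hDq, ext_leadingCoeff, hlc', map_C])
      (fun n => algebraMap K K' (x n)) (fun n => algebraMap K K' (y' n))
      (fun n => by
        show algebraMap K K' (x (n + 1)) = _
        rw [hDp, eval_map_algebraMap, aeval_algebraMap_apply_eq_algebraMap_eval, hx])
      (fun n => by
        show algebraMap K K' (y' (n + 1)) = _
        have h1 : ev2 (ext K' q') (algebraMap K K' (x n)) (algebraMap K K' (y' n))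
            = (ext K' q').evalEval (algebraMap K K' (x n)) (algebraMap K K' (y' n)) :=
          ev2_algebraMap (Ω := K') _ _ _
        rw [hDq, ← h1, ev2_ext, ev2_algebraMap, hy1])
      (fun m n hmn => hinj ((algebraMap K K').injective hmn))
      (fun v hv => by
        refine ⟨totalWeight K' * A2, totalWeight K' * B2, fun n => ?_⟩
        refine (place_le v hv (y' n)).trans ?_
        rw [← Real.exp_log (by positivity : 0 < mulHeight₁ (y' n) ^ totalWeight K'), Real.log_pow,
          hDd]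
        refine Real.exp_le_exp.mpr ?_
        have h1 := mul_le_mul_of_nonneg_left (hyslow n) (Nat.cast_nonneg (α := ℝ) (totalWeight K'))
        refine h1.trans (le_of_eq ?_)
        ring)
    exact descend R hR x y' hR'

end Pool.Agent.Lib.MP_9ec2c5_nt_h65
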