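import Mathlib
import Pool.Agent.Lib.MP_9ec2c5_nt_h65.Growth
import Pool.Agent.Lib.MP_9ec2c5_nt_h65.Slow
import Pool.Agent.Lib.MP_9ec2c5_nt_h65.Main

/-!
Growth of heights along the orbits of a polynomial skew product: an orbit with infinite base orbit
is either fast or slow; a Zariski dense orbit is fast when the leading coefficient is constant.
-/

set_option autoImplicit false
set_option linter.unusedSectionVars false

namespace Pool.Agent.Lib.MP_9ec2c5_nt_h65

open Polynomial Finset Height Filter Topology AdmissibleAbsValues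

variable {K : Type} [Field K] [NumberField K]

/-- An orbit with infinite base orbit is either fast or slow. -/
theorem fast_or_slow (p : K[X]) (q : K[X][X]) (hd : 1 ≤ p.natDegree)
    (hde : p.natDegree < q.natDegree) (x y : ℕ → K) (hx : ∀ n, x (n + 1) = p.eval (x n))
    (hy : ∀ n, y (n + 1) = q.evalEval (x n) (y n)) (hinj : Function.Injective x) :
    ∃ M : ℝ, 0 ≤ M ∧ (∀ n, Real.log (mulHeight₁ (y n)) ≤ M * (q.natDegree : ℝ) ^ n ∧
        Real.log (mulHeight₁ (x n)) ≤ M * (q.natDegree : ℝ) ^ n) ∧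
      ((∃ c : ℝ, 0 < c ∧ ∀ᶠ n in atTop,
          c * (q.natDegree : ℝ) ^ n ≤ Real.log (mulHeight₁ (y n)))
        ∨ ∃ B : ℝ, 0 ≤ B ∧ ∀ᶠ n in atTop,
          Real.log (mulHeight₁ (y n)) ≤ B * (Real.log (mulHeight₁ (x n)) + 1)) := by
  classical
  have hk : ∀ n, 0 ≤ Real.log (mulHeight₁ (x n)) := fun n => Real.log_nonneg (one_le_mulHeight₁ _)
  have hh : ∀ n, 0 ≤ Real.log (mulHeight₁ (y n)) := fun n => Real.log_nonneg (one_le_mulHeight₁ _)
  -- the base
  obtain ⟨C0, hC0, h0⟩ := height_eval p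
  have ha : ∀ n, Real.log (mulHeight₁ (x (n + 1)))
      ≤ p.natDegree * Real.log (mulHeight₁ (x n)) + Real.log C0 := by
    intro n
    rw [hx, ← Real.log_pow, ← Real.log_mul (by positivity) (by positivity), mul_comm]
    exact Real.log_le_log (by positivity) (h0 _)
  -- degree bound for the coefficients
  obtain ⟨N, hN⟩ : ∃ N : ℕ, ∀ j, (q.coeff j).natDegree ≤ N := by
    refine ⟨(range (q.natDegree + 1)).sup fun j => (q.coeff j).natDegree, fun j => ?_⟩
    rcases Nat.lt_or_ge q.natDegree j with h | h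
    · rw [coeff_eq_zero_of_natDegree_lt h, natDegree_zero]
      exact Nat.zero_le _
    · exact Finset.le_sup (f := fun j => (q.coeff j).natDegree)
        (Finset.mem_range.mpr (Nat.lt_succ_of_le h))
  obtain ⟨C2, hC2, h2⟩ := height_evalEval q N q.natDegree (le_refl _) hN
  obtain ⟨C3, N3, hC3, h3⟩ := height_lower q (by omega)
  set C1 : ℝ := (Real.log C2 + N) + (Real.log C3 + N3) with hC1
  have hl0 : 0 ≤ Real.log C0 := Real.log_nonneg hC0
  have hl2 : 0 ≤ Real.log C2 := Real.log_nonneg hC2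
  have hl3 : 0 ≤ Real.log C3 := Real.log_nonneg hC3
  have hC10 : 0 ≤ C1 := by positivity
  have hb : ∀ n, Real.log (mulHeight₁ (y (n + 1)))
      ≤ q.natDegree * Real.log (mulHeight₁ (y n)) + C1 * (Real.log (mulHeight₁ (x n)) + 1) := by
    intro n
    have h4 := Real.log_le_log (by positivity) (h2 (x n) (y n))
    rw [← hy, Real.log_mul (by positivity) (by positivity), Real.log_mul (by positivity)
      (by positivity), Real.log_pow, Real.log_pow] at h4
    have h5 := hk n
    have h6 : (0 : ℝ) ≤ N := Nat.cast_nonneg _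
    have h7 : (0 : ℝ) ≤ N3 := Nat.cast_nonneg _
    have h8 : Real.log C2 + N * Real.log (mulHeight₁ (x n))
        ≤ C1 * (Real.log (mulHeight₁ (x n)) + 1) := by
      rw [hC1]
      nlinarith [mul_nonneg hl2 h5, mul_nonneg hl3 h5, mul_nonneg h7 h5]
    linarith
  have hc : ∀ᶠ n in atTop, q.natDegree * Real.log (mulHeight₁ (y n))
      ≤ Real.log (mulHeight₁ (y (n + 1))) + C1 * (Real.log (mulHeight₁ (x n)) + 1) := by
    have hq0 : q ≠ 0 := by
      intro hq
      rw [hq, natDegree_zero] at hde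
      omega
    have hfin : {n | q.leadingCoeff.eval (x n) = 0}.Finite := by
      refine Set.Finite.of_finite_image (Set.Finite.subset
        (Finset.finite_toSet q.leadingCoeff.roots.toFinset) ?_) hinj.injOn
      rintro _ ⟨n, hn, rfl⟩
      rw [Finset.mem_coe, Multiset.mem_toFinset, mem_roots (leadingCoeff_ne_zero.mpr hq0)]
      exact hn
    have h4 : ∀ᶠ n in cofinite, ¬ (q.leadingCoeff.eval (x n) = 0) := hfin.eventually_cofinite_notMem
    rw [Nat.cofinite_eq_atTop] at h4
    filter_upwards [h4] with n hn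
    have h5 := Real.log_le_log (by positivity) (h3 (x n) (y n) hn)
    rw [← hy, Real.log_mul (by positivity) (by positivity), Real.log_mul (by positivity)
      (by positivity), Real.log_pow, Real.log_pow] at h5
    have h6 := hk n
    have h7 : (0 : ℝ) ≤ N := Nat.cast_nonneg _
    have h8 : (0 : ℝ) ≤ N3 := Nat.cast_nonneg _
    have h9 : Real.log C3 + N3 * Real.log (mulHeight₁ (x n))
        ≤ C1 * (Real.log (mulHeight₁ (x n)) + 1) := by
      rw [hC1]
      nlinarith [mul_nonneg hl2 h6, mul_nonneg hl3 h6, mul_nonneg h7 h6]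
    linarith
  obtain ⟨M, hM, hup⟩ := upper_growth p.natDegree q.natDegree
    (fun n => Real.log (mulHeight₁ (x n))) (fun n => Real.log (mulHeight₁ (y n)))
    (Real.log C0) C1 hd hde hk hh hl0 hC10 ha hb
  exact ⟨M, hM, hup, dichotomy p.natDegree q.natDegree
    (fun n => Real.log (mulHeight₁ (x n))) (fun n => Real.log (mulHeight₁ (y n)))
    (Real.log C0) C1 hd hde hk hl0 hC10 ha hc⟩

/-- The arithmetic degree of an orbit of a polynomial skew product which is not slow. -/
theorem tendsto_of_fast (q : K[X][X]) (he : 1 ≤ q.natDegree) (x y : ℕ → K) (c M : ℝ)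
    (hc : 0 < c) (hM : 0 ≤ M)
    (h1 : ∀ᶠ n in atTop, c * (q.natDegree : ℝ) ^ n ≤ Real.log (mulHeight₁ (y n)))
    (h2 : ∀ n, Real.log (mulHeight₁ (y n)) ≤ M * (q.natDegree : ℝ) ^ n ∧
        Real.log (mulHeight₁ (x n)) ≤ M * (q.natDegree : ℝ) ^ n) :
    Tendsto (fun n : ℕ => weilHeight (x n) (y n) ^ (1 / (n : ℝ))) atTop
        (𝓝 (q.natDegree : ℝ)) := by
  have hD : (0 : ℝ) < Module.finrank ℚ K := by
    exact_mod_cast Module.finrank_pos
  set D : ℝ := (Module.finrank ℚ K : ℝ) with hDdef
  refine tendsto_root q.natDegree he _ (c / D) (1 + 2 * M / D) (by positivity) ?_ ?_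
  · filter_upwards [h1] with n hn
    have h3 := logHeight_ge (x n) (y n)
    have h4 : c / D * (q.natDegree : ℝ) ^ n ≤ logHeight ![x n, y n, 1] / D := by
      rw [div_mul_eq_mul_div]
      exact div_le_div_of_nonneg_right (hn.trans h3) hD.le
    rw [weilHeight]
    linarith
  · refine Eventually.of_forall fun n => ?_
    have h3 := logHeight_le (x n) (y n)
    obtain ⟨h4, h5⟩ := h2 n
    have h6 : (1 : ℝ) ≤ (q.natDegree : ℝ) ^ n := one_le_pow₀ (by exact_mod_cast he)
    have h7 : logHeight ![x n, y n, 1] / D ≤ 2 * M / D * (q.natDegree : ℝ) ^ n := by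
      rw [div_mul_eq_mul_div]
      exact div_le_div_of_nonneg_right (by linarith) hD.le
    rw [weilHeight, add_mul, one_mul]
    linarith

/-- The arithmetic degree of a Zariski dense orbit of a polynomial skew product whose leading
coefficient is constant. -/
theorem arithmetic_degree_finite (p : K[X]) (q : K[X][X]) (hd : 1 ≤ p.natDegree)
    (hde : p.natDegree < q.natDegree) (hlc : q.leadingCoeff.natDegree = 0) :
    Tendsto (fun n : ℕ => (iterDeg p q n : ℝ) ^ (1 / (n : ℝ))) atTop (𝓝 (q.natDegree : ℝ)) ∧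
    ∀ x y : ℕ → K, (∀ n, x (n + 1) = p.eval (x n)) →
      (∀ n, y (n + 1) = q.evalEval (x n) (y n)) →
      (∀ R : K[X][X], (∀ n, R.evalEval (x n) (y n) = 0) → R = 0) →
      Tendsto (fun n : ℕ => weilHeight (x n) (y n) ^ (1 / (n : ℝ))) atTop
        (𝓝 (q.natDegree : ℝ)) := by
  refine ⟨tendsto_iterDeg p q hd hde, fun x y hx hy hdense => ?_⟩
  have hinj := injective_of_dense p x y hx hdense
  obtain ⟨M, hM, hup, hcase⟩ := fast_or_slow p q hd hde x y hx hy hinj
  rcases hcase with ⟨c, hc, h1⟩ | hslow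
  · exact tendsto_of_fast q (by omega) x y c M hc hM h1 hup
  · exfalso
    have hq0 : q ≠ 0 := by
      intro hq
      rw [hq, natDegree_zero] at hde
      omega
    have h3 : q.leadingCoeff = C (q.leadingCoeff.coeff 0) := eq_C_of_natDegree_eq_zero hlc
    have h4 : q.leadingCoeff.coeff 0 ≠ 0 := by
      intro h5
      rw [h5, C_0, leadingCoeff_eq_zero] at h3
      exact hq0 h3
    obtain ⟨R, hR, hR'⟩ := slow_vanish p q hd hde _ h4 h3 x y hx hy hinj hslow
    exact hR (hdense R hR')

end Pool.Agent.Lib.MP_9ec2c5_nt_h65
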